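import Pool.Agent.H99M.Defs
import Pool.Agent.Helper2.LM.G1
import Pool.Agent.Helper2.LP.Main

/-!
# The `l_p` norms, `p > 1`

Plan. Define the seminorm by `Seminorm.of` with `Real.Lp_add_le` (see `nearlp_add`, `nearlp_smul` in
Pool/Agent/H99N/NearLp.lean, copy them). `ne`: clear. `strict`: if `N x = N y = 1`, `x ≠ y` then, as in
the proof of `hsc` in Pool/Agent/Helper2/LP/Main.lean (`abs_mid_lt`),
`|x.1 + y.1| ^ p + |x.2 + y.2| ^ p < 2 ^ (p - 1) * 2 = 2 ^ p`. `smooth`: `N x = (hp p x) ^ (1 / p)` with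
`hp p` of class `C¹` (Pool.Agent.Helper2.LM.contDiff_hp1) and positive off `0`
(ContDiffAt.rpow_const_of_ne).
-/

open Set MeasureTheory Filter Topology Metric
open Pool.Agent.Helper2.LM

namespace Pool.Agent.H99M

private theorem nlp_add {p : ℝ} (hp : 1 ≤ p) (x y : ℝ × ℝ) :
    (|(x + y).1| ^ p + |(x + y).2| ^ p) ^ (1 / p) ≤
      (|x.1| ^ p + |x.2| ^ p) ^ (1 / p) + (|y.1| ^ p + |y.2| ^ p) ^ (1 / p) := by
  have := Real.Lp_add_le (Finset.univ : Finset (Fin 2)) ![x.1, x.2] ![y.1, y.2] hp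
  simpa [Fin.sum_univ_two] using this

private theorem nlp_smul {p : ℝ} (hp : 1 ≤ p) (c : ℝ) (x : ℝ × ℝ) :
    (|(c • x).1| ^ p + |(c • x).2| ^ p) ^ (1 / p) =
      |c| * (|x.1| ^ p + |x.2| ^ p) ^ (1 / p) := by
  have h1 : |(c • x).1| ^ p + |(c • x).2| ^ p = |c| ^ p * (|x.1| ^ p + |x.2| ^ p) := by
    simp only [Prod.smul_fst, Prod.smul_snd, smul_eq_mul, abs_mul]
    rw [Real.mul_rpow (abs_nonneg _) (abs_nonneg _), Real.mul_rpow (abs_nonneg _) (abs_nonneg _)]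
    ring
  rw [h1, Real.mul_rpow (by positivity) (by positivity), ← Real.rpow_mul (abs_nonneg _),
    mul_one_div_cancel (by linarith), Real.rpow_one]

private theorem nlp_pos {p : ℝ} (x : ℝ × ℝ) (hx : x ≠ 0) : 0 < |x.1| ^ p + |x.2| ^ p := by
  by_cases h1 : x.1 = 0
  · have h2 : x.2 ≠ 0 := fun h2 => hx (Prod.ext h1 h2)
    have h3 : 0 < |x.2| ^ p := Real.rpow_pos_of_pos (abs_pos.2 h2) p
    have h4 : 0 ≤ |x.1| ^ p := Real.rpow_nonneg (abs_nonneg _) p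
    linarith
  · have h3 : 0 < |x.1| ^ p := Real.rpow_pos_of_pos (abs_pos.2 h1) p
    have h4 : 0 ≤ |x.2| ^ p := Real.rpow_nonneg (abs_nonneg _) p
    linarith

private theorem nlp_one {p : ℝ} (hp : 1 < p) (x : ℝ × ℝ)
    (hx : (|x.1| ^ p + |x.2| ^ p) ^ (1 / p) = 1) : |x.1| ^ p + |x.2| ^ p = 1 := by
  have h0 : 0 ≤ |x.1| ^ p + |x.2| ^ p :=
    add_nonneg (Real.rpow_nonneg (abs_nonneg _) p) (Real.rpow_nonneg (abs_nonneg _) p)
  have h1 : ((|x.1| ^ p + |x.2| ^ p) ^ (1 / p)) ^ p = |x.1| ^ p + |x.2| ^ p := by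
    rw [← Real.rpow_mul h0, one_div_mul_cancel (by linarith), Real.rpow_one]
  rw [← h1, hx, Real.one_rpow]

theorem exists_lp {p : ℝ} (hp : 1 < p) : ∃ N : Seminorm ℝ (ℝ × ℝ), Nm N ∧
    ∀ x : ℝ × ℝ, N x = (|x.1| ^ p + |x.2| ^ p) ^ (1 / p) := by
  let N : Seminorm ℝ (ℝ × ℝ) := Seminorm.of
    (fun x : ℝ × ℝ => (|x.1| ^ p + |x.2| ^ p) ^ (1 / p)) (fun x y => nlp_add hp.le x y)
    (fun c x => by rw [Real.norm_eq_abs]; exact nlp_smul hp.le c x)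
  have hN : ∀ x : ℝ × ℝ, N x = (|x.1| ^ p + |x.2| ^ p) ^ (1 / p) := fun x => rfl
  refine ⟨N, ⟨?_, ?_, ?_⟩, hN⟩
  · have h1 : (N : ℝ × ℝ → ℝ) = fun x => (Pool.Agent.Helper2.LM.hp p x) ^ (1 / p) := by
      funext x
      exact hN x
    rw [h1]
    intro x hx
    have hx' : x ≠ 0 := hx
    have h2 : ContDiffAt ℝ 1 (Pool.Agent.Helper2.LM.hp p) x := (contDiff_hp1 hp).contDiffAt
    exact (h2.rpow_const_of_ne (nlp_pos x hx').ne').contDiffWithinAt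
  · intro x hx
    by_contra hne
    have h1 := nlp_pos (p := p) x hne
    rw [hN] at hx
    have h2 : 0 < (|x.1| ^ p + |x.2| ^ p) ^ (1 / p) := Real.rpow_pos_of_pos h1 _
    linarith
  · intro x y hx hy hxy
    rw [hN] at hx hy ⊢
    have hx1 := nlp_one hp x hx
    have hy1 := nlp_one hp y hy
    have h2p : (2 : ℝ) ^ p = 2 ^ (p - 1) * 2 := by
      rw [Real.rpow_sub_one (by norm_num)]
      field_simp
    have hle : ∀ a b : ℝ, |a + b| ^ p ≤ 2 ^ (p - 1) * (|a| ^ p + |b| ^ p) := by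
      intro a b
      by_cases hab : a = b
      · subst hab
        rw [← two_mul, abs_mul, Real.mul_rpow (abs_nonneg _) (abs_nonneg _), abs_two, h2p]
        apply le_of_eq
        ring
      · exact (Pool.Agent.Helper2.LP.abs_mid_lt hp hab).le
    have hlt : |x.1 + y.1| ^ p + |x.2 + y.2| ^ p <
        2 ^ (p - 1) * (|x.1| ^ p + |y.1| ^ p) + 2 ^ (p - 1) * (|x.2| ^ p + |y.2| ^ p) := by
      by_cases h4 : x.1 = y.1
      · have h5 : x.2 ≠ y.2 := fun h5 => hxy (Prod.ext h4 h5)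
        exact add_lt_add_of_le_of_lt (hle _ _) (Pool.Agent.Helper2.LP.abs_mid_lt hp h5)
      · exact add_lt_add_of_lt_of_le (Pool.Agent.Helper2.LP.abs_mid_lt hp h4) (hle _ _)
    have h6 : 2 ^ (p - 1) * (|x.1| ^ p + |y.1| ^ p) + 2 ^ (p - 1) * (|x.2| ^ p + |y.2| ^ p)
        = 2 ^ (p - 1) * ((|x.1| ^ p + |x.2| ^ p) + (|y.1| ^ p + |y.2| ^ p)) := by ring
    rw [h6, hx1, hy1] at hlt
    have h7 : |x.1 + y.1| ^ p + |x.2 + y.2| ^ p < (2 : ℝ) ^ p := by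
      rw [h2p]
      linarith
    have h8 : (|x.1 + y.1| ^ p + |x.2 + y.2| ^ p) ^ (1 / p) < ((2 : ℝ) ^ p) ^ (1 / p) :=
      Real.rpow_lt_rpow (add_nonneg (Real.rpow_nonneg (abs_nonneg _) p)
        (Real.rpow_nonneg (abs_nonneg _) p)) h7 (by positivity)
    rw [← Real.rpow_mul (by norm_num), mul_one_div_cancel (by linarith), Real.rpow_one] at h8
    exact h8

end Pool.Agent.H99M
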