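import Pool.Agent.H99M.GeoB

/-!
# Local constancy implies constancy on an interval

Plan. `glue`: let `A₁` be the set of `u ∈ Ioo a b` such that no `s` close to `u` has `p₂ s`, and `A₂`
the set of those such that no `s` close to `u` has `p₁ s`. Both are open in the interval, they cover
it by `hloc` (if within `δ` of `u` there were both types, contradiction), they are disjoint because
by `hd` there are points of one of the types in every interval (an open interval is not null). By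
`isPreconnected_Ioo` one of them is everything; and `u ∈ A₁` implies `¬ p₂ u`. `orbit`: `T^[3 k] t₀ = t₀ + k / 2` for natural `k` (induction with
T_three and T_half), `T^[j] t₀` is strictly increasing in `j` (T_gt). If
`T^[j] t₀ < t < T^[j+1] t₀` and `t = t₀ + k / 2` with `k : ℤ` then `k > 0` (as `t > t₀`), so
`t = T^[3 k] t₀` and `j < 3 k < j + 1`, impossible.
-/

open Set MeasureTheory Filter Topology Metric
open Pool.Agent.Helper2.LM

namespace Pool.Agent.H99M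

private theorem ArcA_open (p : ℝ → Prop) :
    IsOpen {u : ℝ | ∃ δ : ℝ, 0 < δ ∧ ∀ s, |s - u| < δ → ¬ p s} := by
  rw [Metric.isOpen_iff]
  rintro u ⟨δ, hδ, h⟩
  refine ⟨δ / 2, by linarith, fun v hv => ⟨δ / 2, by linarith, fun s hs => h s ?_⟩⟩
  rw [Metric.mem_ball, Real.dist_eq] at hv
  calc |s - u| = |(s - v) + (v - u)| := by ring_nf
    _ ≤ |s - v| + |v - u| := abs_add_le _ _
    _ < δ := by linarith

theorem glue {p₁ p₂ : ℝ → Prop} {a b : ℝ} (hd : ∀ᵐ t : ℝ, p₁ t ∨ p₂ t)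
    (hloc : ∀ u, a < u → u < b → ∃ δ : ℝ, 0 < δ ∧ ∀ s s', |s - u| < δ → |s' - u| < δ →
      p₁ s → ¬ p₂ s') :
    (∀ t, a < t → t < b → ¬ p₂ t) ∨ (∀ t, a < t → t < b → ¬ p₁ t) := by
  have hdis : Disjoint {u : ℝ | ∃ δ : ℝ, 0 < δ ∧ ∀ s, |s - u| < δ → ¬ p₂ s}
      {u : ℝ | ∃ δ : ℝ, 0 < δ ∧ ∀ s, |s - u| < δ → ¬ p₁ s} := by
    rw [Set.disjoint_left]
    rintro u ⟨δ, hδ, h⟩ ⟨δ', hδ', h'⟩
    have h1 : (ball u (min δ δ')) ⊆ {t | ¬ (p₁ t ∨ p₂ t)} := by
      intro s hs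
      rw [Metric.mem_ball, Real.dist_eq] at hs
      rintro (h3 | h3)
      · exact h' s (lt_of_lt_of_le hs (min_le_right _ _)) h3
      · exact h s (lt_of_lt_of_le hs (min_le_left _ _)) h3
    have h2 : volume (ball u (min δ δ')) = 0 := measure_mono_null h1 (ae_iff.mp hd)
    exact (Metric.measure_ball_pos volume u (lt_min hδ hδ')).ne' h2
  have hcov : Ioo a b ⊆ {u : ℝ | ∃ δ : ℝ, 0 < δ ∧ ∀ s, |s - u| < δ → ¬ p₂ s} ∪
      {u : ℝ | ∃ δ : ℝ, 0 < δ ∧ ∀ s, |s - u| < δ → ¬ p₁ s} := by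
    rintro u ⟨hu1, hu2⟩
    obtain ⟨δ, hδ, h⟩ := hloc u hu1 hu2
    by_cases hex : ∃ s, |s - u| < δ ∧ p₁ s
    · obtain ⟨s, hs, hs'⟩ := hex
      exact Or.inl ⟨δ, hδ, fun s' hs'' => h s s' hs hs'' hs'⟩
    · push Not at hex
      exact Or.inr ⟨δ, hδ, hex⟩
  rcases isPreconnected_Ioo.subset_or_subset (ArcA_open p₂) (ArcA_open p₁) hdis hcov with h | h
  · left
    intro t h1 h2
    obtain ⟨δ, hδ, h3⟩ := h ⟨h1, h2⟩
    exact h3 t (by rw [sub_self, abs_zero]; exact hδ)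
  · right
    intro t h1 h2
    obtain ⟨δ, hδ, h3⟩ := h ⟨h1, h2⟩
    exact h3 t (by rw [sub_self, abs_zero]; exact hδ)

theorem orbit {D : Set (ℝ × ℝ)} {γ : ℝ → ℝ × ℝ} {T : ℝ → ℝ} (hG : Geo D γ T) (t₀ : ℝ) (j : ℕ)
    {t : ℝ} (h1 : T^[j] t₀ < t) (h2 : t < T^[j + 1] t₀) (k : ℤ) : t ≠ t₀ + k / 2 := by
  intro ht
  have hmono : StrictMono (fun n : ℕ => T^[n] t₀) := by
    refine strictMono_nat_of_lt_succ fun n => ?_
    rw [Function.iterate_succ_apply']
    exact hG.T_gt _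
  have h3 : ∀ m : ℕ, T^[3 * m] t₀ = t₀ + m / 2 := by
    intro m
    induction m with
    | zero => simp
    | succ m ih =>
      have e : 3 * (m + 1) = 3 + 3 * m := by ring
      rw [e, Function.iterate_add_apply, ih]
      have e2 : T^[3] (t₀ + (m : ℝ) / 2) = T (T (T (t₀ + (m : ℝ) / 2))) := rfl
      rw [e2, hG.T_three]
      push_cast
      ring
  have h4 : t₀ ≤ T^[j] t₀ := by
    have := hmono.monotone (Nat.zero_le j)
    simpa using this
  have h5 : (0 : ℝ) < k := by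
    have : t₀ < t₀ + (k : ℝ) / 2 := by rw [← ht]; exact lt_of_le_of_lt h4 h1
    linarith
  have h6 : (0 : ℤ) ≤ k := by exact_mod_cast h5.le
  obtain ⟨m, rfl⟩ := Int.eq_ofNat_of_zero_le h6
  have h7 : t = T^[3 * m] t₀ := by
    rw [h3 m, ht]
    norm_num
  rw [h7] at h1 h2
  have h8 : j < 3 * m := hmono.lt_iff_lt.mp h1
  have h9 : 3 * m < j + 1 := hmono.lt_iff_lt.mp h2
  omega

end Pool.Agent.H99M
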