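import Pool.Agent.H99M.Defs

/-!
# Density points at arbitrary multiples of the scale

Plan. `vol_ball`: in the sup norm `closedBall x r` is a product of two intervals
(`closedBall_prod_same`, `Real.volume_closedBall`, Measure.volume_eq_prod, Measure.prod_prod). For
`C > 0` choose `k` with `C ≤ 2 ^ k`; for `n ≥ k`, `closedBall z (C * rad n) ⊆ closedBall z
(rad (n - k))` and `rad (n - k) = 2 ^ k * rad n`. So `volume (closedBall z (C * rad n) ∩ Q) ≤
dens Q (n - k) z * ofReal (4 * rad (n - k) ^ 2) = dens Q (n - k) z * ofReal (4 * 4 ^ k * rad n ^ 2)`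
and the density tends to zero: `dens0_scale`. `dens1_scale`: apply the same to the complement; the
proportion of `Qᶜ` is one minus the proportion of `Q`, tending to zero (measurability of `Q`;
measure_inter_add_sdiff, ENNReal.Tendsto.sub as in the proof of two_classes in M1.lean).
`dens0_of_dens1`: if `Q` has density one and `P` is disjoint from `Q` then `P` has density zero.
-/

open Set MeasureTheory Filter Topology Metric
open Pool.Agent.Helper2.LM

namespace Pool.Agent.H99M

theorem vol_ball (x : ℝ × ℝ) {r : ℝ} (hr : 0 ≤ r) :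
    volume (closedBall x r) = ENNReal.ofReal (4 * r ^ 2) := by
  have h1 : closedBall x r = closedBall x.1 r ×ˢ closedBall x.2 r := by
    rw [closedBall_prod_same]
  rw [h1, Measure.volume_eq_prod, Measure.prod_prod, Real.volume_closedBall,
    Real.volume_closedBall, ← ENNReal.ofReal_mul (by positivity)]
  congr 1
  ring

private theorem rad_pos' (n : ℕ) : 0 < rad n := by
  unfold rad
  positivity

private theorem dens_add_compl {P : Set (ℝ × ℝ)} (mP : MeasurableSet P) (n : ℕ) (z : ℝ × ℝ) :
    dens P n z + dens Pᶜ n z = 1 := by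
  unfold dens
  have h0 : volume (closedBall z (rad n)) = ENNReal.ofReal (4 * rad n ^ 2) :=
    vol_ball z (rad_pos' n).le
  have h1 : volume (closedBall z (rad n)) ≠ 0 := by
    rw [h0]
    have := rad_pos' n
    exact (ENNReal.ofReal_pos.2 (by positivity)).ne'
  have h2 : volume (closedBall z (rad n)) ≠ ⊤ := by
    rw [h0]
    exact ENNReal.ofReal_ne_top
  have h3 : volume (P ∩ closedBall z (rad n)) + volume (Pᶜ ∩ closedBall z (rad n)) =
      volume (closedBall z (rad n)) := by
    rw [← measure_union₀ ((measurableSet_closedBall).nullMeasurableSet.inter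
      (mP.compl.nullMeasurableSet) |>.congr (by rw [inter_comm])) ?_]
    · rw [← union_inter_distrib_right, union_compl_self, univ_inter]
    · exact (disjoint_compl_right.mono inter_subset_left inter_subset_left).aedisjoint
  rw [← ENNReal.add_div, h3, ENNReal.div_self h1 h2]

private theorem dens_mono {P Q : Set (ℝ × ℝ)} (h : P ⊆ Q) (n : ℕ) (z : ℝ × ℝ) :
    dens P n z ≤ dens Q n z := by
  unfold dens
  exact ENNReal.div_le_div_right (measure_mono (inter_subset_inter_left _ h)) _

theorem dens0_scale {Q : Set (ℝ × ℝ)} {z : ℝ × ℝ} (h : Dens0 Q z) {C ε : ℝ} (hC : 0 < C)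
    (hε : 0 < ε) : ∀ᶠ n in atTop,
      volume (closedBall z (C * rad n) ∩ Q) ≤ ENNReal.ofReal (ε * rad n ^ 2) := by
  obtain ⟨k, hk⟩ := pow_unbounded_of_one_lt C (by norm_num : (1 : ℝ) < 2)
  have h1 : Tendsto (fun n => dens Q (n - k) z) atTop (𝓝 0) :=
    Tendsto.comp h (tendsto_sub_atTop_nat k)
  have h2 : (0 : ENNReal) < ENNReal.ofReal (ε / (4 * 4 ^ k)) :=
    ENNReal.ofReal_pos.2 (by positivity)
  filter_upwards [h1.eventually_le_const h2, eventually_ge_atTop k] with n hn hkn
  have hrad : rad (n - k) = 2 ^ k * rad n := by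
    unfold rad
    obtain ⟨m, rfl⟩ := Nat.exists_eq_add_of_le hkn
    rw [Nat.add_sub_cancel_left, pow_add, ← mul_assoc, ← mul_pow]
    norm_num
  have hsub : closedBall z (C * rad n) ∩ Q ⊆ Q ∩ closedBall z (rad (n - k)) := by
    intro x hx
    refine ⟨hx.2, closedBall_subset_closedBall ?_ hx.1⟩
    rw [hrad]
    exact mul_le_mul_of_nonneg_right hk.le (rad_pos' n).le
  have hB : volume (closedBall z (rad (n - k))) = ENNReal.ofReal (4 * 4 ^ k * rad n ^ 2) := by
    rw [vol_ball z (rad_pos' _).le, hrad]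
    congr 1
    rw [mul_pow, ← pow_mul, mul_comm k 2, pow_mul]
    norm_num
    ring
  have hp : 0 < rad n := rad_pos' n
  have hB0 : volume (closedBall z (rad (n - k))) ≠ 0 := by
    rw [hB]
    exact (ENNReal.ofReal_pos.2 (by positivity)).ne'
  have hBt : volume (closedBall z (rad (n - k))) ≠ ⊤ := by
    rw [hB]
    exact ENNReal.ofReal_ne_top
  calc volume (closedBall z (C * rad n) ∩ Q) ≤ volume (Q ∩ closedBall z (rad (n - k))) :=
        measure_mono hsub
    _ = dens Q (n - k) z * volume (closedBall z (rad (n - k))) := by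
        unfold dens
        rw [ENNReal.div_mul_cancel hB0 hBt]
    _ ≤ ENNReal.ofReal (ε / (4 * 4 ^ k)) * ENNReal.ofReal (4 * 4 ^ k * rad n ^ 2) := by
        rw [hB]
        exact mul_le_mul_left hn _
    _ = ENNReal.ofReal (ε * rad n ^ 2) := by
        rw [← ENNReal.ofReal_mul (by positivity)]
        congr 1
        field_simp

private theorem dens0_compl {Q : Set (ℝ × ℝ)} (mQ : MeasurableSet Q) {z : ℝ × ℝ}
    (h : Dens1 Q z) : Dens0 Qᶜ z := by
  have h1 : ∀ n, dens Qᶜ n z = 1 - dens Q n z := by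
    intro n
    have h5 := dens_add_compl mQ n z
    have h6 : dens Q n z ≠ ⊤ := by
      have : dens Q n z ≤ 1 := by
        rw [← h5]
        exact le_self_add
      exact (lt_of_le_of_lt this ENNReal.one_lt_top).ne
    rw [add_comm] at h5
    exact ENNReal.eq_sub_of_add_eq h6 h5
  have h7 : Tendsto (fun n => 1 - dens Q n z) atTop (𝓝 (1 - 1)) :=
    ENNReal.Tendsto.sub tendsto_const_nhds h (Or.inl ENNReal.one_ne_top)
  rw [tsub_self] at h7
  unfold Dens0
  simp only [h1]
  exact h7

theorem dens1_scale {Q : Set (ℝ × ℝ)} (mQ : MeasurableSet Q) {z : ℝ × ℝ} (h : Dens1 Q z)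
    {C ε : ℝ} (hC : 0 < C) (hε : 0 < ε) : ∀ᶠ n in atTop,
      volume (closedBall z (C * rad n) \ Q) ≤ ENNReal.ofReal (ε * rad n ^ 2) := by
  filter_upwards [dens0_scale (dens0_compl mQ h) hC hε] with n hn
  rw [sdiff_eq]
  exact hn

theorem dens0_of_dens1 {P Q : Set (ℝ × ℝ)} (mP : MeasurableSet P) (hPQ : Disjoint P Q)
    {z : ℝ × ℝ} (h : Dens1 Q z) : Dens0 P z := by
  have h1 : ∀ n, dens P n z ≤ 1 - dens Q n z := by
    intro n
    have h5 := dens_add_compl mP n z
    have h6 : dens Q n z ≤ dens Pᶜ n z := dens_mono hPQ.symm.subset_compl_right n z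
    have h7 : dens P n z + dens Q n z ≤ 1 := by
      rw [← h5]
      exact add_le_add_right h6 _
    have h8 : dens Q n z ≠ ⊤ := by
      have : dens Q n z ≤ 1 := le_trans le_add_self h7
      exact (lt_of_le_of_lt this ENNReal.one_lt_top).ne
    exact ENNReal.le_sub_of_add_le_right h8 h7
  have h7 : Tendsto (fun n => 1 - dens Q n z) atTop (𝓝 (1 - 1)) :=
    ENNReal.Tendsto.sub tendsto_const_nhds h (Or.inl ENNReal.one_ne_top)
  rw [tsub_self] at h7
  exact tendsto_of_tendsto_of_tendsto_of_le_of_le tendsto_const_nhds h7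
    (fun n => bot_le) h1

end Pool.Agent.H99M
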