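import Pool.Agent.H99M.Defs

/-!
# First crossing

Plan. `S = {t ∈ Icc a' b | κ ≤ f t}` is compact and contains `b`; let `t` be its least element
(IsCompact.exists_isLeast or sInf). Then `f < κ` on `[a, t)`, `t ≠ a'` (because `f a' < κ`), and
`f t ≤ κ` by continuity from the left, so `f t = κ`.
-/

open Set Filter Topology Metric

namespace Pool.Agent.H99M

theorem first_cross {f : ℝ → ℝ} (hf : Continuous f) {a a' b κ : ℝ} (h1 : a ≤ a') (h2 : a' ≤ b)
    (ha : ∀ t ∈ Icc a a', f t < κ) (hb : κ < f b) :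
    ∃ t, a' < t ∧ t ≤ b ∧ f t = κ ∧ ∀ s, a ≤ s → s < t → f s < κ := by
  have hS : IsCompact (Icc a' b ∩ {t | κ ≤ f t}) :=
    isCompact_Icc.inter_right (isClosed_le continuous_const hf)
  have hne : (Icc a' b ∩ {t | κ ≤ f t}).Nonempty := ⟨b, ⟨h2, le_rfl⟩, hb.le⟩
  obtain ⟨t, ⟨htI, htκ⟩, hmin⟩ := hS.exists_isLeast hne
  have hlt : ∀ s, a ≤ s → s < t → f s < κ := by
    intro s hs hst
    by_contra hc
    push Not at hc
    rcases le_or_gt s a' with h | h
    · exact absurd (ha s ⟨hs, h⟩) (not_lt.mpr hc)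
    · have := hmin (a := s) ⟨⟨h.le, hst.le.trans htI.2⟩, hc⟩
      exact absurd this (not_le.mpr hst)
  have hne' : a' ≠ t := by
    rintro rfl
    exact absurd (ha a' ⟨h1, le_rfl⟩) (not_lt.mpr htκ)
  have hat : a' < t := lt_of_le_of_ne htI.1 hne'
  refine ⟨t, hat, htI.2, le_antisymm ?_ htκ, hlt⟩
  have hc : Tendsto f (𝓝[<] t) (𝓝 (f t)) := hf.continuousWithinAt
  have hev : ∀ᶠ s in 𝓝[<] t, f s ≤ κ := by
    have : Ioo a' t ∈ 𝓝[<] t := Ioo_mem_nhdsLT hat
    filter_upwards [this] with s hs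
    exact (hlt s (h1.trans hs.1.le) hs.2).le
  exact le_of_tendsto hc hev

end Pool.Agent.H99M
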