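import Pool.Agent.H99M.GeoB

/-!
# Linearisation: two double steps do not move the front value forward

Plan. Notation `A = deriv γ a`, `B = deriv γ (T a)`, `C = deriv γ (T (T a))`,
`dab = det2 A B > 0`, `dbc = det2 B C > 0`, `dac = det2 A C > 0` (Geo.d_ab, d_bc, d_ac),
`ℓ v = det2 v C / dac` (`frl γ T a`, unfold `ell`), so `ℓ A = 1`, `ℓ C = 0`, `ℓ B = dbc / dac > 0`.
For `ω > 0` there is `η₀ > 0` such that for `x, y` within `η₀` of `a`:
`‖γ x - γ y - (x - y) • A‖ ≤ ω |x - y|`, and the same at `T a` (with `B`) and `T (T a)` (with `C`):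
mean value inequality (Convex.norm_image_sub_le_of_norm_deriv_le applied to `γ x - x • A` on the
interval) and continuity of `deriv γ` (or HasStrictDerivAt). Choose `η ≤ 1` such that
`|t - a| ≤ η`, `r ≤ η` imply that the windows of radius `K r` around `t`, `T t`, `T (T t)` are inside
the `η₀`-windows around `a`, `T a`, `T (T a)` (continuity of `T`). Then
`p' - p = (s - s') • A + (θ₁ - θ₂) • C + e₁`, `p'' - p' = (s' - s'') • A + (θ₄ - θ₃) • B + e₂` with
`‖e₁‖, ‖e₂‖ ≤ 4 K ω r`. Apply `ℓ`: `s' + ℓ p' = s + ℓ p + ℓ e₁` and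
`s'' + ℓ p'' = s' + ℓ p' + (θ₄ - θ₃) * (dbc / dac) + ℓ e₂`. Apply `det2 A`:
`det2 A p'' - det2 A p' = (θ₄ - θ₃) * dab + det2 A e₂`, so the hypothesis `det2 A p'' ≤ det2 A p'`
gives `θ₄ - θ₃ ≤ |det2 A e₂| / dab`. So `s'' + ℓ p'' ≤ s + ℓ p + C' ω K r` with `C'` depending only on
`A, B, C`; choose `ω` with `C' ω K ≤ ε`.
-/

open Set MeasureTheory Filter Topology Metric
open Pool.Agent.Helper2.LM

namespace Pool.Agent.H99M

theorem ell_apply (u : ℝ × ℝ) (d : ℝ) (v : ℝ × ℝ) : ell u d v = det2 v u / d := by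
  simp [ell, det2]
  ring

private theorem lin_strict {γ : ℝ → ℝ × ℝ} (hγ : ContDiff ℝ 1 γ) (a : ℝ) {ω : ℝ} (hω : 0 < ω) :
    ∃ η₀ : ℝ, 0 < η₀ ∧ ∀ x y, |x - a| < η₀ → |y - a| < η₀ →
      ‖γ x - γ y - (x - y) • deriv γ a‖ ≤ ω * |x - y| := by
  have h1 : HasStrictDerivAt γ (deriv γ a) a := (hγ.contDiffAt).hasStrictDerivAt (by simp)
  have h2 := h1.hasStrictFDerivAt.isLittleO.def hω
  rw [Metric.eventually_nhds_iff] at h2
  obtain ⟨η, hη, h⟩ := h2
  refine ⟨η, hη, ?_⟩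
  intro x y hx hy
  have := @h (x, y) (by
    rw [Prod.dist_eq, max_lt_iff]
    exact ⟨by simpa [Real.dist_eq] using hx, by simpa [Real.dist_eq] using hy⟩)
  simpa [Real.norm_eq_abs] using this

private theorem lin_det_le (u v : ℝ × ℝ) : |det2 u v| ≤ 2 * ‖u‖ * ‖v‖ := by
  have h1 : |u.1| ≤ ‖u‖ := norm_fst_le u
  have h2 : |u.2| ≤ ‖u‖ := norm_snd_le u
  have h3 : |v.1| ≤ ‖v‖ := norm_fst_le v
  have h4 : |v.2| ≤ ‖v‖ := norm_snd_le v
  unfold det2
  have h5 : |u.1 * v.2| ≤ ‖u‖ * ‖v‖ := by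
    rw [abs_mul]; exact mul_le_mul h1 h4 (abs_nonneg _) (norm_nonneg _)
  have h6 : |u.2 * v.1| ≤ ‖u‖ * ‖v‖ := by
    rw [abs_mul]; exact mul_le_mul h2 h3 (abs_nonneg _) (norm_nonneg _)
  have h7 := abs_sub (u.1 * v.2) (u.2 * v.1)
  linarith

theorem front_lin {D : Set (ℝ × ℝ)} {γ : ℝ → ℝ × ℝ} {T : ℝ → ℝ} (hG : Geo D γ T) (a : ℝ)
    {K ε : ℝ} (hK : 0 < K) (hε : 0 < ε) :
    ∃ η : ℝ, 0 < η ∧ ∀ (t r : ℝ) (p p' p'' : ℝ × ℝ) (s s' s'' : ℝ), |t - a| ≤ η → 0 < r → r ≤ η →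
      Reach γ T t (K * r) p s p' s' p'' s'' → det2 (deriv γ a) p'' ≤ det2 (deriv γ a) p' →
        s'' + frl γ T a p'' ≤ s + frl γ T a p + ε * r := by
  have hab := hG.d_ab a
  have hbc := hG.d_bc a
  have hac := hG.d_ac a
  set A := deriv γ a with hA
  set B := deriv γ (T a) with hB
  set C := deriv γ (T (T a)) with hC
  set ℓ := frl γ T a with hℓ
  have ℓv : ∀ v, ℓ v = det2 v C / det2 A C := by
    intro v
    rw [hℓ]
    unfold frl
    rw [ell_apply]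
  have ℓA : ℓ A = 1 := by rw [ℓv]; exact div_self hac.ne'
  have ℓC : ℓ C = 0 := by
    rw [ℓv]
    have : det2 C C = 0 := by unfold det2; ring
    rw [this, zero_div]
  have ℓB : ℓ B = det2 B C / det2 A C := ℓv B
  have ρ0 : 0 < det2 B C / det2 A C := div_pos hbc hac
  set ρ := det2 B C / det2 A C with hρ
  set M : ℝ := 8 * ‖ℓ‖ + ρ * (8 * ‖A‖ / det2 A B) with hM
  have hM0 : 0 ≤ M := by positivity
  set ω : ℝ := ε / (K * (M + 1)) with hω
  have hω0 : 0 < ω := by positivity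
  have hωM : M * K * ω ≤ ε := by
    have h1 : K * (M + 1) * ω = ε := by
      rw [hω]; field_simp
    have h2 : 0 < K * ω := by positivity
    nlinarith
  obtain ⟨η₁, hη₁, H₁⟩ := lin_strict hG.γ_c a hω0
  obtain ⟨η₂, hη₂, H₂⟩ := lin_strict hG.γ_c (T a) hω0
  obtain ⟨η₃, hη₃, H₃⟩ := lin_strict hG.γ_c (T (T a)) hω0
  have cT : Continuous T := hG.T_cont
  obtain ⟨δ₂, hδ₂, D₂⟩ := Metric.continuousAt_iff.mp (cT.continuousAt (x := a)) (η₂ / 2) (by linarith)
  obtain ⟨δ₃, hδ₃, D₃⟩ := Metric.continuousAt_iff.mp ((cT.comp cT).continuousAt (x := a)) (η₃ / 2)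
    (by linarith)
  -- choose η
  set m : ℝ := min (min η₁ (min η₂ η₃)) (min δ₂ δ₃) with hm
  have hm0 : 0 < m := by
    rw [hm]
    exact lt_min (lt_min hη₁ (lt_min hη₂ hη₃)) (lt_min hδ₂ hδ₃)
  have m1 : m ≤ η₁ := (min_le_left _ _).trans (min_le_left _ _)
  have m2 : m ≤ η₂ := (min_le_left _ _).trans ((min_le_right _ _).trans (min_le_left _ _))
  have m3 : m ≤ η₃ := (min_le_left _ _).trans ((min_le_right _ _).trans (min_le_right _ _))
  have m4 : m ≤ δ₂ := (min_le_right _ _).trans (min_le_left _ _)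
  have m5 : m ≤ δ₃ := (min_le_right _ _).trans (min_le_right _ _)
  refine ⟨m / (2 * (K + 1)), by positivity, ?_⟩
  intro t r p p' p'' s s' s'' ht hr hrη hR hdet
  obtain ⟨hs, hs', hs'', θ₁, θ₂, θ₃, θ₄, h1, h2, h3, h4, e1, e2⟩ := hR
  have hη : (K + 1) * (m / (2 * (K + 1))) = m / 2 := by field_simp
  have hKr : K * r ≤ K * (m / (2 * (K + 1))) := mul_le_mul_of_nonneg_left hrη hK.le
  have hη' : 0 < m / (2 * (K + 1)) := by positivity
  have hη'' : m / (2 * (K + 1)) < m := by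
    apply div_lt_self hm0
    linarith
  have near1 : ∀ x, |x - t| ≤ K * r → |x - a| < η₁ := by
    intro x hx
    have : |x - a| ≤ |x - t| + |t - a| := by
      have := abs_add_le (x - t) (t - a)
      simpa using this
    nlinarith
  have Tt : |T t - T a| < η₂ / 2 := by
    have := D₂ (x := t) (by rw [Real.dist_eq]; linarith)
    rwa [Real.dist_eq] at this
  have TTt : |T (T t) - T (T a)| < η₃ / 2 := by
    have := D₃ (x := t) (by rw [Real.dist_eq]; linarith)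
    rwa [Real.dist_eq] at this
  have near2 : ∀ x, |x - T t| ≤ K * r → |x - T a| < η₂ := by
    intro x hx
    have : |x - T a| ≤ |x - T t| + |T t - T a| := by
      have := abs_add_le (x - T t) (T t - T a)
      simpa using this
    nlinarith
  have near3 : ∀ x, |x - T (T t)| ≤ K * r → |x - T (T a)| < η₃ := by
    intro x hx
    have : |x - T (T a)| ≤ |x - T (T t)| + |T (T t) - T (T a)| := by
      have := abs_add_le (x - T (T t)) (T (T t) - T (T a))
      simpa using this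
    nlinarith
  have dif : ∀ x y z : ℝ, |x - z| ≤ K * r → |y - z| ≤ K * r → |x - y| ≤ 2 * (K * r) := by
    intro x y z hx hy
    have h5 := abs_sub (x - z) (y - z)
    have h6 : x - z - (y - z) = x - y := by ring
    rw [h6] at h5
    linarith
  have E1 := H₁ s s' (near1 s hs) (near1 s' hs')
  have E2 := H₃ θ₁ θ₂ (near3 θ₁ h1) (near3 θ₂ h2)
  have E3 := H₁ s' s'' (near1 s' hs') (near1 s'' hs'')
  have E4 := H₂ θ₄ θ₃ (near2 θ₄ h4) (near2 θ₃ h3)
  have n1 := dif s s' t hs hs'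
  have n2 := dif θ₁ θ₂ (T (T t)) h1 h2
  have n3 := dif s' s'' t hs' hs''
  have n4 := dif θ₄ θ₃ (T t) h4 h3
  set v1 := γ s - γ s' - (s - s') • A with hv1
  set v2 := γ θ₁ - γ θ₂ - (θ₁ - θ₂) • C with hv2
  set v3 := γ s' - γ s'' - (s' - s'') • A with hv3
  set v4 := γ θ₄ - γ θ₃ - (θ₄ - θ₃) • B with hv4
  have Kr0 : 0 < K * r := by positivity
  have b1 : ‖v1 + v2‖ ≤ 4 * (K * ω * r) := by
    have := norm_add_le v1 v2
    have q1 := mul_le_mul_of_nonneg_left n1 hω0.le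
    have q2 := mul_le_mul_of_nonneg_left n2 hω0.le
    nlinarith
  have b2 : ‖v3 + v4‖ ≤ 4 * (K * ω * r) := by
    have := norm_add_le v3 v4
    have q1 := mul_le_mul_of_nonneg_left n3 hω0.le
    have q2 := mul_le_mul_of_nonneg_left n4 hω0.le
    nlinarith
  have P1 : p' = p + (s - s') • A + (θ₁ - θ₂) • C + (v1 + v2) := by
    have : p' = p + γ s + γ θ₁ - γ θ₂ - γ s' := by rw [e1]; abel
    rw [this, hv1, hv2]; abel
  have P2 : p'' = p' + (s' - s'') • A + (θ₄ - θ₃) • B + (v3 + v4) := by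
    have : p'' = p' + γ s' - γ θ₃ + γ θ₄ - γ s'' := by rw [e2]; abel
    rw [this, hv3, hv4]; abel
  have L1 : ℓ p' = ℓ p + (s - s') + ℓ (v1 + v2) := by
    rw [P1, map_add, map_add, map_add, map_smul, map_smul, ℓA, ℓC]
    simp
  have L2 : ℓ p'' = ℓ p' + (s' - s'') + (θ₄ - θ₃) * ρ + ℓ (v3 + v4) := by
    rw [P2, map_add, map_add, map_add, map_smul, map_smul, ℓA, ℓB]
    simp
  have L3 : det2 A p'' = det2 A p' + (θ₄ - θ₃) * det2 A B + det2 A (v3 + v4) := by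
    rw [P2]
    unfold det2
    simp only [Prod.fst_add, Prod.snd_add, Prod.smul_fst, Prod.smul_snd, smul_eq_mul]
    ring
  have B1 : ℓ (v1 + v2) ≤ ‖ℓ‖ * (4 * (K * ω * r)) := by
    have h5 := ℓ.le_opNorm (v1 + v2)
    have h6 := le_abs_self (ℓ (v1 + v2))
    rw [Real.norm_eq_abs] at h5
    have h7 := mul_le_mul_of_nonneg_left b1 (norm_nonneg ℓ)
    linarith
  have B2 : ℓ (v3 + v4) ≤ ‖ℓ‖ * (4 * (K * ω * r)) := by
    have h5 := ℓ.le_opNorm (v3 + v4)
    have h6 := le_abs_self (ℓ (v3 + v4))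
    rw [Real.norm_eq_abs] at h5
    have h7 := mul_le_mul_of_nonneg_left b2 (norm_nonneg ℓ)
    linarith
  have B3 : θ₄ - θ₃ ≤ 8 * ‖A‖ / det2 A B * (K * ω * r) := by
    have h5 := lin_det_le A (v3 + v4)
    have h6 := neg_abs_le (det2 A (v3 + v4))
    have h7 : 2 * ‖A‖ * ‖v3 + v4‖ ≤ 2 * ‖A‖ * (4 * (K * ω * r)) :=
      mul_le_mul_of_nonneg_left b2 (by positivity)
    have h8 : (θ₄ - θ₃) * det2 A B ≤ 8 * ‖A‖ * (K * ω * r) := by linarith
    rw [div_mul_eq_mul_div, le_div_iff₀ hab]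
    exact h8
  have B4 : (θ₄ - θ₃) * ρ ≤ ρ * (8 * ‖A‖ / det2 A B) * (K * ω * r) := by
    have := mul_le_mul_of_nonneg_left B3 ρ0.le
    linarith
  have fin : M * (K * ω * r) ≤ ε * r := by
    have := mul_le_mul_of_nonneg_right hωM hr.le
    linarith
  rw [hM] at fin
  linarith

end Pool.Agent.H99M
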