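import Pool.Agent.H99M.Defs

/-!
# A median of a linear functional

Plan. Let `λ v = det2 A v` (continuous). `f m = volume (X ∩ {λ ≤ m})` is nondecreasing, zero for `m`
very negative, `volume X` for `m` large (`X` is bounded). Let `m = sSup {m | f m ≤ volume X / 2}` (or
`sInf {m | volume X / 2 ≤ f m}`). By continuity of measure from above (`{λ ≤ m} = ⋂ {λ ≤ m + 1/n}`),
`volume (X ∩ {λ ≤ m}) ≥ volume X / 2`; and from below (`{λ < m} = ⋃ {λ ≤ m - 1/n}`),
`volume (X ∩ {λ < m}) ≤ volume X / 2`, so `volume (X ∩ {m ≤ λ}) ≥ volume X / 2`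
(the total volume of `X` is finite). Take `Y = X ∩ {m ≤ λ}`, `Z = X ∩ {λ ≤ m}`.
-/

open Set MeasureTheory Filter Topology Metric
open Pool.Agent.Helper2.LM

namespace Pool.Agent.H99M

private theorem median_cont (A : ℝ × ℝ) : Continuous fun v : ℝ × ℝ => det2 A v := by
  unfold det2
  fun_prop

theorem median (A : ℝ × ℝ) {X : Set (ℝ × ℝ)} (mX : MeasurableSet X) {r : ℝ}
    (hX : X ⊆ closedBall 0 r) :
    ∃ Y Z : Set (ℝ × ℝ), MeasurableSet Y ∧ MeasurableSet Z ∧ Y ⊆ X ∧ Z ⊆ X ∧
      volume X / 2 ≤ volume Y ∧ volume X / 2 ≤ volume Z ∧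
      ∀ p ∈ Y, ∀ q ∈ Z, det2 A q ≤ det2 A p := by
  classical
  have hc := median_cont A
  rcases eq_or_ne (volume X) 0 with h0 | h0
  · refine ⟨X, ∅, mX, MeasurableSet.empty, Subset.rfl, empty_subset _, ?_, ?_, ?_⟩
    · rw [h0]; simp
    · rw [h0]; simp
    · intro p _ q hq
      exact absurd hq (notMem_empty q)
  have hfin : volume X ≠ ⊤ :=
    ((measure_mono hX).trans_lt measure_closedBall_lt_top).ne
  have hmle : ∀ m : ℝ, MeasurableSet (X ∩ {v | det2 A v ≤ m}) := fun m =>
    mX.inter (isClosed_le hc continuous_const).measurableSet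
  obtain ⟨C, hC⟩ : ∃ C : ℝ, ∀ v ∈ X, |det2 A v| ≤ C := by
    obtain ⟨C, hC⟩ := (isCompact_closedBall (0 : ℝ × ℝ) r).exists_bound_of_continuousOn
      hc.continuousOn
    exact ⟨C, fun v hv => by simpa using hC v (hX hv)⟩
  set S : Set ℝ := {m | volume X / 2 ≤ volume (X ∩ {v | det2 A v ≤ m})} with hS
  have hSne : C ∈ S := by
    have : X ∩ {v | det2 A v ≤ C} = X := by
      apply inter_eq_left.2
      intro v hv
      exact (le_abs_self _).trans (hC v hv)
    change volume X / 2 ≤ volume (X ∩ {v | det2 A v ≤ C})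
    rw [this]
    exact ENNReal.half_le_self
  have hSup : ∀ m ∈ S, ∀ m', m ≤ m' → m' ∈ S := by
    intro m hm m' hmm
    exact le_trans (show volume X / 2 ≤ volume (X ∩ {v | det2 A v ≤ m}) from hm)
      (measure_mono (inter_subset_inter_right _ fun v (hv : det2 A v ≤ m) => hv.trans hmm))
  have hSbdd : BddBelow S := by
    refine ⟨-C - 1, fun m hm => ?_⟩
    by_contra hlt
    push Not at hlt
    have hem : X ∩ {v | det2 A v ≤ m} = ∅ := by
      rw [eq_empty_iff_forall_notMem]
      rintro v ⟨hv, hv2⟩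
      have h1 := (abs_le.1 (hC v hv)).1
      have h2 : det2 A v ≤ m := hv2
      linarith
    have hm' : volume X / 2 ≤ volume (X ∩ {v | det2 A v ≤ m}) := hm
    rw [hem, measure_empty, nonpos_iff_eq_zero, ENNReal.div_eq_zero_iff] at hm'
    rcases hm' with h | h
    · exact h0 h
    · exact ENNReal.ofNat_ne_top h
  set m₀ := sInf S with hm₀
  have hge : volume X / 2 ≤ volume (X ∩ {v | det2 A v ≤ m₀}) := by
    have hmem : ∀ n : ℕ, m₀ + 1 / ((n : ℝ) + 1) ∈ S := by
      intro n
      have hpos : (0 : ℝ) < 1 / ((n : ℝ) + 1) := by positivity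
      obtain ⟨m, hm, hlt⟩ := exists_lt_of_csInf_lt ⟨C, hSne⟩
        (show sInf S < m₀ + 1 / ((n : ℝ) + 1) by linarith)
      exact hSup m hm _ hlt.le
    have hanti : Antitone fun n : ℕ => X ∩ {v | det2 A v ≤ m₀ + 1 / ((n : ℝ) + 1)} := by
      intro a b hab
      apply inter_subset_inter_right
      intro v hv
      have hv' : det2 A v ≤ m₀ + 1 / ((b : ℝ) + 1) := hv
      have h1 : 1 / ((b : ℝ) + 1) ≤ 1 / ((a : ℝ) + 1) := by
        apply one_div_le_one_div_of_le (by positivity)
        have : (a : ℝ) ≤ b := by exact_mod_cast hab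
        linarith
      exact hv'.trans (by linarith)
    have hlim := tendsto_measure_iInter_atTop (μ := volume)
      (fun n : ℕ => (hmle (m₀ + 1 / ((n : ℝ) + 1))).nullMeasurableSet) hanti
      ⟨0, ((measure_mono inter_subset_left).trans_lt (lt_top_iff_ne_top.2 hfin)).ne⟩
    have hI : (⋂ n : ℕ, X ∩ {v | det2 A v ≤ m₀ + 1 / ((n : ℝ) + 1)}) =
        X ∩ {v | det2 A v ≤ m₀} := by
      ext v
      simp only [mem_iInter, mem_inter_iff, mem_ofPred_eq]
      constructor
      · intro h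
        refine ⟨(h 0).1, ?_⟩
        have ht : Tendsto (fun n : ℕ => m₀ + 1 / ((n : ℝ) + 1)) atTop (𝓝 (m₀ + 0)) :=
          tendsto_const_nhds.add tendsto_one_div_add_atTop_nhds_zero_nat
        rw [add_zero] at ht
        exact ge_of_tendsto' ht fun n => (h n).2
      · rintro ⟨h1, h2⟩ n
        have : (0 : ℝ) < 1 / ((n : ℝ) + 1) := by positivity
        exact ⟨h1, by linarith⟩
    rw [hI] at hlim
    exact ge_of_tendsto' hlim fun n => hmem n
  have hlt : volume (X ∩ {v | det2 A v < m₀}) ≤ volume X / 2 := by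
    have hU : X ∩ {v | det2 A v < m₀} =
        ⋃ n : ℕ, X ∩ {v | det2 A v ≤ m₀ - 1 / ((n : ℝ) + 1)} := by
      ext v
      simp only [mem_iUnion, mem_inter_iff, mem_ofPred_eq]
      constructor
      · rintro ⟨h1, h2⟩
        obtain ⟨n, hn⟩ := exists_nat_one_div_lt (sub_pos.2 h2)
        exact ⟨n, h1, by linarith⟩
      · rintro ⟨n, h1, h2⟩
        have : (0 : ℝ) < 1 / ((n : ℝ) + 1) := by positivity
        exact ⟨h1, by linarith⟩
    have hmono : Monotone fun n : ℕ => X ∩ {v | det2 A v ≤ m₀ - 1 / ((n : ℝ) + 1)} := by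
      intro a b hab
      apply inter_subset_inter_right
      intro v hv
      have hv' : det2 A v ≤ m₀ - 1 / ((a : ℝ) + 1) := hv
      have h1 : 1 / ((b : ℝ) + 1) ≤ 1 / ((a : ℝ) + 1) := by
        apply one_div_le_one_div_of_le (by positivity)
        have : (a : ℝ) ≤ b := by exact_mod_cast hab
        linarith
      exact hv'.trans (by linarith)
    rw [hU, hmono.measure_iUnion]
    refine iSup_le fun n => ?_
    by_contra hcon
    push Not at hcon
    have hmS : m₀ - 1 / ((n : ℝ) + 1) ∈ S := hcon.le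
    have := csInf_le hSbdd hmS
    have hpos : (0 : ℝ) < 1 / ((n : ℝ) + 1) := by positivity
    linarith
  refine ⟨X ∩ {v | m₀ ≤ det2 A v}, X ∩ {v | det2 A v ≤ m₀},
    mX.inter (isClosed_le continuous_const hc).measurableSet, hmle m₀, inter_subset_left,
    inter_subset_left, ?_, hge, ?_⟩
  · have hsplit : volume X ≤ volume (X ∩ {v | det2 A v < m₀}) +
        volume (X ∩ {v | m₀ ≤ det2 A v}) := by
      refine (measure_mono ?_).trans (measure_union_le _ _)
      intro v hv
      rcases lt_or_ge (det2 A v) m₀ with h | h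
      · exact Or.inl ⟨hv, h⟩
      · exact Or.inr ⟨hv, h⟩
    have h2 : volume X / 2 + volume X / 2 ≤
        volume X / 2 + volume (X ∩ {v | m₀ ≤ det2 A v}) := by
      rw [ENNReal.add_halves]
      exact hsplit.trans (by gcongr)
    exact (ENNReal.add_le_add_iff_left (ENNReal.div_ne_top hfin (by norm_num))).1 h2
  · rintro p ⟨-, hp⟩ q ⟨-, hq⟩
    exact le_trans (show det2 A q ≤ m₀ from hq) (show m₀ ≤ det2 A p from hp)

end Pool.Agent.H99M
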