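import Pool.Agent.H99M.Defs

/-!
# Consequences of the geometric data

Plan. `per`: twice `γ_half`. `T_half`: `T (t + 1/2) = T (T (T (T t))) = T t + 1/2` by `T_three`.
`T_mono`: `strictMono_of_deriv_pos`. `TT_lt`: `T (T t) < T (T (T t)) = t + 1/2`. `deriv_half`:
differentiate `γ_half` (deriv_comp_add_const). `det_ne`: choose the integer `k` with
`t + k/2 ≤ s < t + (k+1)/2` (k = ⌊2 (s - t)⌋), strict on the left by hypothesis; move `s` by `k/2`
(the derivative changes sign only, induction on `k`, or write `k = 2 m` or `2 m + 1` and use the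
period one) and apply `turn`. `dir`: if `det2 v (γ' t) = 0 = det2 v (γ' s)` with `v ≠ 0` then
`det2 (γ' t) (γ' s) = 0` (Pool.Agent.Helper2.LM.det2_par, in M4.lean), so by `det_ne` all such `s`
are of the form `t + k/2`, `k : ℤ`: a countable set, hence null (Set.Countable.ae_notMem). `lip`:
`deriv γ` is continuous and periodic with period one, hence bounded (its norm on `Icc 0 1`), then
`Convex.norm_image_sub_le_of_norm_deriv_le` on `univ` (or lipschitzWith_of_nnnorm_deriv_le). `ae_T`: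
Pool.Agent.Helper2.LM.ae_comp (M4.lean).
-/

open Set MeasureTheory Filter Topology Metric
open Pool.Agent.Helper2.LM

namespace Pool.Agent.H99M

variable {D : Set (ℝ × ℝ)} {γ : ℝ → ℝ × ℝ} {T : ℝ → ℝ}

theorem Geo.per (h : Geo D γ T) (t : ℝ) : γ (t + 1) = γ t := by
  have h1 := h.γ_half (t + 1 / 2)
  have h2 := h.γ_half t
  rw [h2, neg_neg] at h1
  rw [← h1]
  congr 1
  ring

theorem Geo.mem (h : Geo D γ T) (t : ℝ) : γ t ∈ D := by
  rw [h.D_iff]
  exact ⟨t, rfl⟩

theorem Geo.neg_mem (h : Geo D γ T) {v : ℝ × ℝ} (hv : v ∈ D) : -v ∈ D := by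
  rw [h.D_iff] at hv ⊢
  obtain ⟨t, rfl⟩ := hv
  exact ⟨t + 1 / 2, h.γ_half t⟩

theorem Geo.T_half (h : Geo D γ T) (t : ℝ) : T (t + 1 / 2) = T t + 1 / 2 := by
  rw [← h.T_three t, h.T_three (T t)]

theorem Geo.T_mono (h : Geo D γ T) : StrictMono T :=
  strictMono_of_deriv_pos h.T_pos

theorem Geo.T_cont (h : Geo D γ T) : Continuous T := h.T_c.continuous

theorem Geo.γ_cont (h : Geo D γ T) : Continuous γ := h.γ_c.continuous

theorem Geo.TT_lt (h : Geo D γ T) (t : ℝ) : T (T t) < t + 1 / 2 := by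
  rw [← h.T_three t]
  exact h.T_gt _

theorem Geo.T_lt (h : Geo D γ T) (t : ℝ) : T t < t + 1 / 2 :=
  (h.T_gt (T t)).trans (h.TT_lt t)

theorem Geo.deriv_half (h : Geo D γ T) (t : ℝ) : deriv γ (t + 1 / 2) = - deriv γ t := by
  have h1 : (fun x => γ (x + 1 / 2)) = fun x => - γ x := funext h.γ_half
  have h2 : deriv (fun x => γ (x + 1 / 2)) t = deriv (fun x => - γ x) t := by rw [h1]
  rw [deriv_comp_add_const, deriv.fun_neg] at h2
  exact h2

private theorem GeoB_deriv_nat (h : Geo D γ T) (t : ℝ) (n : ℕ) :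
    deriv γ (t + n / 2) = deriv γ t ∨ deriv γ (t + n / 2) = - deriv γ t := by
  induction n with
  | zero => left; simp
  | succ n ih =>
    have e : t + ((n + 1 : ℕ) : ℝ) / 2 = (t + n / 2) + 1 / 2 := by push_cast; ring
    rw [e, h.deriv_half]
    rcases ih with ih | ih
    · right; rw [ih]
    · left; rw [ih, neg_neg]

private theorem GeoB_deriv_int (h : Geo D γ T) (t : ℝ) (k : ℤ) :
    deriv γ (t + k / 2) = deriv γ t ∨ deriv γ (t + k / 2) = - deriv γ t := by
  obtain ⟨n, rfl | rfl⟩ := k.eq_nat_or_neg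
  · have h1 := GeoB_deriv_nat h t n
    rw [Int.cast_natCast]
    exact h1
  · have h1 := GeoB_deriv_nat h (t + ((-(n : ℤ) : ℤ) : ℝ) / 2) n
    have e : t + ((-(n : ℤ) : ℤ) : ℝ) / 2 + n / 2 = t := by push_cast; ring
    rw [e] at h1
    rcases h1 with h1 | h1
    · left; exact h1.symm
    · right; rw [h1, neg_neg]

private theorem GeoB_det_neg (a b : ℝ × ℝ) : det2 a (-b) = - det2 a b := by
  simp only [det2, Prod.fst_neg, Prod.snd_neg]
  ring

theorem Geo.det_ne (h : Geo D γ T) {t s : ℝ} (hts : ∀ k : ℤ, s ≠ t + k / 2) :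
    det2 (deriv γ t) (deriv γ s) ≠ 0 := by
  set k : ℤ := ⌊2 * (s - t)⌋ with hk
  have h1 : (k : ℝ) ≤ 2 * (s - t) := Int.floor_le _
  have h2 : 2 * (s - t) < k + 1 := Int.lt_floor_add_one _
  have h3 : s ≠ t + k / 2 := hts k
  set u : ℝ := s - k / 2 with hu
  have hu1 : t < u := by
    rcases lt_or_eq_of_le (show t ≤ u by rw [hu]; linarith) with h | h
    · exact h
    · exact absurd (by rw [h, hu]; ring) h3
  have hu2 : u < t + 1 / 2 := by rw [hu]; linarith
  have hp := h.turn t u hu1 hu2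
  have hs : s = u + k / 2 := by rw [hu]; ring
  rcases GeoB_deriv_int h u k with h4 | h4
  · rw [hs, h4]; exact hp.ne'
  · rw [hs, h4, GeoB_det_neg]; exact (neg_neg_of_pos hp).ne

theorem Geo.dir (h : Geo D γ T) {v : ℝ × ℝ} (hv : v ≠ 0) :
    ∀ᵐ t : ℝ, det2 v (deriv γ t) ≠ 0 := by
  by_cases hex : ∃ t, det2 v (deriv γ t) = 0
  · obtain ⟨t, ht⟩ := hex
    have hc : (Set.range fun k : ℤ => t + (k : ℝ) / 2).Countable := Set.countable_range _
    filter_upwards [hc.ae_notMem volume] with s hs h0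
    have h1 := det2_par hv ht h0
    refine h.det_ne (t := t) (s := s) ?_ h1
    intro k hk
    exact hs ⟨k, hk.symm⟩
  · push Not at hex
    exact Eventually.of_forall hex

theorem Geo.lip (h : Geo D γ T) : ∃ L : ℝ, 0 < L ∧ ∀ t s, dist (γ t) (γ s) ≤ L * |t - s| := by
  have hc : Continuous (deriv γ) := h.γ_c.continuous_deriv le_rfl
  obtain ⟨C, hC⟩ := (isCompact_Icc (a := (0 : ℝ)) (b := 1)).exists_bound_of_continuousOn
    hc.continuousOn
  have hper : ∀ t, deriv γ (t + 1) = deriv γ t := by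
    intro t
    have e : t + 1 = (t + 1 / 2) + 1 / 2 := by ring
    rw [e, h.deriv_half, h.deriv_half, neg_neg]
  have hper' : Function.Periodic (deriv γ) 1 := hper
  have hb : ∀ t, ‖deriv γ t‖ ≤ C := by
    intro t
    obtain ⟨y, hy, hy'⟩ := hper'.exists_mem_Ico₀ one_pos t
    rw [hy']
    exact hC y ⟨hy.1, hy.2.le⟩
  refine ⟨max C 1, lt_of_lt_of_le one_pos (le_max_right _ _), fun t s => ?_⟩
  have h1 := Convex.norm_image_sub_le_of_norm_deriv_le (f := γ) (C := max C 1) (s := Set.univ)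
    (x := s) (y := t) (fun x _ => (h.γ_c.differentiable one_ne_zero) x)
    (fun x _ => (hb x).trans (le_max_left _ _)) convex_univ (mem_univ _) (mem_univ _)
  rw [dist_eq_norm]
  exact h1

theorem Geo.ae_T (h : Geo D γ T) {p : ℝ → Prop} (hp : ∀ᵐ t : ℝ, p t) : ∀ᵐ t : ℝ, p (T t) :=
  ae_comp h.T_c h.T_pos hp

theorem Geo.d_ab (h : Geo D γ T) (t : ℝ) : 0 < det2 (deriv γ t) (deriv γ (T t)) :=
  h.turn _ _ (h.T_gt t) (h.T_lt t)

theorem Geo.d_bc (h : Geo D γ T) (t : ℝ) : 0 < det2 (deriv γ (T t)) (deriv γ (T (T t))) :=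
  h.turn _ _ (h.T_gt _) (h.T_lt _)

theorem Geo.d_ac (h : Geo D γ T) (t : ℝ) : 0 < det2 (deriv γ t) (deriv γ (T (T t))) :=
  h.turn _ _ ((h.T_gt t).trans (h.T_gt _)) (h.TT_lt t)

end Pool.Agent.H99M
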