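import Pool.Agent.H99M.WinA
import Pool.Agent.H99M.GeoB

/-!
# Windows close to a point of density one

Plan. `L` from Geo.lip. For `q ∈ Win γ ℓ X Q r t` with `X ⊆ closedBall 0 r` we have `‖q.1‖ ≤ r`,
`|ℓ q.1| ≤ ‖ℓ‖ r`, `|q.2 - t| ≤ (1 + ‖ℓ‖) r`, hence for `|t - u| ≤ R r` we get
`|q.2 - u| ≤ C₁ r`, `C₁ = R + 1 + ‖ℓ‖`, and `‖q.1 + γ q.2 - γ u‖ ≤ (1 + L C₁) r`. So for each `s` the
section `{p | (p, s) ∈ Win}` is empty unless `|s - u| ≤ C₁ r`, and then its measure is at most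
`volume (Q ∩ closedBall (γ u) (C₂ r))`, `C₂ = 1 + L C₁` (translation by `γ s`). Integrate over `s`
(Measure.prod_apply_symm): `win_upper` with `C = max (2 C₁) C₂`. `win_lower`: the strip
`{q | q.1 ∈ X ∧ t - r ≤ q.2 + ℓ q.1 ≤ t}` has measure `volume X * ofReal r` (`strip`) and is the
union of the window and of the set where `q.1 + γ q.2 ∉ Q`, whose measure is bounded in the same way
by `ofReal (C r) * volume (closedBall (γ u) (C r) \ Q)`.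
-/

open Set MeasureTheory Filter Topology Metric
open Pool.Agent.Helper2.LM

namespace Pool.Agent.H99M

private theorem winB_aux {γ : ℝ → ℝ × ℝ} (hγ : Continuous γ) {M : Set (ℝ × ℝ)}
    (hM : MeasurableSet M) (ρ u : ℝ) :
    volume {q : (ℝ × ℝ) × ℝ | |q.2 - u| ≤ ρ ∧ q.1 + γ q.2 ∈ M} ≤
      ENNReal.ofReal (2 * ρ) * volume M := by
  have hmeas : MeasurableSet {q : (ℝ × ℝ) × ℝ | |q.2 - u| ≤ ρ ∧ q.1 + γ q.2 ∈ M} := by
    have h0 : Measurable fun q : (ℝ × ℝ) × ℝ => |q.2 - u| :=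
      (continuous_abs.comp (continuous_snd.sub continuous_const)).measurable
    have h1 : Measurable fun q : (ℝ × ℝ) × ℝ => q.1 + γ q.2 :=
      (continuous_fst.add (hγ.comp continuous_snd)).measurable
    exact (measurableSet_le h0 measurable_const).inter (h1 hM)
  rw [Measure.volume_eq_prod, Measure.prod_apply_symm hmeas]
  calc ∫⁻ s : ℝ, volume ((fun p : ℝ × ℝ => (p, s)) ⁻¹'
        {q : (ℝ × ℝ) × ℝ | |q.2 - u| ≤ ρ ∧ q.1 + γ q.2 ∈ M})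
      ≤ ∫⁻ s : ℝ, (Icc (u - ρ) (u + ρ)).indicator (fun _ => volume M) s := by
        apply lintegral_mono
        intro s
        by_cases hs : s ∈ Icc (u - ρ) (u + ρ)
        · rw [indicator_of_mem hs]
          calc volume ((fun p : ℝ × ℝ => (p, s)) ⁻¹'
                {q : (ℝ × ℝ) × ℝ | |q.2 - u| ≤ ρ ∧ q.1 + γ q.2 ∈ M})
              ≤ volume ((fun p : ℝ × ℝ => p + γ s) ⁻¹' M) :=
                measure_mono fun p hp => hp.2
            _ = volume M := measure_preimage_add_right _ _ _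
        · rw [indicator_of_notMem hs]
          have : ((fun p : ℝ × ℝ => (p, s)) ⁻¹'
              {q : (ℝ × ℝ) × ℝ | |q.2 - u| ≤ ρ ∧ q.1 + γ q.2 ∈ M}) = ∅ := by
            rw [eq_empty_iff_forall_notMem]
            intro p hp
            apply hs
            have h1 : |s - u| ≤ ρ := hp.1
            rw [abs_le] at h1
            exact ⟨by linarith, by linarith⟩
          change volume ((fun p : ℝ × ℝ => (p, s)) ⁻¹'
            {q : (ℝ × ℝ) × ℝ | |q.2 - u| ≤ ρ ∧ q.1 + γ q.2 ∈ M}) ≤ 0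
          rw [this, measure_empty]
    _ = volume M * volume (Icc (u - ρ) (u + ρ)) := by
        rw [lintegral_indicator measurableSet_Icc, setLIntegral_const]
    _ = ENNReal.ofReal (2 * ρ) * volume M := by
        rw [Real.volume_Icc, mul_comm]
        congr 2
        ring

private theorem winB_est {γ : ℝ → ℝ × ℝ} (ℓ : (ℝ × ℝ) →L[ℝ] ℝ) {R L : ℝ}
    (hL : 0 < L) (hlip : ∀ t s, dist (γ t) (γ s) ≤ L * |t - s|) {r t u : ℝ}
    (htu : |t - u| ≤ R * r) (q : (ℝ × ℝ) × ℝ) (hq : q.1 ∈ closedBall (0 : ℝ × ℝ) r)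
    (h1 : t - r ≤ q.2 + ℓ q.1) (h2 : q.2 + ℓ q.1 ≤ t) :
    |q.2 - u| ≤ (R + 1 + ‖ℓ‖) * r ∧
      q.1 + γ q.2 ∈ closedBall (γ u) ((1 + L * (R + 1 + ‖ℓ‖)) * r) := by
  rw [mem_closedBall, dist_zero_right] at hq
  have hr : 0 ≤ r := (norm_nonneg _).trans hq
  have h3 : |ℓ q.1| ≤ ‖ℓ‖ * r := by
    calc |ℓ q.1| = ‖ℓ q.1‖ := (Real.norm_eq_abs _).symm
      _ ≤ ‖ℓ‖ * ‖q.1‖ := ℓ.le_opNorm _
      _ ≤ ‖ℓ‖ * r := mul_le_mul_of_nonneg_left hq (norm_nonneg _)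
  rw [abs_le] at h3 htu
  have h4 : |q.2 - u| ≤ (R + 1 + ‖ℓ‖) * r := by
    rw [abs_le]
    constructor
    · linarith [h3.1, h3.2, htu.1, htu.2]
    · linarith [h3.1, h3.2, htu.1, htu.2]
  refine ⟨h4, ?_⟩
  rw [mem_closedBall]
  calc dist (q.1 + γ q.2) (γ u) ≤ dist (q.1 + γ q.2) (γ q.2) + dist (γ q.2) (γ u) :=
        dist_triangle _ _ _
    _ ≤ r + L * |q.2 - u| := by
        refine add_le_add ?_ (hlip _ _)
        rw [dist_eq_norm, add_sub_cancel_right]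
        exact hq
    _ ≤ r + L * ((R + 1 + ‖ℓ‖) * r) := by gcongr
    _ = (1 + L * (R + 1 + ‖ℓ‖)) * r := by ring

theorem win_upper {D : Set (ℝ × ℝ)} {γ : ℝ → ℝ × ℝ} {T : ℝ → ℝ} (hG : Geo D γ T)
    (ℓ : (ℝ × ℝ) →L[ℝ] ℝ) {R : ℝ} (hR : 0 ≤ R) : ∃ C : ℝ, 0 < C ∧
    ∀ (X Q : Set (ℝ × ℝ)) (r t u : ℝ), MeasurableSet X → MeasurableSet Q → 0 < r →
      X ⊆ closedBall 0 r → |t - u| ≤ R * r →
      volume (Win γ ℓ X Q r t) ≤
        ENNReal.ofReal (C * r) * volume (closedBall (γ u) (C * r) ∩ Q) := by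
  obtain ⟨L, hL, hlip⟩ := hG.lip
  have hC1 : 0 < R + 1 + ‖ℓ‖ := by positivity
  have hC2 : 0 < 1 + L * (R + 1 + ‖ℓ‖) := by positivity
  refine ⟨2 * (R + 1 + ‖ℓ‖) + (1 + L * (R + 1 + ‖ℓ‖)), by positivity, ?_⟩
  intro X Q r t u _ mQ hr hX htu
  have hsub : Win γ ℓ X Q r t ⊆ {q : (ℝ × ℝ) × ℝ | |q.2 - u| ≤ (R + 1 + ‖ℓ‖) * r ∧
      q.1 + γ q.2 ∈ closedBall (γ u) ((1 + L * (R + 1 + ‖ℓ‖)) * r) ∩ Q} := by
    rintro q ⟨hq1, hq2, hq3, hq4⟩
    have := winB_est ℓ hL hlip htu q (hX hq1) hq2 hq3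
    exact ⟨this.1, this.2, hq4⟩
  refine (measure_mono hsub).trans ?_
  refine (winB_aux hG.γ_cont (measurableSet_closedBall.inter mQ) _ _).trans ?_
  apply mul_le_mul'
  · apply ENNReal.ofReal_le_ofReal
    nlinarith
  · apply measure_mono
    apply inter_subset_inter_left
    apply closedBall_subset_closedBall
    nlinarith

theorem win_lower {D : Set (ℝ × ℝ)} {γ : ℝ → ℝ × ℝ} {T : ℝ → ℝ} (hG : Geo D γ T)
    (ℓ : (ℝ × ℝ) →L[ℝ] ℝ) : ∃ C : ℝ, 0 < C ∧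
    ∀ (X Q : Set (ℝ × ℝ)) (r t : ℝ), MeasurableSet X → MeasurableSet Q → 0 < r →
      X ⊆ closedBall 0 r →
      volume X * ENNReal.ofReal r ≤ volume (Win γ ℓ X Q r t) +
        ENNReal.ofReal (C * r) * volume (closedBall (γ t) (C * r) \ Q) := by
  obtain ⟨L, hL, hlip⟩ := hG.lip
  have hC1 : 0 < 0 + 1 + ‖ℓ‖ := by positivity
  have hC2 : 0 < 1 + L * (0 + 1 + ‖ℓ‖) := by positivity
  refine ⟨2 * (0 + 1 + ‖ℓ‖) + (1 + L * (0 + 1 + ‖ℓ‖)), by positivity, ?_⟩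
  intro X Q r t mX mQ hr hX
  have hst := strip (ℓ := ℓ) mX (t - r) t
  rw [show t - (t - r) = r by ring] at hst
  rw [← hst]
  have hsub : {q : (ℝ × ℝ) × ℝ | q.1 ∈ X ∧ t - r ≤ q.2 + ℓ q.1 ∧ q.2 + ℓ q.1 ≤ t} ⊆
      Win γ ℓ X Q r t ∪ {q : (ℝ × ℝ) × ℝ | |q.2 - t| ≤ (0 + 1 + ‖ℓ‖) * r ∧
      q.1 + γ q.2 ∈ closedBall (γ t) ((1 + L * (0 + 1 + ‖ℓ‖)) * r) \ Q} := by
    rintro q ⟨hq1, hq2, hq3⟩
    by_cases hq4 : q.1 + γ q.2 ∈ Q
    · exact Or.inl ⟨hq1, hq2, hq3, hq4⟩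
    · right
      have htt : |t - t| ≤ 0 * r := by simp
      have := winB_est ℓ hL hlip htt q (hX hq1) hq2 hq3
      exact ⟨this.1, this.2, hq4⟩
  refine (measure_mono hsub).trans ((measure_union_le _ _).trans ?_)
  refine add_le_add le_rfl ?_
  refine (winB_aux hG.γ_cont (measurableSet_closedBall.diff mQ) _ _).trans ?_
  apply mul_le_mul'
  · apply ENNReal.ofReal_le_ofReal
    nlinarith
  · apply measure_mono
    apply sdiff_subset_sdiff_left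
    apply closedBall_subset_closedBall
    nlinarith

end Pool.Agent.H99M
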