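import Pool.Agent.H99M.Chain
import Pool.Agent.H99M.Lin
import Pool.Agent.H99M.Median
import Pool.Agent.H99M.WinB
import Pool.Agent.H99M.First
import Pool.Agent.H99M.DensB

/-!
# The front lemma

Plan. Let `ℓ = frl γ T t`, `R₀ = 1 + ‖ℓ‖`, `η₁ K C c₀` from `chain hG … t` (`R₀ ≤ K`), a natural
number `N ≥ 1 + K + K + 2 ‖ℓ‖` (any `N` with `N ≥ 1 + 2 K + 2 ‖ℓ‖`). Choose
`κ = min (c / 2) (c₀ c ^ 4 / (16 C N))` (here `c` is the constant of `Blow`) and
`ε = c₀ c ^ 4 / (64 C)`, so that `C κ (N κ + 4 ε) ≤ c₀ c ^ 4 κ / 8`. `η₂` from `front_lin hG t` with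
`K` and `ε`. By `h.bad` at `t`, at `T t`, and at `T (T t) + 1/2` (the condition at
`T (T t) + 1/2` follows from `h2`), `δ₀ > 0`. `δ` such that `|u - t| < δ` implies `|u - t| ≤ η₁, η₂`,
and `|u - t|, |T u - T t|, |T (T u) - T (T t)| < δ₀ / 2`. Let `tL < tR` be as in the statement and
`Dens1 P (γ tL)`, `Dens1 Q (γ tR)`; derive a contradiction for one large `n`. Put
`r = rad (φ n)`, `X = X n`, `f u = (volume (Win γ ℓ X Q r u)).toReal`.
(1) `f < κ r ^ 3` on `[tL, tL + N r]`: `win_upper` with `R = N`, `u = tL`; `Q` has density zero at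
`γ tL` (`dens0_of_dens1`), so by `dens0_scale` the measure is `≤ C' r * ε' r ^ 2` for large `n`.
(2) `κ r ^ 3 < f tR`: `win_lower`, `dens1_scale` and `h.vol`: `f tR ≥ c r ^ 3 - C' ε' r ^ 3`,
`κ ≤ c / 2`.
(3) `tL + N r ≤ tR` for large `n`. `first_cross` (`win_cont`) gives `τ`, `tL + N r < τ ≤ tR`,
`f τ = κ r ^ 3`, `f < κ r ^ 3` on `[tL, τ)`.
(4) Let `W = Win γ ℓ X Q r τ`, `Y`, `Z` from `median (deriv γ t)`,
`V = {q | q.1 ∈ X ∧ q.1 + γ q.2 ∈ Q ∧ τ - N r ≤ q.2 + ℓ q.1 ∧ q.2 + ℓ q.1 ≤ τ + ε r}`.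
For `q ∈ W`: `|q.2 - τ| ≤ r + ‖ℓ‖ r = R₀ r`. If `Reach γ T τ (K r) q.1 q.2 p' s' p'' s''`,
`p' ∈ Y`, `p'' ∈ Z`, `p'' + γ s'' ∈ Q`, then `s'' + ℓ p'' ≤ q.2 + ℓ q.1 + ε r ≤ τ + ε r` by
`front_lin`, and `s'' + ℓ p'' ≥ q.2 + ℓ q.1 - |s'' - q.2| - ‖ℓ‖ (‖p''‖ + ‖q.1‖) ≥ τ - r - 2 K r -
2 ‖ℓ‖ r ≥ τ - N r`. So `(p'', s'') ∈ V`.
(5) The bad sets: `volume ≤ ofReal (ε'' r ^ 2)` for large `n` (for `s` within `K r < δ₀ / 2` of `τ`,
`T τ`, `T (T τ)`; `x - γ s = x + γ (s + 1/2)`).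
(6) `chain` at `τ`: `c₀ κ r³ · vol X · vol Y · vol X · vol Z ≤ C r⁵ · κ r³ · vol V + C r⁹ · ε'' r²`
with `vol X ≥ c r²`, `vol Y, vol Z ≥ c r² / 2`, and `vol V ≤ N κ r³ + (4 r²) (ε r)` by `win_cover`
(the windows at `τ - k r`, `k < N`, are in `[tL, τ]`) and `vol_ball`. So
`c₀ c ^ 4 κ / 4 ≤ C κ (N κ + 4 ε) + C ε''`, impossible for `ε'' < c₀ c ^ 4 κ / (8 C)`.
-/

open Set MeasureTheory Filter Topology Metric
open Pool.Agent.Helper2.LM

namespace Pool.Agent.H99M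

private theorem front_num {c₀ C c κ ε ε3 r : ℝ} {N : ℕ} {vX vY vZ vW vV β : ENNReal}
    (hc₀ : 0 < c₀) (hC : 0 < C) (hc : 0 < c) (hκ : 0 < κ) (hε : 0 < ε) (hε3 : 0 < ε3) (hr : 0 < r)
    (hX : ENNReal.ofReal (c * r ^ 2) ≤ vX) (hY : vX / 2 ≤ vY) (hZ : vX / 2 ≤ vZ)
    (hW : vW = ENNReal.ofReal (κ * r ^ 3))
    (hV : vV ≤ N * ENNReal.ofReal (κ * r ^ 3) +
      ENNReal.ofReal (4 * r ^ 2) * ENNReal.ofReal (ε * r))
    (hβ : β = ENNReal.ofReal (ε3 * r ^ 2))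
    (h : ENNReal.ofReal c₀ * (vW * (vX * (vY * (vX * vZ)))) ≤
      ENNReal.ofReal (C * r ^ 5) * (vW * vV) + ENNReal.ofReal (C * r ^ 9) * β) :
    c₀ * κ * c ^ 4 / 4 ≤ C * κ * (N * κ + 4 * ε) + C * ε3 := by
  have hX2 : ENNReal.ofReal (c / 2 * r ^ 2) ≤ vX / 2 := by
    calc ENNReal.ofReal (c / 2 * r ^ 2) = ENNReal.ofReal (c * r ^ 2) / 2 := by
          rw [show c / 2 * r ^ 2 = (c * r ^ 2) / 2 by ring,
            ENNReal.ofReal_div_of_pos (by norm_num)]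
          simp
      _ ≤ vX / 2 := by gcongr
  have hY' := hX2.trans hY
  have hZ' := hX2.trans hZ
  have e1 : ENNReal.ofReal (c₀ * κ * c ^ 4 / 4 * r ^ 11) ≤
      ENNReal.ofReal c₀ * (vW * (vX * (vY * (vX * vZ)))) := by
    rw [show c₀ * κ * c ^ 4 / 4 * r ^ 11 = c₀ * ((κ * r ^ 3) * ((c * r ^ 2) *
        ((c / 2 * r ^ 2) * ((c * r ^ 2) * (c / 2 * r ^ 2))))) by ring]
    rw [ENNReal.ofReal_mul hc₀.le, ENNReal.ofReal_mul (p := κ * r ^ 3) (by positivity),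
      ENNReal.ofReal_mul (p := c * r ^ 2) (by positivity),
      ENNReal.ofReal_mul (p := c / 2 * r ^ 2) (by positivity),
      ENNReal.ofReal_mul (p := c * r ^ 2) (by positivity), hW]
    gcongr
  have e2 : ENNReal.ofReal (C * r ^ 5) * (vW * vV) + ENNReal.ofReal (C * r ^ 9) * β ≤
      ENNReal.ofReal ((C * κ * (N * κ + 4 * ε) + C * ε3) * r ^ 11) := by
    have hV' : vV ≤ ENNReal.ofReal ((N * κ + 4 * ε) * r ^ 3) := by
      refine hV.trans (le_of_eq ?_)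
      rw [← ENNReal.ofReal_natCast, ← ENNReal.ofReal_mul (by positivity),
        ← ENNReal.ofReal_mul (by positivity), ← ENNReal.ofReal_add (by positivity) (by positivity)]
      congr 1; ring
    calc _ ≤ ENNReal.ofReal (C * r ^ 5) * (ENNReal.ofReal (κ * r ^ 3) *
          ENNReal.ofReal ((N * κ + 4 * ε) * r ^ 3)) +
          ENNReal.ofReal (C * r ^ 9) * ENNReal.ofReal (ε3 * r ^ 2) := by
          rw [hW, hβ]; gcongr
      _ = _ := by
          rw [← ENNReal.ofReal_mul (p := κ * r ^ 3) (by positivity),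
            ← ENNReal.ofReal_mul (p := C * r ^ 5) (by positivity),
            ← ENNReal.ofReal_mul (p := C * r ^ 9) (by positivity),
            ← ENNReal.ofReal_add (by positivity) (by positivity)]
          congr 1; ring
  have e3 := (e1.trans h).trans e2
  rw [ENNReal.ofReal_le_ofReal_iff (by positivity)] at e3
  exact le_of_mul_le_mul_right e3 (by positivity)

private theorem front_strip_meas {γ : ℝ → ℝ × ℝ} (hγ : Continuous γ) (ℓ : (ℝ × ℝ) →L[ℝ] ℝ)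
    {X Q : Set (ℝ × ℝ)} (mX : MeasurableSet X) (mQ : MeasurableSet Q) (u v : ℝ) :
    MeasurableSet {q : (ℝ × ℝ) × ℝ | q.1 ∈ X ∧ q.1 + γ q.2 ∈ Q ∧ u ≤ q.2 + ℓ q.1 ∧
      q.2 + ℓ q.1 ≤ v} := by
  have c1 : Continuous fun q : (ℝ × ℝ) × ℝ => q.1 + γ q.2 :=
    continuous_fst.add (hγ.comp continuous_snd)
  have c2 : Continuous fun q : (ℝ × ℝ) × ℝ => q.2 + ℓ q.1 :=
    continuous_snd.add (ℓ.continuous.comp continuous_fst)
  refine (measurable_fst mX).inter ((c1.measurable mQ).inter ?_)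
  exact (measurableSet_le measurable_const c2.measurable).inter
    (measurableSet_le c2.measurable measurable_const)

theorem front {D : Set (ℝ × ℝ)} {γ : ℝ → ℝ × ℝ} {T : ℝ → ℝ} {P Q : Set (ℝ × ℝ)} {φ : ℕ → ℕ}
    {X : ℕ → Set (ℝ × ℝ)} {c t₀ : ℝ} (hG : Geo D γ T) (mP : MeasurableSet P)
    (mQ : MeasurableSet Q) (aP : ∀ x ∈ P, ∀ y ∈ P, x - y ∉ D)
    (aQ : ∀ x ∈ Q, ∀ y ∈ Q, x - y ∉ D) (dPQ : Disjoint P Q) (h : Blow γ P Q φ X c t₀) {t : ℝ}
    (h0 : ∀ k : ℤ, t ≠ t₀ + k / 2) (h1 : ∀ k : ℤ, T t ≠ t₀ + k / 2)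
    (h2 : ∀ k : ℤ, T (T t) ≠ t₀ + k / 2) :
    ∃ δ : ℝ, 0 < δ ∧ ∀ tL tR : ℝ, |tL - t| < δ → |tR - t| < δ → tL < tR →
      Dens1 P (γ tL) → ¬ Dens1 Q (γ tR) := by
  set ℓ := frl γ T t with hℓ
  have hγ := hG.γ_cont
  have hn := norm_nonneg ℓ
  obtain ⟨η₁, K, C, c₀, hη₁, hK, hC, hc₀, hRK, hchain⟩ :=
    chain hG mP mQ aP aQ t (R₀ := 1 + ‖ℓ‖) (by positivity)
  obtain ⟨N, hN⟩ := exists_nat_ge (1 + 2 * K + 2 * ‖ℓ‖)
  have hc := h.pos
  have hNpos : (0 : ℝ) < N := by linarith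
  set κ := min (c / 2) (c₀ * c ^ 4 / (16 * C * N)) with hκd
  have hκ : 0 < κ := lt_min (by positivity) (by positivity)
  have hκ1 : κ ≤ c / 2 := min_le_left _ _
  have hκ2 : C * N * κ ≤ c₀ * c ^ 4 / 16 := by
    have : κ ≤ c₀ * c ^ 4 / (16 * C * N) := min_le_right _ _
    rw [le_div_iff₀ (by positivity)] at this
    linarith
  clear_value κ
  obtain ⟨ε, hε, hεC⟩ : ∃ ε : ℝ, 0 < ε ∧ C * ε = c₀ * c ^ 4 / 64 :=
    ⟨c₀ * c ^ 4 / (64 * C), by positivity, by field_simp⟩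
  obtain ⟨ε3, hε3, hε3C⟩ : ∃ ε3 : ℝ, 0 < ε3 ∧ C * ε3 = c₀ * c ^ 4 * κ / 16 :=
    ⟨c₀ * c ^ 4 * κ / (16 * C), by positivity, by field_simp⟩
  obtain ⟨η₂, hη₂, hlin⟩ := front_lin hG t hK hε
  have h2' : ∀ k : ℤ, T (T t) + 1 / 2 ≠ t₀ + k / 2 := by
    intro k hk
    apply h2 (k - 1)
    push_cast; linarith
  obtain ⟨δa, hδa, bada⟩ := h.bad t h0
  obtain ⟨δb, hδb, badb⟩ := h.bad (T t) h1
  obtain ⟨δc, hδc, badc⟩ := h.bad (T (T t) + 1 / 2) h2'
  have hT := hG.T_cont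
  have hev : ∀ᶠ u in 𝓝 t, |u - t| < min (min η₁ η₂) (δa / 2) ∧ |T u - T t| < δb / 2 ∧
      |T (T u) - T (T t)| < δc / 2 := by
    have e1 : ∀ᶠ u in 𝓝 t, |u - t| < min (min η₁ η₂) (δa / 2) := by
      filter_upwards [Metric.ball_mem_nhds t (show 0 < min (min η₁ η₂) (δa / 2) from
        lt_min (lt_min hη₁ hη₂) (by positivity))] with u hu
      simpa [Real.dist_eq] using hu
    have e2 : ∀ᶠ u in 𝓝 t, |T u - T t| < δb / 2 := by
      filter_upwards [(hT.tendsto t).eventually (Metric.ball_mem_nhds (T t)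
        (show 0 < δb / 2 by positivity))] with u hu
      simpa [Real.dist_eq] using hu
    have e3 : ∀ᶠ u in 𝓝 t, |T (T u) - T (T t)| < δc / 2 := by
      filter_upwards [((hT.comp hT).tendsto t).eventually (Metric.ball_mem_nhds (T (T t))
        (show 0 < δc / 2 by positivity))] with u hu
      simpa [Real.dist_eq] using hu
    filter_upwards [e1, e2, e3] with u g1 g2 g3 using ⟨g1, g2, g3⟩
  obtain ⟨δ, hδ, hδu⟩ := Metric.eventually_nhds_iff.1 hev
  refine ⟨δ, hδ, fun tL tR hL hR hLR hP hQ => ?_⟩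
  obtain ⟨Cu, hCu, hup⟩ := win_upper hG ℓ (R := N) hNpos.le
  obtain ⟨Cl, hCl, hlo⟩ := win_lower hG ℓ
  have hφ := h.mono.tendsto_atTop
  have hrad0 : Tendsto rad atTop (𝓝 0) := by
    unfold rad
    exact tendsto_pow_atTop_nhds_zero_of_lt_one (by norm_num) (by norm_num)
  have hrad : Tendsto (fun n => rad (φ n)) atTop (𝓝 0) := hrad0.comp hφ
  have E1 := hφ.eventually (dens0_scale (dens0_of_dens1 mQ dPQ.symm hP) hCu
    (show 0 < κ / (2 * Cu) by positivity))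
  have E2 := hφ.eventually (dens1_scale mQ hQ hCl (show 0 < c / (4 * Cl) by positivity))
  have small : ∀ x : ℝ, 0 < x → ∀ᶠ n in atTop, rad (φ n) < x := fun x hx =>
    hrad.eventually (gt_mem_nhds hx)
  have hLR' : 0 < (tR - tL) / N := div_pos (by linarith) hNpos
  obtain ⟨n, hE1, hE2, hba, hbb, hbc, r1, r2, r3, r4, r5, r6⟩ :=
    (E1.and (E2.and ((bada ε3 hε3).and ((badb ε3 hε3).and ((badc ε3 hε3).and
      ((small η₁ hη₁).and ((small η₂ hη₂).and ((small _ hLR').and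
      ((small (δa / (2 * K)) (by positivity)).and ((small (δb / (2 * K)) (by positivity)).and
        (small (δc / (2 * K)) (by positivity)))))))))))).exists
  have mX := h.mX n
  have hXs := h.sub n
  have hXv := h.vol n
  have hr : 0 < rad (φ n) := rad_pos _
  generalize hrr : rad (φ n) = r at *
  generalize hXX : X n = S at *
  rw [lt_div_iff₀ (by positivity)] at r3 r4 r5 r6
  have hSb : volume S ≤ ENNReal.ofReal (4 * r ^ 2) := by
    rw [← vol_ball 0 hr.le]; exact measure_mono hXs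
  have hSt : volume S < ⊤ := hSb.trans_lt ENNReal.ofReal_lt_top
  have hlp : ∀ p ∈ S, |ℓ p| ≤ ‖ℓ‖ * r := by
    intro p hp
    have e1 : ‖p‖ ≤ r := by simpa using hXs hp
    have e2 := ℓ.le_opNorm p
    rw [Real.norm_eq_abs] at e2
    exact e2.trans (mul_le_mul_of_nonneg_left e1 hn)
  -- the measure of the windows
  have hf1 : ∀ u ∈ Icc tL (tL + N * r), (volume (Win γ ℓ S Q r u)).toReal < κ * r ^ 3 := by
    intro u hu
    have e1 := hup S Q r u tL mX mQ hr hXs (by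
      rw [abs_of_nonneg (by linarith [hu.1])]; linarith [hu.2])
    have e2 : volume (Win γ ℓ S Q r u) ≤ ENNReal.ofReal (κ / 2 * r ^ 3) := by
      refine e1.trans ?_
      calc _ ≤ ENNReal.ofReal (Cu * r) * ENNReal.ofReal (κ / (2 * Cu) * r ^ 2) := by gcongr
        _ = _ := by
          rw [← ENNReal.ofReal_mul (by positivity)]
          congr 1; field_simp
    have e3 : (volume (Win γ ℓ S Q r u)).toReal ≤ κ / 2 * r ^ 3 :=
      ENNReal.toReal_le_of_le_ofReal (by positivity) e2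
    have e4 : 0 < κ * r ^ 3 := by positivity
    linarith
  have hf2 : κ * r ^ 3 < (volume (Win γ ℓ S Q r tR)).toReal := by
    have e1 := hlo S Q r tR mX mQ hr hXs
    have hfin : volume (Win γ ℓ S Q r tR) ≠ ⊤ := (win_lt_top mX hSt).ne
    have e2 : ENNReal.ofReal (c * r ^ 3) ≤
        ENNReal.ofReal ((volume (Win γ ℓ S Q r tR)).toReal + c / 4 * r ^ 3) := by
      calc ENNReal.ofReal (c * r ^ 3) = ENNReal.ofReal (c * r ^ 2) * ENNReal.ofReal r := by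
            rw [← ENNReal.ofReal_mul (by positivity)]; congr 1; ring
        _ ≤ volume S * ENNReal.ofReal r := by gcongr
        _ ≤ _ := e1
        _ ≤ volume (Win γ ℓ S Q r tR) +
            ENNReal.ofReal (Cl * r) * ENNReal.ofReal (c / (4 * Cl) * r ^ 2) := by gcongr
        _ = _ := by
          rw [ENNReal.ofReal_add (by positivity) (by positivity), ENNReal.ofReal_toReal hfin,
            ← ENNReal.ofReal_mul (by positivity)]
          congr 2; field_simp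
    rw [ENNReal.ofReal_le_ofReal_iff (by positivity)] at e2
    have e3 : κ * r ^ 3 ≤ c / 2 * r ^ 3 := by gcongr
    have e4 : 0 < c * r ^ 3 := by positivity
    linarith
  obtain ⟨τ, hτ1, hτ2, hτ3, hτ4⟩ := first_cross (win_cont (ℓ := ℓ) (r := r) hγ mX mQ hSt hr)
    (show tL ≤ tL + N * r by nlinarith) (show tL + N * r ≤ tR by linarith) hf1 hf2
  have hτδ : |τ - t| < δ := by
    rw [abs_lt] at hL hR ⊢
    have : 0 < N * r := by positivity
    constructor <;> linarith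
  obtain ⟨g1, g2, g3⟩ := hδu (y := τ) (by rwa [Real.dist_eq])
  rw [lt_min_iff, lt_min_iff] at g1
  obtain ⟨Y, Z, mY, mZ, hYS, hZS, hYv, hZv, hYZ⟩ := median (deriv γ t) mX hXs
  have mV := front_strip_meas hγ ℓ mX mQ (τ - N * r) (τ + ε * r)
  have mW : MeasurableSet (Win γ ℓ S Q r τ) := win_meas hγ mX mQ
  have hWv : volume (Win γ ℓ S Q r τ) = ENNReal.ofReal (κ * r ^ 3) := by
    rw [← hτ3, ENNReal.ofReal_toReal (win_lt_top mX hSt).ne]
  have hVv := win_cover (γ := γ) (ℓ := ℓ) (Q := Q) (t := τ) mX hr hε.le N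
    (b := ENNReal.ofReal (κ * r ^ 3)) (by
      intro k hk
      rcases Nat.eq_zero_or_pos k with rfl | hk0
      · simp [hWv]
      · have e1 : (k : ℝ) ≤ N := by exact_mod_cast hk.le
        have e2 : (k : ℝ) * r ≤ N * r := by gcongr
        have e3 : 0 < (k : ℝ) * r := by positivity
        have e4 := hτ4 (τ - k * r) (by linarith) (by linarith)
        rw [← ENNReal.ofReal_toReal (win_lt_top (γ := γ) (ℓ := ℓ) (Q := Q) (r := r)
          (t := τ - k * r) mX hSt).ne]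
        exact ENNReal.ofReal_le_ofReal e4.le)
  have hfin := hchain τ r S Y Z (Win γ ℓ S Q r τ) _ (ENNReal.ofReal (ε3 * r ^ 2)) g1.1.1.le hr r1.le
    mX mY mZ mW mV hXs hYS hZS
    (fun s hs => hba s (by
      calc |s - t| ≤ |s - τ| + |τ - t| := abs_sub_le _ _ _
        _ < δa := by linarith [g1.2]))
    (fun s hs => hbb s (by
      calc |s - T t| ≤ |s - T τ| + |T τ - T t| := abs_sub_le _ _ _
        _ < δb := by linarith))
    (fun s hs => by
      have e1 := hbc (s + 1 / 2) (by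
        calc |s + 1 / 2 - (T (T t) + 1 / 2)| = |s - T (T t)| := by congr 1; ring
          _ ≤ |s - T (T τ)| + |T (T τ) - T (T t)| := abs_sub_le _ _ _
          _ < δc := by linarith)
      rw [hG.γ_half] at e1
      simpa only [sub_eq_add_neg] using e1)
    (fun q hq => by
      obtain ⟨q1, q2, q3, q4⟩ := hq
      have e1 := abs_le.1 (hlp q.1 q1)
      exact ⟨hXs q1, by rw [abs_le]; constructor <;> linarith [e1.1, e1.2], q4⟩)
    (fun q hq p' hp' p'' hp'' s' s'' hre hQ'' => by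
      obtain ⟨q1, q2, q3, q4⟩ := hq
      have e1 := abs_le.1 (hlp p'' (hZS hp''))
      have e2 := abs_le.1 hre.2.2.1
      have e3 := hlin τ r q.1 p' p'' q.2 s' s'' g1.1.2.le hr r2.le hre (hYZ p' hp' p'' hp'')
      have e4 : (1 + 2 * K + 2 * ‖ℓ‖) * r ≤ N * r := by gcongr
      refine ⟨hZS hp'', hQ'', ?_, ?_⟩
      · have e5 : 0 ≤ ‖ℓ‖ * r := by positivity
        have e6 : 0 ≤ K * r := by positivity
        linarith [e1.1, e2.1]
      · exact e3.trans (by linarith))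
  have hnum := front_num hc₀ hC hc hκ hε hε3 hr hXv hYv hZv hWv
    (hVv.trans (by gcongr)) rfl hfin
  have e1 : C * κ * (N * κ + 4 * ε) = κ * (C * N * κ) + 4 * κ * (C * ε) := by ring
  have e2 : κ * (C * N * κ) ≤ κ * (c₀ * c ^ 4 / 16) := by gcongr
  rw [e1, hεC, hε3C] at hnum
  have e3 : 0 < c₀ * c ^ 4 * κ := by positivity
  nlinarith

end Pool.Agent.H99M
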