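import Pool.Agent.H99M.ArcA
import Pool.Agent.H99M.Front

/-!
# The arcs between consecutive points of the orbit of `t₀` are coloured alternately

Plan. Let `a = T^[j] t₀`, `b = T a = T^[j+1] t₀`. For `u ∈ (a, b)`: `T u ∈ (T^[j+1] t₀, T^[j+2] t₀)`,
`T (T u) ∈ (T^[j+2] t₀, T^[j+3] t₀)` (T_mono, Function.iterate_succ_apply'), so by `orbit` the
hypotheses of `front` hold at `t = u`, for `(P, Q)` and for `(Q, P)` (the structure `Blow` is symmetric
in `P`, `Q`: `union_comm`). With `p₁ t = Dens1 P (γ t)`, `p₂ t = Dens1 Q (γ t)` the two `front`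
statements give `hloc` of `glue` (for `s < s'` the first, for `s' < s` the second; `s = s'` is excluded
by `dens0_of_dens1` and `dens1_not_dens0`). So on each arc almost every point is of type `P`, or
almost every point is of type `Q` (use `h.circ`): `Arc γ P a b ∨ Arc γ Q a b`. Two consecutive arcs
have different types: `Arc γ P a b` and `Arc γ P b (T b)` is impossible: for almost every
`t ∈ (a, b)`, `Dens1 P (γ t)` and `Dens1 P (γ (T t))` (Geo.ae_T applied to the second), but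
`γ (T t) - γ t = γ (T (T t)) ∈ D` and `far_aux` (M1.lean, with `dens1_not_dens0`) gives two points
of `P` with difference in `D`. (The interval `(a, b)` has positive measure, so there is such a `t`.)
-/

open Set MeasureTheory Filter Topology Metric
open Pool.Agent.Helper2.LM

namespace Pool.Agent.H99M

private theorem ArcB_one {D : Set (ℝ × ℝ)} {γ : ℝ → ℝ × ℝ} {T : ℝ → ℝ} {E F P Q : Set (ℝ × ℝ)}
    {φ : ℕ → ℕ} {X : ℕ → Set (ℝ × ℝ)} {c t₀ : ℝ} (hG : Geo D γ T) (h : Ctx D γ E F P Q)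
    (hB : Blow γ P Q φ X c t₀) (j : ℕ) :
    Arc γ P (T^[j] t₀) (T^[j + 1] t₀) ∨ Arc γ Q (T^[j] t₀) (T^[j + 1] t₀) := by
  have hB' : Blow γ Q P φ X c t₀ :=
    { mono := hB.mono
      mX := hB.mX
      sub := hB.sub
      pos := hB.pos
      vol := hB.vol
      bad := fun t ht => by
        obtain ⟨δ, hδ, h1⟩ := hB.bad t ht
        refine ⟨δ, hδ, fun ε hε => ?_⟩
        filter_upwards [h1 ε hε] with n hn s hs
        rw [union_comm]
        exact hn s hs }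
  have hloc : ∀ u, T^[j] t₀ < u → u < T^[j + 1] t₀ → ∃ δ : ℝ, 0 < δ ∧ ∀ s s', |s - u| < δ →
      |s' - u| < δ → Dens1 P (γ s) → ¬ Dens1 Q (γ s') := by
    intro u hu1 hu2
    have e1 : ∀ i : ℕ, T (T^[i] t₀) = T^[i + 1] t₀ := fun i =>
      (Function.iterate_succ_apply' T i t₀).symm
    have g1 := hG.T_mono hu1
    have g2 := hG.T_mono hu2
    rw [e1] at g1 g2
    have g3 := hG.T_mono g1
    have g4 := hG.T_mono g2
    rw [e1] at g3 g4
    have k0 := fun k => orbit hG t₀ j hu1 hu2 k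
    have k1 := fun k => orbit hG t₀ (j + 1) g1 g2 k
    have k2 := fun k => orbit hG t₀ (j + 1 + 1) g3 g4 k
    obtain ⟨δ₁, hδ₁, f1⟩ := front hG h.mP h.mQ h.aP h.aQ h.dPQ hB k0 k1 k2
    obtain ⟨δ₂, hδ₂, f2⟩ := front hG h.mQ h.mP h.aQ h.aP h.dPQ.symm hB' k0 k1 k2
    refine ⟨min δ₁ δ₂, lt_min hδ₁ hδ₂, fun s s' hs hs' hP hQ => ?_⟩
    rw [lt_min_iff] at hs hs'
    rcases lt_trichotomy s s' with hss | hss | hss
    · exact f1 s s' hs.1 hs'.1 hss hP hQ
    · rw [hss] at hP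
      exact dens1_not_dens0 hP (dens0_of_dens1 h.mP h.dPQ hQ)
    · exact f2 s' s hs'.2 hs.2 hss hQ hP
  rcases glue h.circ hloc with hg | hg
  · left
    unfold Arc
    filter_upwards [h.circ] with t ht h1 h2
    exact ht.resolve_right (hg t h1 h2)
  · right
    unfold Arc
    filter_upwards [h.circ] with t ht h1 h2
    exact ht.resolve_left (hg t h1 h2)

private theorem ArcB_two {D : Set (ℝ × ℝ)} {γ : ℝ → ℝ × ℝ} {T : ℝ → ℝ} {P : Set (ℝ × ℝ)}
    (hG : Geo D γ T) (mP : MeasurableSet P) (aP : ∀ x ∈ P, ∀ y ∈ P, x - y ∉ D) {a : ℝ}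
    (h1 : Arc γ P a (T a)) (h2 : Arc γ P (T a) (T (T a))) : False := by
  have h3 := hG.ae_T h2
  have hsub : Ioo a (T a) ⊆ {t | ¬ ((a < t → t < T a → Dens1 P (γ t)) ∧
      (T a < T t → T t < T (T a) → Dens1 P (γ (T t))))} := by
    rintro t ⟨ht1, ht2⟩ ⟨hp1, hp2⟩
    have d1 := hp1 ht1 ht2
    have d2 := hp2 (hG.T_mono ht1) (hG.T_mono ht2)
    obtain ⟨z, hz1, hz2⟩ := far_aux mP (dens1_not_dens0 d1) d2
    apply aP _ hz2 _ hz1
    have e1 : γ (T t) + z - (γ t + z) = γ (T (T t)) := by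
      rw [hG.T_two]
      abel
    rw [e1]
    exact hG.mem _
  have h4 : volume (Ioo a (T a)) = 0 := measure_mono_null hsub (ae_iff.mp (h1.and h3))
  rw [Real.volume_Ioo, ENNReal.ofReal_eq_zero] at h4
  have := hG.T_gt a
  linarith

theorem arcs {D : Set (ℝ × ℝ)} {γ : ℝ → ℝ × ℝ} {T : ℝ → ℝ} {E F P Q : Set (ℝ × ℝ)} {φ : ℕ → ℕ}
    {X : ℕ → Set (ℝ × ℝ)} {c t₀ : ℝ} (hG : Geo D γ T) (h : Ctx D γ E F P Q)
    (hB : Blow γ P Q φ X c t₀) (j : ℕ) :
    (Arc γ P (T^[j] t₀) (T^[j + 1] t₀) ∧ Arc γ Q (T^[j + 1] t₀) (T^[j + 2] t₀)) ∨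
      (Arc γ Q (T^[j] t₀) (T^[j + 1] t₀) ∧ Arc γ P (T^[j + 1] t₀) (T^[j + 2] t₀)) := by
  have e1 : ∀ i : ℕ, T^[i + 1] t₀ = T (T^[i] t₀) := fun i => Function.iterate_succ_apply' T i t₀
  have e2 : T^[j + 2] t₀ = T (T (T^[j] t₀)) := by rw [e1 (j + 1), e1 j]
  have h1 := ArcB_one hG h hB j
  have h2 := ArcB_one hG h hB (j + 1)
  rw [e2, e1 j] at *
  rcases h1 with h1 | h1
  · rcases h2 with h2 | h2
    · exact (ArcB_two hG h.mP h.aP h1 h2).elim
    · exact Or.inl ⟨h1, h2⟩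
  · rcases h2 with h2 | h2
    · exact Or.inr ⟨h1, h2⟩
    · exact (ArcB_two hG h.mQ h.aQ h1 h2).elim

end Pool.Agent.H99M
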