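import Pool.Agent.H99M.GeoB
import Pool.Agent.H99M.DensB

/-!
# Bad neighbours are in `E` or `F`

Plan. If `x ∈ X`, `x + γ s ∉ P ∪ Q` then, up to a null set of `x` (`cover` translated by `γ s`),
`x + γ s ∈ E ∪ F`, and `x + γ s ∈ closedBall (γ s) r`. So the set is, up to a null set, contained in
the preimage of `(E ∪ F) ∩ closedBall (γ s) r` under the translation by `γ s`, whose measure is at most
the sum of the two measures. If `X ⊆ F` then `x + γ s ∉ F` because `(x + γ s) - x = γ s ∈ D`.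
-/

open Set MeasureTheory Filter Topology Metric
open Pool.Agent.Helper2.LM

namespace Pool.Agent.H99M

variable {D : Set (ℝ × ℝ)} {γ : ℝ → ℝ × ℝ} {T : ℝ → ℝ} {E F P Q X : Set (ℝ × ℝ)}

private theorem blowa_key (h : Ctx D γ E F P Q) {r : ℝ} (hX : X ⊆ closedBall 0 r) (s : ℝ)
    {B : Set (ℝ × ℝ)} (hB : ∀ x ∈ X, x + γ s ∈ E ∪ F → x + γ s ∈ B) :
    volume {x | x ∈ X ∧ x + γ s ∉ P ∪ Q} ≤ volume (B ∩ closedBall (γ s) r) := by
  have hc : ∀ᵐ x : ℝ × ℝ, x + γ s ∈ E ∨ x + γ s ∈ F ∨ x + γ s ∈ P ∨ x + γ s ∈ Q :=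
    (measurePreserving_add_right volume (γ s)).quasiMeasurePreserving.ae h.cover
  have e : volume ((fun x : ℝ × ℝ => x + γ s) ⁻¹' (B ∩ closedBall (γ s) r)) =
      volume (B ∩ closedBall (γ s) r) := measure_preimage_add_right volume (γ s) _
  rw [← e]
  apply measure_mono_ae
  filter_upwards [hc] with x hx hx2
  obtain ⟨hxX, hxn⟩ := hx2
  refine ⟨hB x hxX ?_, ?_⟩
  · rcases hx with h1 | h1 | h1 | h1
    · exact Or.inl h1
    · exact Or.inr h1
    · exact absurd (Or.inl h1) hxn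
    · exact absurd (Or.inr h1) hxn
  · have := hX hxX
    rw [mem_closedBall, dist_eq_norm] at *
    rw [sub_zero] at this
    simpa using this

theorem bad_le (hG : Geo D γ T) (h : Ctx D γ E F P Q) {r : ℝ} (hX : X ⊆ closedBall 0 r) (s : ℝ) :
    volume {x | x ∈ X ∧ x + γ s ∉ P ∪ Q} ≤
      volume (E ∩ closedBall (γ s) r) + volume (F ∩ closedBall (γ s) r) := by
  refine (blowa_key h hX s (B := E ∪ F) (fun x _ hx => hx)).trans ?_
  rw [union_inter_distrib_right]
  exact measure_union_le _ _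

theorem bad_le_E (hG : Geo D γ T) (h : Ctx D γ E F P Q) {r : ℝ} (hX : X ⊆ F ∩ closedBall 0 r)
    (s : ℝ) :
    volume {x | x ∈ X ∧ x + γ s ∉ P ∪ Q} ≤ volume (E ∩ closedBall (γ s) r) := by
  refine blowa_key h (hX.trans inter_subset_right) s (fun x hxX hx => ?_)
  rcases hx with hx | hx
  · exact hx
  · exfalso
    refine h.aF _ hx _ (hX hxX).1 ?_
    rw [add_sub_cancel_left]
    exact (hG.D_iff _).2 ⟨_, rfl⟩

theorem bad_le_F (hG : Geo D γ T) (h : Ctx D γ E F P Q) {r : ℝ} (hX : X ⊆ E ∩ closedBall 0 r)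
    (s : ℝ) :
    volume {x | x ∈ X ∧ x + γ s ∉ P ∪ Q} ≤ volume (F ∩ closedBall (γ s) r) := by
  refine blowa_key h (hX.trans inter_subset_right) s (fun x hxX hx => ?_)
  rcases hx with hx | hx
  · exfalso
    refine h.aE _ hx _ (hX hxX).1 ?_
    rw [add_sub_cancel_left]
    exact (hG.D_iff _).2 ⟨_, rfl⟩
  · exact hx

end Pool.Agent.H99M
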