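import Pool.Agent.H99M.LocL
import Pool.Agent.H99M.GeoB
import Pool.Agent.H99M.DensB

/-!
# Two classes cannot be visible in two different directions

Plan. `η K c₀` from `loc_lower` for `α = - γ` at `a`, `β = γ` at `a'` (determinant not zero), `L`
from Geo.lip. Take `δ = η`. Let `ε > 0`, `n` large (`2 * rad n ≤ η`), `r = rad n`,
`E' = E ∩ closedBall (γ s) r`, `F' = F ∩ closedBall (γ s') r`, and suppose
`volume E' ≥ ofReal (ε r ^ 2)` and `volume F' ≥ ofReal (ε r ^ 2)`. For `z ∈ E'` the set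
`{v | z + v ∈ F'}` is inside `closedBall (-γ s + γ s') (2 r)`, so by `loc_lower` (radius `2 r`)
`ofReal c₀ * volume F' ≤ volume {u | |u.1 - s| ≤ 2 K r ∧ |u.2 - s'| ≤ 2 K r ∧ z - γ u.1 + γ u.2 ∈ F'}`.
Integrate over `z ∈ E'` and use Tonelli: `ofReal c₀ * volume F' * volume E' ≤ ∫⁻ u over the square
of side 4 K r, volume {z ∈ E' | z - γ u.1 + γ u.2 ∈ F'}`. Substituting `x = z - γ u.1`
(translation), this set becomes a subset of `{x | x + γ u.1 ∈ E, x + γ u.2 ∈ F}`, with
`‖x‖ ≤ r + L 2 K r` (as `‖z - γ s‖ ≤ r`, `‖γ u.1 - γ s‖ ≤ L 2 K r`); such an `x` is not in `E` and not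
in `F` (aE, aF: the difference is in `D`), so up to a null set (`cover`) it is in
`closedBall 0 (C r) ∩ (P ∪ Q)`, `C = 1 + 2 K L`, of measure `≤ ofReal (2 ε' r ^ 2)` for large `n` by
`dens0_scale` (zP, zQ). So `c₀ ε ^ 2 r ^ 4 ≤ (4 K r) ^ 2 * 2 ε' r ^ 2`, false for `ε'` small.
-/

open Set MeasureTheory Filter Topology Metric
open Pool.Agent.Helper2.LM

namespace Pool.Agent.H99M

private theorem pairs_set {D : Set (ℝ × ℝ)} {γ : ℝ → ℝ × ℝ} {T : ℝ → ℝ} {E F P Q : Set (ℝ × ℝ)}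
    (hG : Geo D γ T) (h : Ctx D γ E F P Q) {L K r e : ℝ}
    (hL0 : 0 < L) (hL : ∀ t s, dist (γ t) (γ s) ≤ L * |t - s|) {s s' : ℝ}
    (hP : volume (closedBall 0 ((1 + 2 * K * L) * r) ∩ P) ≤ ENNReal.ofReal e)
    (hQ : volume (closedBall 0 ((1 + 2 * K * L) * r) ∩ Q) ≤ ENNReal.ofReal e)
    (u : ℝ × ℝ) (hu : |u.1 - s| ≤ K * (2 * r)) :
    volume {z : ℝ × ℝ | z ∈ E ∩ closedBall (γ s) r ∧
      z + (-γ u.1 + γ u.2) ∈ F ∩ closedBall (γ s') r} ≤ ENNReal.ofReal e + ENNReal.ofReal e := by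
  have h1 : {z : ℝ × ℝ | z ∈ E ∩ closedBall (γ s) r ∧
      z + (-γ u.1 + γ u.2) ∈ F ∩ closedBall (γ s') r} = (fun z => z + (-γ u.1)) ⁻¹'
        {x : ℝ × ℝ | x + γ u.1 ∈ E ∩ closedBall (γ s) r ∧
          x + γ u.2 ∈ F ∩ closedBall (γ s') r} := by
    ext z
    simp only [mem_ofPred_eq, mem_preimage]
    rw [add_assoc z (-γ u.1) (γ u.1), neg_add_cancel, add_zero, add_assoc]
  rw [h1, measure_preimage_add_right]
  have h2 : {x : ℝ × ℝ | x + γ u.1 ∈ E ∩ closedBall (γ s) r ∧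
      x + γ u.2 ∈ F ∩ closedBall (γ s') r} ≤ᵐ[volume]
      ((closedBall 0 ((1 + 2 * K * L) * r) ∩ P) ∪ (closedBall 0 ((1 + 2 * K * L) * r) ∩ Q) :
        Set (ℝ × ℝ)) := by
    filter_upwards [h.cover] with x hx hx1
    obtain ⟨⟨hxE, hxb⟩, hxF, -⟩ := hx1
    have hnE : x ∉ E := by
      intro hxE'
      refine h.aE _ hxE _ hxE' ?_
      rw [add_sub_cancel_left]
      exact hG.mem _
    have hnF : x ∉ F := by
      intro hxF'
      refine h.aF _ hxF _ hxF' ?_
      rw [add_sub_cancel_left]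
      exact hG.mem _
    have hball : x ∈ closedBall (0 : ℝ × ℝ) ((1 + 2 * K * L) * r) := by
      rw [mem_closedBall, dist_zero_right]
      have e1 : dist (x + γ u.1) (γ s) ≤ r := hxb
      have e2 := hL s u.1
      rw [abs_sub_comm] at e2
      have e3 : x = ((x + γ u.1) - γ s) + (γ s - γ u.1) := by abel
      rw [dist_eq_norm] at e1 e2
      calc ‖x‖ = ‖((x + γ u.1) - γ s) + (γ s - γ u.1)‖ := by rw [← e3]
        _ ≤ r + L * |u.1 - s| := (norm_add_le _ _).trans (add_le_add e1 e2)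
        _ ≤ r + L * (K * (2 * r)) := by gcongr
        _ = (1 + 2 * K * L) * r := by ring
    rcases hx with hx | hx | hx | hx
    · exact absurd hx hnE
    · exact absurd hx hnF
    · exact Or.inl ⟨hball, hx⟩
    · exact Or.inr ⟨hball, hx⟩
  exact (measure_mono_ae h2).trans ((measure_union_le _ _).trans (add_le_add hP hQ))

theorem pairs {D : Set (ℝ × ℝ)} {γ : ℝ → ℝ × ℝ} {T : ℝ → ℝ} {E F P Q : Set (ℝ × ℝ)}
    (hG : Geo D γ T) (h : Ctx D γ E F P Q) {a a' : ℝ}
    (hd : det2 (deriv γ a) (deriv γ a') ≠ 0) :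
    ∃ δ : ℝ, 0 < δ ∧ ∀ ε : ℝ, 0 < ε → ∀ᶠ n in atTop, ∀ s s' : ℝ, |s - a| < δ → |s' - a'| < δ →
      ENNReal.ofReal (ε * rad n ^ 2) ≤ volume (E ∩ closedBall (γ s) (rad n)) →
        volume (F ∩ closedBall (γ s') (rad n)) < ENNReal.ofReal (ε * rad n ^ 2) := by
  have hder : deriv (fun t => -γ t) a = -deriv γ a := deriv.fun_neg
  have hd' : det2 (deriv (fun t => -γ t) a) (deriv γ a') ≠ 0 := by
    rw [hder]
    unfold det2 at hd ⊢
    intro h1
    apply hd
    simp only [Prod.fst_neg, Prod.snd_neg] at h1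
    linarith
  obtain ⟨η, K, c₀, hη, hK, hc₀, hloc⟩ := loc_lower (α := fun t => -γ t) (β := γ)
    hG.γ_c.neg hG.γ_c hd'
  obtain ⟨L, hL0, hL⟩ := hG.lip
  refine ⟨η, hη, fun ε hε => ?_⟩
  obtain ⟨e', he'⟩ : ∃ e' : ℝ, e' = c₀ * ε ^ 2 / (64 * K ^ 2) := ⟨_, rfl⟩
  have he'pos : 0 < e' := by rw [he']; positivity
  have hsmall : ∀ᶠ n in atTop, 2 * rad n ≤ η := by
    have h1 : Tendsto rad atTop (𝓝 0) := tendsto_rad.mono_right nhdsWithin_le_nhds
    have h2 : Tendsto (fun n => 2 * rad n) atTop (𝓝 (2 * 0)) := h1.const_mul 2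
    rw [mul_zero] at h2
    exact h2.eventually_le_const hη
  filter_upwards [hsmall, dens0_scale h.zP (C := 1 + 2 * K * L) (by positivity) he'pos,
    dens0_scale h.zQ (C := 1 + 2 * K * L) (by positivity) he'pos] with n hn hPn hQn
  intro s s' hs hs' hE
  by_contra hF
  rw [not_lt] at hF
  have hr : 0 < rad n := rad_pos n
  obtain ⟨r, hrr⟩ : ∃ r, r = rad n := ⟨_, rfl⟩
  rw [← hrr] at hn hPn hQn hE hF hr
  have mE' : MeasurableSet (E ∩ closedBall (γ s) r) := h.mE.inter measurableSet_closedBall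
  have mF' : MeasurableSet (F ∩ closedBall (γ s') r) := h.mF.inter measurableSet_closedBall
  obtain ⟨W, hW⟩ : ∃ W : Set ((ℝ × ℝ) × (ℝ × ℝ)), W = {q | q.1 ∈ E ∩ closedBall (γ s) r ∧
    |q.2.1 - s| ≤ K * (2 * r) ∧ |q.2.2 - s'| ≤ K * (2 * r) ∧
      q.1 + (-γ q.2.1 + γ q.2.2) ∈ F ∩ closedBall (γ s') r} := ⟨_, rfl⟩
  have hγm : Measurable γ := hG.γ_cont.measurable
  have mW : MeasurableSet W := by
    rw [hW]
    have hm1 : Measurable (fun q : (ℝ × ℝ) × (ℝ × ℝ) => |q.2.1 - s|) :=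
      (by fun_prop : Continuous fun q : (ℝ × ℝ) × (ℝ × ℝ) => |q.2.1 - s|).measurable
    have hm2 : Measurable (fun q : (ℝ × ℝ) × (ℝ × ℝ) => |q.2.2 - s'|) :=
      (by fun_prop : Continuous fun q : (ℝ × ℝ) × (ℝ × ℝ) => |q.2.2 - s'|).measurable
    refine (measurable_fst mE').inter ((measurableSet_le hm1 measurable_const).inter
      ((measurableSet_le hm2 measurable_const).inter ?_))
    have hm : Measurable (fun q : (ℝ × ℝ) × (ℝ × ℝ) => q.1 + (-γ q.2.1 + γ q.2.2)) := by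
      fun_prop
    exact hm mF'
  -- lower bound
  have hlow : ENNReal.ofReal c₀ * volume (F ∩ closedBall (γ s') r) *
      volume (E ∩ closedBall (γ s) r) ≤
        ((volume : Measure (ℝ × ℝ)).prod (volume : Measure (ℝ × ℝ))) W := by
    rw [Measure.prod_apply mW, ← setLIntegral_const]
    calc ∫⁻ _ in E ∩ closedBall (γ s) r, ENNReal.ofReal c₀ *
          volume (F ∩ closedBall (γ s') r)
        ≤ ∫⁻ z in E ∩ closedBall (γ s) r, volume (Prod.mk z ⁻¹' W) := by
          refine setLIntegral_mono' mE' fun z hz => ?_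
          have hQm : MeasurableSet {v : ℝ × ℝ | z + v ∈ F ∩ closedBall (γ s') r} :=
            (measurable_const_add z) mF'
          have hQs : {v : ℝ × ℝ | z + v ∈ F ∩ closedBall (γ s') r} ⊆
              closedBall (-γ s + γ s') (2 * r) := by
            rintro v ⟨-, hv⟩
            have e1 : ‖z - γ s‖ ≤ r := by
              rw [← dist_eq_norm]; exact hz.2
            have e2 : ‖z + v - γ s'‖ ≤ r := by
              rw [← dist_eq_norm]; exact hv
            rw [mem_closedBall, dist_eq_norm]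
            have e3 : v - (-γ s + γ s') = (z + v - γ s') - (z - γ s) := by abel
            rw [e3]
            refine (norm_sub_le _ _).trans ?_
            linarith
          have hvol : volume {v : ℝ × ℝ | z + v ∈ F ∩ closedBall (γ s') r} =
              volume (F ∩ closedBall (γ s') r) :=
            measure_preimage_add volume z (F ∩ closedBall (γ s') r)
          have h3 := hloc s s' (2 * r) hs.le hs'.le (by positivity) hn _ hQm hQs
          rw [hvol] at h3
          refine h3.trans (measure_mono ?_)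
          rintro u ⟨hu1, hu2, hu3⟩
          change (z, u) ∈ W
          rw [hW]
          exact ⟨hz, hu1, hu2, hu3⟩
      _ ≤ ∫⁻ z, volume (Prod.mk z ⁻¹' W) := setLIntegral_le_lintegral _ _
  -- upper bound
  have hup : ((volume : Measure (ℝ × ℝ)).prod (volume : Measure (ℝ × ℝ))) W ≤
      (ENNReal.ofReal (e' * r ^ 2) + ENNReal.ofReal (e' * r ^ 2)) *
        ENNReal.ofReal (4 * (K * (2 * r)) ^ 2) := by
    rw [Measure.prod_apply_symm mW, ← vol_ball (s, s') (by positivity),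
      ← lintegral_indicator_const measurableSet_closedBall]
    refine lintegral_mono fun u => ?_
    by_cases hu : u ∈ closedBall (s, s') (K * (2 * r))
    · rw [indicator_of_mem hu]
      rw [mem_closedBall, Prod.dist_eq, max_le_iff, Real.dist_eq, Real.dist_eq] at hu
      refine (measure_mono ?_).trans (pairs_set hG h hL0 hL (s' := s') hPn hQn u hu.1)
      intro z hz
      change (z, u) ∈ W at hz
      rw [hW] at hz
      exact ⟨hz.1, hz.2.2.2⟩
    · have h4 : (fun z => (z, u)) ⁻¹' W = ∅ := by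
        rw [eq_empty_iff_forall_notMem]
        intro z hz
        change (z, u) ∈ W at hz
        rw [hW] at hz
        apply hu
        rw [mem_closedBall, Prod.dist_eq, max_le_iff, Real.dist_eq, Real.dist_eq]
        exact ⟨hz.2.1, hz.2.2.1⟩
      rw [h4, measure_empty]
      exact bot_le
  have hfin : ENNReal.ofReal (c₀ * (ε * r ^ 2) * (ε * r ^ 2)) ≤
      ENNReal.ofReal ((e' * r ^ 2 + e' * r ^ 2) * (4 * (K * (2 * r)) ^ 2)) := by
    rw [ENNReal.ofReal_mul (by positivity), ENNReal.ofReal_mul hc₀.le,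
      ENNReal.ofReal_mul (p := e' * r ^ 2 + e' * r ^ 2) (by positivity),
      ENNReal.ofReal_add (by positivity) (by positivity)]
    refine le_trans ?_ (hlow.trans hup)
    gcongr
  rw [ENNReal.ofReal_le_ofReal_iff (by positivity)] at hfin
  have h5 : (e' * r ^ 2 + e' * r ^ 2) * (4 * (K * (2 * r)) ^ 2) =
      c₀ * (ε * r ^ 2) * (ε * r ^ 2) / 2 := by
    rw [he']
    field_simp
    ring
  rw [h5] at hfin
  have h6 : 0 < c₀ * (ε * r ^ 2) * (ε * r ^ 2) := by positivity
  linarith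

end Pool.Agent.H99M
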