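import Pool.Agent.H99M.BlowA
import Pool.Agent.H99M.Pairs

/-!
# The blow-up sequence

Plan. Let `c` be the constant of `h.scales` and `S` the infinite set of good scales; write
`g n s = volume (E ∩ closedBall (γ s) (rad n))`, `h n s = volume (F ∩ closedBall (γ s) (rad n))`
(both have period one in `s`, Geo.per).
Case 1: for every `ε > 0` there are infinitely many `n ∈ S` with `∀ s, g n s ≤ ofReal (ε rad n ^ 2)`.
Choose `φ` strictly increasing with `φ k ∈ S` and `g (φ k) s ≤ ofReal (1/(k+1) * rad (φ k) ^ 2)` for all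
`s` (Filter.extraction_forall_of_frequently), `X k = F ∩ closedBall 0 (rad (φ k))`, `t₀ = 0`, `bad` by
`bad_le_E`.
Case 2: the same with `E` and `F` exchanged (`X k = E ∩ …`, `bad_le_F`).
Case 3: otherwise there is `ε₁ > 0` such that for all large `n ∈ S` there are `s, s'` with
`ofReal (ε₁ rad n ^ 2) < g n s`, `ofReal (ε₁ rad n ^ 2) < h n s'`; by periodicity `s, s' ∈ [0, 1]`
(Int.fract). Enumerate: a strictly increasing sequence in `S` of such `n`, and by compactness of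
`Icc 0 1 ×ˢ Icc 0 1` (IsCompact.tendsto_subseq) a subsequence `φ` along which `s_k → τ`, `s'_k → τ'`.
If `det2 (γ' τ) (γ' τ') ≠ 0`, `pairs` with `ε = ε₁` at `(τ, τ')` is contradicted by `s_k, s'_k` for
large `k`. So the determinant is zero and by Geo.det_ne `τ' = τ + j / 2` for some integer `j`. Take
`t₀ = τ`, `X k = closedBall 0 (rad (φ k))` (volume `4 rad ^ 2 ≥ c' rad ^ 2`, `vol_ball`; use
`c' = min c 1` or simply `c' = 1`). For `bad` at `t` with `t ≠ t₀ + k/2` for all integers `k`: both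
`det2 (γ' t) (γ' τ')` and `det2 (γ' τ) (γ' t)` are not zero (Geo.det_ne, antisymmetry); take the
minimum `δ` of the two `δ` given by `pairs` at `(t, τ')` and at `(τ, t)`; for `ε > 0` let
`ε' = min (ε / 2) ε₁`. For large `k` and `|s - t| < δ`: if `ofReal (ε' rad ^ 2) ≤ g (φ k) s` then
`h (φ k) s'_k < ofReal (ε' rad ^ 2)`, contradiction; so `g (φ k) s < ofReal (ε' rad ^ 2)`; and
`ofReal (ε' rad ^ 2) ≤ g (φ k) s_k` gives `h (φ k) s < ofReal (ε' rad ^ 2)`. Conclude with `bad_le`.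
-/

open Set MeasureTheory Filter Topology Metric
open Pool.Agent.Helper2.LM

namespace Pool.Agent.H99M

private theorem blowB_fract {D : Set (ℝ × ℝ)} {γ : ℝ → ℝ × ℝ} {T : ℝ → ℝ} (hG : Geo D γ T)
    (s : ℝ) : γ (Int.fract s) = γ s := by
  have hper : Function.Periodic γ 1 := fun t => hG.per t
  have h1 := hper.sub_int_mul_eq (x := s) ⌊s⌋
  rw [mul_one] at h1
  exact h1

private theorem blowB_mono {a b : ℝ} (n : ℕ) (h : a ≤ b) :
    ENNReal.ofReal (a * rad n ^ 2) ≤ ENNReal.ofReal (b * rad n ^ 2) :=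
  ENNReal.ofReal_le_ofReal (mul_le_mul_of_nonneg_right h (sq_nonneg _))

private theorem blowB_small {ε : ℝ} (hε : 0 < ε) : ∀ᶠ n : ℕ in atTop, 1 / ((n : ℝ) + 1) ≤ ε := by
  have h := (tendsto_one_div_add_atTop_nhds_zero_nat (𝕜 := ℝ)).eventually (gt_mem_nhds hε)
  filter_upwards [h] with n hn
  exact le_of_lt hn

theorem exists_blow {D : Set (ℝ × ℝ)} {γ : ℝ → ℝ × ℝ} {T : ℝ → ℝ} {E F P Q : Set (ℝ × ℝ)}
    (hG : Geo D γ T) (h : Ctx D γ E F P Q) :
    ∃ (φ : ℕ → ℕ) (X : ℕ → Set (ℝ × ℝ)) (c t₀ : ℝ), Blow γ P Q φ X c t₀ := by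
  obtain ⟨c, hc, hS⟩ := h.scales
  by_cases h1 : ∀ ε : ℝ, 0 < ε → ∃ᶠ n in atTop,
      (ENNReal.ofReal (c * rad n ^ 2) ≤ volume (E ∩ closedBall 0 (rad n)) ∧
        ENNReal.ofReal (c * rad n ^ 2) ≤ volume (F ∩ closedBall 0 (rad n))) ∧
      ∀ s, volume (E ∩ closedBall (γ s) (rad n)) ≤ ENNReal.ofReal (ε * rad n ^ 2)
  · obtain ⟨φ, hφ, hφ'⟩ := extraction_forall_of_frequently
      (fun k : ℕ => h1 (1 / ((k : ℝ) + 1)) (by positivity))
    refine ⟨φ, fun k => F ∩ closedBall 0 (rad (φ k)), c, 0, hφ,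
      fun k => h.mF.inter measurableSet_closedBall, fun k => inter_subset_right, hc,
      fun k => (hφ' k).1.2, ?_⟩
    intro t _
    refine ⟨1, one_pos, fun ε hε => ?_⟩
    filter_upwards [blowB_small hε] with k hk s _
    refine (bad_le_E hG h Subset.rfl s).trans (((hφ' k).2 s).trans ?_)
    exact blowB_mono _ hk
  by_cases h2 : ∀ ε : ℝ, 0 < ε → ∃ᶠ n in atTop,
      (ENNReal.ofReal (c * rad n ^ 2) ≤ volume (E ∩ closedBall 0 (rad n)) ∧
        ENNReal.ofReal (c * rad n ^ 2) ≤ volume (F ∩ closedBall 0 (rad n))) ∧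
      ∀ s, volume (F ∩ closedBall (γ s) (rad n)) ≤ ENNReal.ofReal (ε * rad n ^ 2)
  · obtain ⟨φ, hφ, hφ'⟩ := extraction_forall_of_frequently
      (fun k : ℕ => h2 (1 / ((k : ℝ) + 1)) (by positivity))
    refine ⟨φ, fun k => E ∩ closedBall 0 (rad (φ k)), c, 0, hφ,
      fun k => h.mE.inter measurableSet_closedBall, fun k => inter_subset_right, hc,
      fun k => (hφ' k).1.1, ?_⟩
    intro t _
    refine ⟨1, one_pos, fun ε hε => ?_⟩
    filter_upwards [blowB_small hε] with k hk s _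
    refine (bad_le_F hG h Subset.rfl s).trans (((hφ' k).2 s).trans ?_)
    exact blowB_mono _ hk
  push Not at h1 h2
  obtain ⟨ε1, hε1, h1⟩ := h1
  obtain ⟨ε2, hε2, h2⟩ := h2
  set ε0 : ℝ := min ε1 ε2 with hε0
  have hε0p : 0 < ε0 := lt_min hε1 hε2
  have hfr : ∃ᶠ n in atTop, ∃ s ∈ Icc (0 : ℝ) 1, ∃ s' ∈ Icc (0 : ℝ) 1,
      ENNReal.ofReal (ε0 * rad n ^ 2) ≤ volume (E ∩ closedBall (γ s) (rad n)) ∧
        ENNReal.ofReal (ε0 * rad n ^ 2) ≤ volume (F ∩ closedBall (γ s') (rad n)) := by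
    have h12 := h1.and h2
    refine (hS.and_eventually h12).mono ?_
    rintro n ⟨hn, hn1, hn2⟩
    obtain ⟨s, hs⟩ := hn1 hn
    obtain ⟨s', hs'⟩ := hn2 hn
    refine ⟨Int.fract s, ⟨Int.fract_nonneg s, (Int.fract_lt_one s).le⟩, Int.fract s',
      ⟨Int.fract_nonneg s', (Int.fract_lt_one s').le⟩, ?_, ?_⟩
    · rw [blowB_fract hG]
      exact (blowB_mono n (min_le_left _ _)).trans hs.le
    · rw [blowB_fract hG]
      exact (blowB_mono n (min_le_right _ _)).trans hs'.le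
  obtain ⟨ψ, hψ, hψ'⟩ := extraction_of_frequently_atTop hfr
  choose s hs s' hs' hg hh using hψ'
  obtain ⟨⟨τ, τ'⟩, -, χ, hχ, hlim⟩ := (isCompact_Icc.prod isCompact_Icc).tendsto_subseq
    (x := fun k => ((s k, s' k) : ℝ × ℝ))
    (fun k => (⟨hs k, hs' k⟩ : ((s k, s' k) : ℝ × ℝ) ∈ Icc (0 : ℝ) 1 ×ˢ Icc (0 : ℝ) 1))
  have hl1 : Tendsto (fun k => s (χ k)) atTop (𝓝 τ) :=
    (continuous_fst.tendsto _).comp hlim
  have hl2 : Tendsto (fun k => s' (χ k)) atTop (𝓝 τ') :=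
    (continuous_snd.tendsto _).comp hlim
  have hφ : StrictMono fun k => ψ (χ k) := hψ.comp hχ
  have hφt : Tendsto (fun k => ψ (χ k)) atTop atTop := hφ.tendsto_atTop
  have ev1 : ∀ δ : ℝ, 0 < δ → ∀ᶠ k in atTop, |s (χ k) - τ| < δ := by
    intro δ hδ
    have := hl1.eventually (Metric.ball_mem_nhds τ hδ)
    filter_upwards [this] with k hk
    rwa [Real.dist_eq] at hk
  have ev2 : ∀ δ : ℝ, 0 < δ → ∀ᶠ k in atTop, |s' (χ k) - τ'| < δ := by
    intro δ hδ
    have := hl2.eventually (Metric.ball_mem_nhds τ' hδ)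
    filter_upwards [this] with k hk
    rwa [Real.dist_eq] at hk
  have hj : ∃ j : ℤ, τ' = τ + j / 2 := by
    by_contra hcon
    push Not at hcon
    obtain ⟨δ, hδ, hp⟩ := pairs hG h (hG.det_ne hcon)
    obtain ⟨k, hk1, hk2, hk3⟩ := ((hφt.eventually (hp ε0 hε0p)).and
      ((ev1 δ hδ).and (ev2 δ hδ))).exists
    exact absurd (hh (χ k)) (not_le.2 (hk1 _ _ hk2 hk3 (hg (χ k))))
  obtain ⟨j, hj⟩ := hj
  refine ⟨fun k => ψ (χ k), fun k => closedBall 0 (rad (ψ (χ k))), 1, τ, hφ,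
    fun k => measurableSet_closedBall, fun k => Subset.rfl, one_pos, fun k => ?_, ?_⟩
  · rw [vol_ball _ (rad_pos _).le]
    exact blowB_mono _ (by norm_num)
  · intro t ht
    have hd1 : det2 (deriv γ t) (deriv γ τ') ≠ 0 := by
      refine hG.det_ne fun k hk => ?_
      apply ht (j - k)
      push_cast
      linarith
    have hd2 : det2 (deriv γ τ) (deriv γ t) ≠ 0 := hG.det_ne ht
    obtain ⟨δ1, hδ1, hp1⟩ := pairs hG h hd1
    obtain ⟨δ2, hδ2, hp2⟩ := pairs hG h hd2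
    refine ⟨min δ1 δ2, lt_min hδ1 hδ2, fun ε hε => ?_⟩
    set ε' : ℝ := min (ε / 2) ε0 with hε'
    have hε'p : 0 < ε' := lt_min (half_pos hε) hε0p
    filter_upwards [hφt.eventually (hp1 ε' hε'p), hφt.eventually (hp2 ε' hε'p),
      ev1 δ2 hδ2, ev2 δ1 hδ1] with k hk1 hk2 hk3 hk4 r hr
    have hr1 : |r - t| < δ1 := hr.trans_le (min_le_left _ _)
    have hr2 : |r - t| < δ2 := hr.trans_le (min_le_right _ _)
    have e1 : volume (E ∩ closedBall (γ r) (rad (ψ (χ k)))) ≤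
        ENNReal.ofReal (ε' * rad (ψ (χ k)) ^ 2) := by
      by_contra hcon
      push Not at hcon
      have h3 := hk1 r (s' (χ k)) hr1 hk4 hcon.le
      have h4 := (blowB_mono (ψ (χ k)) (min_le_right (ε / 2) ε0)).trans (hh (χ k))
      exact absurd h4 (not_le.2 h3)
    have e2 : volume (F ∩ closedBall (γ r) (rad (ψ (χ k)))) ≤
        ENNReal.ofReal (ε' * rad (ψ (χ k)) ^ 2) :=
      (hk2 (s (χ k)) r hk3 hr2
        ((blowB_mono (ψ (χ k)) (min_le_right (ε / 2) ε0)).trans (hg (χ k)))).le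
    refine (bad_le hG h Subset.rfl r).trans ((add_le_add e1 e2).trans ?_)
    rw [← ENNReal.ofReal_add (by positivity) (by positivity), ← add_mul]
    refine blowB_mono _ ?_
    have := min_le_left (ε / 2) ε0
    linarith

end Pool.Agent.H99M
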