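import Pool.Agent.H99M.ChainT

/-!
# The chain: terms with one bad factor

Plan. `∫⁻ θ, ∫⁻ z, F θ z ≤ ∫⁻ θ, ∫⁻ z, M ^ 4 * f (z + g θ) = ∫⁻ θ, M ^ 4 * ∫⁻ z, f z` by translation
invariance (`lintegral_add_right_eq_self`), which is `M ^ 4 * (∫⁻ f) * bx4 b c ρ univ`
(lintegral_const, `bx4_univ`).
-/

open Set MeasureTheory Filter Topology Metric
open Pool.Agent.Helper2.LM

namespace Pool.Agent.H99M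

theorem bad_term (b c : ℝ) {ρ : ℝ} (hρ : 0 ≤ ρ) (M : ENNReal) {g : ℝ × ℝ × ℝ × ℝ → ℝ × ℝ}
    {f : ℝ × ℝ → ENNReal} (hf : Measurable f) {F : ℝ × ℝ × ℝ × ℝ → ℝ × ℝ → ENNReal}
    (hF : ∀ θ z, F θ z ≤ M ^ 4 * f (z + g θ)) :
    ∫⁻ θ, (∫⁻ z, F θ z) ∂(bx4 b c ρ) ≤ M ^ 4 * ENNReal.ofReal (2 * ρ) ^ 4 * ∫⁻ z, f z := by
  have h1 : ∀ θ, ∫⁻ z, F θ z ≤ M ^ 4 * ∫⁻ z, f z := by
    intro θ
    calc ∫⁻ z, F θ z ≤ ∫⁻ z, M ^ 4 * f (z + g θ) := lintegral_mono (hF θ)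
      _ = M ^ 4 * ∫⁻ z, f (z + g θ) :=
          lintegral_const_mul _ (hf.comp (measurable_id.add_const _))
      _ = M ^ 4 * ∫⁻ z, f z := by rw [lintegral_add_right_eq_self]
  calc ∫⁻ θ, (∫⁻ z, F θ z) ∂(bx4 b c ρ) ≤ ∫⁻ θ, (M ^ 4 * ∫⁻ z, f z) ∂(bx4 b c ρ) :=
        lintegral_mono h1
    _ = M ^ 4 * ENNReal.ofReal (2 * ρ) ^ 4 * ∫⁻ z, f z := by
        rw [lintegral_const, bx4_univ b c hρ]
        ring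

end Pool.Agent.H99M
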