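import Pool.Agent.H99M.Defs

/-!
# Local upper density of the sum of two curves

Plan. `G u = α u.1 + β u.2` is `C¹` with invertible derivative at `(x₀, y₀)` (see the proof of
Pool.Agent.Helper2.LM.null_sum in M3.lean for the equivalence). On a small square `S` around
`(x₀, y₀)` it is injective (HasStrictFDerivAt.approximates_deriv_on_nhds and
ApproximatesLinearOn.injOn) and the absolute value of its determinant is `≥ m > 0` there (continuity
of `det2 (α' x) (β' y)` in `(x, y)`). Change of variables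
`MeasureTheory.lintegral_image_eq_lintegral_abs_det_fderiv_mul` gives
`∫⁻ u in S, |det| * f (z + G u) = ∫⁻ v in G '' S, f (z + v) ≤ ∫⁻ v, f v` (translation invariance,
lintegral_add_left_eq_self), hence `∫⁻ u in S, f (z + G u) ≤ m⁻¹ * ∫⁻ v, f v`. The iterated integral
is the integral over `S = Icc ×ˢ Icc` by Tonelli (`MeasureTheory.lintegral_prod`,
`Measure.prod_restrict`). Alternative without determinants: `G` is anti-Lipschitz on `S` with
constant `C'`, so its local inverse is `C'`-Lipschitz and `volume {u ∈ S | G u ∈ B} ≤ C' ^ 2 * volume B`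
by Hausdorff measures; then pass to functions (for instance `Measure.map` restricted is
`≤ C' ^ 2 • volume` as a measure: Measure.le_iff, lintegral_mono', lintegral_map).
-/

open Set MeasureTheory Filter Topology Metric
open Pool.Agent.Helper2.LM

namespace Pool.Agent.H99M

private theorem locU_equiv (v w : ℝ × ℝ) (hdet : det2 v w ≠ 0) :
    ∃ L : (ℝ × ℝ) ≃L[ℝ] (ℝ × ℝ), (L : (ℝ × ℝ) →L[ℝ] (ℝ × ℝ)) =
      (ContinuousLinearMap.fst ℝ ℝ ℝ).smulRight v + (ContinuousLinearMap.snd ℝ ℝ ℝ).smulRight w := by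
  set L : ℝ × ℝ →L[ℝ] ℝ × ℝ :=
    (ContinuousLinearMap.fst ℝ ℝ ℝ).smulRight v + (ContinuousLinearMap.snd ℝ ℝ ℝ).smulRight w
    with hL
  have hinj : Function.Injective (L : ℝ × ℝ →ₗ[ℝ] ℝ × ℝ) := by
    rw [← LinearMap.ker_eq_bot, LinearMap.ker_eq_bot']
    rintro ⟨a, b⟩ hab
    have hab' : a • v + b • w = 0 := hab
    have q1 : a * v.1 + b * w.1 = 0 := by
      have := congrArg Prod.fst hab'
      simpa using this
    have q2 : a * v.2 + b * w.2 = 0 := by
      have := congrArg Prod.snd hab'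
      simpa using this
    unfold det2 at hdet
    have ha : a * (v.1 * w.2 - v.2 * w.1) = 0 := by linear_combination w.2 * q1 - w.1 * q2
    have hb : b * (v.1 * w.2 - v.2 * w.1) = 0 := by linear_combination v.1 * q2 - v.2 * q1
    have ha' := (mul_eq_zero.1 ha).resolve_right hdet
    have hb' := (mul_eq_zero.1 hb).resolve_right hdet
    rw [ha', hb']
    rfl
  refine ⟨(LinearEquiv.ofInjectiveEndo (L : ℝ × ℝ →ₗ[ℝ] ℝ × ℝ) hinj).toContinuousLinearEquiv, ?_⟩
  ext <;> rfl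

private theorem locU_deriv {α β : ℝ → ℝ × ℝ} (hα : ContDiff ℝ 1 α) (hβ : ContDiff ℝ 1 β)
    (u : ℝ × ℝ) : HasFDerivAt (fun z : ℝ × ℝ => α z.1 + β z.2)
      ((ContinuousLinearMap.fst ℝ ℝ ℝ).smulRight (deriv α u.1) +
        (ContinuousLinearMap.snd ℝ ℝ ℝ).smulRight (deriv β u.2)) u := by
  obtain ⟨s, t⟩ := u
  have d1 : HasDerivAt α (deriv α s) s := (hα.differentiable one_ne_zero s).hasDerivAt
  have d2 : HasDerivAt β (deriv β t) t := (hβ.differentiable one_ne_zero t).hasDerivAt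
  have e1 : HasFDerivAt (fun z : ℝ × ℝ => α z.1)
      ((ContinuousLinearMap.fst ℝ ℝ ℝ).smulRight (deriv α s)) (s, t) := by
    have := HasFDerivAt.comp (s, t) (f := fun z : ℝ × ℝ => z.1) (g := α)
      d1.hasFDerivAt hasFDerivAt_fst
    exact this.congr_fderiv (by ext <;> simp)
  have e2 : HasFDerivAt (fun z : ℝ × ℝ => β z.2)
      ((ContinuousLinearMap.snd ℝ ℝ ℝ).smulRight (deriv β t)) (s, t) := by
    have := HasFDerivAt.comp (s, t) (f := fun z : ℝ × ℝ => z.2) (g := β)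
      d2.hasFDerivAt hasFDerivAt_snd
    exact this.congr_fderiv (by ext <;> simp)
  exact e1.add e2

theorem loc_upper {α β : ℝ → ℝ × ℝ} (hα : ContDiff ℝ 1 α) (hβ : ContDiff ℝ 1 β) {x₀ y₀ : ℝ}
    (h : det2 (deriv α x₀) (deriv β y₀) ≠ 0) :
    ∃ η C : ℝ, 0 < η ∧ 0 < C ∧ ∀ f : ℝ × ℝ → ENNReal, Measurable f → ∀ z : ℝ × ℝ,
      ∫⁻ x in Icc (x₀ - η) (x₀ + η), ∫⁻ y in Icc (y₀ - η) (y₀ + η), f (z + α x + β y) ≤
        ENNReal.ofReal C * ∫⁻ v, f v := by
  set G : ℝ × ℝ → ℝ × ℝ := fun z => α z.1 + β z.2 with hG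
  have hGc : ContDiff ℝ 1 G := (hα.comp contDiff_fst).add (hβ.comp contDiff_snd)
  set G' : ℝ × ℝ → (ℝ × ℝ →L[ℝ] ℝ × ℝ) := fun u =>
    (ContinuousLinearMap.fst ℝ ℝ ℝ).smulRight (deriv α u.1) +
      (ContinuousLinearMap.snd ℝ ℝ ℝ).smulRight (deriv β u.2) with hG'
  have hder : ∀ u, HasFDerivAt G (G' u) u := fun u => locU_deriv hα hβ u
  obtain ⟨L, hL⟩ := locU_equiv _ _ h
  have hL' : HasFDerivAt G (L : (ℝ × ℝ) →L[ℝ] (ℝ × ℝ)) (x₀, y₀) := by
    rw [hL]
    exact hder (x₀, y₀)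
  have hcont : Continuous G' := by
    have h1 : G' = fderiv ℝ G := by
      funext u
      exact (hder u).fderiv.symm
    rw [h1]
    exact hGc.continuous_fderiv one_ne_zero
  have hdc : Continuous (fun u => |(G' u).det|) :=
    (ContinuousLinearMap.continuous_det.comp hcont).abs
  have hd0 : (G' (x₀, y₀)).det ≠ 0 := by
    have h1 : G' (x₀, y₀) = (L : (ℝ × ℝ) →L[ℝ] (ℝ × ℝ)) := hL.symm
    rw [h1]
    have h2 := LinearEquiv.isUnit_det' L.toLinearEquiv
    exact h2.ne_zero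
  set m : ℝ := |(G' (x₀, y₀)).det| / 2 with hm
  have hm0 : 0 < m := by
    have := abs_pos.mpr hd0
    rw [hm]
    linarith
  have hev : ∀ᶠ u in 𝓝 (x₀, y₀), m < |(G' u).det| := by
    refine hdc.continuousAt.eventually (lt_mem_nhds ?_)
    have := abs_pos.mpr hd0
    rw [hm]
    linarith
  have hFz : ContDiffAt ℝ 1 G (x₀, y₀) := hGc.contDiffAt
  set e := hFz.toOpenPartialHomeomorph G hL' one_ne_zero with he
  have hsrc : e.source ∈ 𝓝 (x₀, y₀) :=
    e.open_source.mem_nhds (hFz.mem_toOpenPartialHomeomorph_source hL' one_ne_zero)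
  obtain ⟨η, hη, hball⟩ := Metric.nhds_basis_closedBall.mem_iff.1 (inter_mem hsrc hev)
  have hball' : closedBall (x₀, y₀) η = Icc (x₀ - η) (x₀ + η) ×ˢ Icc (y₀ - η) (y₀ + η) := by
    rw [← closedBall_prod_same, Real.closedBall_eq_Icc, Real.closedBall_eq_Icc]
  rw [hball'] at hball
  refine ⟨η, m⁻¹, hη, inv_pos.mpr hm0, ?_⟩
  intro f hf z
  set S : Set (ℝ × ℝ) := Icc (x₀ - η) (x₀ + η) ×ˢ Icc (y₀ - η) (y₀ + η) with hS
  have hSm : MeasurableSet S := measurableSet_Icc.prod measurableSet_Icc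
  have hinj : InjOn G S := by
    have h1 : InjOn e e.source := e.injOn
    intro a ha b hb hab
    exact h1 (hball ha).1 (hball hb).1 hab
  have hcv := lintegral_image_eq_lintegral_abs_det_fderiv_mul (μ := (volume : Measure (ℝ × ℝ)))
    hSm (fun u _ => (hder u).hasFDerivWithinAt) hinj (fun v => f (z + v))
  have h1 : ∫⁻ u in S, ENNReal.ofReal |(G' u).det| * f (z + G u) ≤ ∫⁻ v, f v := by
    rw [← hcv]
    refine (setLIntegral_le_lintegral _ _).trans (le_of_eq ?_)
    exact lintegral_add_left_eq_self f z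
  have h2 : ENNReal.ofReal m * ∫⁻ u in S, f (z + G u) ≤ ∫⁻ v, f v := by
    refine le_trans ?_ h1
    rw [← lintegral_const_mul' _ _ ENNReal.ofReal_ne_top]
    refine setLIntegral_mono' hSm ?_
    intro u hu
    have h3 : m ≤ |(G' u).det| := le_of_lt (hball hu).2
    exact mul_le_mul_left (ENNReal.ofReal_le_ofReal h3) _
  have hmeas : Measurable (fun u : ℝ × ℝ => f (z + G u)) :=
    hf.comp (measurable_const.add hGc.continuous.measurable)
  have h3 : ∫⁻ x in Icc (x₀ - η) (x₀ + η), ∫⁻ y in Icc (y₀ - η) (y₀ + η), f (z + α x + β y) =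
      ∫⁻ u in S, f (z + G u) := by
    rw [hS, Measure.volume_eq_prod, ← Measure.prod_restrict, lintegral_prod _ hmeas.aemeasurable]
    refine lintegral_congr ?_
    intro x
    refine lintegral_congr ?_
    intro y
    rw [hG, add_assoc]
  rw [h3, ENNReal.ofReal_inv_of_pos hm0]
  have hm1 : ENNReal.ofReal m ≠ 0 := by
    rw [Ne, ENNReal.ofReal_eq_zero]
    exact not_le.mpr hm0
  calc ∫⁻ u in S, f (z + G u) = (ENNReal.ofReal m)⁻¹ *
        (ENNReal.ofReal m * ∫⁻ u in S, f (z + G u)) := by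
        rw [← mul_assoc, ENNReal.inv_mul_cancel hm1 ENNReal.ofReal_ne_top, one_mul]
    _ ≤ (ENNReal.ofReal m)⁻¹ * ∫⁻ v, f v := by gcongr

end Pool.Agent.H99M
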