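import Pool.Agent.H99M.ChainT
import Pool.Agent.H99M.LocU
import Pool.Agent.H99M.GeoB

/-!
# The chain: the main term

Plan. Bound `f1, f2, f3` by `M`; by Tonelli (`lintegral_lintegral_swap`) the left hand side is at most
`M ^ 3 * ∫⁻ z, f0 z * (∫⁻ θ, f4 (z + γ θ.1 - γ θ.2.1 - γ θ.2.2.1 + γ θ.2.2.2) ∂(bx4 ..))`. For each
`z` the inner integral is, by Tonelli (lintegral_prod and a swap of `θ₂` and `θ₃`), the integral over
`θ₁` (interval around `T (T t)`) and `θ₃` (interval around `T t`) of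
`∫⁻ θ₂, ∫⁻ θ₄, f4 (u - γ θ₂ + γ θ₄)` with `u = z + γ θ₁ - γ θ₃`, which is `≤ ofReal C * ∫⁻ v, f4 v` by
`loc_upper` with `α = - γ`, `x₀ = T (T a)`, `β = γ`, `y₀ = T a` (the determinant is not zero by
Geo.d_bc; the windows around `T (T t)`, `T t` of radius `ρ ≤ η` are inside the windows of radius `η₀`
around `T (T a)`, `T a` for `|t - a| ≤ η`, `η` small, by continuity of `T`: lintegral_mono' and
Measure.restrict_mono). The remaining two integrals give `ofReal (2 ρ) ^ 2`.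
-/

open Set MeasureTheory Filter Topology Metric
open Pool.Agent.Helper2.LM

namespace Pool.Agent.H99M

private theorem inner_bound {D : Set (ℝ × ℝ)} {γ : ℝ → ℝ × ℝ} {T : ℝ → ℝ} (hG : Geo D γ T) (a : ℝ) :
    ∃ η C : ℝ, 0 < η ∧ 0 < C ∧ ∀ t ρ : ℝ, |t - a| ≤ η → 0 < ρ → ρ ≤ η →
      ∀ f : ℝ × ℝ → ENNReal, Measurable f → ∀ u : ℝ × ℝ,
        ∫⁻ x, ∫⁻ y, f (u - γ x + γ y) ∂(bx (T t) ρ) ∂(bx (T (T t)) ρ) ≤
          ENNReal.ofReal C * ∫⁻ v, f v := by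
  have hdet : det2 (deriv (fun s => - γ s) (T (T a))) (deriv γ (T a)) ≠ 0 := by
    have h1 := hG.d_bc a
    have h2 : deriv (fun s => - γ s) (T (T a)) = - deriv γ (T (T a)) := deriv.fun_neg
    rw [h2]
    intro h3
    have h4 : det2 (- deriv γ (T (T a))) (deriv γ (T a)) =
        det2 (deriv γ (T a)) (deriv γ (T (T a))) := by
      simp only [det2, Prod.fst_neg, Prod.snd_neg]
      ring
    rw [h4] at h3
    linarith
  obtain ⟨η₀, C, hη₀, hC, hloc⟩ := loc_upper (α := fun s => - γ s) (β := γ) hG.γ_c.neg hG.γ_c hdet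
  have hc1 : ContinuousAt T a := hG.T_cont.continuousAt
  have hc2 : ContinuousAt (fun s => T (T s)) a := (hG.T_cont.comp hG.T_cont).continuousAt
  obtain ⟨δ₁, hδ₁, h1⟩ := Metric.continuousAt_iff.1 hc1 (η₀ / 2) (by linarith)
  obtain ⟨δ₂, hδ₂, h2⟩ := Metric.continuousAt_iff.1 hc2 (η₀ / 2) (by linarith)
  refine ⟨min (η₀ / 2) (min (δ₁ / 2) (δ₂ / 2)), C, by positivity, hC, ?_⟩
  intro t ρ ht hρ0 hρ f hf u
  have hρ1 : ρ ≤ η₀ / 2 := hρ.trans (min_le_left _ _)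
  have ht1 : dist t a < δ₁ := by
    rw [Real.dist_eq]
    have := ht.trans ((min_le_right _ _).trans (min_le_left _ _))
    linarith
  have ht2 : dist t a < δ₂ := by
    rw [Real.dist_eq]
    have := ht.trans ((min_le_right _ _).trans (min_le_right _ _))
    linarith
  have h3 := h1 ht1
  have h4 := h2 ht2
  rw [Real.dist_eq, abs_lt] at h3 h4
  have hsub1 : Icc (T t - ρ) (T t + ρ) ⊆ Icc (T a - η₀) (T a + η₀) := by
    refine Icc_subset_Icc ?_ ?_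
    · linarith [h3.1]
    · linarith [h3.2]
  have hsub2 : Icc (T (T t) - ρ) (T (T t) + ρ) ⊆ Icc (T (T a) - η₀) (T (T a) + η₀) := by
    refine Icc_subset_Icc ?_ ?_
    · linarith [h4.1]
    · linarith [h4.2]
  refine le_trans ?_ (hloc f hf u)
  refine lintegral_mono' (Measure.restrict_mono hsub2 le_rfl) ?_
  intro x
  refine lintegral_mono' (Measure.restrict_mono hsub1 le_rfl) ?_
  intro y
  simp only [sub_eq_add_neg]
  exact le_rfl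

private theorem theta_bound {γ : ℝ → ℝ × ℝ} (hγ : Continuous γ) {b c ρ : ℝ} (hρ : 0 < ρ)
    {f : ℝ × ℝ → ENNReal} (hf : Measurable f) {K : ENNReal}
    (hK : ∀ u : ℝ × ℝ, ∫⁻ x, ∫⁻ y, f (u - γ x + γ y) ∂(bx b ρ) ∂(bx c ρ) ≤ K) (z : ℝ × ℝ) :
    ∫⁻ θ, f (z + γ θ.1 - γ θ.2.1 - γ θ.2.2.1 + γ θ.2.2.2) ∂(bx4 b c ρ) ≤
      ENNReal.ofReal (2 * ρ) ^ 2 * K := by
  have hm : Measurable fun θ : ℝ × ℝ × ℝ × ℝ =>
      f (z + γ θ.1 - γ θ.2.1 - γ θ.2.2.1 + γ θ.2.2.2) := by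
    refine hf.comp (Continuous.measurable ?_)
    fun_prop
  have hstep : ∀ θ₁ : ℝ, ∫⁻ θ : ℝ × ℝ × ℝ,
      f (z + γ θ₁ - γ θ.1 - γ θ.2.1 + γ θ.2.2) ∂((bx c ρ).prod ((bx b ρ).prod (bx b ρ))) ≤
      ENNReal.ofReal (2 * ρ) * K := by
    intro θ₁
    have hm3 : Measurable fun θ : ℝ × ℝ × ℝ => f (z + γ θ₁ - γ θ.1 - γ θ.2.1 + γ θ.2.2) := by
      refine hf.comp (Continuous.measurable ?_)
      fun_prop
    rw [lintegral_prod _ hm3.aemeasurable]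
    have h1 : ∀ θ₂ : ℝ, ∫⁻ θ : ℝ × ℝ, f (z + γ θ₁ - γ θ₂ - γ θ.1 + γ θ.2) ∂((bx b ρ).prod (bx b ρ)) =
        ∫⁻ θ₃, ∫⁻ θ₄, f (z + γ θ₁ - γ θ₂ - γ θ₃ + γ θ₄) ∂(bx b ρ) ∂(bx b ρ) := by
      intro θ₂
      have hm2 : Measurable fun θ : ℝ × ℝ => f (z + γ θ₁ - γ θ₂ - γ θ.1 + γ θ.2) := by
        refine hf.comp (Continuous.measurable ?_)
        fun_prop
      rw [lintegral_prod _ hm2.aemeasurable]
    simp only [h1]
    have hms : Measurable (Function.uncurry fun (θ₂ θ₃ : ℝ) =>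
        ∫⁻ θ₄, f (z + γ θ₁ - γ θ₂ - γ θ₃ + γ θ₄) ∂(bx b ρ)) := by
      have h5 : Measurable fun q : (ℝ × ℝ) × ℝ => f (z + γ θ₁ - γ q.1.1 - γ q.1.2 + γ q.2) := by
        refine hf.comp (Continuous.measurable ?_)
        fun_prop
      exact h5.lintegral_prod_right'
    rw [lintegral_lintegral_swap hms.aemeasurable]
    calc ∫⁻ θ₃, ∫⁻ θ₂, ∫⁻ θ₄, f (z + γ θ₁ - γ θ₂ - γ θ₃ + γ θ₄) ∂(bx b ρ) ∂(bx c ρ) ∂(bx b ρ)
        ≤ ∫⁻ _θ₃, K ∂(bx b ρ) := by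
          refine lintegral_mono fun θ₃ => ?_
          have h6 := hK (z + γ θ₁ - γ θ₃)
          refine le_trans (le_of_eq ?_) h6
          refine lintegral_congr fun θ₂ => lintegral_congr fun θ₄ => ?_
          congr 1
          abel
      _ = ENNReal.ofReal (2 * ρ) * K := by
          rw [lintegral_const, bx_univ b hρ.le, mul_comm]
  unfold bx4
  rw [lintegral_prod _ hm.aemeasurable]
  calc ∫⁻ θ₁, ∫⁻ θ : ℝ × ℝ × ℝ, f (z + γ θ₁ - γ θ.1 - γ θ.2.1 + γ θ.2.2)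
        ∂((bx c ρ).prod ((bx b ρ).prod (bx b ρ))) ∂(bx c ρ)
      ≤ ∫⁻ _θ₁, ENNReal.ofReal (2 * ρ) * K ∂(bx c ρ) := lintegral_mono fun θ₁ => hstep θ₁
    _ = ENNReal.ofReal (2 * ρ) ^ 2 * K := by
        rw [lintegral_const, bx_univ c hρ.le]
        ring

theorem main_term {D : Set (ℝ × ℝ)} {γ : ℝ → ℝ × ℝ} {T : ℝ → ℝ} (hG : Geo D γ T) (a : ℝ) :
    ∃ η C : ℝ, 0 < η ∧ 0 < C ∧ ∀ t ρ : ℝ, |t - a| ≤ η → 0 < ρ → ρ ≤ η →
      ∀ (M : ENNReal) (f0 f1 f2 f3 f4 : ℝ × ℝ → ENNReal), Measurable f0 → Measurable f4 →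
        (∀ z, f1 z ≤ M) → (∀ z, f2 z ≤ M) → (∀ z, f3 z ≤ M) →
        ∫⁻ θ, (∫⁻ z, f0 z * (f1 (z + γ θ.1) * (f2 (z + γ θ.1 - γ θ.2.1) *
          (f3 (z + γ θ.1 - γ θ.2.1 - γ θ.2.2.1) *
            f4 (z + γ θ.1 - γ θ.2.1 - γ θ.2.2.1 + γ θ.2.2.2))))) ∂(bx4 (T t) (T (T t)) ρ) ≤
        M ^ 3 * ENNReal.ofReal (2 * ρ) ^ 2 * ENNReal.ofReal C * ((∫⁻ z, f0 z) * ∫⁻ z, f4 z) := by
  obtain ⟨η, C, hη, hC, hin⟩ := inner_bound hG a
  refine ⟨η, C, hη, hC, ?_⟩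
  intro t ρ ht hρ0 hρ M f0 f1 f2 f3 f4 hf0 hf4 h1 h2 h3
  have hγ : Continuous γ := hG.γ_cont
  have hth := theta_bound hγ hρ0 hf4 (hin t ρ ht hρ0 hρ f4 hf4)
  calc ∫⁻ θ, (∫⁻ z, f0 z * (f1 (z + γ θ.1) * (f2 (z + γ θ.1 - γ θ.2.1) *
          (f3 (z + γ θ.1 - γ θ.2.1 - γ θ.2.2.1) *
            f4 (z + γ θ.1 - γ θ.2.1 - γ θ.2.2.1 + γ θ.2.2.2))))) ∂(bx4 (T t) (T (T t)) ρ)
      ≤ ∫⁻ θ, (∫⁻ z, M ^ 3 * (f0 z * f4 (z + γ θ.1 - γ θ.2.1 - γ θ.2.2.1 + γ θ.2.2.2)))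
          ∂(bx4 (T t) (T (T t)) ρ) := by
        refine lintegral_mono fun θ => lintegral_mono fun z => ?_
        calc f0 z * (f1 (z + γ θ.1) * (f2 (z + γ θ.1 - γ θ.2.1) *
              (f3 (z + γ θ.1 - γ θ.2.1 - γ θ.2.2.1) *
                f4 (z + γ θ.1 - γ θ.2.1 - γ θ.2.2.1 + γ θ.2.2.2))))
            ≤ f0 z * (M * (M * (M * f4 (z + γ θ.1 - γ θ.2.1 - γ θ.2.2.1 + γ θ.2.2.2)))) := by
              gcongr
              · exact h1 _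
              · exact h2 _
              · exact h3 _
          _ = M ^ 3 * (f0 z * f4 (z + γ θ.1 - γ θ.2.1 - γ θ.2.2.1 + γ θ.2.2.2)) := by ring
    _ = ∫⁻ z, (∫⁻ θ, M ^ 3 * (f0 z * f4 (z + γ θ.1 - γ θ.2.1 - γ θ.2.2.1 + γ θ.2.2.2))
          ∂(bx4 (T t) (T (T t)) ρ)) := by
        refine lintegral_lintegral_swap (Measurable.aemeasurable ?_)
        have h5 : Measurable fun q : (ℝ × ℝ × ℝ × ℝ) × (ℝ × ℝ) =>
            f4 (q.2 + γ q.1.1 - γ q.1.2.1 - γ q.1.2.2.1 + γ q.1.2.2.2) := by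
          refine hf4.comp (Continuous.measurable ?_)
          fun_prop
        have h6 : Measurable fun q : (ℝ × ℝ × ℝ × ℝ) × (ℝ × ℝ) => f0 q.2 := hf0.comp measurable_snd
        exact (h6.mul h5).const_mul _
    _ ≤ ∫⁻ z, M ^ 3 * (f0 z * (ENNReal.ofReal (2 * ρ) ^ 2 * (ENNReal.ofReal C * ∫⁻ v, f4 v))) := by
        refine lintegral_mono fun z => ?_
        have h7 : Measurable fun θ : ℝ × ℝ × ℝ × ℝ =>
            f4 (z + γ θ.1 - γ θ.2.1 - γ θ.2.2.1 + γ θ.2.2.2) := by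
          refine hf4.comp (Continuous.measurable ?_)
          fun_prop
        rw [lintegral_const_mul _ (h7.const_mul _), lintegral_const_mul _ h7]
        gcongr
        exact hth z
    _ = M ^ 3 * ENNReal.ofReal (2 * ρ) ^ 2 * ENNReal.ofReal C * ((∫⁻ z, f0 z) * ∫⁻ z, f4 z) := by
        rw [lintegral_const_mul _ (hf0.mul_const _), lintegral_mul_const _ hf0]
        ring

end Pool.Agent.H99M
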