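import Pool.Agent.H99M.GeoB

/-!
# The chain: pointwise inequality

Plan. Write `y = z + γ θ₁`, `z' = y - γ θ₂`, `y' = z' - γ θ₃`, `z'' = y' + γ θ₄`, `G = P ∪ Q`. If
the first factor `wtV γ W t ρ z` is zero the left hand side is zero. Otherwise its defining set is
not empty: there is `s`, `|s - t| ≤ ρ`, with `(z - γ s, s) ∈ W`, so `z = (z - γ s) + γ s ∈ Q` by `hW`.
If `y ∉ G` the first bad term equals the left hand side (indicator_of_mem); in the same way for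
`z' ∉ G`, `y' ∉ G`, `z'' ∉ G`. So assume `y, z', y', z'' ∈ G`. Differences of consecutive points are
`± γ θ ∈ D` (Geo.mem, Geo.neg_mem), so colours alternate: `y ∉ Q` (aQ) so `y ∈ P`; `z' ∉ P` so
`z' ∈ Q`; `y' ∈ P`; `z'' ∈ Q`. If the weight of `z'` with respect to `Y` is zero the left hand side is
zero; otherwise there is `s'`, `|s' - t| ≤ ρ`, `p' = z' - γ s' ∈ Y`. Now
`wt (- γ) Z t ρ z'' ≤ wtV γ V t ρ z''` (measure_mono): for `|s'' - t| ≤ ρ` with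
`p'' = z'' - γ s'' ∈ Z` we have `Reach γ T t ρ (z - γ s) s p' s' p'' s''` and `p'' + γ s'' = z'' ∈ Q`,
so `(z'' - γ s'', s'') ∈ V` by `hV`. Hence the left hand side is at most the last term.
-/

open Set MeasureTheory Filter Topology Metric
open Pool.Agent.Helper2.LM

namespace Pool.Agent.H99M

theorem chain_pt {D : Set (ℝ × ℝ)} {γ : ℝ → ℝ × ℝ} {T : ℝ → ℝ} {P Q X Y Z : Set (ℝ × ℝ)}
    {W V : Set ((ℝ × ℝ) × ℝ)} (hG : Geo D γ T) (aP : ∀ x ∈ P, ∀ y ∈ P, x - y ∉ D)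
    (aQ : ∀ x ∈ Q, ∀ y ∈ Q, x - y ∉ D) {t ρ : ℝ}
    (hW : ∀ q ∈ W, q.1 + γ q.2 ∈ Q)
    (hV : ∀ q ∈ W, ∀ p' ∈ Y, ∀ p'' ∈ Z, ∀ s' s'' : ℝ,
      Reach γ T t ρ q.1 q.2 p' s' p'' s'' → p'' + γ s'' ∈ Q → (p'', s'') ∈ V)
    {θ₁ θ₂ θ₃ θ₄ : ℝ} (h₁ : |θ₁ - T (T t)| ≤ ρ) (h₂ : |θ₂ - T (T t)| ≤ ρ) (h₃ : |θ₃ - T t| ≤ ρ)
    (h₄ : |θ₄ - T t| ≤ ρ) (z : ℝ × ℝ) :
    wtV γ W t ρ z * (wt (fun s => - γ s) X (T t) ρ (z + γ θ₁) *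
      (wt (fun s => - γ s) Y t ρ (z + γ θ₁ - γ θ₂) *
        (wt γ X (T (T t)) ρ (z + γ θ₁ - γ θ₂ - γ θ₃) *
          wt (fun s => - γ s) Z t ρ (z + γ θ₁ - γ θ₂ - γ θ₃ + γ θ₄)))) ≤
    wtV γ W t ρ z * (indicator (P ∪ Q)ᶜ (wt (fun s => - γ s) X (T t) ρ) (z + γ θ₁) *
      (wt (fun s => - γ s) Y t ρ (z + γ θ₁ - γ θ₂) *
        (wt γ X (T (T t)) ρ (z + γ θ₁ - γ θ₂ - γ θ₃) *
          wt (fun s => - γ s) Z t ρ (z + γ θ₁ - γ θ₂ - γ θ₃ + γ θ₄)))) +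
    wtV γ W t ρ z * (wt (fun s => - γ s) X (T t) ρ (z + γ θ₁) *
      (indicator (P ∪ Q)ᶜ (wt (fun s => - γ s) Y t ρ) (z + γ θ₁ - γ θ₂) *
        (wt γ X (T (T t)) ρ (z + γ θ₁ - γ θ₂ - γ θ₃) *
          wt (fun s => - γ s) Z t ρ (z + γ θ₁ - γ θ₂ - γ θ₃ + γ θ₄)))) +
    wtV γ W t ρ z * (wt (fun s => - γ s) X (T t) ρ (z + γ θ₁) *
      (wt (fun s => - γ s) Y t ρ (z + γ θ₁ - γ θ₂) *
        (indicator (P ∪ Q)ᶜ (wt γ X (T (T t)) ρ) (z + γ θ₁ - γ θ₂ - γ θ₃) *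
          wt (fun s => - γ s) Z t ρ (z + γ θ₁ - γ θ₂ - γ θ₃ + γ θ₄)))) +
    wtV γ W t ρ z * (wt (fun s => - γ s) X (T t) ρ (z + γ θ₁) *
      (wt (fun s => - γ s) Y t ρ (z + γ θ₁ - γ θ₂) *
        (wt γ X (T (T t)) ρ (z + γ θ₁ - γ θ₂ - γ θ₃) *
          indicator (P ∪ Q)ᶜ (wt (fun s => - γ s) Z t ρ)
            (z + γ θ₁ - γ θ₂ - γ θ₃ + γ θ₄)))) +
    wtV γ W t ρ z * (wt (fun s => - γ s) X (T t) ρ (z + γ θ₁) *
      (wt (fun s => - γ s) Y t ρ (z + γ θ₁ - γ θ₂) *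
        (wt γ X (T (T t)) ρ (z + γ θ₁ - γ θ₂ - γ θ₃) *
          wtV γ V t ρ (z + γ θ₁ - γ θ₂ - γ θ₃ + γ θ₄)))) := by
  classical
  set G : Set (ℝ × ℝ) := P ∪ Q with hGdef
  by_cases hw : wtV γ W t ρ z = 0
  · rw [hw]; simp only [zero_mul, le_refl, add_zero]
  have hne : ∃ s : ℝ, |s - t| ≤ ρ ∧ (z - γ s, s) ∈ W := by
    by_contra hcon
    apply hw
    unfold wtV
    have he : {s : ℝ | |s - t| ≤ ρ ∧ (z - γ s, s) ∈ W} = ∅ :=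
      eq_empty_iff_forall_notMem.2 fun s hs => hcon ⟨s, hs⟩
    rw [he, measure_empty]
  obtain ⟨s, hs, hsW⟩ := hne
  have hzQ : z ∈ Q := by
    have h := hW _ hsW
    simpa using h
  by_cases hy : z + γ θ₁ ∈ G
  swap
  · rw [indicator_of_mem (show z + γ θ₁ ∈ Gᶜ from hy)]
    exact le_add_right (le_add_right (le_add_right (le_add_right le_rfl)))
  by_cases hz' : z + γ θ₁ - γ θ₂ ∈ G
  swap
  · rw [indicator_of_mem (show z + γ θ₁ - γ θ₂ ∈ Gᶜ from hz')]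
    exact le_add_right (le_add_right (le_add_right (le_add_left le_rfl)))
  by_cases hy' : z + γ θ₁ - γ θ₂ - γ θ₃ ∈ G
  swap
  · rw [indicator_of_mem (show z + γ θ₁ - γ θ₂ - γ θ₃ ∈ Gᶜ from hy')]
    exact le_add_right (le_add_right (le_add_left le_rfl))
  by_cases hz'' : z + γ θ₁ - γ θ₂ - γ θ₃ + γ θ₄ ∈ G
  swap
  · rw [indicator_of_mem (show z + γ θ₁ - γ θ₂ - γ θ₃ + γ θ₄ ∈ Gᶜ from hz'')]
    exact le_add_right (le_add_left le_rfl)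
  have hyP : z + γ θ₁ ∈ P := by
    rcases hy with h | h
    · exact h
    · exfalso
      refine aQ _ h _ hzQ ?_
      rw [show z + γ θ₁ - z = γ θ₁ by abel]
      exact hG.mem _
  have hz'Q : z + γ θ₁ - γ θ₂ ∈ Q := by
    rcases hz' with h | h
    · exfalso
      refine aP _ h _ hyP ?_
      rw [show z + γ θ₁ - γ θ₂ - (z + γ θ₁) = - γ θ₂ by abel]
      exact hG.neg_mem (hG.mem _)
    · exact h
  have hy'P : z + γ θ₁ - γ θ₂ - γ θ₃ ∈ P := by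
    rcases hy' with h | h
    · exact h
    · exfalso
      refine aQ _ h _ hz'Q ?_
      rw [show z + γ θ₁ - γ θ₂ - γ θ₃ - (z + γ θ₁ - γ θ₂) = - γ θ₃ by abel]
      exact hG.neg_mem (hG.mem _)
  have hz''Q : z + γ θ₁ - γ θ₂ - γ θ₃ + γ θ₄ ∈ Q := by
    rcases hz'' with h | h
    · exfalso
      refine aP _ h _ hy'P ?_
      rw [show z + γ θ₁ - γ θ₂ - γ θ₃ + γ θ₄ - (z + γ θ₁ - γ θ₂ - γ θ₃) = γ θ₄ by abel]
      exact hG.mem _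
    · exact h
  by_cases hwy : wt (fun s => - γ s) Y t ρ (z + γ θ₁ - γ θ₂) = 0
  · rw [hwy]; simp only [zero_mul, mul_zero, zero_le]
  have hne' : ∃ s' : ℝ, |s' - t| ≤ ρ ∧ z + γ θ₁ - γ θ₂ + - γ s' ∈ Y := by
    by_contra hcon
    apply hwy
    unfold wt
    have he : {s' : ℝ | |s' - t| ≤ ρ ∧ z + γ θ₁ - γ θ₂ + (fun s => - γ s) s' ∈ Y} = ∅ :=
      eq_empty_iff_forall_notMem.2 fun s' hs' => hcon ⟨s', hs'⟩
    rw [he, measure_empty]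
  obtain ⟨s', hs', hsY⟩ := hne'
  have hle : wt (fun s => - γ s) Z t ρ (z + γ θ₁ - γ θ₂ - γ θ₃ + γ θ₄) ≤
      wtV γ V t ρ (z + γ θ₁ - γ θ₂ - γ θ₃ + γ θ₄) := by
    unfold wt wtV
    refine measure_mono ?_
    rintro s'' ⟨hs'', hsZ⟩
    refine ⟨hs'', ?_⟩
    have hsZ' : z + γ θ₁ - γ θ₂ - γ θ₃ + γ θ₄ - γ s'' ∈ Z := by
      rw [sub_eq_add_neg]; exact hsZ
    refine hV _ hsW _ hsY _ hsZ' s' s'' ⟨hs, hs', hs'', θ₁, θ₂, θ₃, θ₄, h₁, h₂, h₃, h₄, ?_, ?_⟩ ?_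
    · simp only []
      abel
    · abel
    · rw [sub_add_cancel]; exact hz''Q
  refine le_add_left ?_
  gcongr

end Pool.Agent.H99M
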