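import Pool.Agent.H99M.ChainL
import Pool.Agent.H99M.ChainM
import Pool.Agent.H99M.ChainB
import Pool.Agent.H99M.ChainP

/-!
# The chain estimate

Plan. Constants: `L` from Geo.lip; `η₁ K₁ c` from `chain_lower hG a` with `1 + L R₀` in place of
`R₀`; `η₂ C₂` from `main_term hG a`. Take `K = max K₁ R₀` (or `K₁ + R₀`), `η` with `η ≤ η₁`, `η ≤ η₂`,
`K η ≤ η₂`, and `ρ = K r`, `M = ofReal (2 ρ)`. Let
`I = ∫⁻ z, wtV γ W t ρ z * ∫⁻ θ₁, … ` be the iterated integral of `ton` with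
`f0 = wtV γ W t ρ`, `f1 = wt (-γ) X (T t) ρ`, `f2 = wt (-γ) Y t ρ`, `f3 = wt γ X (T (T t)) ρ`,
`f4 = wt (-γ) Z t ρ`.
Lower bound: if `wtV γ W t ρ z ≠ 0` there is `s` with `(z - γ s, s) ∈ W`, so `‖z - γ s‖ ≤ r`,
`|s - t| ≤ R₀ r`, `‖z - γ t‖ ≤ (1 + L R₀) r` and `chain_lower` applies; so
`ofReal c * (…) * ∫⁻ z, wtV γ W t ρ z ≤ I`, and `∫⁻ z, wtV γ W t ρ z = volume W` (wtV_int, as
`|q.2 - t| ≤ R₀ r ≤ ρ` on `W`).
Upper bound: `I = ∫⁻ θ, ∫⁻ z, …` by `ton`; for `bx4`-almost every `θ` the four parameters are in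
their intervals (bx4 is a product of restricted measures: use for instance
`Measure.prod_restrict` to see `bx4` as a restriction of Lebesgue measure and
`ae_restrict_mem`), so `chain_pt` bounds the integrand by five terms (lintegral_add_left and so on
need measurability, from wt_meas, wtV_meas, Measurable.indicator). The four bad terms are bounded
with `bad_term` (each of the other four factors is `≤ M`, wt_le and wtV_le) and `wt_bad` (with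
`β = - γ` the set is `{x | x ∈ X ∧ x - (- γ s) ∉ P ∪ Q}`): each is
`≤ M ^ 4 * M ^ 4 * (M * β)`. The last term is bounded by `main_term` and `wtV_int_le`:
`≤ M ^ 3 * M ^ 2 * ofReal C₂ * (volume W * volume V)`. Take `C = max (C₂ (2 K) ^ 5) (4 (2 K) ^ 9)` or
the sum (ENNReal.ofReal_mul, ENNReal.ofReal_pow).
-/

open Set MeasureTheory Filter Topology Metric
open Pool.Agent.Helper2.LM

namespace Pool.Agent.H99M

lemma Chain_ae (b c ρ : ℝ) : ∀ᵐ θ ∂(bx4 b c ρ), |θ.1 - c| ≤ ρ ∧ |θ.2.1 - c| ≤ ρ ∧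
    |θ.2.2.1 - b| ≤ ρ ∧ |θ.2.2.2 - b| ≤ ρ := by
  have h : bx4 b c ρ = ((volume : Measure ℝ).prod ((volume : Measure ℝ).prod
      ((volume : Measure ℝ).prod (volume : Measure ℝ)))).restrict
      (Icc (c - ρ) (c + ρ) ×ˢ (Icc (c - ρ) (c + ρ) ×ˢ
        (Icc (b - ρ) (b + ρ) ×ˢ Icc (b - ρ) (b + ρ)))) := by
    unfold bx4 bx
    rw [Measure.prod_restrict, Measure.prod_restrict, Measure.prod_restrict]
  rw [h]
  filter_upwards [ae_restrict_mem (measurableSet_Icc.prod (measurableSet_Icc.prod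
    (measurableSet_Icc.prod measurableSet_Icc)))] with θ hθ
  obtain ⟨h1, h2, h3, h4⟩ := hθ
  simp only [mem_Icc] at h1 h2 h3 h4
  refine ⟨?_, ?_, ?_, ?_⟩ <;> rw [abs_le] <;> constructor <;> linarith [h1.1, h1.2, h2.1, h2.2,
    h3.1, h3.2, h4.1, h4.2]

lemma Chain_b1 {M a x b c d : ENNReal} (ha : a ≤ M) (hb : b ≤ M) (hc : c ≤ M) (hd : d ≤ M) :
    a * (x * (b * (c * d))) ≤ M ^ 4 * x := by
  calc a * (x * (b * (c * d))) ≤ M * (x * (M * (M * M))) := by gcongr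
    _ = M ^ 4 * x := by ring

lemma Chain_b2 {M a x b c d : ENNReal} (ha : a ≤ M) (hb : b ≤ M) (hc : c ≤ M) (hd : d ≤ M) :
    a * (b * (x * (c * d))) ≤ M ^ 4 * x := by
  calc a * (b * (x * (c * d))) ≤ M * (M * (x * (M * M))) := by gcongr
    _ = M ^ 4 * x := by ring

lemma Chain_b3 {M a x b c d : ENNReal} (ha : a ≤ M) (hb : b ≤ M) (hc : c ≤ M) (hd : d ≤ M) :
    a * (b * (c * (x * d))) ≤ M ^ 4 * x := by
  calc a * (b * (c * (x * d))) ≤ M * (M * (M * (x * M))) := by gcongr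
    _ = M ^ 4 * x := by ring

lemma Chain_b4 {M a x b c d : ENNReal} (ha : a ≤ M) (hb : b ≤ M) (hc : c ≤ M) (hd : d ≤ M) :
    a * (b * (c * (d * x))) ≤ M ^ 4 * x := by
  calc a * (b * (c * (d * x))) ≤ M * (M * (M * (M * x))) := by gcongr
    _ = M ^ 4 * x := by ring

/-- four bounded terms and a fifth one -/
lemma Chain_five {M S : ENNReal} {f₁ f₂ f₃ f₄ : ℝ × ℝ → ENNReal} (m₁ : Measurable f₁)
    (m₂ : Measurable f₂) (m₃ : Measurable f₃) (m₄ : Measurable f₄) (s₁ : ∫⁻ z, f₁ z ≤ S)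
    (s₂ : ∫⁻ z, f₂ z ≤ S) (s₃ : ∫⁻ z, f₃ z ≤ S) (s₄ : ∫⁻ z, f₄ z ≤ S)
    {F A : ℝ × ℝ → ENNReal} (u₁ u₂ u₃ u₄ : ℝ × ℝ)
    (h : ∀ z, F z ≤ M ^ 4 * f₁ (z + u₁) + M ^ 4 * f₂ (z + u₂) + M ^ 4 * f₃ (z + u₃) +
      M ^ 4 * f₄ (z + u₄) + A z) :
    ∫⁻ z, F z ≤ 4 * (M ^ 4 * S) + ∫⁻ z, A z := by
  have key : ∀ (f : ℝ × ℝ → ENNReal) (u : ℝ × ℝ), Measurable f → ∫⁻ z, f z ≤ S →
      Measurable (fun z => M ^ 4 * f (z + u)) ∧ ∫⁻ z, M ^ 4 * f (z + u) ≤ M ^ 4 * S := by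
    intro f u hf hS
    have hfm : Measurable (fun z : ℝ × ℝ => f (z + u)) := hf.comp (measurable_id.add_const u)
    refine ⟨hfm.const_mul _, ?_⟩
    rw [lintegral_const_mul _ hfm, lintegral_add_right_eq_self f u]
    gcongr
  obtain ⟨n₁, t₁⟩ := key f₁ u₁ m₁ s₁
  obtain ⟨n₂, t₂⟩ := key f₂ u₂ m₂ s₂
  obtain ⟨n₃, t₃⟩ := key f₃ u₃ m₃ s₃
  obtain ⟨n₄, t₄⟩ := key f₄ u₄ m₄ s₄
  calc ∫⁻ z, F z ≤ ∫⁻ z, (M ^ 4 * f₁ (z + u₁) + M ^ 4 * f₂ (z + u₂) + M ^ 4 * f₃ (z + u₃) +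
      M ^ 4 * f₄ (z + u₄)) + A z := lintegral_mono h
    _ = (∫⁻ z, M ^ 4 * f₁ (z + u₁)) + (∫⁻ z, M ^ 4 * f₂ (z + u₂)) +
        (∫⁻ z, M ^ 4 * f₃ (z + u₃)) + (∫⁻ z, M ^ 4 * f₄ (z + u₄)) + ∫⁻ z, A z := by
      have q2 : Measurable (fun z => M ^ 4 * f₁ (z + u₁) + M ^ 4 * f₂ (z + u₂)) := n₁.add n₂
      have q3 : Measurable (fun z => M ^ 4 * f₁ (z + u₁) + M ^ 4 * f₂ (z + u₂) +
        M ^ 4 * f₃ (z + u₃)) := q2.add n₃
      have q4 : Measurable (fun z => M ^ 4 * f₁ (z + u₁) + M ^ 4 * f₂ (z + u₂) +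
        M ^ 4 * f₃ (z + u₃) + M ^ 4 * f₄ (z + u₄)) := q3.add n₄
      rw [lintegral_add_left q4, lintegral_add_left q3, lintegral_add_left q2,
        lintegral_add_left n₁]
    _ ≤ M ^ 4 * S + M ^ 4 * S + M ^ 4 * S + M ^ 4 * S + ∫⁻ z, A z := by gcongr
    _ = 4 * (M ^ 4 * S) + ∫⁻ z, A z := by ring

theorem chain {D : Set (ℝ × ℝ)} {γ : ℝ → ℝ × ℝ} {T : ℝ → ℝ} {P Q : Set (ℝ × ℝ)}
    (hG : Geo D γ T) (mP : MeasurableSet P) (mQ : MeasurableSet Q)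
    (aP : ∀ x ∈ P, ∀ y ∈ P, x - y ∉ D) (aQ : ∀ x ∈ Q, ∀ y ∈ Q, x - y ∉ D) (a : ℝ) {R₀ : ℝ}
    (hR₀ : 0 ≤ R₀) :
    ∃ η K C c : ℝ, 0 < η ∧ 0 < K ∧ 0 < C ∧ 0 < c ∧ R₀ ≤ K ∧ ∀ (t r : ℝ) (X Y Z : Set (ℝ × ℝ))
      (W V : Set ((ℝ × ℝ) × ℝ)) (β : ENNReal), |t - a| ≤ η → 0 < r → r ≤ η →
      MeasurableSet X → MeasurableSet Y → MeasurableSet Z → MeasurableSet W → MeasurableSet V →
      X ⊆ closedBall 0 r → Y ⊆ X → Z ⊆ X →
      (∀ s, |s - t| ≤ K * r → volume {x | x ∈ X ∧ x + γ s ∉ P ∪ Q} ≤ β) →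
      (∀ s, |s - T t| ≤ K * r → volume {x | x ∈ X ∧ x + γ s ∉ P ∪ Q} ≤ β) →
      (∀ s, |s - T (T t)| ≤ K * r → volume {x | x ∈ X ∧ x - γ s ∉ P ∪ Q} ≤ β) →
      (∀ q ∈ W, q.1 ∈ closedBall 0 r ∧ |q.2 - t| ≤ R₀ * r ∧ q.1 + γ q.2 ∈ Q) →
      (∀ q ∈ W, ∀ p' ∈ Y, ∀ p'' ∈ Z, ∀ s' s'' : ℝ,
        Reach γ T t (K * r) q.1 q.2 p' s' p'' s'' → p'' + γ s'' ∈ Q → (p'', s'') ∈ V) →
      ENNReal.ofReal c * (volume W * (volume X * (volume Y * (volume X * volume Z)))) ≤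
        ENNReal.ofReal (C * r ^ 5) * (volume W * volume V) + ENNReal.ofReal (C * r ^ 9) * β := by
  obtain ⟨L, hL, hlip⟩ := hG.lip
  have hR₁ : 0 ≤ 1 + L * R₀ := by positivity
  obtain ⟨η₁, K₁, c, hη₁, hK₁, hc, hlow⟩ := chain_lower hG a hR₁
  obtain ⟨η₂, C₂, hη₂, hC₂, hmain⟩ := main_term hG a
  have hK : 0 < K₁ + R₀ := by positivity
  obtain ⟨K, hKdef⟩ : ∃ K, K = K₁ + R₀ := ⟨_, rfl⟩
  rw [← hKdef] at hK
  refine ⟨min (min η₁ η₂) (η₂ / K), K, C₂ * (2 * K) ^ 5 + 4 * (2 * K) ^ 9, c, by positivity, hK,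
    by positivity, hc, by linarith, ?_⟩
  intro t r X Y Z W V β ht hr hrη mX mY mZ mW mV hX hYX hZX hβ1 hβ2 hβ3 hW hV
  have ht1 : |t - a| ≤ η₁ := ht.trans ((min_le_left _ _).trans (min_le_left _ _))
  have ht2 : |t - a| ≤ η₂ := ht.trans ((min_le_left _ _).trans (min_le_right _ _))
  have hr1 : r ≤ η₁ := hrη.trans ((min_le_left _ _).trans (min_le_left _ _))
  have hr2 : r ≤ η₂ / K := hrη.trans (min_le_right _ _)
  obtain ⟨ρ, hρdef⟩ : ∃ ρ, ρ = K * r := ⟨_, rfl⟩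
  have hρ : 0 < ρ := by rw [hρdef]; positivity
  have hρ2 : ρ ≤ η₂ := by
    rw [hρdef, mul_comm]
    exact (le_div_iff₀ hK).1 hr2
  have hK1ρ : K₁ * r ≤ ρ := by
    rw [hρdef, hKdef]
    nlinarith [mul_nonneg hR₀ hr.le]
  have hR0ρ : R₀ * r ≤ ρ := by
    rw [hρdef, hKdef]
    nlinarith [mul_pos hK₁ hr]
  have cγ : Continuous γ := hG.γ_cont
  have cnγ : Continuous (fun s => - γ s) := cγ.neg
  rw [← hρdef] at hβ1 hβ2 hβ3 hV
  set M : ENNReal := ENNReal.ofReal (2 * ρ) with hM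
  -- the iterated integral
  set f0 : ℝ × ℝ → ENNReal := wtV γ W t ρ with hf0
  set f1 : ℝ × ℝ → ENNReal := wt (fun s => - γ s) X (T t) ρ with hf1
  set f2 : ℝ × ℝ → ENNReal := wt (fun s => - γ s) Y t ρ with hf2
  set f3 : ℝ × ℝ → ENNReal := wt γ X (T (T t)) ρ with hf3
  set f4 : ℝ × ℝ → ENNReal := wt (fun s => - γ s) Z t ρ with hf4
  set f5 : ℝ × ℝ → ENNReal := wtV γ V t ρ with hf5
  have m0 : Measurable f0 := wtV_meas cγ mW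
  have m1 : Measurable f1 := wt_meas cnγ mX
  have m2 : Measurable f2 := wt_meas cnγ mY
  have m3 : Measurable f3 := wt_meas cγ mX
  have m4 : Measurable f4 := wt_meas cnγ mZ
  have m5 : Measurable f5 := wtV_meas cγ mV
  have l0 : ∀ z, f0 z ≤ M := fun z => wtV_le z
  have l1 : ∀ z, f1 z ≤ M := fun z => wt_le z
  have l2 : ∀ z, f2 z ≤ M := fun z => wt_le z
  have l3 : ∀ z, f3 z ≤ M := fun z => wt_le z
  have l4 : ∀ z, f4 z ≤ M := fun z => wt_le z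
  have mPQ : MeasurableSet (P ∪ Q) := mP.union mQ
  have lower : ENNReal.ofReal c * (volume W * (volume X * (volume Y * (volume X * volume Z)))) ≤
      ∫⁻ z, f0 z * ∫⁻ θ₁, f1 (z + γ θ₁) * ∫⁻ θ₂, f2 (z + γ θ₁ - γ θ₂) *
        ∫⁻ θ₃, f3 (z + γ θ₁ - γ θ₂ - γ θ₃) *
          ∫⁻ θ₄, f4 (z + γ θ₁ - γ θ₂ - γ θ₃ + γ θ₄) ∂(bx (T t) ρ) ∂(bx (T t) ρ)
            ∂(bx (T (T t)) ρ) ∂(bx (T (T t)) ρ) := by
    have h1 : ENNReal.ofReal c * (volume W * (volume X * (volume Y * (volume X * volume Z)))) =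
        ∫⁻ z, (ENNReal.ofReal c * (volume X * (volume Y * (volume X * volume Z)))) * f0 z := by
      rw [lintegral_const_mul _ m0, hf0, wtV_int cγ mW fun q hq => ((hW q hq).2.1).trans hR0ρ]
      ring
    rw [h1]
    refine lintegral_mono fun z => ?_
    by_cases hz : f0 z = 0
    · rw [hz, mul_zero]
      exact zero_le
    · rw [mul_comm]
      have hne : {s : ℝ | |s - t| ≤ ρ ∧ (z - γ s, s) ∈ W}.Nonempty := by
        rw [nonempty_iff_ne_empty]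
        intro he
        apply hz
        rw [hf0]
        unfold wtV
        rw [he, measure_empty]
      obtain ⟨s, -, hsW⟩ := hne
      obtain ⟨hb, hs, -⟩ := hW _ hsW
      have hb' : ‖z - γ s‖ ≤ r := by simpa [mem_closedBall, dist_zero_right] using hb
      have hs' : |s - t| ≤ R₀ * r := hs
      have hd : ‖γ s - γ t‖ ≤ L * |s - t| := by
        rw [← dist_eq_norm]
        exact hlip s t
      have hzt : ‖z - γ t‖ ≤ (1 + L * R₀) * r := by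
        calc ‖z - γ t‖ = ‖(z - γ s) + (γ s - γ t)‖ := by congr 1; abel
          _ ≤ ‖z - γ s‖ + ‖γ s - γ t‖ := norm_add_le _ _
          _ ≤ r + L * (R₀ * r) := add_le_add hb' (hd.trans (by gcongr))
          _ = (1 + L * R₀) * r := by ring
      have := hlow t r ρ z X Y X Z ht1 hr hr1 hK1ρ mX mY mX mZ hX (hYX.trans hX) hX
        (hZX.trans hX) hzt
      gcongr
  refine lower.trans ?_
  rw [ton cγ m0 m1 m2 m3 m4 (T t) (T (T t)) ρ]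
  -- bad sets
  have bad : ∀ s : ENNReal, s = M * β → (∫⁻ z, indicator (P ∪ Q)ᶜ f1 z ≤ s) ∧
      (∫⁻ z, indicator (P ∪ Q)ᶜ f2 z ≤ s) ∧ (∫⁻ z, indicator (P ∪ Q)ᶜ f3 z ≤ s) ∧
      (∫⁻ z, indicator (P ∪ Q)ᶜ f4 z ≤ s) := by
    rintro s rfl
    refine ⟨wt_bad cnγ mX mPQ ?_, wt_bad cnγ mY mPQ ?_, wt_bad cγ mX mPQ ?_,
      wt_bad cnγ mZ mPQ ?_⟩
    · intro s hs
      simpa only [sub_neg_eq_add] using hβ2 s hs
    · intro s hs
      refine le_trans (measure_mono ?_) (hβ1 s hs)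
      rintro x ⟨hx1, hx2⟩
      exact ⟨hYX hx1, by simpa only [sub_neg_eq_add] using hx2⟩
    · intro s hs
      exact hβ3 s hs
    · intro s hs
      refine le_trans (measure_mono ?_) (hβ1 s hs)
      rintro x ⟨hx1, hx2⟩
      exact ⟨hZX hx1, by simpa only [sub_neg_eq_add] using hx2⟩
  obtain ⟨s1, s2, s3, s4⟩ := bad _ rfl
  have upper : ∀ᵐ θ ∂(bx4 (T t) (T (T t)) ρ),
      (∫⁻ z, f0 z * (f1 (z + γ θ.1) * (f2 (z + γ θ.1 - γ θ.2.1) *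
        (f3 (z + γ θ.1 - γ θ.2.1 - γ θ.2.2.1) *
          f4 (z + γ θ.1 - γ θ.2.1 - γ θ.2.2.1 + γ θ.2.2.2))))) ≤
      4 * (M ^ 4 * (M * β)) + ∫⁻ z, f0 z * (f1 (z + γ θ.1) * (f2 (z + γ θ.1 - γ θ.2.1) *
        (f3 (z + γ θ.1 - γ θ.2.1 - γ θ.2.2.1) *
          f5 (z + γ θ.1 - γ θ.2.1 - γ θ.2.2.1 + γ θ.2.2.2)))) := by
    filter_upwards [Chain_ae (T t) (T (T t)) ρ] with θ hθ
    obtain ⟨k1, k2, k3, k4⟩ := hθ
    refine Chain_five (m1.indicator mPQ.compl) (m2.indicator mPQ.compl)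
      (m3.indicator mPQ.compl) (m4.indicator mPQ.compl) s1 s2 s3 s4 (γ θ.1) (γ θ.1 - γ θ.2.1)
      (γ θ.1 - γ θ.2.1 - γ θ.2.2.1) (γ θ.1 - γ θ.2.1 - γ θ.2.2.1 + γ θ.2.2.2) fun z => ?_
    have hpt := chain_pt (X := X) (Y := Y) (Z := Z) (W := W) (V := V) hG aP aQ
      (fun q hq => (hW q hq).2.2) hV k1 k2 k3 k4 z
    refine hpt.trans ?_
    have e2 : z + (γ θ.1 - γ θ.2.1) = z + γ θ.1 - γ θ.2.1 := by abel
    have e3 : z + (γ θ.1 - γ θ.2.1 - γ θ.2.2.1) = z + γ θ.1 - γ θ.2.1 - γ θ.2.2.1 := by abel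
    have e4 : z + (γ θ.1 - γ θ.2.1 - γ θ.2.2.1 + γ θ.2.2.2) =
        z + γ θ.1 - γ θ.2.1 - γ θ.2.2.1 + γ θ.2.2.2 := by abel
    rw [e2, e3, e4]
    refine add_le_add (add_le_add (add_le_add (add_le_add ?_ ?_) ?_) ?_) le_rfl
    · exact Chain_b1 (l0 _) (l2 _) (l3 _) (l4 _)
    · exact Chain_b2 (l0 _) (l1 _) (l3 _) (l4 _)
    · exact Chain_b3 (l0 _) (l1 _) (l2 _) (l4 _)
    · exact Chain_b4 (l0 _) (l1 _) (l2 _) (l3 _)
  refine (lintegral_mono_ae upper).trans ?_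
  rw [lintegral_add_left measurable_const, lintegral_const, bx4_univ _ _ hρ.le]
  have hm := hmain t ρ ht2 hρ hρ2 M f0 f1 f2 f3 f5 m0 m5 l1 l2 l3
  have hint : (∫⁻ z, f0 z) * ∫⁻ z, f5 z ≤ volume W * volume V :=
    mul_le_mul' (wtV_int_le cγ mW) (wtV_int_le cγ mV)
  have hM5 : M ^ 3 * ENNReal.ofReal (2 * ρ) ^ 2 * ENNReal.ofReal C₂ =
      ENNReal.ofReal (C₂ * (2 * K) ^ 5 * r ^ 5) := by
    rw [hM, ← ENNReal.ofReal_pow (by positivity), ← ENNReal.ofReal_pow (by positivity),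
      ← ENNReal.ofReal_mul (by positivity), ← ENNReal.ofReal_mul (by positivity), hρdef]
    congr 1
    ring
  have hM9 : 4 * (M ^ 4 * (M * β)) * ENNReal.ofReal (2 * ρ) ^ 4 =
      ENNReal.ofReal (4 * (2 * K) ^ 9 * r ^ 9) * β := by
    have h4 : (4 : ENNReal) = ENNReal.ofReal 4 := by norm_num
    have : 4 * (M ^ 4 * (M * β)) * ENNReal.ofReal (2 * ρ) ^ 4 = 4 * M ^ 9 * β := by
      rw [← hM]
      ring
    rw [this, hM, ← ENNReal.ofReal_pow (by positivity), h4, ← ENNReal.ofReal_mul (by positivity),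
      hρdef]
    congr 2
    ring
  rw [hM9, add_comm]
  refine add_le_add ?_ ?_
  · refine hm.trans ?_
    rw [hM5]
    refine mul_le_mul' (ENNReal.ofReal_le_ofReal ?_) hint
    have : 0 ≤ 4 * (2 * K) ^ 9 * r ^ 5 := by positivity
    nlinarith
  · refine mul_le_mul' (ENNReal.ofReal_le_ofReal ?_) le_rfl
    have : 0 ≤ C₂ * (2 * K) ^ 5 * r ^ 9 := by positivity
    nlinarith

end Pool.Agent.H99M
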