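import Pool.Agent.H99M.Step
import Pool.Agent.H99M.GeoB

/-!
# The chain: lower bound

Plan. Let `L` be the Lipschitz constant of `γ` (Geo.lip). Apply `step` four times, the constant `R`
growing: at the base point `t = a` the parameters are `a`, `T a`, `T (T a)` and all determinants are
not zero (Geo.d_ab, Geo.d_bc, Geo.d_ac; use `deriv (fun s => - γ s)`, bilinearity of `det2`):
* step 1: `α = γ` at `T (T a)`, `β = - γ` at `T a`, `R₀`; gives `K₁`;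
* step 2: `α = - γ` at `T (T a)`, `β = - γ` at `a`, `R₁ = R₀ + L K₁`; gives `K₂`;
* step 3: `α = - γ` at `T a`, `β = γ` at `T (T a)`, `R₂ = R₁ + L K₂`; gives `K₃`;
* step 4: `α = γ` at `T a`, `β = - γ` at `a`, `R₃ = R₂ + L K₃`; gives `K₄`.
By continuity of `T` choose `η` such that `|t - a| ≤ η` implies that `t`, `T t`, `T (T t)` are close
enough to `a`, `T a`, `T (T a)`. By `T_two`, `γ (T (T t)) = γ (T t) - γ t`, so with `b = T t`,
`c = T (T t)`: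
* `z + γ c - γ b = z - γ t`, of norm `≤ R₀ r`;
* for `|θ₁ - c| ≤ K₁ r`, `y = z + γ θ₁` has `‖y - γ b‖ ≤ R₁ r`, and `y - γ c - γ t = y - γ b`;
* for `|θ₂ - c| ≤ K₂ r`, `z' = y - γ θ₂` has `‖z' - γ t‖ ≤ R₂ r`, and `z' - γ b + γ c = z' - γ t`;
* for `|θ₃ - b| ≤ K₃ r`, `y' = z' - γ θ₃` has `‖y' + γ c‖ ≤ R₃ r`, and `y' + γ b - γ t = y' + γ c`.
Hence the iterated integral with the windows `K₁ r, …, K₄ r` is at least
`c₁ c₂ c₃ c₄ * volume X₁ * …` (bound the innermost integral from below by the constant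
`ofReal c₄ * volume X₄`, pull it out with lintegral_mul_const / lintegral_const_mul, and so on;
measurability of the weights: `wt_meas`; use `setLIntegral_mono'` or `lintegral_mono_ae` with
`ae_restrict_iff'` because the bounds hold only on the intervals). Finally all windows may be
enlarged to the common `K = max`: `wt_mono` and monotonicity of the restricted measures
(lintegral_mono' with Measure.restrict_mono).
-/

open Set MeasureTheory Filter Topology Metric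
open Pool.Agent.Helper2.LM

namespace Pool.Agent.H99M

private theorem bx_mono {x K ρ : ℝ} (h : K ≤ ρ) : bx x K ≤ bx x ρ := by
  unfold bx
  exact Measure.restrict_mono (Icc_subset_Icc (by linarith) (by linarith)) le_rfl

/-- peel off one integral -/
private theorem peel {w w' I : ℝ → ENNReal} {x K ρ : ℝ} (h : K ≤ ρ) (hw : ∀ θ, w θ ≤ w' θ)
    (B : ENNReal) (hI : ∀ θ, |θ - x| ≤ K → B ≤ I θ) :
    (∫⁻ θ, w θ ∂(bx x K)) * B ≤ ∫⁻ θ, w' θ * I θ ∂(bx x ρ) := by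
  calc (∫⁻ θ, w θ ∂(bx x K)) * B ≤ ∫⁻ θ, w θ * B ∂(bx x K) := lintegral_mul_const_le _ _
    _ ≤ ∫⁻ θ, w' θ * I θ ∂(bx x K) := by
      unfold bx
      refine setLIntegral_mono' measurableSet_Icc ?_
      intro θ hθ
      refine mul_le_mul' (hw θ) (hI θ ?_)
      rw [abs_le]
      constructor <;> linarith [hθ.1, hθ.2]
    _ ≤ ∫⁻ θ, w' θ * I θ ∂(bx x ρ) := lintegral_mono' (bx_mono h) le_rfl

private theorem last {w w' : ℝ → ENNReal} {x K ρ : ℝ} (h : K ≤ ρ) (hw : ∀ θ, w θ ≤ w' θ) :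
    (∫⁻ θ, w θ ∂(bx x K)) ≤ ∫⁻ θ, w' θ ∂(bx x ρ) :=
  lintegral_mono' (bx_mono h) hw

private theorem det2_neg_left (u v : ℝ × ℝ) : det2 (-u) v = - det2 u v := by
  simp only [det2, Prod.fst_neg, Prod.snd_neg]
  ring

private theorem det2_neg_right (u v : ℝ × ℝ) : det2 u (-v) = - det2 u v := by
  simp only [det2, Prod.fst_neg, Prod.snd_neg]
  ring

private theorem det2_swap (u v : ℝ × ℝ) : det2 u v = - det2 v u := by
  simp only [det2]
  ring

theorem chain_lower {D : Set (ℝ × ℝ)} {γ : ℝ → ℝ × ℝ} {T : ℝ → ℝ} (hG : Geo D γ T) (a : ℝ)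
    {R₀ : ℝ} (hR₀ : 0 ≤ R₀) :
    ∃ η K c : ℝ, 0 < η ∧ 0 < K ∧ 0 < c ∧ ∀ (t r ρ : ℝ) (z : ℝ × ℝ) (X₁ X₂ X₃ X₄ : Set (ℝ × ℝ)),
      |t - a| ≤ η → 0 < r → r ≤ η → K * r ≤ ρ →
      MeasurableSet X₁ → MeasurableSet X₂ → MeasurableSet X₃ → MeasurableSet X₄ →
      X₁ ⊆ closedBall 0 r → X₂ ⊆ closedBall 0 r → X₃ ⊆ closedBall 0 r → X₄ ⊆ closedBall 0 r →
      ‖z - γ t‖ ≤ R₀ * r →
        ENNReal.ofReal c * (volume X₁ * (volume X₂ * (volume X₃ * volume X₄))) ≤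
          ∫⁻ θ₁, wt (fun s => - γ s) X₁ (T t) ρ (z + γ θ₁) *
            ∫⁻ θ₂, wt (fun s => - γ s) X₂ t ρ (z + γ θ₁ - γ θ₂) *
              ∫⁻ θ₃, wt γ X₃ (T (T t)) ρ (z + γ θ₁ - γ θ₂ - γ θ₃) *
                ∫⁻ θ₄, wt (fun s => - γ s) X₄ t ρ (z + γ θ₁ - γ θ₂ - γ θ₃ + γ θ₄)
                  ∂(bx (T t) ρ) ∂(bx (T t) ρ) ∂(bx (T (T t)) ρ) ∂(bx (T (T t)) ρ) := by
  obtain ⟨L, hL, hlip⟩ := hG.lip
  have hlip' : ∀ t s, ‖γ t - γ s‖ ≤ L * |t - s| := fun t s => by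
    rw [← dist_eq_norm]; exact hlip t s
  have hγ := hG.γ_c
  have hγn : ContDiff ℝ 1 (fun s => - γ s) := hγ.neg
  have hdn : ∀ x, deriv (fun s => - γ s) x = - deriv γ x := fun x => by
    simp
  have dab := hG.d_ab a
  have dbc := hG.d_bc a
  have dac := hG.d_ac a
  obtain ⟨η₁, K₁, c₁, hη₁, hK₁, hc₁, S₁⟩ := step (x₀ := T (T a)) (y₀ := T a) hγ hγn (by
    rw [hdn, det2_neg_right, det2_swap, neg_neg]
    exact dbc.ne') (R := R₀) hR₀
  obtain ⟨η₂, K₂, c₂, hη₂, hK₂, hc₂, S₂⟩ := step (x₀ := T (T a)) (y₀ := a) hγn hγn (by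
    rw [hdn, hdn, det2_neg_right, det2_neg_left, neg_neg, det2_swap, neg_ne_zero]
    exact dac.ne') (R := R₀ + L * K₁) (by positivity)
  obtain ⟨η₃, K₃, c₃, hη₃, hK₃, hc₃, S₃⟩ := step (x₀ := T a) (y₀ := T (T a)) hγn hγ (by
    rw [hdn, det2_neg_left, neg_ne_zero]
    exact dbc.ne') (R := R₀ + L * K₁ + L * K₂) (by positivity)
  obtain ⟨η₄, K₄, c₄, hη₄, hK₄, hc₄, S₄⟩ := step (x₀ := T a) (y₀ := a) hγ hγn (by
    rw [hdn, det2_neg_right, det2_swap, neg_neg]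
    exact dab.ne') (R := R₀ + L * K₁ + L * K₂ + L * K₃) (by positivity)
  obtain ⟨η₀, hη₀, h01, h02, h03, h04⟩ : ∃ η₀ : ℝ, 0 < η₀ ∧ η₀ ≤ η₁ ∧ η₀ ≤ η₂ ∧ η₀ ≤ η₃ ∧
      η₀ ≤ η₄ :=
    ⟨min (min η₁ η₂) (min η₃ η₄), lt_min (lt_min hη₁ hη₂) (lt_min hη₃ hη₄),
      (min_le_left _ _).trans (min_le_left _ _), (min_le_left _ _).trans (min_le_right _ _),
      (min_le_right _ _).trans (min_le_left _ _), (min_le_right _ _).trans (min_le_right _ _)⟩
  obtain ⟨δ₁, hδ₁, hT1⟩ := Metric.continuous_iff.1 hG.T_cont a η₀ hη₀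
  obtain ⟨δ₂, hδ₂, hT2⟩ := Metric.continuous_iff.1 (hG.T_cont.comp hG.T_cont) a η₀ hη₀
  obtain ⟨K, hK0, k1, k2, k3, k4⟩ : ∃ K : ℝ, 0 < K ∧ K₁ ≤ K ∧ K₂ ≤ K ∧ K₃ ≤ K ∧ K₄ ≤ K :=
    ⟨max (max K₁ K₂) (max K₃ K₄), lt_max_of_lt_left (lt_max_of_lt_left hK₁),
      (le_max_left _ _).trans (le_max_left _ _), (le_max_right _ _).trans (le_max_left _ _),
      (le_max_left _ _).trans (le_max_right _ _), (le_max_right _ _).trans (le_max_right _ _)⟩
  obtain ⟨η, hη, e0, e1, e2⟩ : ∃ η : ℝ, 0 < η ∧ η ≤ η₀ ∧ η < δ₁ ∧ η < δ₂ := by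
    refine ⟨min η₀ (min (δ₁ / 2) (δ₂ / 2)), lt_min hη₀ (lt_min (by positivity) (by positivity)),
      min_le_left _ _, ?_, ?_⟩
    · have := (min_le_right η₀ (min (δ₁ / 2) (δ₂ / 2))).trans (min_le_left _ _)
      linarith
    · have := (min_le_right η₀ (min (δ₁ / 2) (δ₂ / 2))).trans (min_le_right _ _)
      linarith
  refine ⟨η, K, c₁ * (c₂ * (c₃ * c₄)), hη, hK0, by positivity, ?_⟩
  intro t r ρ z X₁ X₂ X₃ X₄ ht hr hrη hKρ m1 m2 m3 m4 s1 s2 s3 s4 hz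
  have tb : |T t - T a| ≤ η₀ := by
    have := hT1 t (by rw [Real.dist_eq]; linarith)
    rw [Real.dist_eq] at this
    exact this.le
  have tc : |T (T t) - T (T a)| ≤ η₀ := by
    have := hT2 t (by rw [Real.dist_eq]; linarith)
    rw [Real.dist_eq] at this
    exact this.le
  have htwo := hG.T_two t
  have q1 : K₁ * r ≤ ρ := (mul_le_mul_of_nonneg_right k1 hr.le).trans hKρ
  have q2 : K₂ * r ≤ ρ := (mul_le_mul_of_nonneg_right k2 hr.le).trans hKρ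
  have q3 : K₃ * r ≤ ρ := (mul_le_mul_of_nonneg_right k3 hr.le).trans hKρ
  have q4 : K₄ * r ≤ ρ := (mul_le_mul_of_nonneg_right k4 hr.le).trans hKρ
  have move : ∀ (u v : ℝ) (M : ℝ), |u - v| ≤ M * r → ‖γ u - γ v‖ ≤ L * M * r := by
    intro u v M huv
    refine (hlip' u v).trans ?_
    calc L * |u - v| ≤ L * (M * r) := by gcongr
      _ = L * M * r := by ring
  have hcc : ENNReal.ofReal (c₁ * (c₂ * (c₃ * c₄))) * (volume X₁ * (volume X₂ * (volume X₃ *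
      volume X₄))) = (ENNReal.ofReal c₁ * volume X₁) * ((ENNReal.ofReal c₂ * volume X₂) *
        ((ENNReal.ofReal c₃ * volume X₃) * (ENNReal.ofReal c₄ * volume X₄))) := by
    rw [ENNReal.ofReal_mul hc₁.le, ENNReal.ofReal_mul hc₂.le, ENNReal.ofReal_mul hc₃.le]
    ring
  rw [hcc]
  -- step 1
  have A1 := S₁ (T (T t)) (T t) r X₁ z (by linarith) (by linarith) hr (by linarith) m1 s1 (by
    have e : z + γ (T (T t)) + (fun s => - γ s) (T t) = z - γ t := by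
      simp only []
      rw [htwo]
      abel
    rw [e]
    exact hz)
  refine (mul_le_mul_left A1 _).trans (peel q1 (fun θ => wt_mono q1 _) _ ?_)
  intro θ₁ hθ₁
  -- step 2
  have n1 : ‖z + γ θ₁ - γ (T t)‖ ≤ (R₀ + L * K₁) * r := by
    have e : z + γ θ₁ - γ (T t) = (z - γ t) + (γ θ₁ - γ (T (T t))) := by rw [htwo]; abel
    rw [e]
    refine (norm_add_le _ _).trans ?_
    have := move θ₁ (T (T t)) K₁ hθ₁
    linarith
  have A2 := S₂ (T (T t)) t r X₂ (z + γ θ₁) (by linarith) (by linarith) hr (by linarith) m2 s2 (by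
    have e : z + γ θ₁ + (fun s => - γ s) (T (T t)) + (fun s => - γ s) t = z + γ θ₁ - γ (T t) := by
      simp only []
      rw [htwo]
      abel
    rw [e]
    exact n1)
  simp only [← sub_eq_add_neg] at A2
  refine (mul_le_mul_left A2 _).trans (peel q2 (fun θ => wt_mono q2 _) _ ?_)
  intro θ₂ hθ₂
  -- step 3
  have n2 : ‖z + γ θ₁ - γ θ₂ - γ t‖ ≤ (R₀ + L * K₁ + L * K₂) * r := by
    have e : z + γ θ₁ - γ θ₂ - γ t = (z + γ θ₁ - γ (T t)) - (γ θ₂ - γ (T (T t))) := by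
      rw [htwo]; abel
    rw [e]
    refine (norm_sub_le _ _).trans ?_
    have := move θ₂ (T (T t)) K₂ hθ₂
    linarith
  have A3 := S₃ (T t) (T (T t)) r X₃ (z + γ θ₁ - γ θ₂) (by linarith) (by linarith) hr
    (by linarith) m3 s3 (by
    have e : z + γ θ₁ - γ θ₂ + (fun s => - γ s) (T t) + γ (T (T t)) = z + γ θ₁ - γ θ₂ - γ t := by
      simp only []
      rw [htwo]
      abel
    rw [e]
    exact n2)
  simp only [← sub_eq_add_neg] at A3
  refine (mul_le_mul_left A3 _).trans (peel q3 (fun θ => wt_mono q3 _) _ ?_)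
  intro θ₃ hθ₃
  -- step 4
  have n3 : ‖z + γ θ₁ - γ θ₂ - γ θ₃ + γ (T (T t))‖ ≤ (R₀ + L * K₁ + L * K₂ + L * K₃) * r := by
    have e : z + γ θ₁ - γ θ₂ - γ θ₃ + γ (T (T t)) =
        (z + γ θ₁ - γ θ₂ - γ t) - (γ θ₃ - γ (T t)) := by
      rw [htwo]; abel
    rw [e]
    refine (norm_sub_le _ _).trans ?_
    have := move θ₃ (T t) K₃ hθ₃
    linarith
  have A4 := S₄ (T t) t r X₄ (z + γ θ₁ - γ θ₂ - γ θ₃) (by linarith) (by linarith) hr
    (by linarith) m4 s4 (by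
    have e : z + γ θ₁ - γ θ₂ - γ θ₃ + γ (T t) + (fun s => - γ s) t =
        z + γ θ₁ - γ θ₂ - γ θ₃ + γ (T (T t)) := by
      simp only []
      rw [htwo]
      abel
    rw [e]
    exact n3)
  exact A4.trans (last q4 (fun θ => wt_mono q4 _))

end Pool.Agent.H99M
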