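import Pool.Agent.H99M.WtB

/-!
# The chain: Tonelli

Plan. Put `Φ z θ = f0 z * (f1 (z + γ θ.1) * (f2 (…) * (f3 (…) * f4 (…))))`, a measurable function on
`(ℝ × ℝ) × (ℝ × ℝ × ℝ × ℝ)`. For fixed `z` pull constants into the integrals
(`lintegral_const_mul`, measurability of the inner integrals by
`Measurable.lintegral_prod_right'`) and use `MeasureTheory.lintegral_prod` three times for
`bx4 b c ρ`; then swap `z` and `θ` with `MeasureTheory.lintegral_lintegral_swap`. `bx x ρ` is a finite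
measure (restriction of Lebesgue measure to a bounded interval), so all measures are s-finite.
`bx4_univ`: `Measure.prod_apply`/`Measure.prod_prod` on `univ`, `Real.volume_Icc`.
-/

open Set MeasureTheory Filter Topology Metric
open Pool.Agent.Helper2.LM

namespace Pool.Agent.H99M

instance bx_finite (x ρ : ℝ) : IsFiniteMeasure (bx x ρ) := by
  unfold bx
  infer_instance

instance bx4_finite (b c ρ : ℝ) : IsFiniteMeasure (bx4 b c ρ) := by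
  unfold bx4
  infer_instance

theorem bx_univ (x : ℝ) {ρ : ℝ} (hρ : 0 ≤ ρ) : bx x ρ univ = ENNReal.ofReal (2 * ρ) := by
  unfold bx
  rw [Measure.restrict_apply_univ, Real.volume_Icc]
  congr 1
  ring

theorem bx4_univ (b c : ℝ) {ρ : ℝ} (hρ : 0 ≤ ρ) :
    bx4 b c ρ univ = ENNReal.ofReal (2 * ρ) ^ 4 := by
  unfold bx4
  rw [← univ_prod_univ, Measure.prod_prod, ← univ_prod_univ, Measure.prod_prod,
    ← univ_prod_univ, Measure.prod_prod, bx_univ _ hρ, bx_univ _ hρ]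
  ring

private theorem chainT_prod {F : ℝ × ℝ × ℝ × ℝ → ENNReal} (hF : Measurable F) (b c ρ : ℝ) :
    ∫⁻ θ, F θ ∂(bx4 b c ρ) = ∫⁻ θ₁, ∫⁻ θ₂, ∫⁻ θ₃, ∫⁻ θ₄, F (θ₁, θ₂, θ₃, θ₄)
      ∂(bx b ρ) ∂(bx b ρ) ∂(bx c ρ) ∂(bx c ρ) := by
  unfold bx4
  rw [lintegral_prod _ hF.aemeasurable]
  refine lintegral_congr fun θ₁ => ?_
  have h1 : Measurable fun q : ℝ × ℝ × ℝ => F (θ₁, q) := hF.comp measurable_prodMk_left
  rw [lintegral_prod _ h1.aemeasurable]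
  refine lintegral_congr fun θ₂ => ?_
  have h2 : Measurable fun q : ℝ × ℝ => F (θ₁, θ₂, q) := h1.comp measurable_prodMk_left
  rw [lintegral_prod _ h2.aemeasurable]

private theorem chainT_add {γ : ℝ → ℝ × ℝ} (hγ : Measurable γ) {g : ℝ × ℝ → ENNReal}
    (hg : Measurable g) (x ρ : ℝ) : Measurable fun w : ℝ × ℝ => ∫⁻ θ, g (w + γ θ) ∂(bx x ρ) := by
  have h : Measurable fun q : (ℝ × ℝ) × ℝ => g (q.1 + γ q.2) := hg.comp (by fun_prop)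
  exact h.lintegral_prod_right'

private theorem chainT_sub {γ : ℝ → ℝ × ℝ} (hγ : Measurable γ) {g : ℝ × ℝ → ENNReal}
    (hg : Measurable g) (x ρ : ℝ) : Measurable fun w : ℝ × ℝ => ∫⁻ θ, g (w - γ θ) ∂(bx x ρ) := by
  have h : Measurable fun q : (ℝ × ℝ) × ℝ => g (q.1 - γ q.2) := hg.comp (by fun_prop)
  exact h.lintegral_prod_right'

theorem ton {γ : ℝ → ℝ × ℝ} (hγ : Continuous γ) {f0 f1 f2 f3 f4 : ℝ × ℝ → ENNReal}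
    (h0 : Measurable f0) (h1 : Measurable f1) (h2 : Measurable f2) (h3 : Measurable f3)
    (h4 : Measurable f4) (b c ρ : ℝ) :
    ∫⁻ z, f0 z * ∫⁻ θ₁, f1 (z + γ θ₁) * ∫⁻ θ₂, f2 (z + γ θ₁ - γ θ₂) *
      ∫⁻ θ₃, f3 (z + γ θ₁ - γ θ₂ - γ θ₃) *
        ∫⁻ θ₄, f4 (z + γ θ₁ - γ θ₂ - γ θ₃ + γ θ₄) ∂(bx b ρ) ∂(bx b ρ) ∂(bx c ρ) ∂(bx c ρ) =
    ∫⁻ θ, (∫⁻ z, f0 z * (f1 (z + γ θ.1) * (f2 (z + γ θ.1 - γ θ.2.1) *
      (f3 (z + γ θ.1 - γ θ.2.1 - γ θ.2.2.1) *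
        f4 (z + γ θ.1 - γ θ.2.1 - γ θ.2.2.1 + γ θ.2.2.2))))) ∂(bx4 b c ρ) := by
  have hγm : Measurable γ := hγ.measurable
  have m4 : Measurable fun w : ℝ × ℝ => ∫⁻ θ₄, f4 (w + γ θ₄) ∂(bx b ρ) :=
    chainT_add hγm h4 b ρ
  have g3 : Measurable fun w : ℝ × ℝ => f3 w * ∫⁻ θ₄, f4 (w + γ θ₄) ∂(bx b ρ) := h3.mul m4
  have m3 : Measurable fun w : ℝ × ℝ => ∫⁻ θ₃, f3 (w - γ θ₃) *
      ∫⁻ θ₄, f4 (w - γ θ₃ + γ θ₄) ∂(bx b ρ) ∂(bx b ρ) := chainT_sub hγm g3 b ρ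
  have g2 : Measurable fun w : ℝ × ℝ => f2 w * ∫⁻ θ₃, f3 (w - γ θ₃) *
      ∫⁻ θ₄, f4 (w - γ θ₃ + γ θ₄) ∂(bx b ρ) ∂(bx b ρ) := h2.mul m3
  have m2 : Measurable fun w : ℝ × ℝ => ∫⁻ θ₂, f2 (w - γ θ₂) * ∫⁻ θ₃, f3 (w - γ θ₂ - γ θ₃) *
      ∫⁻ θ₄, f4 (w - γ θ₂ - γ θ₃ + γ θ₄) ∂(bx b ρ) ∂(bx b ρ) ∂(bx c ρ) := chainT_sub hγm g2 c ρ
  have g1 : Measurable fun w : ℝ × ℝ => f1 w * ∫⁻ θ₂, f2 (w - γ θ₂) *
      ∫⁻ θ₃, f3 (w - γ θ₂ - γ θ₃) *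
      ∫⁻ θ₄, f4 (w - γ θ₂ - γ θ₃ + γ θ₄) ∂(bx b ρ) ∂(bx b ρ) ∂(bx c ρ) := h1.mul m2
  have i4 : ∀ w : ℝ × ℝ, Measurable fun θ => f4 (w + γ θ) := fun w => h4.comp (by fun_prop)
  have i3 : ∀ w : ℝ × ℝ, Measurable fun θ₃ => f3 (w - γ θ₃) *
      ∫⁻ θ₄, f4 (w - γ θ₃ + γ θ₄) ∂(bx b ρ) := fun w =>
    g3.comp (by fun_prop : Measurable fun θ => w - γ θ)
  have i2 : ∀ w : ℝ × ℝ, Measurable fun θ₂ => f2 (w - γ θ₂) * ∫⁻ θ₃, f3 (w - γ θ₂ - γ θ₃) *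
      ∫⁻ θ₄, f4 (w - γ θ₂ - γ θ₃ + γ θ₄) ∂(bx b ρ) ∂(bx b ρ) := fun w =>
    g2.comp (by fun_prop : Measurable fun θ => w - γ θ)
  have i1 : ∀ w : ℝ × ℝ, Measurable fun θ₁ => f1 (w + γ θ₁) * ∫⁻ θ₂, f2 (w + γ θ₁ - γ θ₂) *
      ∫⁻ θ₃, f3 (w + γ θ₁ - γ θ₂ - γ θ₃) *
      ∫⁻ θ₄, f4 (w + γ θ₁ - γ θ₂ - γ θ₃ + γ θ₄) ∂(bx b ρ) ∂(bx b ρ) ∂(bx c ρ) := fun w =>
    g1.comp (by fun_prop : Measurable fun θ => w + γ θ)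
  have hF : Measurable fun q : (ℝ × ℝ) × (ℝ × ℝ × ℝ × ℝ) =>
      f0 q.1 * (f1 (q.1 + γ q.2.1) * (f2 (q.1 + γ q.2.1 - γ q.2.2.1) *
      (f3 (q.1 + γ q.2.1 - γ q.2.2.1 - γ q.2.2.2.1) *
        f4 (q.1 + γ q.2.1 - γ q.2.2.1 - γ q.2.2.2.1 + γ q.2.2.2.2)))) :=
    (h0.comp measurable_fst).mul ((h1.comp (by fun_prop)).mul ((h2.comp (by fun_prop)).mul
      ((h3.comp (by fun_prop)).mul (h4.comp (by fun_prop)))))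
  have key : ∀ z : ℝ × ℝ, (f0 z * ∫⁻ θ₁, f1 (z + γ θ₁) * ∫⁻ θ₂, f2 (z + γ θ₁ - γ θ₂) *
      ∫⁻ θ₃, f3 (z + γ θ₁ - γ θ₂ - γ θ₃) *
        ∫⁻ θ₄, f4 (z + γ θ₁ - γ θ₂ - γ θ₃ + γ θ₄) ∂(bx b ρ) ∂(bx b ρ) ∂(bx c ρ) ∂(bx c ρ)) =
      ∫⁻ θ, f0 z * (f1 (z + γ θ.1) * (f2 (z + γ θ.1 - γ θ.2.1) *
      (f3 (z + γ θ.1 - γ θ.2.1 - γ θ.2.2.1) *
        f4 (z + γ θ.1 - γ θ.2.1 - γ θ.2.2.1 + γ θ.2.2.2)))) ∂(bx4 b c ρ) := by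
    intro z
    have hFz : Measurable fun θ : ℝ × ℝ × ℝ × ℝ => f0 z * (f1 (z + γ θ.1) *
      (f2 (z + γ θ.1 - γ θ.2.1) * (f3 (z + γ θ.1 - γ θ.2.1 - γ θ.2.2.1) *
        f4 (z + γ θ.1 - γ θ.2.1 - γ θ.2.2.1 + γ θ.2.2.2)))) := hF.comp measurable_prodMk_left
    rw [chainT_prod hFz, ← lintegral_const_mul _ (i1 z)]
    refine lintegral_congr fun θ₁ => ?_
    rw [← lintegral_const_mul _ (i2 _), ← lintegral_const_mul _ ((i2 _).const_mul _)]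
    refine lintegral_congr fun θ₂ => ?_
    rw [← lintegral_const_mul _ (i3 _), ← lintegral_const_mul _ ((i3 _).const_mul _),
      ← lintegral_const_mul _ (((i3 _).const_mul _).const_mul _)]
    refine lintegral_congr fun θ₃ => ?_
    rw [← lintegral_const_mul _ (i4 _), ← lintegral_const_mul _ ((i4 _).const_mul _),
      ← lintegral_const_mul _ (((i4 _).const_mul _).const_mul _),
      ← lintegral_const_mul _ ((((i4 _).const_mul _).const_mul _).const_mul _)]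
  rw [lintegral_congr key]
  exact lintegral_lintegral_swap hF.aemeasurable

end Pool.Agent.H99M
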