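import Pool.Agent.H99M.DensB

/-!
# Two classes visible at the same scales

Plan. Write `a n = dens (A i) n x`, `b n = dens (A j) n x`. By `sum_dens` (M1.lean) and the
hypothesis on the other classes, `a n + b n → 1` (the sum over the other indices tends to zero, see
the proof of two_classes in M1.lean). Since `closedBall x (rad (n + 1)) ⊆ closedBall x (rad n)` and
the volumes differ by the factor `4` (m2_vol_rad, m2_vol_rad_succ in M2.lean): `a (n + 1) ≤ 4 * a n`
and `b (n + 1) ≤ 4 * b n`. Suppose the conclusion fails for every `c > 0`: eventually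
`a n < c ∨ b n < c`. Take `c = 1/100`; for `n ≥ N₀` also `a n + b n > 99/100`, so if `a n < 1/100` then
`a (n + 1) < 4/100`, hence not `a (n + 1) > 98/100`, so not `b (n + 1) < 1/100`, so
`a (n + 1) < 1/100`: by induction one and the same of `a`, `b` is `< 1/100` for all `n ≥ N₀`, say `a`.
Then for every `0 < c ≤ 1/100` eventually `a n < c` (as `b n ≥ 98/100`), so `a → 0`, contradiction
with `¬ Dens0 (A i) x`. It may be convenient to work with `(dens ..).toReal` (all are `≤ 1`).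
-/

open Set MeasureTheory Filter Topology Metric
open Pool.Agent.Helper2.LM

namespace Pool.Agent.H99M

private theorem ctra_step {a b : ℕ → ℝ} (hs : ∀ n, a (n + 1) ≤ 4 * a n) {N : ℕ}
    (hN : ∀ n, N ≤ n → (a n < 1 / 100 ∨ b n < 1 / 100) ∧ 99 / 100 < a n + b n)
    (h0 : a N < 1 / 100) : ∀ n, N ≤ n → a n < 1 / 100 := by
  intro n hn
  induction n, hn using Nat.le_induction with
  | base => exact h0
  | succ n hn ih =>
    have h1 := hs n
    obtain ⟨h2, h3⟩ := hN (n + 1) (by omega)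
    rcases h2 with h2 | h2
    · exact h2
    · linarith

private theorem ctra_zero {a b : ℕ → ℝ} (ha : ∀ n, 0 ≤ a n) (hs : ∀ n, a (n + 1) ≤ 4 * a n)
    {N : ℕ} (hN : ∀ n, N ≤ n → (a n < 1 / 100 ∨ b n < 1 / 100) ∧ 99 / 100 < a n + b n)
    (hc : ∀ c : ℝ, 0 < c → ∀ᶠ n in atTop, ¬ (c ≤ a n ∧ c ≤ b n))
    (h0 : a N < 1 / 100) : Tendsto a atTop (𝓝 0) := by
  have h1 := ctra_step hs hN h0
  rw [Metric.tendsto_atTop']
  intro ε hε
  obtain ⟨M, hM⟩ := eventually_atTop.1 (hc (min ε (1 / 100)) (lt_min hε (by norm_num)))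
  refine ⟨max M N, fun n hn => ?_⟩
  have hMn : M ≤ n := (le_max_left M N).trans hn.le
  have hNn : N ≤ n := (le_max_right M N).trans hn.le
  have h2 := hM n hMn
  have h3 := (hN n hNn).2
  have h4 := h1 n hNn
  have h5 : min ε (1 / 100) ≤ b n := (min_le_right _ _).trans (by linarith)
  have h6 : a n < min ε (1 / 100) := by
    by_contra hcon
    exact h2 ⟨not_lt.1 hcon, h5⟩
  rw [Real.dist_eq, sub_zero, abs_of_nonneg (ha n)]
  exact h6.trans_le (min_le_left _ _)

private theorem ctra_real {a b : ℕ → ℝ} (ha : ∀ n, 0 ≤ a n) (hb : ∀ n, 0 ≤ b n)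
    (hab : Tendsto (fun n => a n + b n) atTop (𝓝 1))
    (hsa : ∀ n, a (n + 1) ≤ 4 * a n) (hsb : ∀ n, b (n + 1) ≤ 4 * b n)
    (hna : ¬ Tendsto a atTop (𝓝 0)) (hnb : ¬ Tendsto b atTop (𝓝 0)) :
    ∃ c : ℝ, 0 < c ∧ ∃ᶠ n in atTop, c ≤ a n ∧ c ≤ b n := by
  by_contra hcon
  push Not at hcon
  have hc : ∀ c : ℝ, 0 < c → ∀ᶠ n in atTop, ¬ (c ≤ a n ∧ c ≤ b n) := by
    intro c hc0
    have := hcon c hc0
    filter_upwards [this] with n hn h
    exact absurd h.2 (not_le.2 (hn h.1))
  have h1 := hc (1 / 100) (by norm_num)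
  have h2 : ∀ᶠ n in atTop, 99 / 100 < a n + b n :=
    hab.eventually (lt_mem_nhds (by norm_num))
  obtain ⟨N, hN⟩ := eventually_atTop.1 (h1.and h2)
  have hN1 : ∀ n, N ≤ n → (a n < 1 / 100 ∨ b n < 1 / 100) ∧ 99 / 100 < a n + b n := by
    intro n hn
    refine ⟨?_, (hN n hn).2⟩
    by_contra h
    push Not at h
    exact (hN n hn).1 h
  rcases (hN1 N le_rfl).1 with h | h
  · exact hna (ctra_zero ha hsa hN1 hc h)
  · refine hnb (ctra_zero (a := b) (b := a) hb hsb (N := N) (fun n hn => ?_)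
      (fun c hc0 => ?_) h)
    · exact ⟨(hN1 n hn).1.symm, by rw [add_comm]; exact (hN1 n hn).2⟩
    · filter_upwards [hc c hc0] with n hn h'
      exact hn ⟨h'.2, h'.1⟩

private theorem ctra_rad_pos (n : ℕ) : 0 < rad n := by
  unfold rad
  positivity

private theorem ctra_le_one (B : Set (ℝ × ℝ)) (n : ℕ) (x : ℝ × ℝ) : dens B n x ≤ 1 := by
  unfold dens
  refine ENNReal.div_le_of_le_mul ?_
  rw [one_mul]
  exact measure_mono inter_subset_right

private theorem ctra_ne_top (B : Set (ℝ × ℝ)) (n : ℕ) (x : ℝ × ℝ) : dens B n x ≠ ⊤ :=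
  ((ctra_le_one B n x).trans_lt ENNReal.one_lt_top).ne

private theorem ctra_vol_eq (B : Set (ℝ × ℝ)) (n : ℕ) (x : ℝ × ℝ) :
    volume (B ∩ closedBall x (rad n)) = dens B n x * ENNReal.ofReal (4 * rad n ^ 2) := by
  have hp := ctra_rad_pos n
  unfold dens
  rw [vol_ball x hp.le, ENNReal.div_mul_cancel (ENNReal.ofReal_pos.2 (by positivity)).ne'
    ENNReal.ofReal_ne_top]

private theorem ctra_succ (B : Set (ℝ × ℝ)) (n : ℕ) (x : ℝ × ℝ) :
    dens B (n + 1) x ≤ 4 * dens B n x := by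
  have hp := ctra_rad_pos (n + 1)
  have hr : rad n = 2 * rad (n + 1) := by
    unfold rad
    rw [pow_succ]
    ring
  have h1 : volume (B ∩ closedBall x (rad (n + 1))) ≤ volume (B ∩ closedBall x (rad n)) := by
    refine measure_mono (inter_subset_inter_right _ (closedBall_subset_closedBall ?_))
    rw [hr]
    linarith
  rw [ctra_vol_eq, ctra_vol_eq, hr] at h1
  have h2 : ENNReal.ofReal (4 * (2 * rad (n + 1)) ^ 2) =
      4 * ENNReal.ofReal (4 * rad (n + 1) ^ 2) := by
    rw [show (4 : ENNReal) = ENNReal.ofReal 4 by simp, ← ENNReal.ofReal_mul (by norm_num)]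
    congr 1
    ring
  rw [h2, ← mul_assoc, mul_comm (dens B n x) 4] at h1
  exact (ENNReal.mul_le_mul_iff_left (ENNReal.ofReal_pos.2 (by positivity)).ne'
    ENNReal.ofReal_ne_top).1 h1

private theorem ctra_vol_ge {B : Set (ℝ × ℝ)} {n : ℕ} {x : ℝ × ℝ} {c : ℝ} (hc : 0 < c)
    (h : c ≤ (dens B n x).toReal) :
    ENNReal.ofReal (c * rad n ^ 2) ≤ volume (B ∩ closedBall x (rad n)) := by
  have hp := ctra_rad_pos n
  rw [ctra_vol_eq]
  have h1 : ENNReal.ofReal c ≤ dens B n x := ENNReal.ofReal_le_of_le_toReal h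
  calc ENNReal.ofReal (c * rad n ^ 2) ≤ ENNReal.ofReal (c * (4 * rad n ^ 2)) := by
        refine ENNReal.ofReal_le_ofReal ?_
        refine mul_le_mul_of_nonneg_left ?_ hc.le
        nlinarith [sq_nonneg (rad n)]
    _ = ENNReal.ofReal c * ENNReal.ofReal (4 * rad n ^ 2) := ENNReal.ofReal_mul hc.le
    _ ≤ _ := mul_le_mul_left h1 _

theorem both_scales {D : Set (ℝ × ℝ)} {A : Fin 4 → Set (ℝ × ℝ)} (h : Avoid D A) {x : ℝ × ℝ}
    {i j : Fin 4} (hij : i ≠ j) (hi : ¬ Dens0 (A i) x) (hj : ¬ Dens0 (A j) x)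
    (ho : ∀ k, k ≠ i → k ≠ j → Dens0 (A k) x) :
    ∃ c : ℝ, 0 < c ∧ ∃ᶠ n in atTop,
      ENNReal.ofReal (c * rad n ^ 2) ≤ volume (A i ∩ closedBall x (rad n)) ∧
        ENNReal.ofReal (c * rad n ^ 2) ≤ volume (A j ∩ closedBall x (rad n)) := by
  have key : ∃ c : ℝ, 0 < c ∧ ∃ᶠ n in atTop, c ≤ (dens (A i) n x).toReal ∧
      c ≤ (dens (A j) n x).toReal := by
    have tr : ∀ k, Dens0 (A k) x ↔ Tendsto (fun n => (dens (A k) n x).toReal) atTop (𝓝 0) := by
      intro k
      have := ENNReal.tendsto_toReal_iff (f := fun n => dens (A k) n x) (x := 0)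
        (fi := atTop) (fun n => ctra_ne_top (A k) n x) ENNReal.zero_ne_top
      rw [ENNReal.toReal_zero] at this
      exact this.symm
    refine ctra_real (a := fun n => (dens (A i) n x).toReal)
      (b := fun n => (dens (A j) n x).toReal) (fun n => ENNReal.toReal_nonneg)
      (fun n => ENNReal.toReal_nonneg) ?_ ?_ ?_ (fun h' => hi ((tr i).2 h'))
      (fun h' => hj ((tr j).2 h'))
    · have h1 : Tendsto (fun n => ∑ k ∈ (Finset.univ.erase i).erase j,
          (dens (A k) n x).toReal) atTop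
          (𝓝 (∑ k ∈ (Finset.univ.erase i).erase j, (0 : ℝ))) := by
        refine tendsto_finsetSum _ fun k hk => ?_
        have hk1 := Finset.ne_of_mem_erase hk
        have hk2 := Finset.ne_of_mem_erase (Finset.mem_of_mem_erase hk)
        exact (tr k).1 (ho k hk2 hk1)
      rw [Finset.sum_const_zero] at h1
      have h2 : ∀ n, (dens (A i) n x).toReal + (dens (A j) n x).toReal =
          1 - ∑ k ∈ (Finset.univ.erase i).erase j, (dens (A k) n x).toReal := by
        intro n
        have h3 := sum_dens h n x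
        have h4 : (∑ k, dens (A k) n x).toReal = 1 := by rw [h3]; simp
        rw [ENNReal.toReal_sum (fun k _ => ctra_ne_top (A k) n x),
          ← Finset.add_sum_erase _ _ (Finset.mem_univ i),
          ← Finset.add_sum_erase (Finset.univ.erase i) _
            (Finset.mem_erase.2 ⟨hij.symm, Finset.mem_univ j⟩)] at h4
        linarith
      have h5 : Tendsto (fun n => 1 - ∑ k ∈ (Finset.univ.erase i).erase j,
          (dens (A k) n x).toReal) atTop (𝓝 (1 - 0)) := tendsto_const_nhds.sub h1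
      rw [sub_zero] at h5
      exact h5.congr (fun n => (h2 n).symm)
    · intro n
      have h1 := ENNReal.toReal_mono (ENNReal.mul_ne_top (by norm_num) (ctra_ne_top (A i) n x))
        (ctra_succ (A i) n x)
      rw [ENNReal.toReal_mul] at h1
      simpa using h1
    · intro n
      have h1 := ENNReal.toReal_mono (ENNReal.mul_ne_top (by norm_num) (ctra_ne_top (A j) n x))
        (ctra_succ (A j) n x)
      rw [ENNReal.toReal_mul] at h1
      simpa using h1
  obtain ⟨c, hc, hf⟩ := key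
  exact ⟨c, hc, hf.mono fun n hn => ⟨ctra_vol_ge hc hn.1, ctra_vol_ge hc hn.2⟩⟩

end Pool.Agent.H99M
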