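import Pool.Agent.H99M.CtrA
import Pool.Agent.H99M.GeoB

/-!
# A good centre, moved to the origin

Plan. (1) Good centre `x`: `x ∈ Mix A` and `∀ᵐ t, x + γ t ∉ Mix A`; copy the proof of
`exists_good` in Pool/Agent/Helper2/LM/M4.lean (`mix_nonempty`, `null_sum hG.γ_c hG.γ_c (mix_null h)`,
`Geo.dir`; `deriv γ t ≠ 0` by `Geo.d_ab`). (2) `two_classes` gives `i ≠ j` not of density zero at `x`.
Let `m ≠ m'` be the other two indices (`decide` or `fin_cases`). For almost every `t` there is `k`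
with `Dens1 (A k) (x + γ t)` (`not_mix`), and `k ≠ i, j` by `key` (M4.lean), so `k = m` or `k = m'`.
(3) For almost every `t` this holds for `t` and for `T t` (Geo.ae_T); the two indices are different by
`key` because `γ (T t) - γ t = γ (T (T t)) ∈ D`; so there are `t, t'` with `Dens1 (A m) (x + γ t)` and
`Dens1 (A m') (x + γ t')`; by `key` (contrapositive) `A m` and `A m'` have density zero at `x`.
(4) `both_scales` at `x`. (5) Translate: `E = {z | x + z ∈ A i}`, `F = {z | x + z ∈ A j}`,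
`P = {z | x + z ∈ A m}`, `Q = {z | x + z ∈ A m'}`. The proportion of `{z | x + z ∈ B}` around `z` is
the proportion of `B` around `x + z` (measure_preimage_add; see `htr` in the proof of far_aux in
M1.lean), so `Dens0`, `Dens1` and volumes of intersections with balls are transported; `cover`:
quasi measure preserving translation (for instance
`(measurePreserving_add_left volume x).quasiMeasurePreserving.ae`).
-/

open Set MeasureTheory Filter Topology Metric
open Pool.Agent.Helper2.LM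

namespace Pool.Agent.H99M

private theorem ctrB_idx : ∀ i j : Fin 4, i ≠ j → ∃ m m' : Fin 4, m ≠ m' ∧ m ≠ i ∧ m ≠ j ∧
    m' ≠ i ∧ m' ≠ j ∧ ∀ k, k = i ∨ k = j ∨ k = m ∨ k = m' := by
  decide

private theorem ctrB_vtr (B : Set (ℝ × ℝ)) (x z : ℝ × ℝ) (r : ℝ) :
    volume ({w | x + w ∈ B} ∩ closedBall z r) = volume (B ∩ closedBall (x + z) r) := by
  have e : {w | x + w ∈ B} ∩ closedBall z r =
      (fun w => x + w) ⁻¹' (B ∩ closedBall (x + z) r) := by
    ext w
    simp [mem_closedBall, dist_eq_norm]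
  rw [e, measure_preimage_add]

private theorem ctrB_dtr (B : Set (ℝ × ℝ)) (x z : ℝ × ℝ) (n : ℕ) :
    dens {w | x + w ∈ B} n z = dens B n (x + z) := by
  unfold dens
  rw [ctrB_vtr, Measure.addHaar_closedBall_center volume z (rad n),
    Measure.addHaar_closedBall_center volume (x + z) (rad n)]

private theorem ctrB_d1 (B : Set (ℝ × ℝ)) (x z : ℝ × ℝ) :
    Dens1 {w | x + w ∈ B} z ↔ Dens1 B (x + z) := by
  unfold Dens1
  simp only [ctrB_dtr]

private theorem ctrB_d0 (B : Set (ℝ × ℝ)) (x z : ℝ × ℝ) :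
    Dens0 {w | x + w ∈ B} z ↔ Dens0 B (x + z) := by
  unfold Dens0
  simp only [ctrB_dtr]

private theorem ctrB_good {D : Set (ℝ × ℝ)} {γ : ℝ → ℝ × ℝ} {T : ℝ → ℝ}
    {A : Fin 4 → Set (ℝ × ℝ)} (hG : Geo D γ T) (h : Avoid D A) :
    ∃ x, x ∈ Mix A ∧ ∀ᵐ t : ℝ, x + γ t ∉ Mix A := by
  obtain ⟨x0, hx0⟩ := mix_nonempty h ⟨_, hG.mem 0⟩
  by_cases hn : ∀ᵐ t : ℝ, x0 + γ t ∉ Mix A
  · exact ⟨x0, hx0, hn⟩
  · have h1 := null_sum hG.γ_c hG.γ_c (mix_null h) x0
    have h2 : ∀ᵐ s : ℝ, ∀ᵐ t : ℝ, x0 + γ s + γ t ∉ Mix A := by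
      filter_upwards [h1] with s hs
      have hs' : deriv γ s ≠ 0 := by
        intro h0
        have := hG.d_ab s
        rw [h0] at this
        simp [det2] at this
      filter_upwards [hs, hG.dir hs'] with t ht ht'
      exact ht ht'
    have h3 : ∃ᶠ t : ℝ in ae volume, x0 + γ t ∈ Mix A := fun h' => hn h'
    obtain ⟨s, hs1, hs2⟩ := (h3.and_eventually h2).exists
    exact ⟨x0 + γ s, hs1, hs2⟩

theorem exists_ctx {D : Set (ℝ × ℝ)} {γ : ℝ → ℝ × ℝ} {T : ℝ → ℝ} {A : Fin 4 → Set (ℝ × ℝ)}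
    (hG : Geo D γ T) (h : Avoid D A) : ∃ E F P Q : Set (ℝ × ℝ), Ctx D γ E F P Q := by
  obtain ⟨x, hx, hn⟩ := ctrB_good hG h
  obtain ⟨i, j, hij, hi, hj⟩ := two_classes h hx
  obtain ⟨m, m', hmm, hmi, hmj, hmi', hmj', hall⟩ := ctrB_idx i j hij
  have hdir : ∀ t, x + γ t - x ∈ D := by
    intro t
    have e : x + γ t - x = γ t := by abel
    rw [e]
    exact hG.mem t
  have hcirc : ∀ᵐ t : ℝ, Dens1 (A m) (x + γ t) ∨ Dens1 (A m') (x + γ t) := by
    filter_upwards [hn] with t ht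
    obtain ⟨k, hk⟩ := not_mix ht
    have h1 : k ≠ i := key h hi hk (Or.inl (hdir t))
    have h2 : k ≠ j := key h hj hk (Or.inl (hdir t))
    rcases hall k with h3 | h3 | h3 | h3
    · exact absurd h3 h1
    · exact absurd h3 h2
    · exact Or.inl (h3 ▸ hk)
    · exact Or.inr (h3 ▸ hk)
  have hboth : ∃ t t', Dens1 (A m) (x + γ t) ∧ Dens1 (A m') (x + γ t') := by
    obtain ⟨t, h1, h2⟩ := (hcirc.and (hG.ae_T hcirc)).exists
    have hD : x + γ (T t) - (x + γ t) ∈ D := by
      have e : x + γ (T t) - (x + γ t) = γ (T t) - γ t := by abel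
      rw [e, ← hG.T_two t]
      exact hG.mem _
    rcases h1 with h1 | h1 <;> rcases h2 with h2 | h2
    · exact absurd rfl (key h (dens1_not_dens0 h1) h2 (Or.inl hD))
    · exact ⟨t, T t, h1, h2⟩
    · exact ⟨T t, t, h2, h1⟩
    · exact absurd rfl (key h (dens1_not_dens0 h1) h2 (Or.inl hD))
  obtain ⟨t1, t2, ht1, ht2⟩ := hboth
  have zm : Dens0 (A m) x := by
    by_contra hcon
    exact key h hcon ht1 (Or.inl (hdir t1)) rfl
  have zm' : Dens0 (A m') x := by
    by_contra hcon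
    exact key h hcon ht2 (Or.inl (hdir t2)) rfl
  have hsc := both_scales h hij hi hj (by
    intro k hki hkj
    rcases hall k with h3 | h3 | h3 | h3
    · exact absurd h3 hki
    · exact absurd h3 hkj
    · exact h3 ▸ zm
    · exact h3 ▸ zm')
  have hmeas : ∀ k, MeasurableSet {w | x + w ∈ A k} := fun k =>
    measurableSet_preimage (measurable_const_add x) (h.meas k)
  have hav : ∀ k, ∀ y ∈ {w | x + w ∈ A k}, ∀ z ∈ {w | x + w ∈ A k}, y - z ∉ D := by
    intro k y hy z hz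
    have := h.avoid k _ hy _ hz
    rwa [add_sub_add_left_eq_sub] at this
  have hdj : ∀ k l, k ≠ l → Disjoint {w | x + w ∈ A k} {w | x + w ∈ A l} := by
    intro k l hkl
    rw [Set.disjoint_left]
    intro y hy hy'
    exact Set.disjoint_left.1 (h.disj k l hkl) hy hy'
  refine ⟨{w | x + w ∈ A i}, {w | x + w ∈ A j}, {w | x + w ∈ A m}, {w | x + w ∈ A m'}, ?_⟩
  refine
    { mE := hmeas i
      mF := hmeas j
      mP := hmeas m
      mQ := hmeas m'
      aE := hav i
      aF := hav j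
      aP := hav m
      aQ := hav m'
      dEF := hdj i j hij
      dPQ := hdj m m' hmm
      cover := ?_
      zP := ?_
      zQ := ?_
      circ := ?_
      scales := ?_ }
  · have h1 : ∀ᵐ w : ℝ × ℝ, ∃ k, x + w ∈ A k :=
      (measurePreserving_add_left (volume : Measure (ℝ × ℝ)) x).quasiMeasurePreserving.ae h.cover
    filter_upwards [h1] with w hw
    obtain ⟨k, hk⟩ := hw
    rcases hall k with h3 | h3 | h3 | h3
    · exact Or.inl (h3 ▸ hk)
    · exact Or.inr (Or.inl (h3 ▸ hk))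
    · exact Or.inr (Or.inr (Or.inl (h3 ▸ hk)))
    · exact Or.inr (Or.inr (Or.inr (h3 ▸ hk)))
  · rw [ctrB_d0, add_zero]
    exact zm
  · rw [ctrB_d0, add_zero]
    exact zm'
  · filter_upwards [hcirc] with t ht
    rw [ctrB_d1, ctrB_d1]
    exact ht
  · obtain ⟨c, hc, hf⟩ := hsc
    refine ⟨c, hc, ?_⟩
    refine hf.mono fun n hn2 => ?_
    rw [ctrB_vtr, ctrB_vtr, add_zero]
    exact hn2

end Pool.Agent.H99M
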