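import Pool.Agent.Helper2.LM.M4

/-!
# Lebesgue measurable 4-colourings of smooth strictly convex normed planes: definitions

`D` is the unit circle of a norm on the plane, `γ` a `C¹` parametrisation of `D` with period one,
`T t` the parameter of the next vertex of the unit equilateral triangle `0, γ t, γ (T t)`.
-/

open Set MeasureTheory Filter Topology Metric
open Pool.Agent.Helper2.LM

namespace Pool.Agent.H99M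

/-- the third vertices of the rhombi: `w t = γ t + γ (T t)` -/
def ww (γ : ℝ → ℝ × ℝ) (T : ℝ → ℝ) (t : ℝ) : ℝ × ℝ := γ t + γ (T t)

/-- the geometric data of a smooth strictly convex normed plane used in the proof -/
structure Geo (D : Set (ℝ × ℝ)) (γ : ℝ → ℝ × ℝ) (T : ℝ → ℝ) : Prop where
  γ_c : ContDiff ℝ 1 γ
  γ_half : ∀ t, γ (t + 1 / 2) = - γ t
  D_iff : ∀ v, v ∈ D ↔ ∃ t, γ t = v
  turn : ∀ t s, t < s → s < t + 1 / 2 → 0 < det2 (deriv γ t) (deriv γ s)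
  T_c : ContDiff ℝ 1 T
  T_pos : ∀ t, 0 < deriv T t
  T_gt : ∀ t, t < T t
  T_three : ∀ t, T (T (T t)) = t + 1 / 2
  T_two : ∀ t, γ (T (T t)) = γ (T t) - γ t
  nbr : ∀ t₀ u, t₀ < u → u < T t₀ → ∃ s, t₀ < s ∧ s < t₀ + 1 / 2 ∧ s ≠ T t₀ ∧ s ≠ T (T t₀) ∧
    ww γ T s - ww γ T (T u) ∈ D
  two : ∀ t₀, ∃ u v, t₀ < u ∧ u < T t₀ ∧ t₀ < v ∧ v < T t₀ ∧ ww γ T u - ww γ T v ∈ D

/-- the situation around a good centre, moved to the origin: the classes `E`, `F` are both visible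
at the origin at infinitely many scales, the classes `P`, `Q` are not visible there and colour
almost all of the unit circle around the origin -/
structure Ctx (D : Set (ℝ × ℝ)) (γ : ℝ → ℝ × ℝ) (E F P Q : Set (ℝ × ℝ)) : Prop where
  mE : MeasurableSet E
  mF : MeasurableSet F
  mP : MeasurableSet P
  mQ : MeasurableSet Q
  aE : ∀ x ∈ E, ∀ y ∈ E, x - y ∉ D
  aF : ∀ x ∈ F, ∀ y ∈ F, x - y ∉ D
  aP : ∀ x ∈ P, ∀ y ∈ P, x - y ∉ D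
  aQ : ∀ x ∈ Q, ∀ y ∈ Q, x - y ∉ D
  dEF : Disjoint E F
  dPQ : Disjoint P Q
  cover : ∀ᵐ x : ℝ × ℝ, x ∈ E ∨ x ∈ F ∨ x ∈ P ∨ x ∈ Q
  zP : Dens0 P 0
  zQ : Dens0 Q 0
  circ : ∀ᵐ t : ℝ, Dens1 P (γ t) ∨ Dens1 Q (γ t)
  scales : ∃ c : ℝ, 0 < c ∧ ∃ᶠ n in atTop,
    ENNReal.ofReal (c * rad n ^ 2) ≤ volume (E ∩ closedBall 0 (rad n)) ∧
      ENNReal.ofReal (c * rad n ^ 2) ≤ volume (F ∩ closedBall 0 (rad n))

/-- a sequence of scales `rad (φ n)` and sets `X n` near the origin, of positive proportion, almost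
all of whose unit neighbours are in `P ∪ Q` (away from the direction of `γ t₀`) -/
structure Blow (γ : ℝ → ℝ × ℝ) (P Q : Set (ℝ × ℝ)) (φ : ℕ → ℕ) (X : ℕ → Set (ℝ × ℝ))
    (c t₀ : ℝ) : Prop where
  mono : StrictMono φ
  mX : ∀ n, MeasurableSet (X n)
  sub : ∀ n, X n ⊆ closedBall 0 (rad (φ n))
  pos : 0 < c
  vol : ∀ n, ENNReal.ofReal (c * rad (φ n) ^ 2) ≤ volume (X n)
  bad : ∀ t : ℝ, (∀ k : ℤ, t ≠ t₀ + k / 2) → ∃ δ : ℝ, 0 < δ ∧ ∀ ε : ℝ, 0 < ε →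
    ∀ᶠ n in atTop, ∀ s, |s - t| < δ →
      volume {x | x ∈ X n ∧ x + γ s ∉ P ∪ Q} ≤ ENNReal.ofReal (ε * rad (φ n) ^ 2)

/-- weight of `z`: length of the set of parameters `s` close to `y` with `z + β s ∈ X` -/
noncomputable def wt (β : ℝ → ℝ × ℝ) (X : Set (ℝ × ℝ)) (y ρ : ℝ) (z : ℝ × ℝ) : ENNReal :=
  volume {s : ℝ | |s - y| ≤ ρ ∧ z + β s ∈ X}

/-- weight of `z` with respect to a set of pairs (position, parameter) -/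
noncomputable def wtV (γ : ℝ → ℝ × ℝ) (V : Set ((ℝ × ℝ) × ℝ)) (y ρ : ℝ) (z : ℝ × ℝ) : ENNReal :=
  volume {s : ℝ | |s - y| ≤ ρ ∧ (z - γ s, s) ∈ V}

/-- `z₀ = p + γ s`, `z₁ = p' + γ s'`, `z₂ = p'' + γ s''` and there are unit steps
`z₀ → z₀ + γ θ₁ → z₁ → z₁ - γ θ₃ → z₂` with parameters close to `T (T t)`, `T (T t)`, `T t`,
`T t` -/
def Reach (γ : ℝ → ℝ × ℝ) (T : ℝ → ℝ) (t ρ : ℝ) (p : ℝ × ℝ) (s : ℝ) (p' : ℝ × ℝ) (s' : ℝ)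
    (p'' : ℝ × ℝ) (s'' : ℝ) : Prop :=
  |s - t| ≤ ρ ∧ |s' - t| ≤ ρ ∧ |s'' - t| ≤ ρ ∧ ∃ θ₁ θ₂ θ₃ θ₄ : ℝ, |θ₁ - T (T t)| ≤ ρ ∧
    |θ₂ - T (T t)| ≤ ρ ∧ |θ₃ - T t| ≤ ρ ∧ |θ₄ - T t| ≤ ρ ∧
      p + γ s + γ θ₁ - γ θ₂ = p' + γ s' ∧ p' + γ s' - γ θ₃ + γ θ₄ = p'' + γ s''

/-- Lebesgue measure on the interval of radius `ρ` around `x` -/
noncomputable def bx (x ρ : ℝ) : Measure ℝ := volume.restrict (Icc (x - ρ) (x + ρ))

/-- product of four interval measures, two around `c` and two around `b` -/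
noncomputable def bx4 (b c ρ : ℝ) : Measure (ℝ × ℝ × ℝ × ℝ) :=
  (bx c ρ).prod ((bx c ρ).prod ((bx b ρ).prod (bx b ρ)))

/-- the linear functional `v ↦ det2 v u / d` -/
noncomputable def ell (u : ℝ × ℝ) (d : ℝ) : (ℝ × ℝ) →L[ℝ] ℝ :=
  (u.2 / d) • ContinuousLinearMap.fst ℝ ℝ ℝ - (u.1 / d) • ContinuousLinearMap.snd ℝ ℝ ℝ

/-- the front functional at the parameter `a` -/
noncomputable def frl (γ : ℝ → ℝ × ℝ) (T : ℝ → ℝ) (a : ℝ) : (ℝ × ℝ) →L[ℝ] ℝ :=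
  ell (deriv γ (T (T a))) (det2 (deriv γ a) (deriv γ (T (T a))))

/-- windows behind the front: pairs `(p, s)`, `p ∈ X`, `p + γ s ∈ Q` and
`t - r ≤ s + ℓ p ≤ t` -/
def Win (γ : ℝ → ℝ × ℝ) (ℓ : (ℝ × ℝ) →L[ℝ] ℝ) (X Q : Set (ℝ × ℝ)) (r t : ℝ) :
    Set ((ℝ × ℝ) × ℝ) :=
  {q | q.1 ∈ X ∧ t - r ≤ q.2 + ℓ q.1 ∧ q.2 + ℓ q.1 ≤ t ∧ q.1 + γ q.2 ∈ Q}

/-- almost all points close to `z` are in `E ∪ F` -/
def Reg (E F : Set (ℝ × ℝ)) (z : ℝ × ℝ) : Prop :=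
  ∃ ρ : ℝ, 0 < ρ ∧ ∀ᵐ x : ℝ × ℝ, dist x z < ρ → x ∈ E ∪ F

/-- almost all points close to `z` are in `E` -/
def PureAt (E : Set (ℝ × ℝ)) (z : ℝ × ℝ) : Prop :=
  ∃ ρ : ℝ, 0 < ρ ∧ ∀ᵐ x : ℝ × ℝ, dist x z < ρ → x ∈ E

/-- `P` colours almost all of the arc between the parameters `a` and `b` -/
def Arc (γ : ℝ → ℝ × ℝ) (P : Set (ℝ × ℝ)) (a b : ℝ) : Prop :=
  ∀ᵐ t : ℝ, a < t → t < b → Dens1 P (γ t)

/-- smooth strictly convex norms on the plane -/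
structure Nm (N : Seminorm ℝ (ℝ × ℝ)) : Prop where
  smooth : ContDiffOn ℝ 1 N {0}ᶜ
  ne : ∀ x, N x = 0 → x = 0
  strict : ∀ x y, N x = 1 → N y = 1 → x ≠ y → N (x + y) < 2

/-- polar parametrisation of the unit circle of `N` -/
noncomputable def gm (N : Seminorm ℝ (ℝ × ℝ)) (t : ℝ) : ℝ × ℝ := (N (ee t))⁻¹ • ee t

/-- `T t` is the parameter of the next vertex of the unit equilateral triangle `0, γ t, γ (T t)` -/
def IsT (N : Seminorm ℝ (ℝ × ℝ)) (T : ℝ → ℝ) : Prop :=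
  ∀ t, t < T t ∧ T t < t + 1 / 2 ∧ N (gm N (T t) - gm N t) = 1 ∧
    ∀ s, t < s → s < t + 1 / 2 → N (gm N s - gm N t) = 1 → s = T t

end Pool.Agent.H99M
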