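import Pool.Agent.H99M.RegA

/-!
# Local constancy of the colour

Plan. Write `z₂ = z₁ + γ θ₀`. Let `ρ₁`, `ρ₂` be the radii of `Reg E F z₁`, `Reg E F z₂`. By
continuity of `γ` choose `η > 0` such that `‖γ θ - γ θ₀‖ < min ρ₁ ρ₂ / 8` for `|θ - θ₀| < η`; take
`θ₁ = θ₀`, `θ₂ = θ₀ + η / 2` (so `det2 (γ' θ₁) (γ' θ₂) > 0` by `turn` if `η < 1/2`). Let
`d = γ θ₁ - γ θ₂` (small). For almost every `z'` close to `z₁ + d` (within `min ρ₁ ρ₂ / 8`): `z' ∈ E ∪ F`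
(it is close to `z₁`) and for almost every `θ'` close to `θ₂`, `z' + γ θ'` is close to
`z₁ + d + γ θ₂ = z₁ + γ θ₀ = z₂`, and is in `E ∪ F`: Fubini for the null set
`{x | dist x z₂ < ρ₂ ∧ x ∉ E ∪ F}` (for almost every `z'`, for almost every `θ'`,
`z' + γ θ'` is not in it: the set of `(z', θ')` is null because for fixed `θ'` it is a translate of a
null set). Fix one such `z'` very close to `z₁ + d`, say `z' ∈ E` (the case `z' ∈ F` is symmetric). The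
map `(θ', θ) ↦ z' + γ θ' - γ θ` is open at `(θ₂, θ₁)` (`sum_nhds`, the determinant is not zero) and
its value there is `z' - d`. To have a neighbourhood of `z₁` in the image one needs `z'` close to
`z₁ + d` in a uniform way: apply `sum_nhds` to `G (θ', θ) = γ θ' - γ θ` at `(θ₂, θ₁)` with the
neighbourhood `S` of `(θ₂, θ₁)` of pairs within `η / 4` (so that everything stays close): the
image contains `ball (-d) ρ₃`; choose `z'` with `dist z' (z₁ + d) < ρ₃ / 2`; then for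
`dist x z₁ < ρ₃ / 2`, `x - z' ∈ ball (-d) ρ₃`, so `x = z' + γ θ' - γ θ` with `(θ', θ) ∈ S`. The set of
`(θ', θ) ∈ S` such that `θ'` is exceptional is null, so its image is null (`sum_null`). So almost
every `x` with `dist x z₁ < min (ρ₃ / 2) ρ₁` satisfies: `x ∈ E ∪ F`, `x = z' + γ θ' - γ θ` with
`y = z' + γ θ' ∈ E ∪ F`. Since `z' ∈ E` and `y - z' ∈ D`, `y ∉ E` so `y ∈ F`; since `x - y = - γ θ ∈ D`,
`x ∉ F`, so `x ∈ E`.
-/

open Set MeasureTheory Filter Topology Metric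
open Pool.Agent.Helper2.LM

namespace Pool.Agent.H99M

variable {D : Set (ℝ × ℝ)} {γ : ℝ → ℝ × ℝ} {T : ℝ → ℝ}

private theorem locc_aux {E F : Set (ℝ × ℝ)} (hG : Geo D γ T)
    (aE : ∀ x ∈ E, ∀ y ∈ E, x - y ∉ D) (aF : ∀ x ∈ F, ∀ y ∈ F, x - y ∉ D)
    {z₁ z₂ z' d : ℝ × ℝ} {ρ₁ ρ₂ ρ₃ : ℝ} (hρ₁ : 0 < ρ₁) (hρ₃ : 0 < ρ₃) {S : Set (ℝ × ℝ)}
    (h1 : ∀ᵐ x : ℝ × ℝ, dist x z₁ < ρ₁ → x ∈ E ∪ F)
    (h2 : ∀ᵐ θ : ℝ, dist (z' + γ θ) z₂ < ρ₂ → z' + γ θ ∈ E ∪ F)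
    (hz : z' ∈ E) (hz' : dist z' (z₁ + d) < ρ₃ / 2)
    (hS : ∀ u ∈ S, dist (z' + γ u.1) z₂ < ρ₂)
    (hI : ball (-d) ρ₃ ⊆ (fun u : ℝ × ℝ => γ u.1 + - γ u.2) '' S) : PureAt E z₁ := by
  set N : Set ℝ := {θ | ¬ (dist (z' + γ θ) z₂ < ρ₂ → z' + γ θ ∈ E ∪ F)} with hN
  have hN0 : volume N = 0 := h2
  have hNS : volume (N ×ˢ (univ : Set ℝ)) = 0 := by
    rw [Measure.volume_eq_prod, Measure.prod_prod, hN0, zero_mul]
  have hneg : ContDiff ℝ 1 (fun s => - γ s) := hG.γ_c.neg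
  have h3 := sum_null hG.γ_c hneg hNS
  have h4 : ∀ᵐ v : ℝ × ℝ, v ∉ (fun u : ℝ × ℝ => γ u.1 + - γ u.2) '' (N ×ˢ (univ : Set ℝ)) :=
    measure_eq_zero_iff_ae_notMem.1 h3
  have h5 : ∀ᵐ x : ℝ × ℝ, x - z' ∉ (fun u : ℝ × ℝ => γ u.1 + - γ u.2) '' (N ×ˢ (univ : Set ℝ)) := by
    have := (measurePreserving_sub_right volume z').quasiMeasurePreserving.ae h4
    exact this
  refine ⟨min (ρ₃ / 2) ρ₁, lt_min (by linarith) hρ₁, ?_⟩
  filter_upwards [h1, h5] with x hx1 hx5 hx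
  have hxa : dist x z₁ < ρ₃ / 2 := hx.trans_le (min_le_left _ _)
  have hxb : dist x z₁ < ρ₁ := hx.trans_le (min_le_right _ _)
  have hmem : x - z' ∈ ball (-d) ρ₃ := by
    rw [mem_ball, dist_eq_norm]
    rw [dist_eq_norm] at hxa hz'
    have e : x - z' - -d = (x - z₁) - (z' - (z₁ + d)) := by abel
    rw [e]
    calc ‖(x - z₁) - (z' - (z₁ + d))‖ ≤ ‖x - z₁‖ + ‖z' - (z₁ + d)‖ := norm_sub_le _ _
      _ < ρ₃ / 2 + ρ₃ / 2 := add_lt_add hxa hz'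
      _ = ρ₃ := by ring
  obtain ⟨u, huS, hu⟩ := hI hmem
  simp only at hu
  have huN : u.1 ∉ N := by
    intro hh
    exact hx5 ⟨u, ⟨hh, mem_univ _⟩, hu⟩
  have hy : z' + γ u.1 ∈ E ∪ F := by
    rw [hN, mem_ofPred_eq, not_not] at huN
    exact huN (hS u huS)
  have hyE : z' + γ u.1 ∉ E := by
    intro hh
    refine aE _ hh _ hz ?_
    rw [add_sub_cancel_left]
    exact (hG.D_iff _).2 ⟨_, rfl⟩
  have hyF : z' + γ u.1 ∈ F := hy.resolve_left hyE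
  have hxe : x = z' + γ u.1 - γ u.2 := by
    have : x = z' + (x - z') := by abel
    rw [this, ← hu]
    abel
  have hxF : x ∉ F := by
    intro hh
    refine aF _ hyF _ hh ?_
    rw [hxe, sub_sub_cancel]
    exact (hG.D_iff _).2 ⟨_, rfl⟩
  exact (hx1 hxb).resolve_right hxF

theorem loc_const {E F P Q : Set (ℝ × ℝ)}
    (hG : Geo D γ T) (h : Ctx D γ E F P Q) {z₁ z₂ : ℝ × ℝ} (h1 : Reg E F z₁) (h2 : Reg E F z₂)
    (hD : z₂ - z₁ ∈ D) : PureAt E z₁ ∨ PureAt F z₁ := by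
  obtain ⟨θ₀, hθ₀⟩ := (hG.D_iff _).1 hD
  obtain ⟨ρ₁, hρ₁, h1⟩ := h1
  obtain ⟨ρ₂, hρ₂, h2⟩ := h2
  set ρ := min ρ₁ ρ₂ with hρ
  have hρ0 : 0 < ρ := lt_min hρ₁ hρ₂
  have hρa : ρ ≤ ρ₁ := min_le_left _ _
  have hρb : ρ ≤ ρ₂ := min_le_right _ _
  have hγc : Continuous γ := hG.γ_c.continuous
  obtain ⟨η', hη', hη⟩ := Metric.continuousAt_iff.1 (hγc.continuousAt (x := θ₀)) (ρ / 8)
    (by linarith)
  set η := min η' (1 / 2) with hηd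
  have hη0 : 0 < η := lt_min hη' (by norm_num)
  have hηh : η ≤ 1 / 2 := min_le_right _ _
  have hγη : ∀ θ, |θ - θ₀| < η → ‖γ θ - γ θ₀‖ < ρ / 8 := by
    intro θ hθ
    have := hη (x := θ) (by rw [Real.dist_eq]; exact hθ.trans_le (min_le_left _ _))
    rwa [dist_eq_norm] at this
  set θ₂ := θ₀ + η / 2 with hθ₂
  have hb2 : ‖γ θ₂ - γ θ₀‖ < ρ / 8 := hγη _ (by
    rw [hθ₂, add_sub_cancel_left, abs_of_pos (by linarith)]
    linarith)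
  set d := γ θ₀ - γ θ₂ with hd
  have hdn : ‖d‖ < ρ / 8 := by
    rw [hd, norm_sub_rev]
    exact hb2
  have hdet : det2 (deriv γ θ₂) (deriv (fun s => - γ s) θ₀) ≠ 0 := by
    have e : deriv (fun s => - γ s) θ₀ = - deriv γ θ₀ := deriv.fun_neg
    have ht := hG.turn θ₀ θ₂ (by rw [hθ₂]; linarith) (by rw [hθ₂]; linarith)
    rw [e]
    have e2 : det2 (deriv γ θ₂) (- deriv γ θ₀) = det2 (deriv γ θ₀) (deriv γ θ₂) := by
      unfold det2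
      simp only [Prod.fst_neg, Prod.snd_neg]
      ring
    rw [e2]
    exact ht.ne'
  have hneg : ContDiff ℝ 1 (fun s => - γ s) := hG.γ_c.neg
  set S : Set (ℝ × ℝ) := ball θ₂ (η / 4) ×ˢ ball θ₀ (η / 4) with hS
  have hSn : S ∈ 𝓝 (θ₂, θ₀) :=
    prod_mem_nhds (ball_mem_nhds _ (by linarith)) (ball_mem_nhds _ (by linarith))
  have hI := sum_nhds hG.γ_c hneg hdet hSn
  obtain ⟨ρ₃, hρ₃, hI⟩ := Metric.mem_nhds_iff.1 hI
  have hdd : γ θ₂ + - γ θ₀ = -d := by rw [hd]; abel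
  rw [hdd] at hI
  -- Fubini
  have hγm : Measurable γ := hγc.measurable
  have hmeas : MeasurableSet {x : (ℝ × ℝ) × ℝ | dist (x.1 + γ x.2) z₂ < ρ₂ →
      x.1 + γ x.2 ∈ E ∪ F} := by
    have e : {x : (ℝ × ℝ) × ℝ | dist (x.1 + γ x.2) z₂ < ρ₂ → x.1 + γ x.2 ∈ E ∪ F} =
        (fun x : (ℝ × ℝ) × ℝ => x.1 + γ x.2) ⁻¹' ((ball z₂ ρ₂)ᶜ ∪ (E ∪ F)) := by
      ext x
      simp only [mem_ofPred_eq, mem_preimage, mem_union, mem_compl_iff, mem_ball]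
      tauto
    rw [e]
    have hm : Measurable (fun x : (ℝ × ℝ) × ℝ => x.1 + γ x.2) :=
      measurable_fst.add (hγm.comp measurable_snd)
    exact hm (measurableSet_ball.compl.union (h.mE.union h.mF))
  have hF1 : ∀ᵐ θ : ℝ, ∀ᵐ z : ℝ × ℝ, dist (z + γ θ) z₂ < ρ₂ → z + γ θ ∈ E ∪ F := by
    refine Eventually.of_forall fun θ => ?_
    exact (measurePreserving_add_right volume (γ θ)).quasiMeasurePreserving.ae h2
  have hF2 : ∀ᵐ z : ℝ × ℝ, ∀ᵐ θ : ℝ, dist (z + γ θ) z₂ < ρ₂ → z + γ θ ∈ E ∪ F :=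
    (MeasureTheory.Measure.ae_ae_comm hmeas).2 hF1
  have hfreq : ∃ᶠ z in ae volume, z ∈ ball (z₁ + d) (min (ρ₃ / 2) (ρ / 8)) := by
    rw [frequently_ae_mem_iff]
    exact (measure_ball_pos _ _ (lt_min (by linarith) (by linarith))).ne'
  obtain ⟨z', hz', hzF, hz1⟩ := (hfreq.and_eventually (hF2.and h1)).exists
  have hz'a : dist z' (z₁ + d) < ρ₃ / 2 := (mem_ball.1 hz').trans_le (min_le_left _ _)
  have hz'b : dist z' (z₁ + d) < ρ / 8 := (mem_ball.1 hz').trans_le (min_le_right _ _)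
  have hz'1 : z' ∈ E ∪ F := by
    apply hz1
    rw [dist_eq_norm] at hz'b ⊢
    have e : z' - z₁ = (z' - (z₁ + d)) + d := by abel
    rw [e]
    calc ‖z' - (z₁ + d) + d‖ ≤ ‖z' - (z₁ + d)‖ + ‖d‖ := norm_add_le _ _
      _ < ρ₁ := by linarith
  have hSd : ∀ u ∈ S, dist (z' + γ u.1) z₂ < ρ₂ := by
    rintro u ⟨hu, -⟩
    rw [mem_ball, Real.dist_eq] at hu
    have hu2 : |u.1 - θ₀| < η := by
      have e : u.1 - θ₀ = (u.1 - θ₂) + η / 2 := by rw [hθ₂]; ring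
      rw [e]
      calc |u.1 - θ₂ + η / 2| ≤ |u.1 - θ₂| + |η / 2| := abs_add_le _ _
        _ < η := by rw [abs_of_pos (by linarith : (0 : ℝ) < η / 2)]; linarith
    have hb1 := hγη _ hu2
    rw [dist_eq_norm] at hz'b ⊢
    have e : z' + γ u.1 - z₂ = (z' - (z₁ + d)) + ((γ u.1 - γ θ₀) - (γ θ₂ - γ θ₀)) := by
      have e3 : z₂ = z₁ + γ θ₀ := by rw [hθ₀]; abel
      rw [e3, hd]
      abel
    rw [e]
    calc ‖z' - (z₁ + d) + ((γ u.1 - γ θ₀) - (γ θ₂ - γ θ₀))‖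
        ≤ ‖z' - (z₁ + d)‖ + ‖(γ u.1 - γ θ₀) - (γ θ₂ - γ θ₀)‖ := norm_add_le _ _
      _ ≤ ‖z' - (z₁ + d)‖ + (‖γ u.1 - γ θ₀‖ + ‖γ θ₂ - γ θ₀‖) := by
          gcongr
          exact norm_sub_le _ _
      _ < ρ₂ := by linarith
  rcases hz'1 with hE | hF
  · left
    exact locc_aux hG h.aE h.aF hρ₁ hρ₃ h1 hzF hE hz'a hSd hI
  · right
    refine locc_aux (E := F) (F := E) hG h.aF h.aE hρ₁ hρ₃ ?_ ?_ hF hz'a hSd hI
    · rw [union_comm]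
      exact h1
    · rw [union_comm]
      exact hzF

end Pool.Agent.H99M
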