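import Pool.Agent.H99M.RegB
import Pool.Agent.H99M.LocC

/-!
# The contradiction

Plan. Write `τ j = T^[j] t₀`, so `τ 3 = t₀ + 1/2`. (1) For `s ∈ (t₀, t₀ + 1/2)`, `s ≠ τ 1`,
`s ≠ τ 2`: `Reg E F (ww γ T s)`: `s` is in one of the arcs `(τ j, τ (j+1))`, `j = 0, 1, 2`, and `T s` in
the next one, `T s < s + 1/2` (Geo.T_lt), use `reg_of` with `a = τ j`, `b = τ (j+1)`, `c = τ (j+2)`.
(2) For `u ∈ (t₀, T t₀)`: `PureAt E (ww γ T (T u)) ∨ PureAt F (ww γ T (T u))`: `hG.nbr t₀ u` gives `s` as in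
(1) with `ww γ T s - ww γ T (T u) ∈ D`; `T u ∈ (τ 1, τ 2)`; `loc_const`. (3) Not both: `E`, `F` disjoint and
balls have positive measure. So with `U = {v ∈ Ioo (τ 1) (τ 2) | PureAt E (ww γ T v)}` and the same for
`F` we have two open sets (PureAt is an open condition, `ww γ T` is continuous) covering the interval
`Ioo (τ 1) (τ 2)` (every `v` there is `T u` with `u ∈ (t₀, T t₀)`: surjectivity of `T` from the
intermediate value theorem) and disjoint; by preconnectedness (isPreconnected_Ioo) one of them is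
everything. (4) `hG.two (T t₀)` gives `u, v ∈ (τ 1, τ 2)` with `ww γ T u - ww γ T v ∈ D`, both pure of the
same type, say `E`: for almost every `x` close to `ww γ T v`, `x ∈ E` and
`x + (ww γ T u - ww γ T v) ∈ E` (translation), so there is such an `x`, contradiction with `aE`.
-/

open Set MeasureTheory Filter Topology Metric
open Pool.Agent.Helper2.LM

namespace Pool.Agent.H99M

private theorem ae_false_ball {p : ℝ × ℝ → Prop} {z : ℝ × ℝ} {r : ℝ} (hr : 0 < r)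
    (h : ∀ᵐ x : ℝ × ℝ, p x) (hp : ∀ x, dist x z < r → ¬ p x) : False := by
  have h1 : volume (ball z r) = 0 :=
    measure_mono_null (fun x hx => hp x hx) h
  exact (measure_ball_pos volume z hr).ne' h1

private theorem pure_contra {D A : Set (ℝ × ℝ)} (hA : ∀ x ∈ A, ∀ y ∈ A, x - y ∉ D) {z z' : ℝ × ℝ}
    (h : PureAt A z) (h' : PureAt A z') (hD : z' - z ∈ D) : False := by
  obtain ⟨ρ, hρ, h⟩ := h
  obtain ⟨ρ', hρ', h'⟩ := h'
  have h2 : ∀ᵐ x : ℝ × ℝ, dist (x + (z' - z)) z' < ρ' → x + (z' - z) ∈ A :=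
    (measurePreserving_add_right (volume : Measure (ℝ × ℝ)) (z' - z)).quasiMeasurePreserving.ae h'
  refine ae_false_ball (z := z) (r := min ρ ρ') (lt_min hρ hρ') (h.and h2) ?_
  rintro x hx ⟨h3, h4⟩
  have e1 : dist (x + (z' - z)) z' = dist x z := by
    rw [dist_eq_norm, dist_eq_norm]
    congr 1
    abel
  have m1 := h3 (lt_of_lt_of_le hx (min_le_left _ _))
  have m2 := h4 (by rw [e1]; exact lt_of_lt_of_le hx (min_le_right _ _))
  apply hA _ m2 _ m1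
  rw [add_sub_cancel_left]
  exact hD

private theorem pure_disj {E F : Set (ℝ × ℝ)} (hd : Disjoint E F) {z : ℝ × ℝ}
    (h : PureAt E z) (h' : PureAt F z) : False := by
  obtain ⟨ρ, hρ, h⟩ := h
  obtain ⟨ρ', hρ', h'⟩ := h'
  refine ae_false_ball (z := z) (r := min ρ ρ') (lt_min hρ hρ') (h.and h') ?_
  rintro x hx ⟨h3, h4⟩
  have m1 := h3 (lt_of_lt_of_le hx (min_le_left _ _))
  have m2 := h4 (lt_of_lt_of_le hx (min_le_right _ _))
  exact Set.disjoint_left.mp hd m1 m2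

private theorem pure_open (E : Set (ℝ × ℝ)) : IsOpen {z | PureAt E z} := by
  rw [Metric.isOpen_iff]
  rintro z ⟨ρ, hρ, h⟩
  refine ⟨ρ / 2, by linarith, ?_⟩
  intro z' hz'
  refine ⟨ρ / 2, by linarith, ?_⟩
  filter_upwards [h] with x hx hx'
  apply hx
  have h1 : dist z' z < ρ / 2 := hz'
  have := dist_triangle x z' z
  linarith

theorem final {D : Set (ℝ × ℝ)} {γ : ℝ → ℝ × ℝ} {T : ℝ → ℝ} {E F P Q : Set (ℝ × ℝ)} {t₀ : ℝ}
    (hG : Geo D γ T) (h : Ctx D γ E F P Q)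
    (ha : ∀ j : ℕ, (Arc γ P (T^[j] t₀) (T^[j + 1] t₀) ∧ Arc γ Q (T^[j + 1] t₀) (T^[j + 2] t₀)) ∨
      (Arc γ Q (T^[j] t₀) (T^[j + 1] t₀) ∧ Arc γ P (T^[j + 1] t₀) (T^[j + 2] t₀))) : False := by
  have hm := hG.T_mono
  have hTc := hG.T_cont
  have hγc := hG.γ_cont
  have hwc : Continuous (ww γ T) := hγc.add (hγc.comp hTc)
  -- regular points
  have reg : ∀ j : ℕ, ∀ s : ℝ, T^[j] t₀ < s → s < T^[j + 1] t₀ → Reg E F (ww γ T s) := by
    intro j s h1 h2
    refine reg_of hG h (ha j) h1 h2 ?_ ?_ (hG.T_lt s)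
    · rw [Function.iterate_succ_apply']
      exact hm h1
    · rw [Function.iterate_succ_apply']
      exact hm h2
  have e0 : T^[0] t₀ = t₀ := rfl
  have e1 : T^[1] t₀ = T t₀ := rfl
  have e2 : T^[2] t₀ = T (T t₀) := rfl
  have e3 : T^[3] t₀ = t₀ + 1 / 2 := hG.T_three t₀
  have reg' : ∀ s : ℝ, t₀ < s → s < t₀ + 1 / 2 → s ≠ T t₀ → s ≠ T (T t₀) →
      Reg E F (ww γ T s) := by
    intro s h1 h2 h3 h4
    rcases lt_or_gt_of_ne h3 with h5 | h5
    · exact reg 0 s (by rw [e0]; exact h1) (by rw [e1]; exact h5)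
    · rcases lt_or_gt_of_ne h4 with h6 | h6
      · exact reg 1 s (by rw [e1]; exact h5) (by rw [e2]; exact h6)
      · exact reg 2 s (by rw [e2]; exact h6) (by rw [e3]; exact h2)
  have hT1 : t₀ < T t₀ := hG.T_gt t₀
  have pure : ∀ v ∈ Ioo (T t₀) (T (T t₀)), PureAt E (ww γ T v) ∨ PureAt F (ww γ T v) := by
    intro v hv
    obtain ⟨u, ⟨hu1, hu2⟩, huv⟩ : v ∈ T '' Ioo t₀ (T t₀) :=
      intermediate_value_Ioo hT1.le hTc.continuousOn hv
    obtain ⟨s, hs1, hs2, hs3, hs4, hs5⟩ := hG.nbr t₀ u hu1 hu2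
    rw [huv] at hs5
    exact loc_const hG h (reg 1 v (by rw [e1]; exact hv.1) (by rw [e2]; exact hv.2))
      (reg' s hs1 hs2 hs3 hs4) hs5
  obtain ⟨u, v, hu1, hu2, hv1, hv2, hD⟩ := hG.two (T t₀)
  have hpc : IsPreconnected (Ioo (T t₀) (T (T t₀))) := isPreconnected_Ioo
  have hoE : IsOpen (ww γ T ⁻¹' {z | PureAt E z}) := (pure_open E).preimage hwc
  have hoF : IsOpen (ww γ T ⁻¹' {z | PureAt F z}) := (pure_open F).preimage hwc
  have key : ∀ x ∈ Ioo (T t₀) (T (T t₀)), ∀ y ∈ Ioo (T t₀) (T (T t₀)),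
      PureAt E (ww γ T x) → PureAt F (ww γ T y) → False := by
    intro x hx y hy hx' hy'
    obtain ⟨z, _, hz1, hz2⟩ := hpc _ _ hoE hoF (fun v hv => pure v hv) ⟨x, hx, hx'⟩ ⟨y, hy, hy'⟩
    exact pure_disj h.dEF hz1 hz2
  have hu : u ∈ Ioo (T t₀) (T (T t₀)) := ⟨hu1, hu2⟩
  have hv : v ∈ Ioo (T t₀) (T (T t₀)) := ⟨hv1, hv2⟩
  rcases pure u hu with pu | pu <;> rcases pure v hv with pv | pv
  · exact pure_contra h.aE pv pu hD
  · exact key u hu v hv pu pv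
  · exact key v hv u hu pv pu
  · exact pure_contra h.aF pv pu hD

end Pool.Agent.H99M
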