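import Pool.Agent.H99M.Defs

/-!
# Local lower density of the sum of two curves

Plan. Put `G u = α u.1 + β u.2`, a `C¹` map of the plane with derivative
`(a, b) ↦ a • α' x₀ + b • β' y₀` at `u₀ = (x₀, y₀)`, which is invertible because the determinant is
not zero (see the proof of Pool.Agent.Helper2.LM.null_sum in M3.lean, where this continuous linear
equivalence `L` is constructed). By strict differentiability (ContDiffAt.hasStrictFDerivAt) there is
`η₀ > 0` with `ApproximatesLinearOn G L (closedBall u₀ η₀) c'` for `c'` as small as we want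
(HasStrictFDerivAt.approximates_deriv_on_nhds); take `c' < (‖L⁻¹‖₊)⁻¹ / 2`. Then
(1) for `closedBall u (K r) ⊆ closedBall u₀ η₀`, `G '' closedBall u (K r) ⊇ closedBall (G u) r`
with `K = 2 ‖L⁻¹‖` (ApproximatesLinearOn.surjOn_closedBall_of_nonlinearRightInverse);
(2) `G` is Lipschitz on `closedBall u₀ η₀` with some constant `Λ` (ApproximatesLinearOn.lipschitz).
For `Q ⊆ closedBall (G u) r` we get `Q ⊆ G '' S`, `S = {u' ∈ closedBall u (K r) | G u' ∈ Q}`, so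
`volume Q ≤ Λ ^ 2 * volume S`: for instance by `LipschitzOnWith.hausdorffMeasure_image_le` in
dimension `2` together with `MeasureTheory.hausdorffMeasure_prod_real` (Hausdorff measure is Lebesgue
measure on `ℝ × ℝ`). Take `c = Λ ^ (-2)` (with `Λ ≥ 1`) and `η` small compared with `η₀ / (K + 1)`.
`closedBall (x, y) ρ` in `ℝ × ℝ` is `{u | |u.1 - x| ≤ ρ ∧ |u.2 - y| ≤ ρ}`.
-/

open Set MeasureTheory Filter Topology Metric
open Pool.Agent.Helper2.LM

namespace Pool.Agent.H99M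

private theorem locL_strict {α β : ℝ → ℝ × ℝ} (hα : ContDiff ℝ 1 α) (hβ : ContDiff ℝ 1 β)
    {x₀ y₀ : ℝ} (h : det2 (deriv α x₀) (deriv β y₀) ≠ 0) :
    ∃ L : (ℝ × ℝ) ≃L[ℝ] (ℝ × ℝ), HasStrictFDerivAt (fun u : ℝ × ℝ => α u.1 + β u.2)
      (L : ℝ × ℝ →L[ℝ] ℝ × ℝ) (x₀, y₀) := by
  have d1 : HasStrictDerivAt α (deriv α x₀) x₀ := hα.contDiffAt.hasStrictDerivAt one_ne_zero
  have d2 : HasStrictDerivAt β (deriv β y₀) y₀ := hβ.contDiffAt.hasStrictDerivAt one_ne_zero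
  set v := deriv α x₀ with hv
  set w := deriv β y₀ with hw
  let L : ℝ × ℝ →L[ℝ] ℝ × ℝ :=
    (ContinuousLinearMap.fst ℝ ℝ ℝ).smulRight v + (ContinuousLinearMap.snd ℝ ℝ ℝ).smulRight w
  have hLd : HasStrictFDerivAt (fun u : ℝ × ℝ => α u.1 + β u.2) L (x₀, y₀) := by
    have e1 : HasStrictFDerivAt (fun z : ℝ × ℝ => α z.1)
        ((ContinuousLinearMap.fst ℝ ℝ ℝ).smulRight v) (x₀, y₀) := by
      have := HasStrictFDerivAt.comp (x₀, y₀) (f := fun z : ℝ × ℝ => z.1) (g := α)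
        d1.hasStrictFDerivAt hasStrictFDerivAt_fst
      exact this.congr_fderiv (by ext <;> simp)
    have e2 : HasStrictFDerivAt (fun z : ℝ × ℝ => β z.2)
        ((ContinuousLinearMap.snd ℝ ℝ ℝ).smulRight w) (x₀, y₀) := by
      have := HasStrictFDerivAt.comp (x₀, y₀) (f := fun z : ℝ × ℝ => z.2) (g := β)
        d2.hasStrictFDerivAt hasStrictFDerivAt_snd
      exact this.congr_fderiv (by ext <;> simp)
    exact e1.add e2
  have hinj : Function.Injective (L : ℝ × ℝ →ₗ[ℝ] ℝ × ℝ) := by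
    rw [← LinearMap.ker_eq_bot, LinearMap.ker_eq_bot']
    rintro ⟨a, b⟩ hab
    have hab' : a • v + b • w = 0 := hab
    have q1 : a * v.1 + b * w.1 = 0 := by
      have := congrArg Prod.fst hab'
      simpa using this
    have q2 : a * v.2 + b * w.2 = 0 := by
      have := congrArg Prod.snd hab'
      simpa using this
    unfold det2 at h
    have ha : a * (v.1 * w.2 - v.2 * w.1) = 0 := by linear_combination w.2 * q1 - w.1 * q2
    have hb : b * (v.1 * w.2 - v.2 * w.1) = 0 := by linear_combination v.1 * q2 - v.2 * q1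
    have ha' := (mul_eq_zero.1 ha).resolve_right h
    have hb' := (mul_eq_zero.1 hb).resolve_right h
    rw [ha', hb']
    rfl
  refine ⟨(LinearEquiv.ofInjectiveEndo (L : ℝ × ℝ →ₗ[ℝ] ℝ × ℝ) hinj).toContinuousLinearEquiv, ?_⟩
  exact hLd.congr_fderiv (by ext <;> rfl)

theorem loc_lower {α β : ℝ → ℝ × ℝ} (hα : ContDiff ℝ 1 α) (hβ : ContDiff ℝ 1 β) {x₀ y₀ : ℝ}
    (h : det2 (deriv α x₀) (deriv β y₀) ≠ 0) :
    ∃ η K c : ℝ, 0 < η ∧ 0 < K ∧ 0 < c ∧ ∀ x y r : ℝ, |x - x₀| ≤ η → |y - y₀| ≤ η → 0 < r → r ≤ η →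
      ∀ Q : Set (ℝ × ℝ), MeasurableSet Q → Q ⊆ closedBall (α x + β y) r →
        ENNReal.ofReal c * volume Q ≤
          volume {u : ℝ × ℝ | |u.1 - x| ≤ K * r ∧ |u.2 - y| ≤ K * r ∧ α u.1 + β u.2 ∈ Q} := by
  obtain ⟨L, hL⟩ := locL_strict hα hβ h
  set G : ℝ × ℝ → ℝ × ℝ := fun u => α u.1 + β u.2 with hG
  obtain ⟨s, hxs, hso, happ⟩ := hL.approximates_deriv_on_open_nhds
  obtain ⟨η₀, hη₀, hball⟩ := Metric.nhds_basis_closedBall.mem_iff.1 (hso.mem_nhds hxs)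
  set N : ℝ := ‖(L.symm : ℝ × ℝ →L[ℝ] ℝ × ℝ)‖ with hN
  have hNpos : 0 < N := L.norm_symm_pos
  have hlip := happ.lipschitz
  rw [← lipschitzOnWith_iff_restrict] at hlip
  set Λ : NNReal := ‖(L : ℝ × ℝ →L[ℝ] ℝ × ℝ)‖₊ + ‖(L.symm : ℝ × ℝ →L[ℝ] ℝ × ℝ)‖₊⁻¹ / 2 with hΛ
  have hKpos : 0 < 2 * N := by positivity
  refine ⟨η₀ / (2 * N + 1), 2 * N, ((Λ : ℝ) ^ 2 + 1)⁻¹, by positivity, hKpos, by positivity, ?_⟩
  intro x y r hx hy hr hrη Q _ hQ
  have hsub : closedBall (x, y) (2 * N * r) ⊆ s := by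
    refine subset_trans ?_ hball
    apply closedBall_subset_closedBall'
    have h1 : dist (x, y) (x₀, y₀) ≤ η₀ / (2 * N + 1) := by
      rw [Prod.dist_eq]
      exact max_le (by rw [Real.dist_eq]; exact hx) (by rw [Real.dist_eq]; exact hy)
    have h2 : 2 * N * r ≤ 2 * N * (η₀ / (2 * N + 1)) := mul_le_mul_of_nonneg_left hrη hKpos.le
    have h3 : 2 * N * (η₀ / (2 * N + 1)) + η₀ / (2 * N + 1) = η₀ := by
      field_simp
    linarith
  have hsurj := happ.surjOn_closedBall_of_nonlinearRightInverse L.toNonlinearRightInverse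
    (ε := 2 * N * r) (b := (x, y)) (by positivity) hsub
  have hrad : ((((L.toNonlinearRightInverse).nnnorm : ℝ))⁻¹ -
      ((‖(L.symm : ℝ × ℝ →L[ℝ] ℝ × ℝ)‖₊⁻¹ / 2 : NNReal) : ℝ)) * (2 * N * r) = r := by
    have h1 : (((L.toNonlinearRightInverse).nnnorm : ℝ)) = N := rfl
    rw [h1]
    push_cast
    rw [← hN]
    field_simp
    ring
  rw [hrad] at hsurj
  set S : Set (ℝ × ℝ) := {u : ℝ × ℝ | |u.1 - x| ≤ 2 * N * r ∧ |u.2 - y| ≤ 2 * N * r ∧
    α u.1 + β u.2 ∈ Q} with hS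
  have hSball : S ⊆ closedBall (x, y) (2 * N * r) := by
    intro u hu
    rw [mem_closedBall, Prod.dist_eq]
    exact max_le (by rw [Real.dist_eq]; exact hu.1) (by rw [Real.dist_eq]; exact hu.2.1)
  have hQS : Q ⊆ G '' S := by
    intro q hq
    obtain ⟨u, hu, huq⟩ := hsurj (hQ hq)
    refine ⟨u, ?_, huq⟩
    rw [mem_closedBall, Prod.dist_eq, max_le_iff, Real.dist_eq, Real.dist_eq] at hu
    refine ⟨hu.1, hu.2, ?_⟩
    have : α u.1 + β u.2 = q := huq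
    rw [this]
    exact hq
  have hvol : volume Q ≤ (Λ : ENNReal) ^ (2 : ℝ) * volume S := by
    rw [← hausdorffMeasure_prod_real]
    calc Measure.hausdorffMeasure 2 Q ≤ Measure.hausdorffMeasure 2 (G '' S) := measure_mono hQS
      _ ≤ _ := (hlip.mono (hSball.trans hsub)).hausdorffMeasure_image_le (by norm_num)
  have hΛ2 : ENNReal.ofReal ((Λ : ℝ) ^ 2 + 1)⁻¹ * (Λ : ENNReal) ^ (2 : ℝ) ≤ 1 := by
    have h1 : (Λ : ENNReal) ^ (2 : ℝ) = ENNReal.ofReal ((Λ : ℝ) ^ 2) := by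
      rw [ENNReal.ofReal_pow (by positivity), ENNReal.ofReal_coe_nnreal]
      norm_num
    rw [h1, ← ENNReal.ofReal_mul (by positivity), ← ENNReal.ofReal_one]
    apply ENNReal.ofReal_le_ofReal
    rw [inv_mul_le_iff₀ (by positivity)]
    linarith
  calc ENNReal.ofReal ((Λ : ℝ) ^ 2 + 1)⁻¹ * volume Q
      ≤ ENNReal.ofReal ((Λ : ℝ) ^ 2 + 1)⁻¹ * ((Λ : ENNReal) ^ (2 : ℝ) * volume S) := by gcongr
    _ = (ENNReal.ofReal ((Λ : ℝ) ^ 2 + 1)⁻¹ * (Λ : ENNReal) ^ (2 : ℝ)) * volume S := by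
        rw [mul_assoc]
    _ ≤ 1 * volume S := by gcongr
    _ = volume S := one_mul _

end Pool.Agent.H99M
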