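import Pool.Agent.H99M.NA

/-!
# A nonzero vector is in at most one way the sum of two unit vectors

Plan. Let `f_x = fderiv ℝ N x` for a unit vector `x`: `f_x x = 1`, `f_x v < 1` for every unit vector
`v ≠ x` (`fd_self`, `fd_lt`, and `f_x (-x) = -1`). `mid`: a point strictly between two different unit
vectors has `N < 1` (from `strict` and convexity; or use `f_x`). Suppose `a ≠ c` and `a ≠ d` (so
`b ≠ d`, `b ≠ c`). If `a = b` then `N (c + d) = N (2 • a) = 2`, so `c = d` by `strict`, so
`c = a`, contradiction; in the same way `c ≠ d`. Put `m = (a + b)/2 = (c + d)/2 ≠ 0`, `p = (a - b)/2`,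
`q = (c - d)/2`, so `a = m + p`, `b = m - p`, `c = m + q`, `d = m - q`.
Case `det2 p q = 0`: `q = l • p` for some `l ≠ ± 1` (`p ≠ 0`, `q ≠ ± p`); if `|l| < 1`, `c` is
strictly between `a` and `b`; if `|l| > 1`, `a` is strictly between `c` and `d`; contradiction to
`mid`. Case `det2 p q ≠ 0`: `m = x • p + y • q`; exchanging `a, b` and exchanging `c, d` we may assume
`x ≥ 0`, `y ≥ 0` (not both zero). With `f = f_b`: `f b > f (-a)` gives `f m > 0` (`b ≠ -a` because
`a + b ≠ 0`), `f b > f c` and `f b > f d` give `- f p > |f q|`. So `x f p + y f q > 0` gives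
`y f q > x (- f p) ≥ 0`, so `f q > 0`, `y f q > x (-f p) ≥ x f q`, `y > x`. With `g = f_{-d}`: `g (-d) > g c` gives
`g m < 0`; `g (-d) > g (-a)` and `g (-d) > g (-b)` give `g q > |g p|`; `x g p + y g q < 0` gives
`x (-g p) > y g q ≥ y |g p|`-type inequalities, so `x > y`. Contradiction.
-/

open Set MeasureTheory Filter Topology Metric
open Pool.Agent.Helper2.LM

namespace Pool.Agent.H99M

variable {N : Seminorm ℝ (ℝ × ℝ)}

private theorem Nm.nz {x : ℝ × ℝ} (hx : N x = 1) : x ≠ 0 := by
  rintro rfl
  rw [map_zero] at hx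
  exact zero_ne_one hx

private theorem Nm.lt1 (h : Nm N) {x v : ℝ × ℝ} (hx : N x = 1) (hv : N v = 1) (h1 : v ≠ x) :
    fderiv ℝ N x v < 1 := by
  by_cases h2 : v = -x
  · rw [h2, map_neg, h.fd_self (Nm.nz hx), hx]
    norm_num
  · exact (abs_lt.1 (h.fd_lt hx hv h1 h2)).2

private theorem lin_expand (f : (ℝ × ℝ) →L[ℝ] ℝ) (v : ℝ × ℝ) :
    f v = v.1 * f (1, 0) + v.2 * f (0, 1) := by
  have h1 : v = v.1 • ((1 : ℝ), (0 : ℝ)) + v.2 • ((0 : ℝ), (1 : ℝ)) := by
    ext <;> simp
  conv_lhs => rw [h1]
  rw [map_add, map_smul, map_smul, smul_eq_mul, smul_eq_mul]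

/-- The inequalities for the functional at `b`. -/
private theorem Nm.fpart (h : Nm N) {a b c d : ℝ × ℝ} (ha : N a = 1) (hb : N b = 1) (hc : N c = 1)
    (hd : N d = 1) (h0 : a + b ≠ 0) (hab : a + b = c + d) (hac : a ≠ c) (had : a ≠ d)
    {f : (ℝ × ℝ) →L[ℝ] ℝ} (hf : f = fderiv ℝ N b) :
    0 < f (a + b) ∧ |f (c - d)| < - f (a - b) := by
  have h1 : f b = 1 := by rw [hf, h.fd_self (Nm.nz hb), hb]
  have hca : b ≠ c := by
    rintro rfl
    exact had (by
      have : a + b = d + b := by rw [hab, add_comm]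
      exact add_right_cancel this)
  have hda : b ≠ d := by
    rintro rfl
    exact hac (add_right_cancel hab)
  have h2 : f (-a) < 1 := by
    rw [hf]
    refine h.lt1 hb (by rw [map_neg_eq_map, ha]) ?_
    rintro h3
    exact h0 (by rw [← h3]; simp)
  have h3 : f c < 1 := by
    rw [hf]
    exact h.lt1 hb hc hca.symm
  have h4 : f d < 1 := by
    rw [hf]
    exact h.lt1 hb hd hda.symm
  have h5 : f a + f b = f c + f d := by rw [← map_add, hab, map_add]
  rw [map_neg] at h2
  rw [map_add, map_sub, map_sub]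
  refine ⟨by linarith, ?_⟩
  rw [abs_lt]
  constructor <;> linarith

/-- The inequalities for the functional at `-d`. -/
private theorem Nm.gpart (h : Nm N) {a b c d : ℝ × ℝ} (ha : N a = 1) (hb : N b = 1) (hc : N c = 1)
    (hd : N d = 1) (h0 : a + b ≠ 0) (hab : a + b = c + d) (hac : a ≠ c) (had : a ≠ d)
    {g : (ℝ × ℝ) →L[ℝ] ℝ} (hg : g = fderiv ℝ N (-d)) :
    g (a + b) < 0 ∧ |g (a - b)| < g (c - d) := by
  have hd' : N (-d) = 1 := by rw [map_neg_eq_map, hd]
  have h1 : g (-d) = 1 := by rw [hg, h.fd_self (Nm.nz hd'), hd']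
  have hda : b ≠ d := by
    rintro rfl
    exact hac (add_right_cancel hab)
  have h2 : g c < 1 := by
    rw [hg]
    refine h.lt1 hd' hc ?_
    rintro h3
    exact h0 (by rw [hab, h3]; simp)
  have h3 : g (-a) < 1 := by
    rw [hg]
    refine h.lt1 hd' (by rw [map_neg_eq_map, ha]) ?_
    intro h4
    exact had (neg_injective h4)
  have h4 : g (-b) < 1 := by
    rw [hg]
    refine h.lt1 hd' (by rw [map_neg_eq_map, hb]) ?_
    intro h4
    exact hda (neg_injective h4)
  have h5 : g a + g b = g c + g d := by rw [← map_add, hab, map_add]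
  rw [map_neg] at h1 h3 h4
  rw [map_add, map_sub, map_sub]
  refine ⟨by linarith, ?_⟩
  rw [abs_lt]
  constructor <;> linarith

private theorem Nm.core (h : Nm N) {a b c d : ℝ × ℝ} (ha : N a = 1) (hb : N b = 1) (hc : N c = 1)
    (hd : N d = 1) (h0 : a + b ≠ 0) (hab : a + b = c + d) (hac : a ≠ c) (had : a ≠ d)
    {x y : ℝ} (hx : 0 ≤ x) (hy : 0 ≤ y) (hM : a + b = x • (a - b) + y • (c - d)) : False := by
  obtain ⟨f1, f2⟩ := h.fpart ha hb hc hd h0 hab hac had rfl
  obtain ⟨g1, g2⟩ := h.gpart ha hb hc hd h0 hab hac had rfl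
  set f := fderiv ℝ N b
  set g := fderiv ℝ N (-d)
  have hfM : f (a + b) = x * f (a - b) + y * f (c - d) := by
    conv_lhs => rw [hM]
    rw [map_add, map_smul, map_smul, smul_eq_mul, smul_eq_mul]
  have hgM : g (a + b) = x * g (a - b) + y * g (c - d) := by
    conv_lhs => rw [hM]
    rw [map_add, map_smul, map_smul, smul_eq_mul, smul_eq_mul]
  rw [hfM] at f1
  rw [hgM] at g1
  generalize f (a - b) = A at *
  generalize f (c - d) = B at *
  generalize g (a - b) = A' at *
  generalize g (c - d) = B' at *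
  have f3 := abs_lt.1 f2
  have g3 := abs_lt.1 g2
  have hA : A < 0 := by linarith [abs_nonneg B]
  have hB' : 0 < B' := by linarith [abs_nonneg A']
  have e1 : x * A ≤ 0 := mul_nonpos_of_nonneg_of_nonpos hx hA.le
  have e2 : 0 < y * B := by linarith
  have hB : 0 < B := by
    by_contra hcon
    have := mul_nonpos_of_nonneg_of_nonpos hy (not_lt.1 hcon)
    linarith
  have e3 : x * A ≤ x * (-B) := mul_le_mul_of_nonneg_left (by linarith) hx
  have e4 : 0 < (y - x) * B := by nlinarith
  have hyx : x < y := by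
    by_contra hcon
    have := mul_nonpos_of_nonpos_of_nonneg (sub_nonpos.2 (not_lt.1 hcon)) hB.le
    linarith
  have e5 : 0 ≤ y * B' := mul_nonneg hy hB'.le
  have e6 : x * A' < 0 := by linarith
  have hA' : A' < 0 := by
    by_contra hcon
    have := mul_nonneg hx (not_lt.1 hcon)
    linarith
  have e7 : y * (-A') ≤ y * B' := mul_le_mul_of_nonneg_left (by linarith) hy
  have e8 : (x - y) * A' < 0 := by nlinarith
  have : 0 < x - y := by
    by_contra hcon
    have := mul_nonneg_of_nonpos_of_nonpos (not_lt.1 hcon) hA'.le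
    linarith
  linarith

theorem Nm.uniq (h : Nm N) {a b c d : ℝ × ℝ} (ha : N a = 1) (hb : N b = 1) (hc : N c = 1)
    (hd : N d = 1) (h0 : a + b ≠ 0) (hab : a + b = c + d) :
    (a = c ∧ b = d) ∨ (a = d ∧ b = c) := by
  by_cases hac : a = c
  · left
    refine ⟨hac, ?_⟩
    rw [hac] at hab
    exact add_left_cancel hab
  by_cases had : a = d
  · right
    refine ⟨had, ?_⟩
    rw [had, add_comm c d] at hab
    exact add_left_cancel hab
  exfalso
  have hbc : b ≠ c := by
    rintro rfl
    exact had (by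
      have : a + b = d + b := by rw [hab, add_comm]
      exact add_right_cancel this)
  have hbd : b ≠ d := by
    rintro rfl
    exact hac (add_right_cancel hab)
  by_cases hdet : det2 (a - b) (c - d) = 0
  · obtain ⟨f1, f2⟩ := h.fpart ha hb hc hd h0 hab hac had rfl
    obtain ⟨g1, g2⟩ := h.gpart ha hb hc hd h0 hab hac had rfl
    set f := fderiv ℝ N b
    set g := fderiv ℝ N (-d)
    have h1 : f (a - b) * g (c - d) - f (c - d) * g (a - b) = 0 := by
      rw [lin_expand f (a - b), lin_expand f (c - d), lin_expand g (a - b),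
        lin_expand g (c - d)]
      unfold det2 at hdet
      linear_combination (f (1, 0) * g (0, 1) - f (0, 1) * g (1, 0)) * hdet
    generalize f (a - b) = A at *
    generalize f (c - d) = B at *
    generalize g (a - b) = A' at *
    generalize g (c - d) = B' at *
    have hA : 0 < -A := by linarith [abs_nonneg B]
    have h2 : |B| * |A'| < (-A) * B' := by
      calc |B| * |A'| ≤ |B| * B' := mul_le_mul_of_nonneg_left g2.le (abs_nonneg _)
        _ < (-A) * B' := mul_lt_mul_of_pos_right f2 (by linarith [abs_nonneg A'])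
    have h3 : -(B * A') ≤ |B| * |A'| := by
      rw [← abs_mul]
      exact neg_le_abs _
    nlinarith
  · set x := det2 (a + b) (c - d) / det2 (a - b) (c - d) with hx
    set y := det2 (a - b) (a + b) / det2 (a - b) (c - d) with hy
    have hM : a + b = x • (a - b) + y • (c - d) := by
      have e : det2 (a - b) (c - d) • (a + b) =
          det2 (a + b) (c - d) • (a - b) + det2 (a - b) (a + b) • (c - d) := by
        unfold det2
        ext
        · simp only [Prod.fst_add, Prod.snd_add, Prod.fst_sub, Prod.snd_sub, Prod.smul_fst,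
            smul_eq_mul]
          ring
        · simp only [Prod.fst_add, Prod.snd_add, Prod.fst_sub, Prod.snd_sub, Prod.smul_snd,
            smul_eq_mul]
          ring
      have e2 : a + b = (det2 (a - b) (c - d))⁻¹ • (det2 (a - b) (c - d) • (a + b)) := by
        rw [smul_smul, inv_mul_cancel₀ hdet, one_smul]
      rw [e2, e, smul_add, smul_smul, smul_smul, hx, hy]
      congr 2
      · rw [div_eq_inv_mul]
      · rw [div_eq_inv_mul]
    rcases le_total 0 x with hx0 | hx0 <;> rcases le_total 0 y with hy0 | hy0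
    · exact h.core ha hb hc hd h0 hab hac had hx0 hy0 hM
    · refine h.core (c := d) (d := c) (x := x) (y := -y) ha hb hd hc h0 ?_ had hac hx0 (by linarith) ?_
      · rw [hab, add_comm]
      · rw [hM]
        rw [neg_smul, ← smul_neg, neg_sub]
    · refine h.core (a := b) (b := a) (x := -x) (y := y) hb ha hc hd ?_ ?_ hbc hbd (by linarith) hy0 ?_
      · rwa [add_comm]
      · rw [← hab, add_comm]
      · rw [add_comm b a, hM]
        rw [neg_smul, ← smul_neg, neg_sub]
    · refine h.core (a := b) (b := a) (c := d) (d := c) (x := -x) (y := -y) hb ha hd hc ?_ ?_ hbd hbc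
        (by linarith) (by linarith) ?_
      · rwa [add_comm]
      · rw [add_comm b a, hab, add_comm]
      · rw [add_comm b a, hM]
        rw [neg_smul, ← smul_neg, neg_sub, neg_smul, ← smul_neg, neg_sub]

end Pool.Agent.H99M
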