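import Pool.Agent.H99M.NE
import Pool.Agent.H99M.NF

/-!
# Unit distances on the second curve

Plan. `γ = gm N`, `w t = ww γ T t = γ t + γ (T t)`. By `T_two`, `T_three` and `gm_half`:
`w (T t) - w t = γ (T (T t)) - γ t = γ (T (T t)) + γ (T (T (T t))) = w (T (T t))`. `w_bounds`: `N (w t) < 2` by
`strict` (`γ t ≠ γ (T t)`); `2 γ (T t) = w t + γ (T (T t))` gives `2 ≤ N (w t) + 1`, and if
`N (w t) = 1` then `strict` gives `w t = γ (T (T t))`, hence `γ (T t) = γ (T (T t))`, contradiction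
(their difference is `- γ t ≠ 0`). `nbr`: let `t₀ < u < T t₀`, `f s = N (w s - w (T u))`, continuous,
`f u = N (w (T (T u))) > 1`, `f (T u) = 0`, `f (T (T u)) = N (w (T (T (T u)))) = N (w u) > 1`
(`w (s + 1/2) = - w s`). Intermediate values: `s₋ ∈ (u, T u)` and `s₊ ∈ (T u, T (T u))` with `f = 1`. All
parameters are in `(t₀, T (T (T t₀))) = (t₀, t₀ + 1/2)` (T_mono). If `s₋ ≠ T t₀` take `s₋` (it is
`< T u < T (T t₀)`). If `s₊ ≠ T (T t₀)` take `s₊` (it is `> T u > T t₀`). Otherwise with `τ = T t₀`: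
`N (w τ - w (T u)) = 1`, `N (w (T τ) - w (T u)) = 1`, and
`(w (T τ) - w (T u)) + (w (T u) - w τ) = w (T τ) - w τ = w (T (T τ)) = γ (T (T τ)) + γ (T (T (T τ)))`, which is
not `0`; by `uniq`, `w (T u) - w τ` is `γ (T (T (T τ))) = - γ τ` or `γ (T (T τ)) = γ (T τ) - γ τ`, so
`w (T u) = γ (T τ)` of norm `1`, or `w (T u) = 2 γ (T τ)` of norm `2`, contradiction with `w_bounds`.
`two`: `N (w (T t₀) - w t₀) = N (w (T (T t₀))) > 1`; by continuity there are `t₀ < u < v < T t₀` with
`N (w v - w u) > 1`; by the intermediate value theorem on `[u, v]` there is `v' ∈ (u, v)` with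
`N (w v' - w u) = 1`.
-/

open Set MeasureTheory Filter Topology Metric
open Pool.Agent.Helper2.LM

namespace Pool.Agent.H99M

variable {N : Seminorm ℝ (ℝ × ℝ)}

private theorem T_half (h : Nm N) {T : ℝ → ℝ} (hT : IsT N T) (t : ℝ) : T (t + 1 / 2) = T t + 1 / 2 := by
  rw [← h.T_three hT t, h.T_three hT (T t)]

private theorem w_diff (h : Nm N) {T : ℝ → ℝ} (hT : IsT N T) (t : ℝ) :
    ww (gm N) T (T t) - ww (gm N) T t = ww (gm N) T (T (T t)) := by
  simp only [ww]
  rw [h.T_three hT t, Nm.gm_half]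
  abel

private theorem w_half (h : Nm N) {T : ℝ → ℝ} (hT : IsT N T) (t : ℝ) :
    ww (gm N) T (t + 1 / 2) = - ww (gm N) T t := by
  simp only [ww]
  rw [T_half h hT, Nm.gm_half, Nm.gm_half]
  abel

private theorem w_cont (h : Nm N) {T : ℝ → ℝ} (hT : IsT N T) : Continuous (ww (gm N) T) := by
  have h1 : Continuous (gm N) := h.gm_c.continuous
  exact h1.add (h1.comp (h.T_cont hT))

theorem Nm.w_bounds (h : Nm N) {T : ℝ → ℝ} (hT : IsT N T) (t : ℝ) :
    1 < N (ww (gm N) T t) ∧ N (ww (gm N) T t) < 2 := by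
  have h2 := (h.T_two hT t).1
  have hne : gm N t ≠ gm N (T t) := by
    intro e
    have := (hT t).2.2.1
    rw [← e, sub_self, map_zero] at this
    norm_num at this
  have e2 : ww (gm N) T t + gm N (T (T t)) = (2 : ℝ) • gm N (T t) := by
    rw [h2]
    simp only [ww]
    rw [two_smul]
    abel
  have n2 : N ((2 : ℝ) • gm N (T t)) = 2 := by
    rw [map_smul_eq_mul, h.gm_norm]
    norm_num
  constructor
  · have h3 : 1 ≤ N (ww (gm N) T t) := by
      have := map_add_le_add N (ww (gm N) T t) (gm N (T (T t)))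
      rw [e2, n2, h.gm_norm] at this
      linarith
    rcases h3.lt_or_eq with h4 | h4
    · exact h4
    · exfalso
      by_cases h5 : ww (gm N) T t = gm N (T (T t))
      · rw [h5, ← two_smul ℝ] at e2
        have h6 : gm N (T (T t)) = gm N (T t) := smul_right_injective _ (two_ne_zero) e2
        rw [h6] at h2
        have h7 : gm N t = 0 := by
          have := sub_eq_self.mp h2.symm
          exact this
        exact h.gm_ne t h7
      · have := h.strict _ _ h4.symm (h.gm_norm (T (T t))) h5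
        rw [e2, n2] at this
        exact lt_irrefl _ this
  · exact h.strict _ _ (h.gm_norm t) (h.gm_norm (T t)) hne

theorem Nm.nbr (h : Nm N) {T : ℝ → ℝ} (hT : IsT N T) {t₀ u : ℝ} (h1 : t₀ < u) (h2 : u < T t₀) :
    ∃ s, t₀ < s ∧ s < t₀ + 1 / 2 ∧ s ≠ T t₀ ∧ s ≠ T (T t₀) ∧
      N (ww (gm N) T s - ww (gm N) T (T u)) = 1 := by
  have hm := h.T_mono hT
  have hc : Continuous (fun s => N (ww (gm N) T s - ww (gm N) T (T u))) :=
    (Nm.cont N).comp ((w_cont h hT).sub continuous_const)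
  have f1 : 1 < N (ww (gm N) T u - ww (gm N) T (T u)) := by
    rw [map_sub_rev, w_diff h hT]
    exact (h.w_bounds hT _).1
  have f2 : N (ww (gm N) T (T u) - ww (gm N) T (T u)) = 0 := by
    rw [sub_self, map_zero]
  have f3 : 1 < N (ww (gm N) T (T (T u)) - ww (gm N) T (T u)) := by
    rw [w_diff h hT, h.T_three hT, w_half h hT, map_neg_eq_map]
    exact (h.w_bounds hT _).1
  have hu1 : u < T u := (hT u).1
  have hu2 : T u < T (T u) := (hT (T u)).1
  have hu3 : T t₀ < T u := hm h1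
  have hu4 : T u < T (T t₀) := hm h2
  have hu5 : T (T u) < T (T (T t₀)) := hm hu4
  rw [h.T_three hT] at hu5
  obtain ⟨s, ⟨hs1, hs2⟩, hs3⟩ : (1 : ℝ) ∈ (fun s => N (ww (gm N) T s - ww (gm N) T (T u))) '' Ioo u (T u) :=
    intermediate_value_Ioo' hu1.le hc.continuousOn (by
      constructor
      · show N (ww (gm N) T (T u) - ww (gm N) T (T u)) < 1
        rw [f2]; norm_num
      · exact f1)
  obtain ⟨s', ⟨hs1', hs2'⟩, hs3'⟩ : (1 : ℝ) ∈ (fun s => N (ww (gm N) T s - ww (gm N) T (T u))) '' Ioo (T u) (T (T u)) :=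
    intermediate_value_Ioo hu2.le hc.continuousOn (by
      constructor
      · show N (ww (gm N) T (T u) - ww (gm N) T (T u)) < 1
        rw [f2]; norm_num
      · exact f3)
  by_cases c1 : s = T t₀
  swap
  · exact ⟨s, by linarith, by linarith, c1, by intro e; linarith, hs3⟩
  by_cases c2 : s' = T (T t₀)
  swap
  · exact ⟨s', by linarith, by linarith, by intro e; linarith, c2, hs3'⟩
  exfalso
  simp only at hs3 hs3'
  rw [c1] at hs3
  rw [c2] at hs3'
  obtain ⟨τ, hτ⟩ : ∃ τ, τ = T t₀ := ⟨_, rfl⟩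
  rw [← hτ] at hs3 hs3'
  have hsum : (ww (gm N) T (T τ) - ww (gm N) T (T u)) + (ww (gm N) T (T u) - ww (gm N) T τ) =
      gm N (T (T τ)) + gm N (T (T (T τ))) := by
    have := w_diff h hT τ
    have e : ww (gm N) T (T (T τ)) = gm N (T (T τ)) + gm N (T (T (T τ))) := rfl
    rw [← e, ← this]
    abel
  have hne : (ww (gm N) T (T τ) - ww (gm N) T (T u)) + (ww (gm N) T (T u) - ww (gm N) T τ) ≠ 0 := by
    intro e
    have e' : ww (gm N) T (T (T τ)) = 0 := by
      rw [← w_diff h hT τ, ← e]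
      abel
    have := (h.w_bounds hT (T (T τ))).1
    rw [e', map_zero] at this
    linarith
  have hb : N (ww (gm N) T (T u) - ww (gm N) T τ) = 1 := by rw [map_sub_rev]; exact hs3
  have hwb := h.w_bounds hT (T u)
  rcases h.uniq hs3' hb (h.gm_norm (T (T τ))) (h.gm_norm (T (T (T τ)))) hne hsum with ⟨_, e⟩ | ⟨_, e⟩
  · have e' : ww (gm N) T (T u) = gm N (T τ) := by
      rw [h.T_three hT, Nm.gm_half, sub_eq_iff_eq_add] at e
      rw [e]
      simp only [ww]
      abel
    rw [e', h.gm_norm] at hwb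
    exact lt_irrefl _ hwb.1
  · have e' : ww (gm N) T (T u) = (2 : ℝ) • gm N (T τ) := by
      rw [(h.T_two hT τ).1, sub_eq_iff_eq_add] at e
      rw [e, two_smul]
      simp only [ww]
      abel
    rw [e', map_smul_eq_mul, h.gm_norm] at hwb
    norm_num at hwb

theorem Nm.two (h : Nm N) {T : ℝ → ℝ} (hT : IsT N T) (t₀ : ℝ) :
    ∃ u v, t₀ < u ∧ u < T t₀ ∧ t₀ < v ∧ v < T t₀ ∧
      N (ww (gm N) T u - ww (gm N) T v) = 1 := by
  have h0 : t₀ < T t₀ := (hT t₀).1
  have f0 : 1 < N (ww (gm N) T (T t₀) - ww (gm N) T t₀) := by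
    rw [w_diff h hT]
    exact (h.w_bounds hT _).1
  have hcw := w_cont h hT
  have hc : Continuous (fun e : ℝ => N (ww (gm N) T (T t₀ - e) - ww (gm N) T (t₀ + e))) :=
    (Nm.cont N).comp ((hcw.comp (continuous_const.sub continuous_id)).sub
      (hcw.comp (continuous_const.add continuous_id)))
  have h1 : ∀ᶠ e in 𝓝[>] (0 : ℝ), 1 < N (ww (gm N) T (T t₀ - e) - ww (gm N) T (t₀ + e)) := by
    have h2 : ∀ᶠ e in 𝓝 (0 : ℝ), 1 < N (ww (gm N) T (T t₀ - e) - ww (gm N) T (t₀ + e)) := by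
      have h3 := hc.tendsto 0
      simp only [sub_zero, add_zero] at h3
      exact h3.eventually (lt_mem_nhds f0)
    exact nhdsWithin_le_nhds h2
  have h2 : ∀ᶠ e in 𝓝[>] (0 : ℝ), e ∈ Ioo 0 ((T t₀ - t₀) / 2) :=
    Ioo_mem_nhdsGT (by linarith)
  obtain ⟨e, he1, he2, he3⟩ := (h1.and h2).exists
  have hc' : Continuous (fun s => N (ww (gm N) T s - ww (gm N) T (t₀ + e))) :=
    (Nm.cont N).comp (hcw.sub continuous_const)
  obtain ⟨s, ⟨hs1, hs2⟩, hs3⟩ : (1 : ℝ) ∈ (fun s => N (ww (gm N) T s - ww (gm N) T (t₀ + e))) ''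
      Ioo (t₀ + e) (T t₀ - e) :=
    intermediate_value_Ioo (by linarith) hc'.continuousOn (by
      constructor
      · show N (ww (gm N) T (t₀ + e) - ww (gm N) T (t₀ + e)) < 1
        rw [sub_self, map_zero]; norm_num
      · exact he1)
  exact ⟨s, t₀ + e, by linarith, by linarith, by linarith, by linarith, hs3⟩

end Pool.Agent.H99M
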