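import Pool.Agent.H99M.CtrB
import Pool.Agent.H99M.BlowB
import Pool.Agent.H99M.ArcB
import Pool.Agent.H99M.Fin
import Pool.Agent.H99M.NG
import Pool.Agent.H99M.NLp
import Pool.Agent.Helper2.LM.F2

/-!
# Measurable 4-colourings of smooth strictly convex planes: assembly
-/

open Set MeasureTheory Filter Topology Metric
open Pool.Agent.Helper2.LM

namespace Pool.Agent.H99M

theorem Nm.geo {N : Seminorm ℝ (ℝ × ℝ)} (h : Nm N) :
    ∃ γ T, Geo {v : ℝ × ℝ | N v = 1} γ T := by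
  obtain ⟨T, hT⟩ := h.exists_T
  refine ⟨gm N, T, h.gm_c, fun t => Nm.gm_half t, fun v => ?_, fun t s h1 h2 => h.turn h1 h2,
    h.T_c hT, h.T_pos hT, fun t => (hT t).1, h.T_three hT, fun t => (h.T_two hT t).1,
    fun t₀ u h1 h2 => h.nbr hT h1 h2, fun t₀ => h.two hT t₀⟩
  constructor
  · intro hv
    obtain ⟨t, -, -, ht⟩ := h.gm_surj hv 0
    exact ⟨t, ht⟩
  · rintro ⟨t, rfl⟩
    exact h.gm_norm t

theorem no_avoid {D : Set (ℝ × ℝ)} {γ : ℝ → ℝ × ℝ} {T : ℝ → ℝ} {A : Fin 4 → Set (ℝ × ℝ)}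
    (hG : Geo D γ T) (h : Avoid D A) : False := by
  obtain ⟨E, F, P, Q, hC⟩ := exists_ctx hG h
  obtain ⟨φ, X, c, t₀, hB⟩ := exists_blow hG hC
  exact final hG hC (t₀ := t₀) (fun j => arcs hG hC hB j)

theorem main {N : Seminorm ℝ (ℝ × ℝ)} (h : Nm N) (κ : ℝ × ℝ → Fin 4)
    (hκ : ∀ i, NullMeasurableSet (κ ⁻¹' {i})) : ∃ x y : ℝ × ℝ, κ x = κ y ∧ N (x - y) = 1 := by
  by_contra hcon
  push Not at hcon
  obtain ⟨γ, T, hG⟩ := h.geo
  obtain ⟨A, hA⟩ := avoid_of (D := {v | N v = 1}) hκ (fun x y hxy hmem => hcon x y hxy hmem)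
  exact no_avoid hG hA

theorem main_lp {p : ℝ} (hp : 1 < p) (κ : ℝ × ℝ → Fin 4)
    (hκ : ∀ i, NullMeasurableSet (κ ⁻¹' {i})) :
    ∃ x y : ℝ × ℝ, κ x = κ y ∧ |x.1 - y.1| ^ p + |x.2 - y.2| ^ p = 1 := by
  obtain ⟨N, hN, hNp⟩ := exists_lp hp
  obtain ⟨x, y, hxy, h1⟩ := main hN κ hκ
  refine ⟨x, y, hxy, ?_⟩
  have hp0 : 0 < p := by linarith
  rw [hNp] at h1
  simp only [Prod.fst_sub, Prod.snd_sub] at h1
  have hnn : 0 ≤ |x.1 - y.1| ^ p + |x.2 - y.2| ^ p := by positivity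
  have h2 := congrArg (fun z : ℝ => z ^ p) h1
  simp only [Real.one_rpow] at h2
  rwa [← Real.rpow_mul hnn, one_div, inv_mul_cancel₀ hp0.ne', Real.rpow_one] at h2

end Pool.Agent.H99M
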