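import Pool.Agent.H99M.Main

/-!
# Lebesgue measurable colourings of smooth strictly convex normed planes need at least five colours
-/

namespace Pool.Agent.Results.MP_08b539_co.MeasurableFour

/-- Let `N` be a norm on the plane which is continuously differentiable away from the origin and
strictly convex. Every colouring of the plane with four colours and Lebesgue measurable classes has
two points of the same colour at `N`-distance exactly one. In particular this holds for the `l_p`
norm for every real `p > 1`. -/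
theorem result :
    (∀ N : Seminorm ℝ (ℝ × ℝ), ContDiffOn ℝ 1 N {0}ᶜ → (∀ x, N x = 0 → x = 0) →
      (∀ x y, N x = 1 → N y = 1 → x ≠ y → N (x + y) < 2) →
      ∀ κ : ℝ × ℝ → Fin 4,
        (∀ i, MeasureTheory.NullMeasurableSet (κ ⁻¹' {i}) MeasureTheory.volume) →
          ∃ x y : ℝ × ℝ, κ x = κ y ∧ N (x - y) = 1) ∧
      ∀ p : ℝ, 1 < p →
        ∀ κ : ℝ × ℝ → Fin 4,
          (∀ i, MeasureTheory.NullMeasurableSet (κ ⁻¹' {i}) MeasureTheory.volume) →
            ∃ x y : ℝ × ℝ, κ x = κ y ∧ |x.1 - y.1| ^ p + |x.2 - y.2| ^ p = 1 :=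
  ⟨fun _ h1 h2 h3 κ hκ => Pool.Agent.H99M.main ⟨h1, h2, h3⟩ κ hκ,
    fun _ hp κ hκ => Pool.Agent.H99M.main_lp hp κ hκ⟩

end Pool.Agent.Results.MP_08b539_co.MeasurableFour
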