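import Pool.Agent.H99M.Defs

/-!
# The derivative of a smooth strictly convex norm

Plan. `cont`: a seminorm on a finite dimensional space is continuous (Seminorm.continuous_of_...,
or: convex functions are continuous, or bound `N x ≤ C * ‖x‖` from the values at `(1,0)`, `(0,1)` and
use `|N x - N y| ≤ N (x - y)`). `fd`: `ContDiffOn` on the open set `{0}ᶜ` gives differentiability
(ContDiffAt). `fd_self`: derivative of `c ↦ N (c • x) = c * N x` at `1` (chain rule). `fd_le`: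
`|N (x + h • v) - N x| ≤ |h| N v` and the limit of the difference quotients
(HasFDerivAt along a line). `fd_lt`: by convexity of `h ↦ N (x + h • v)`,
`fderiv ℝ N x v ≤ N (x + v) - N x < 2 - 1` for `v ≠ x` by `strict`; apply it to `v` and to `-v`.
`fd_smul`: `N (c • x) = c * N x`, differentiate `N = c * N (c⁻¹ • ·)` (uniqueness of the derivative,
chain rule). `fd_cont`: from `ContDiffOn` (contDiffOn_one_iff_fderiv_of_isOpen or
ContDiffAt.continuousAt_fderiv-like lemmas).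
-/

open Set MeasureTheory Filter Topology Metric
open Pool.Agent.Helper2.LM

namespace Pool.Agent.H99M

variable {N : Seminorm ℝ (ℝ × ℝ)}

theorem Nm.cont (N : Seminorm ℝ (ℝ × ℝ)) : Continuous N := by
  have hC : ∀ x : ℝ × ℝ, N x ≤ (N (1, 0) + N (0, 1)) * ‖x‖ := by
    intro x
    have e : x = x.1 • ((1, 0) : ℝ × ℝ) + x.2 • ((0, 1) : ℝ × ℝ) := by
      ext <;> simp
    have h1 : N x ≤ ‖x.1‖ * N (1, 0) + ‖x.2‖ * N (0, 1) := by
      conv_lhs => rw [e]
      refine (map_add_le_add N _ _).trans ?_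
      rw [map_smul_eq_mul, map_smul_eq_mul]
    have h2 : ‖x.1‖ ≤ ‖x‖ := norm_fst_le x
    have h3 : ‖x.2‖ ≤ ‖x‖ := norm_snd_le x
    have h4 := apply_nonneg N ((1, 0) : ℝ × ℝ)
    have h5 := apply_nonneg N ((0, 1) : ℝ × ℝ)
    nlinarith
  have hC0 : 0 ≤ N (1, 0) + N (0, 1) := add_nonneg (apply_nonneg N _) (apply_nonneg N _)
  apply LipschitzWith.continuous (K := ⟨N (1, 0) + N (0, 1), hC0⟩)
  apply LipschitzWith.of_dist_le_mul
  intro x y
  rw [Real.dist_eq, dist_eq_norm]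
  exact (abs_sub_map_le_sub N x y).trans (hC (x - y))

theorem Nm.pos (h : Nm N) {x : ℝ × ℝ} (hx : x ≠ 0) : 0 < N x :=
  lt_of_le_of_ne (apply_nonneg N x) fun h0 => hx (h.ne x h0.symm)

theorem Nm.fd (h : Nm N) {x : ℝ × ℝ} (hx : x ≠ 0) : HasFDerivAt N (fderiv ℝ N x) x := by
  have h1 : ContDiffAt ℝ 1 N x :=
    h.smooth.contDiffAt (isOpen_compl_singleton.mem_nhds hx)
  exact (h1.differentiableAt one_ne_zero).hasFDerivAt

theorem Nm.fd_self (h : Nm N) {x : ℝ × ℝ} (hx : x ≠ 0) : fderiv ℝ N x x = N x := by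
  have h2 : HasDerivAt (fun c : ℝ => c • x) x 1 := by
    simpa using (hasDerivAt_id (1 : ℝ)).smul_const x
  have h3 : HasFDerivAt N (fderiv ℝ N x) ((1 : ℝ) • x) := by
    rw [one_smul]; exact h.fd hx
  have h1 : HasDerivAt (fun c : ℝ => N (c • x)) (fderiv ℝ N x x) 1 :=
    h3.comp_hasDerivAt (1 : ℝ) h2
  have h4 : HasDerivAt (fun c : ℝ => c * N x) (N x) 1 := by
    simpa using (hasDerivAt_id (1 : ℝ)).mul_const (N x)
  have h5 : (fun c : ℝ => N (c • x)) =ᶠ[𝓝 1] fun c : ℝ => c * N x := by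
    filter_upwards [lt_mem_nhds (show (0 : ℝ) < 1 by norm_num)] with c hc
    rw [map_smul_eq_mul, Real.norm_of_nonneg hc.le]
  exact h1.unique (h4.congr_of_eventuallyEq h5)

theorem Nm.fd_le (h : Nm N) {x : ℝ × ℝ} (hx : x ≠ 0) (v : ℝ × ℝ) : |fderiv ℝ N x v| ≤ N v := by
  have h2 : HasDerivAt (fun c : ℝ => x + c • v) v 0 := by
    simpa using ((hasDerivAt_id (0 : ℝ)).smul_const v).const_add x
  have h3 : HasFDerivAt N (fderiv ℝ N x) (x + (0 : ℝ) • v) := by
    rw [zero_smul, add_zero]; exact h.fd hx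
  have h1 : HasDerivAt (fun c : ℝ => N (x + c • v)) (fderiv ℝ N x v) 0 :=
    h3.comp_hasDerivAt (0 : ℝ) h2
  rw [← Real.norm_eq_abs]
  refine h1.le_of_lip' (apply_nonneg N v) (Filter.Eventually.of_forall fun c => ?_)
  rw [Real.norm_eq_abs]
  refine (abs_sub_map_le_sub N _ _).trans ?_
  rw [show x + c • v - (x + (0 : ℝ) • v) = c • v by rw [zero_smul]; abel, map_smul_eq_mul,
    sub_zero, mul_comm]

theorem Nm.fd_lt (h : Nm N) {x v : ℝ × ℝ} (hx : N x = 1) (hv : N v = 1) (h1 : v ≠ x)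
    (h2 : v ≠ -x) : |fderiv ℝ N x v| < 1 := by
  have hx0 : x ≠ 0 := by
    rintro rfl
    rw [map_zero] at hx
    norm_num at hx
  have a1 := (abs_le.1 (h.fd_le hx0 (x + v))).2
  have a2 := (abs_le.1 (h.fd_le hx0 (x + -v))).2
  have hnv : N (-v) = 1 := by rw [map_neg_eq_map, hv]
  have a3 := h.strict x v hx hv h1.symm
  have a4 := h.strict x (-v) hx hnv (fun hh => h2 (by rw [hh, neg_neg]))
  rw [map_add, h.fd_self hx0, hx] at a1 a2
  rw [map_neg] at a2
  rw [abs_lt]
  constructor <;> linarith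

theorem Nm.fd_smul (h : Nm N) {x : ℝ × ℝ} (hx : x ≠ 0) {c : ℝ} (hc : 0 < c) :
    fderiv ℝ N (c • x) = fderiv ℝ N x := by
  have h0 : (N : ℝ × ℝ → ℝ) = fun y => c * N (c⁻¹ • y) := by
    funext y
    rw [map_smul_eq_mul, Real.norm_of_nonneg (inv_pos.2 hc).le, ← mul_assoc,
      mul_inv_cancel₀ hc.ne', one_mul]
  have h1 : HasFDerivAt (fun y : ℝ × ℝ => c⁻¹ • y)
      (c⁻¹ • ContinuousLinearMap.id ℝ (ℝ × ℝ)) (c • x) :=
    (hasFDerivAt_id (c • x)).const_smul c⁻¹
  have h2 : HasFDerivAt N (fderiv ℝ N x) (c⁻¹ • (c • x)) := by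
    rw [smul_smul, inv_mul_cancel₀ hc.ne', one_smul]
    exact h.fd hx
  have h3 := (h2.comp (c • x) h1).const_mul c
  have h4 : HasFDerivAt (fun y => c * N (c⁻¹ • y)) (fderiv ℝ N x) (c • x) := by
    refine h3.congr_fderiv ?_
    ext v
    · simp only [ContinuousLinearMap.comp_apply, ContinuousLinearMap.smul_apply,
        ContinuousLinearMap.coe_smul', Pi.smul_apply, ContinuousLinearMap.inl_apply,
        ContinuousLinearMap.id_apply, map_smul, smul_eq_mul]
      rw [← mul_assoc, mul_inv_cancel₀ hc.ne', one_mul]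
    · simp only [ContinuousLinearMap.comp_apply, ContinuousLinearMap.smul_apply,
        ContinuousLinearMap.coe_smul', Pi.smul_apply, ContinuousLinearMap.inr_apply,
        ContinuousLinearMap.id_apply, map_smul, smul_eq_mul]
      rw [← mul_assoc, mul_inv_cancel₀ hc.ne', one_mul]
  rw [← h0] at h4
  exact h4.fderiv

theorem Nm.fd_cont (h : Nm N) {x : ℝ × ℝ} (hx : x ≠ 0) :
    ContinuousAt (fun y => fderiv ℝ N y) x := by
  have h1 := h.smooth.continuousOn_fderiv_of_isOpen isOpen_compl_singleton le_rfl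
  exact h1.continuousAt (isOpen_compl_singleton.mem_nhds hx)

end Pool.Agent.H99M
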