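import Pool.Agent.H99M.NA

/-!
# The polar parametrisation of the unit circle

Plan. `ee t = (cos 2πt, sin 2πt)` (Pool.Agent.Helper2.LM.ee) is never `0`, `ee (t + 1/2) = - ee t`,
`det2 (ee t) (ee s) = sin (2π (s - t))`. `gm_c`: `N ∘ ee` is `C¹` and positive. `gm_norm`: homogeneity.
`gm_surj`: for `v ≠ 0` there is `t` with `v = r • ee t`, `r > 0` (polar coordinates, for instance via
`Complex.arg` of `v.1 + v.2 I`, or `Real.exists_cos_sin`-type lemmas), then `r = (N (ee t))⁻¹`; shift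
`t` by an integer into `[s, s + 1)` (Int.floor). `gm_det`: `det2 (gm N t) (gm N s)
= sin (2π (s - t)) / (N (ee t) * N (ee s))`, and `sin` is positive on `(0, π)`. `gm_inj`: the
determinant zero gives `s - t ∈ (1/2) ℤ` and half integers are excluded by `gm_half` (`v = -v` only for
`v = 0`). `gm_der`: `deriv (gm N) t = (N (ee t))⁻¹ • ee' t + (scalar) • ee t`, so
`det2 (gm N t) (deriv (gm N) t) = 2π / N (ee t) ^ 2` (`ee'` is the derivative of `ee`,
`det2 (ee t) (ee' t) = 2π`).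
-/

open Set MeasureTheory Filter Topology Metric
open Pool.Agent.Helper2.LM

namespace Pool.Agent.H99M

variable {N : Seminorm ℝ (ℝ × ℝ)}

private theorem nb_ee_ne (t : ℝ) : ee t ≠ 0 := by
  intro h
  have h1 : Real.cos (2 * Real.pi * t) = 0 := congrArg Prod.fst h
  have h2 : Real.sin (2 * Real.pi * t) = 0 := congrArg Prod.snd h
  have h3 := Real.sin_sq_add_cos_sq (2 * Real.pi * t)
  rw [h1, h2] at h3
  norm_num at h3

private theorem nb_ee_c : ContDiff ℝ 1 ee := by
  unfold ee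
  have h : ContDiff ℝ 1 (fun t : ℝ => 2 * Real.pi * t) := contDiff_const.mul contDiff_id
  exact (Real.contDiff_cos.comp h).prodMk (Real.contDiff_sin.comp h)

private theorem nb_ee_der (t : ℝ) : HasDerivAt ee (ee' t) t := by
  have h : HasDerivAt (fun t : ℝ => 2 * Real.pi * t) (2 * Real.pi) t := by
    simpa using (hasDerivAt_id t).const_mul (2 * Real.pi)
  have h1 := h.cos
  have h2 := h.sin
  have e : ee' t = (-Real.sin (2 * Real.pi * t) * (2 * Real.pi),
      Real.cos (2 * Real.pi * t) * (2 * Real.pi)) := by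
    unfold ee'
    ext <;> simp only [] <;> ring
  rw [e]
  exact h1.prodMk h2

private theorem nb_ee_half (t : ℝ) : ee (t + 1 / 2) = - ee t := by
  have e : 2 * Real.pi * (t + 1 / 2) = 2 * Real.pi * t + Real.pi := by ring
  unfold ee
  rw [e, Real.cos_add_pi, Real.sin_add_pi]
  rfl

private theorem nb_ee_int (t : ℝ) (k : ℤ) : ee (t + k) = ee t := by
  have e : 2 * Real.pi * (t + k) = 2 * Real.pi * t + k * (2 * Real.pi) := by ring
  unfold ee
  rw [e, Real.cos_add_int_mul_two_pi, Real.sin_add_int_mul_two_pi]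

private theorem nb_det_ee (t s : ℝ) : det2 (ee t) (ee s) = Real.sin (2 * Real.pi * (s - t)) := by
  have e : 2 * Real.pi * (s - t) = 2 * Real.pi * s - 2 * Real.pi * t := by ring
  rw [e, Real.sin_sub]
  simp only [det2, ee]
  ring

private theorem nb_det_smul (a b : ℝ) (u v : ℝ × ℝ) : det2 (a • u) (b • v) = a * b * det2 u v := by
  simp only [det2, Prod.smul_fst, Prod.smul_snd, smul_eq_mul]
  ring

theorem Nm.gm_c (h : Nm N) : ContDiff ℝ 1 (gm N) := by
  rw [contDiff_iff_contDiffAt]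
  intro t
  have h1 : ContDiffAt ℝ 1 N (ee t) :=
    h.smooth.contDiffAt (isOpen_compl_singleton.mem_nhds (nb_ee_ne t))
  have h2 : ContDiffAt ℝ 1 (fun s => N (ee s)) t := h1.comp t nb_ee_c.contDiffAt
  have h3 : ContDiffAt ℝ 1 (fun s => (N (ee s))⁻¹) t := h2.inv (h.pos (nb_ee_ne t)).ne'
  exact h3.smul nb_ee_c.contDiffAt

theorem Nm.gm_half (t : ℝ) : gm N (t + 1 / 2) = - gm N t := by
  unfold gm
  rw [nb_ee_half, map_neg_eq_map, smul_neg]

theorem Nm.gm_norm (h : Nm N) (t : ℝ) : N (gm N t) = 1 := by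
  have h1 := h.pos (nb_ee_ne t)
  unfold gm
  rw [map_smul_eq_mul, Real.norm_of_nonneg (inv_pos.2 h1).le, inv_mul_cancel₀ h1.ne']

theorem Nm.gm_ne (h : Nm N) (t : ℝ) : gm N t ≠ 0 := by
  intro h0
  have h1 := h.gm_norm t
  rw [h0, map_zero] at h1
  norm_num at h1

private theorem nb_gm_int (t : ℝ) (k : ℤ) : gm N (t + k) = gm N t := by
  unfold gm
  rw [nb_ee_int]

theorem Nm.gm_surj (h : Nm N) {v : ℝ × ℝ} (hv : N v = 1) (s : ℝ) :
    ∃ t, s ≤ t ∧ t < s + 1 ∧ gm N t = v := by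
  obtain ⟨t₀, ht₀⟩ : ∃ t₀, gm N t₀ = v := by
    have hv0 : v ≠ 0 := by
      rintro rfl
      rw [map_zero] at hv
      norm_num at hv
    obtain ⟨z, hz⟩ : ∃ z : ℂ, z = ⟨v.1, v.2⟩ := ⟨_, rfl⟩
    have hz1 : z.re = v.1 := by rw [hz]
    have hz2 : z.im = v.2 := by rw [hz]
    have hz0 : z ≠ 0 := by
      intro h0
      apply hv0
      ext
      · rw [← hz1, h0]; simp
      · rw [← hz2, h0]; simp
    have hr : 0 < ‖z‖ := norm_pos_iff.2 hz0
    refine ⟨Complex.arg z / (2 * Real.pi), ?_⟩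
    have e : 2 * Real.pi * (Complex.arg z / (2 * Real.pi)) = Complex.arg z := by
      field_simp
    have hv' : v = ‖z‖ • ee (Complex.arg z / (2 * Real.pi)) := by
      unfold ee
      rw [e]
      ext
      · simp only [Prod.smul_fst, smul_eq_mul]
        rw [Complex.norm_mul_cos_arg, hz1]
      · simp only [Prod.smul_snd, smul_eq_mul]
        rw [Complex.norm_mul_sin_arg, hz2]
    have hN : ‖z‖ * N (ee (Complex.arg z / (2 * Real.pi))) = 1 := by
      have h1 := hv
      rw [hv', map_smul_eq_mul, norm_norm] at h1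
      exact h1
    have hN2 : (N (ee (Complex.arg z / (2 * Real.pi))))⁻¹ = ‖z‖ :=
      (eq_inv_of_mul_eq_one_left hN).symm
    unfold gm
    rw [hN2]
    exact hv'.symm
  refine ⟨t₀ + ⌈s - t₀⌉, ?_, ?_, ?_⟩
  · have := Int.le_ceil (s - t₀)
    linarith
  · have := Int.ceil_lt_add_one (s - t₀)
    linarith
  · rw [nb_gm_int]
    exact ht₀

theorem Nm.gm_det (h : Nm N) {t s : ℝ} (h1 : t < s) (h2 : s < t + 1 / 2) :
    0 < det2 (gm N t) (gm N s) := by
  unfold gm
  rw [nb_det_smul, nb_det_ee]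
  have a1 := inv_pos.2 (h.pos (nb_ee_ne t))
  have a2 := inv_pos.2 (h.pos (nb_ee_ne s))
  refine mul_pos (mul_pos a1 a2) (Real.sin_pos_of_pos_of_lt_pi ?_ ?_)
  · have := Real.pi_pos
    have : 0 < s - t := by linarith
    positivity
  · have := Real.pi_pos
    nlinarith

theorem Nm.gm_inj (h : Nm N) {t s : ℝ} (hts : gm N t = gm N s) : ∃ k : ℤ, s = t + k := by
  have h0 : det2 (gm N t) (gm N s) = 0 := by
    rw [hts]
    simp only [det2]
    ring
  unfold gm at h0
  rw [nb_det_smul, nb_det_ee] at h0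
  have a1 := inv_pos.2 (h.pos (nb_ee_ne t))
  have a2 := inv_pos.2 (h.pos (nb_ee_ne s))
  have h1 : Real.sin (2 * Real.pi * (s - t)) = 0 := by
    rcases mul_eq_zero.1 h0 with h2 | h2
    · exact absurd h2 (mul_pos a1 a2).ne'
    · exact h2
  obtain ⟨n, hn⟩ := Real.sin_eq_zero_iff.1 h1
  have hst : s = t + n / 2 := by
    have hp := Real.pi_pos
    have h3 : Real.pi * (n - 2 * (s - t)) = 0 := by linarith
    rcases mul_eq_zero.1 h3 with h4 | h4
    · exact absurd h4 hp.ne'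
    · linarith
  rcases Int.even_or_odd' n with ⟨k, hk | hk⟩
  · refine ⟨k, ?_⟩
    rw [hst, hk]
    push_cast
    ring
  · exfalso
    have e : s = (t + k) + 1 / 2 := by
      rw [hst, hk]
      push_cast
      ring
    rw [e, Nm.gm_half, nb_gm_int] at hts
    have h5 : (2 : ℝ) • gm N t = 0 := by
      rw [two_smul]
      nth_rewrite 1 [hts]
      exact neg_add_cancel _
    rcases smul_eq_zero.1 h5 with h6 | h6
    · norm_num at h6
    · exact h.gm_ne t h6

theorem Nm.gm_der (h : Nm N) (t : ℝ) : 0 < det2 (gm N t) (deriv (gm N) t) := by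
  have hpos := h.pos (nb_ee_ne t)
  have h1 : ContDiffAt ℝ 1 N (ee t) :=
    h.smooth.contDiffAt (isOpen_compl_singleton.mem_nhds (nb_ee_ne t))
  have h2 : ContDiffAt ℝ 1 (fun s => N (ee s)) t := h1.comp t nb_ee_c.contDiffAt
  have h3 : ContDiffAt ℝ 1 (fun s => (N (ee s))⁻¹) t := h2.inv hpos.ne'
  have h4 := (h3.differentiableAt one_ne_zero).hasDerivAt
  have h5 : HasDerivAt (gm N) ((N (ee t))⁻¹ • ee' t +
      deriv (fun s => (N (ee s))⁻¹) t • ee t) t := h4.smul (nb_ee_der t)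
  rw [h5.deriv]
  have hi := inv_pos.2 hpos
  have hp := Real.pi_pos
  have key : det2 (gm N t) ((N (ee t))⁻¹ • ee' t + deriv (fun s => (N (ee s))⁻¹) t • ee t) =
      2 * Real.pi * (N (ee t))⁻¹ ^ 2 * (Real.sin (2 * Real.pi * t) ^ 2 +
        Real.cos (2 * Real.pi * t) ^ 2) := by
    simp only [det2, gm, ee, ee', Prod.smul_fst, Prod.smul_snd, Prod.fst_add, Prod.snd_add,
      smul_eq_mul]
    ring
  rw [key, Real.sin_sq_add_cos_sq]
  positivity

end Pool.Agent.H99M
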