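import Pool.Agent.H99M.NB

/-!
# The unit circle turns in one direction

Plan. Write `γ = gm N`. `fd_gm`: both sides are linear in `v`; `γ t`, `deriv γ t` is a basis
(`gm_der`); at `v = γ t` both sides are `1` (`fd_self`, `gm_norm`), at `v = deriv γ t` the right side is
`0` and the left side is the derivative of the constant function `N ∘ γ` (chain rule). `turn`: let
`a = det2 (γ t) (γ' t) > 0`, `b = det2 (γ s) (γ' s) > 0`. By `fd_gm` and `fd_lt` (`γ s ≠ ± γ t` since
`det2 (γ t) (γ s) ≠ 0`): `|det2 (γ s) (γ' t)| < a` and `|det2 (γ t) (γ' s)| < b`. The identity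
`det2 (γ t) (γ s) * det2 (γ' t) (γ' s) = det2 (γ t) (γ' t) * det2 (γ s) (γ' s) -
det2 (γ s) (γ' t) * det2 (γ t) (γ' s)` (check the sign; it is a Plücker relation, `ring` after
unfolding) shows that the product is `> 0`, and `det2 (γ t) (γ s) > 0` by `gm_det`.
-/

open Set MeasureTheory Filter Topology Metric
open Pool.Agent.Helper2.LM

namespace Pool.Agent.H99M

variable {N : Seminorm ℝ (ℝ × ℝ)}

private theorem der_zero (h : Nm N) (t : ℝ) :
    fderiv ℝ N (gm N t) (deriv (gm N) t) = 0 := by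
  have hd : HasDerivAt (gm N) (deriv (gm N) t) t :=
    (h.gm_c.differentiable one_ne_zero t).hasDerivAt
  have h1 : HasDerivAt (fun s => N (gm N s)) (fderiv ℝ N (gm N t) (deriv (gm N) t)) t :=
    (h.fd (h.gm_ne t)).comp_hasDerivAt t hd
  have h2 : (fun s => N (gm N s)) = fun _ => (1 : ℝ) := by
    funext s
    exact h.gm_norm s
  rw [h2] at h1
  exact h1.unique (hasDerivAt_const t (1 : ℝ))

theorem Nm.fd_gm (h : Nm N) (t : ℝ) (v : ℝ × ℝ) :
    fderiv ℝ N (gm N t) v = det2 v (deriv (gm N) t) / det2 (gm N t) (deriv (gm N) t) := by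
  have hd := h.gm_der t
  have e0 := der_zero h t
  have e1 : fderiv ℝ N (gm N t) (gm N t) = 1 := by
    rw [h.fd_self (h.gm_ne t), h.gm_norm]
  obtain ⟨A, hA⟩ : ∃ A, A = fderiv ℝ N (gm N t) := ⟨_, rfl⟩
  obtain ⟨g, hg⟩ : ∃ g, g = gm N t := ⟨_, rfl⟩
  obtain ⟨k, hk⟩ : ∃ k, k = deriv (gm N) t := ⟨_, rfl⟩
  rw [← hA, ← hk] at e0
  rw [← hA, ← hg] at e1
  rw [← hg, ← hk] at hd
  rw [← hA, ← hg, ← hk]
  have hv : v = (det2 v k / det2 g k) • g + (det2 g v / det2 g k) • k := by
    have hne : det2 g k ≠ 0 := hd.ne'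
    ext
    · simp only [Prod.fst_add, Prod.smul_fst, smul_eq_mul]
      field_simp
      simp only [det2]
      ring
    · simp only [Prod.snd_add, Prod.smul_snd, smul_eq_mul]
      field_simp
      simp only [det2]
      ring
  conv_lhs => rw [hv]
  rw [map_add, map_smul, map_smul, e0, e1]
  simp

theorem Nm.turn (h : Nm N) {t s : ℝ} (h1 : t < s) (h2 : s < t + 1 / 2) :
    0 < det2 (deriv (gm N) t) (deriv (gm N) s) := by
  have ha := h.gm_der t
  have hb := h.gm_der s
  have hts := h.gm_det h1 h2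
  have n1 : gm N s ≠ gm N t := by
    intro e
    rw [e] at hts
    simp only [det2] at hts
    linarith
  have n2 : gm N s ≠ - gm N t := by
    intro e
    rw [e] at hts
    simp only [det2, Prod.fst_neg, Prod.snd_neg] at hts
    linarith
  have n3 : gm N t ≠ gm N s := n1.symm
  have n4 : gm N t ≠ - gm N s := by
    intro e
    rw [e] at n2
    simp at n2
  have f1 := h.fd_lt (h.gm_norm t) (h.gm_norm s) n1 n2
  have f2 := h.fd_lt (h.gm_norm s) (h.gm_norm t) n3 n4
  rw [h.fd_gm, abs_div, abs_of_pos ha, div_lt_one ha] at f1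
  rw [h.fd_gm, abs_div, abs_of_pos hb, div_lt_one hb] at f2
  have pl : det2 (gm N t) (gm N s) * det2 (deriv (gm N) t) (deriv (gm N) s) =
      det2 (gm N t) (deriv (gm N) t) * det2 (gm N s) (deriv (gm N) s) -
        det2 (gm N s) (deriv (gm N) t) * det2 (gm N t) (deriv (gm N) s) := by
    simp only [det2]
    ring
  have h3 : |det2 (gm N s) (deriv (gm N) t) * det2 (gm N t) (deriv (gm N) s)| <
      det2 (gm N t) (deriv (gm N) t) * det2 (gm N s) (deriv (gm N) s) := by
    rw [abs_mul]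
    exact mul_lt_mul'' f1 f2 (abs_nonneg _) (abs_nonneg _)
  have h4 := le_abs_self (det2 (gm N s) (deriv (gm N) t) * det2 (gm N t) (deriv (gm N) s))
  have h5 : 0 < det2 (gm N t) (gm N s) * det2 (deriv (gm N) t) (deriv (gm N) s) := by
    rw [pl]; linarith
  exact (pos_iff_pos_of_mul_pos h5).mp hts

end Pool.Agent.H99M
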