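import Pool.Agent.H99M.NC

/-!
# Equilateral triangles: the map `T`

Plan. Write `γ = gm N`. `chord_dir`: `v = γ s - γ t ≠ 0` (gm_inj), `v = N v • γ u` with `u ∈ [s, s + 1)`
by `gm_surj` applied to `(N v)⁻¹ • v`; `det2 (γ s) v = det2 (γ t) (γ s) > 0`, so
`det2 (γ s) (γ u) > 0`, so `u ∈ (s, s + 1/2)` (otherwise `u = s`, `u = s + 1/2` give determinant `0`, and
`u ∈ (s + 1/2, s + 1)` gives a negative one by `gm_det` and `gm_half`); and
`det2 v (γ (t + 1/2)) = - det2 (γ s) (γ t) > 0` so `det2 (γ u) (γ (t + 1/2)) > 0`, which forces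
`u < t + 1/2` (for `u ∈ [t + 1/2, s + 1/2)` the determinant `det2 (γ (t + 1/2)) (γ u) ≥ 0`).
`chord_mono`: `f s = N (γ s - γ t)` is continuous; for `t < s < t + 1/2` its derivative is
`fderiv ℝ N (γ s - γ t) (γ' s) = fderiv ℝ N (γ u) (γ' s) = det2 (γ' s) (γ' u) / det2 (γ u) (γ' u) > 0`
(`fd_smul`, `fd_gm`, `turn` for `s < u < s + 1/2`), so `strictMonoOn_of_deriv_pos` on
`Icc t (t + 1/2)`. `exists_T`: `f t = 0`, `f (t + 1/2) = N (-2 γ t) = 2`, intermediate value theorem.
`T_two`: `u` from `chord_dir` with `s = T t` satisfies `γ u = γ (T t) - γ t`, and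
`N (γ u - γ (T t)) = N (- γ t) = 1`, `T t < u < T t + 1/2`, so `u = T (T t)` by uniqueness; moreover
`u < t + 1/2`. `T_three`: `γ (T (T (T t))) = γ (T (T t)) - γ (T t) = - γ t = γ (t + 1/2)` by `T_two` twice;
`t < T (T (T t)) < T t + 1/2 < t + 1`, and `gm_inj`. `T_half`: `T (T (T (T t)))` in two ways.
`T_mono`: suppose `t < t'` and `T t' ≤ T t`; reduce to `t' < T t` small case? Use: for `t < t' < T t`
(so `T t < t' + 1/2`): monotonicity in the first argument: by symmetry
`N (γ s - γ t)` is strictly decreasing in `t ∈ [s - 1/2, s]` (the same chord function read backwards: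
`γ s - γ t = γ s + γ (t + 1/2)`, or apply `chord_mono` at `s - 1/2` : `N (γ s - γ t) =
N (γ t + γ (s - 1/2))`; alternatively derivative computation as above:
`- fderiv ℝ N (γ u) (γ' t) = - det2 (γ' t) (γ' u) / … < 0` because `t < u < t + 1/2`), hence
`N (γ (T t) - γ t') < N (γ (T t) - γ t) = 1 = N (γ (T t') - γ t')` and `chord_mono` gives `T t < T t'`;
for `t' ≥ T t` simply `T t ≤ t' < T t'`.
-/

open Set MeasureTheory Filter Topology Metric
open Pool.Agent.Helper2.LM

namespace Pool.Agent.H99M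

variable {N : Seminorm ℝ (ℝ × ℝ)}

private lemma nd_det_sub_left (a b c : ℝ × ℝ) : det2 (a - b) c = det2 a c - det2 b c := by
  simp only [det2, Prod.fst_sub, Prod.snd_sub]
  ring

private lemma nd_det_sub_right (a b c : ℝ × ℝ) : det2 a (b - c) = det2 a b - det2 a c := by
  simp only [det2, Prod.fst_sub, Prod.snd_sub]
  ring

private lemma nd_det_self (a : ℝ × ℝ) : det2 a a = 0 := by
  simp only [det2]
  ring

private lemma nd_det_neg_right (a b : ℝ × ℝ) : det2 a (-b) = - det2 a b := by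
  simp only [det2, Prod.fst_neg, Prod.snd_neg]
  ring

private lemma nd_det_neg_left (a b : ℝ × ℝ) : det2 (-a) b = - det2 a b := by
  simp only [det2, Prod.fst_neg, Prod.snd_neg]
  ring

private lemma nd_det_swap (a b : ℝ × ℝ) : det2 a b = - det2 b a := by
  simp only [det2]
  ring

private lemma nd_det_smul_left (c : ℝ) (a b : ℝ × ℝ) : det2 (c • a) b = c * det2 a b := by
  simp only [det2, Prod.smul_fst, Prod.smul_snd, smul_eq_mul]
  ring

private lemma nd_det_smul_right (c : ℝ) (a b : ℝ × ℝ) : det2 a (c • b) = c * det2 a b := by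
  simp only [det2, Prod.smul_fst, Prod.smul_snd, smul_eq_mul]
  ring

private lemma nd_one (t : ℝ) : gm N (t + 1) = gm N t := by
  have h1 := Nm.gm_half (N := N) (t + 1 / 2)
  have h2 := Nm.gm_half (N := N) t
  have h3 : t + 1 / 2 + 1 / 2 = t + 1 := by ring
  rw [h3, h2, neg_neg] at h1
  exact h1

private lemma nd_ne (h : Nm N) {t s : ℝ} (h1 : t < s) (h2 : s < t + 1 / 2) :
    gm N s - gm N t ≠ 0 := by
  intro h0
  obtain ⟨k, hk⟩ := h.gm_inj (sub_eq_zero.mp h0)
  have h3 : (k : ℝ) < 0 := by linarith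
  have h4 : (-1 / 2 : ℝ) < k := by linarith
  have h5 : k < 0 := by exact_mod_cast h3
  have h6 : (k : ℝ) ≤ -1 := by exact_mod_cast (by omega : k ≤ -1)
  linarith

theorem Nm.chord_dir (h : Nm N) {t s : ℝ} (h1 : t < s) (h2 : s < t + 1 / 2) :
    ∃ u, s < u ∧ u < t + 1 / 2 ∧ gm N s - gm N t = N (gm N s - gm N t) • gm N u := by
  have hne := nd_ne h h1 h2
  have hpos := h.pos hne
  have hd := h.gm_det h1 h2
  have hN1 : N ((N (gm N s - gm N t))⁻¹ • (gm N s - gm N t)) = 1 := by
    rw [map_smul_eq_mul, Real.norm_eq_abs, abs_of_pos (inv_pos.mpr hpos)]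
    exact inv_mul_cancel₀ hpos.ne'
  obtain ⟨u, hu1, hu2, hu⟩ := h.gm_surj hN1 s
  have hv : gm N s - gm N t = N (gm N s - gm N t) • gm N u := by
    rw [hu, smul_smul, mul_inv_cancel₀ hpos.ne', one_smul]
  have hpi := inv_pos.mpr hpos
  -- the determinant with `γ s`
  have hd1 : 0 < det2 (gm N s) (gm N u) := by
    rw [hu, nd_det_smul_right, nd_det_sub_right, nd_det_self, nd_det_swap (gm N s) (gm N t)]
    apply mul_pos hpi
    linarith
  have hd2 : 0 < det2 (gm N u) (gm N (t + 1 / 2)) := by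
    rw [hu, Nm.gm_half, nd_det_smul_left, nd_det_neg_right, nd_det_sub_left, nd_det_self,
      nd_det_swap (gm N s) (gm N t)]
    apply mul_pos hpi
    linarith
  have hu3 : s < u := by
    rcases hu1.lt_or_eq with h3 | h3
    · exact h3
    · rw [← h3, nd_det_self] at hd1
      exact absurd hd1 (lt_irrefl _)
  have hu4 : u < s + 1 / 2 := by
    by_contra h3
    rw [not_lt] at h3
    rcases h3.lt_or_eq with h4 | h4
    · have h5 := h.gm_det (t := u) (s := s + 1) hu2 (by linarith)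
      rw [nd_one, nd_det_swap] at h5
      linarith
    · rw [← h4, Nm.gm_half, nd_det_neg_right, nd_det_self, neg_zero] at hd1
      exact absurd hd1 (lt_irrefl _)
  refine ⟨u, hu3, ?_, hv⟩
  by_contra h3
  rw [not_lt] at h3
  rcases h3.lt_or_eq with h4 | h4
  · have h5 := h.gm_det h4 (by linarith)
    rw [nd_det_swap] at h5
    linarith
  · rw [← h4, nd_det_self] at hd2
    exact absurd hd2 (lt_irrefl _)

/-- the derivative of the norm at a chord -/
private lemma nd_fd (h : Nm N) {t s : ℝ} (h1 : t < s) (h2 : s < t + 1 / 2) :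
    ∃ u, s < u ∧ u < t + 1 / 2 ∧ ∀ w, fderiv ℝ N (gm N s - gm N t) w
      = det2 w (deriv (gm N) u) / det2 (gm N u) (deriv (gm N) u) := by
  obtain ⟨u, hu1, hu2, hu⟩ := h.chord_dir h1 h2
  refine ⟨u, hu1, hu2, fun w => ?_⟩
  rw [hu, h.fd_smul (h.gm_ne u) (h.pos (nd_ne h h1 h2)), h.fd_gm]

private lemma nd_hasDeriv (h : Nm N) (s : ℝ) : HasDerivAt (gm N) (deriv (gm N) s) s :=
  ((h.gm_c).differentiable (by norm_num) s).hasDerivAt

theorem Nm.chord_mono (h : Nm N) (t : ℝ) :
    StrictMonoOn (fun s => N (gm N s - gm N t)) (Icc t (t + 1 / 2)) := by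
  apply strictMonoOn_of_deriv_pos (convex_Icc _ _)
  · exact ((Nm.cont N).comp (h.gm_c.continuous.sub continuous_const)).continuousOn
  · intro s hs
    rw [interior_Icc] at hs
    obtain ⟨h1, h2⟩ := hs
    obtain ⟨u, hu1, hu2, hu⟩ := nd_fd h h1 h2
    have hd : HasDerivAt (fun s => N (gm N s - gm N t))
        (fderiv ℝ N (gm N s - gm N t) (deriv (gm N) s)) s :=
      (h.fd (nd_ne h h1 h2)).comp_hasDerivAt s ((nd_hasDeriv h s).sub_const (gm N t))
    rw [hd.deriv, hu]
    exact div_pos (h.turn hu1 (by linarith)) (h.gm_der u)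

/-- the chord function is decreasing in the lower end point -/
private lemma nd_anti (h : Nm N) (s : ℝ) :
    StrictAntiOn (fun t => N (gm N s - gm N t)) (Icc (s - 1 / 2) s) := by
  apply strictAntiOn_of_deriv_neg (convex_Icc _ _)
  · exact ((Nm.cont N).comp (continuous_const.sub h.gm_c.continuous)).continuousOn
  · intro t ht
    rw [interior_Icc] at ht
    obtain ⟨h2, h1⟩ := ht
    have h2' : s < t + 1 / 2 := by linarith
    obtain ⟨u, hu1, hu2, hu⟩ := nd_fd h h1 h2'
    have hd : HasDerivAt (fun t => N (gm N s - gm N t))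
        (fderiv ℝ N (gm N s - gm N t) (-deriv (gm N) t)) t :=
      (h.fd (nd_ne h h1 h2')).comp_hasDerivAt t ((nd_hasDeriv h t).const_sub (gm N s))
    rw [hd.deriv, hu, nd_det_neg_left, neg_div]
    have := div_pos (h.turn (h1.trans hu1) hu2) (h.gm_der u)
    linarith

theorem Nm.exists_T (h : Nm N) : ∃ T : ℝ → ℝ, IsT N T := by
  have key : ∀ t : ℝ, ∃ s, t < s ∧ s < t + 1 / 2 ∧ N (gm N s - gm N t) = 1 ∧
      ∀ s', t < s' → s' < t + 1 / 2 → N (gm N s' - gm N t) = 1 → s' = s := by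
    intro t
    have hle : t ≤ t + 1 / 2 := by linarith
    have h0 : N (gm N t - gm N t) = 0 := by rw [sub_self, map_zero]
    have h2 : N (gm N (t + 1 / 2) - gm N t) = 2 := by
      rw [Nm.gm_half]
      have : -gm N t - gm N t = (-2 : ℝ) • gm N t := by
        rw [neg_smul, two_smul]
        abel
      rw [this, map_smul_eq_mul, h.gm_norm, Real.norm_eq_abs]
      norm_num
    have hcont : ContinuousOn (fun s => N (gm N s - gm N t)) (Icc t (t + 1 / 2)) :=
      ((Nm.cont N).comp (h.gm_c.continuous.sub continuous_const)).continuousOn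
    have hiv := intermediate_value_Icc hle hcont
    obtain ⟨s, hs, hs1⟩ := hiv (show (1 : ℝ) ∈ Icc (N (gm N t - gm N t))
      (N (gm N (t + 1 / 2) - gm N t)) by rw [h0, h2]; constructor <;> norm_num)
    have hs1' : N (gm N s - gm N t) = 1 := hs1
    refine ⟨s, ?_, ?_, hs1', ?_⟩
    · rcases hs.1.lt_or_eq with h3 | h3
      · exact h3
      · rw [← h3, h0] at hs1'
        norm_num at hs1'
    · rcases hs.2.lt_or_eq with h3 | h3
      · exact h3
      · rw [h3, h2] at hs1'
        norm_num at hs1'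
    · intro s' h3 h4 h5
      exact (h.chord_mono t).injOn ⟨h3.le, h4.le⟩ hs (h5.trans hs1'.symm)
  choose T hT using key
  exact ⟨T, hT⟩

theorem Nm.T_two (h : Nm N) {T : ℝ → ℝ} (hT : IsT N T) (t : ℝ) :
    gm N (T (T t)) = gm N (T t) - gm N t ∧ T (T t) < t + 1 / 2 := by
  obtain ⟨h1, h2, h3, _⟩ := hT t
  obtain ⟨u, hu1, hu2, hu⟩ := h.chord_dir h1 h2
  rw [h3, one_smul] at hu
  have h4 : u = T (T t) := by
    apply (hT (T t)).2.2.2 u hu1 (by linarith)
    rw [← hu]
    have : gm N (T t) - gm N t - gm N (T t) = - gm N t := by abel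
    rw [this, map_neg_eq_map, h.gm_norm]
  rw [← h4]
  exact ⟨hu.symm, hu2⟩

theorem Nm.T_three (h : Nm N) {T : ℝ → ℝ} (hT : IsT N T) (t : ℝ) :
    T (T (T t)) = t + 1 / 2 := by
  have h1 := (h.T_two hT (T t)).1
  have h2 := (h.T_two hT t).1
  have h3 := (h.T_two hT (T t)).2
  have h4 := (hT t).1
  have h5 := (hT t).2.1
  have h6 := (hT (T t)).1
  have h7 := (hT (T (T t))).1
  have h8 : gm N (T (T (T t))) = gm N (t + 1 / 2) := by
    rw [h1, h2, Nm.gm_half]
    abel
  obtain ⟨k, hk⟩ := h.gm_inj h8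
  have h9 : (-1 / 2 : ℝ) < k := by linarith
  have h10 : (k : ℝ) < 1 / 2 := by linarith
  have h11 : k = 0 := by
    have ha : (-1 : ℝ) < k := by linarith
    have hb : (k : ℝ) < 1 := by linarith
    have ha' : -1 < k := by exact_mod_cast ha
    have hb' : k < 1 := by exact_mod_cast hb
    omega
  rw [h11, Int.cast_zero, add_zero] at hk
  exact hk.symm

theorem Nm.T_mono (h : Nm N) {T : ℝ → ℝ} (hT : IsT N T) : StrictMono T := by
  intro t t' htt
  by_cases h1 : T t ≤ t'
  · exact lt_of_le_of_lt h1 (hT t').1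
  · rw [not_le] at h1
    obtain ⟨h2, h3, h4, _⟩ := hT t
    obtain ⟨h2', h3', h4', _⟩ := hT t'
    have h5 : N (gm N (T t) - gm N t') < N (gm N (T t) - gm N t) :=
      nd_anti h (T t) ⟨by linarith, h2.le⟩ ⟨by linarith, h1.le⟩ htt
    rw [h4, ← h4'] at h5
    exact ((h.chord_mono t').lt_iff_lt ⟨h1.le, by linarith⟩ ⟨h2'.le, h3'.le⟩).mp h5

end Pool.Agent.H99M
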