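import Pool.Agent.H99M.ND

/-!
# The map `T` is a `C¹` diffeomorphism

Plan. `T` is strictly monotone (T_mono) and surjective (every `t` is `T (T (T (t - 1/2)))`, so
`t = T (…)`), hence continuous (StrictMono.continuous_of_surjective or Monotone.continuous_of_…).
Let `Ψ (t, s) = N (γ s - γ t)`, `γ = gm N`; it is `C¹` near every `(t, s)` with `γ s ≠ γ t`. At
`(t, T t)` put `u = T (T t)`, `γ (T t) - γ t = γ u`: `∂ₛ Ψ = fderiv ℝ N (γ u) (γ' (T t)) =
det2 (γ' (T t)) (γ' u) / det2 (γ u) (γ' u) > 0` and `∂ₜ Ψ = - det2 (γ' t) (γ' u) / det2 (γ u) (γ' u) < 0`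
(`fd_gm`, `turn`, with `t < T t < u < t + 1/2`). Implicit function theorem: apply the inverse function
theorem (ContDiffAt.toOpenPartialHomeomorph / ContDiffAt.to_localInverse, or
HasStrictFDerivAt.to_localInverse) to `(t, s) ↦ (t, Ψ (t, s))` at `(t₀, T t₀)`; since `T` is continuous,
`T t = (localInverse (t, 1)).2` for `t` close to `t₀`. Alternatively avoid the implicit function
theorem: from continuity of `T` and strict differentiability of `Ψ` at `(t₀, T t₀)`,
`0 = Ψ (t, T t) - Ψ (t', T t') = ∂ₜ Ψ (t - t') + ∂ₛ Ψ (T t - T t') + o(|t - t'| + |T t - T t'|)`, which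
gives directly `HasDerivAt T (- ∂ₜ Ψ / ∂ₛ Ψ) t₀`
(`T' t = det2 (γ' t) (γ' (T (T t))) / det2 (γ' (T t)) (γ' (T (T t)))`), a continuous positive function
of `t`, so `contDiff_one_iff_deriv`. (Mathlib has `HasStrictFDerivAt.implicitFunction` too; there is
also Pool.Agent.Helper2.LM.G4 `imp` for the pattern.)
-/

open Set MeasureTheory Filter Topology Metric Asymptotics
open Pool.Agent.Helper2.LM

namespace Pool.Agent.H99M

variable {N : Seminorm ℝ (ℝ × ℝ)}

theorem Nm.T_cont (h : Nm N) {T : ℝ → ℝ} (hT : IsT N T) : Continuous T := by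
  refine Monotone.continuous_of_surjective (h.T_mono hT).monotone ?_
  intro t
  exact ⟨T (T (t - 1 / 2)), by rw [h.T_three hT]; ring⟩

private theorem ne_num_pos (h : Nm N) {T : ℝ → ℝ} (hT : IsT N T) (t : ℝ) :
    0 < det2 (deriv (gm N) t) (deriv (gm N) (T (T t))) :=
  h.turn ((hT t).1.trans (hT (T t)).1) (h.T_two hT t).2

private theorem ne_den_pos (h : Nm N) {T : ℝ → ℝ} (hT : IsT N T) (t : ℝ) :
    0 < det2 (deriv (gm N) (T t)) (deriv (gm N) (T (T t))) :=
  h.turn (hT (T t)).1 (hT (T t)).2.1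

theorem Nm.T_der (h : Nm N) {T : ℝ → ℝ} (hT : IsT N T) (t : ℝ) :
    HasDerivAt T (det2 (deriv (gm N) t) (deriv (gm N) (T (T t))) /
      det2 (deriv (gm N) (T t)) (deriv (gm N) (T (T t)))) t := by
  set γ := gm N with hγ
  have hd : ∀ s, HasDerivAt γ (deriv γ s) s := fun s =>
    (h.gm_c.differentiable one_ne_zero s).hasDerivAt
  set u := T (T t) with hu
  have hv : γ (T t) - γ t = γ u := ((h.T_two hT t).1).symm
  have hne : γ u ≠ 0 := h.gm_ne u
  set m := det2 (γ u) (deriv γ u) with hm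
  have hmpos : 0 < m := h.gm_der u
  -- derivative of `(x, y) ↦ N (γ y - γ x)`
  have h1 : HasFDerivAt (fun z : ℝ × ℝ => γ z.1)
      ((ContinuousLinearMap.fst ℝ ℝ ℝ).smulRight (deriv γ t)) (t, T t) := by
    have := HasFDerivAt.comp (t, T t) (f := fun z : ℝ × ℝ => z.1) (g := γ)
      (hd t).hasFDerivAt hasFDerivAt_fst
    exact this.congr_fderiv (by ext <;> simp)
  have h2 : HasFDerivAt (fun z : ℝ × ℝ => γ z.2)
      ((ContinuousLinearMap.snd ℝ ℝ ℝ).smulRight (deriv γ (T t))) (t, T t) := by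
    have := HasFDerivAt.comp (t, T t) (f := fun z : ℝ × ℝ => z.2) (g := γ)
      (hd (T t)).hasFDerivAt hasFDerivAt_snd
    exact this.congr_fderiv (by ext <;> simp)
  have h3 : HasFDerivAt (fun z : ℝ × ℝ => γ z.2 - γ z.1) _ (t, T t) := h2.sub h1
  have h4 : HasFDerivAt N (fderiv ℝ N (γ u)) ((fun z : ℝ × ℝ => γ z.2 - γ z.1) (t, T t)) := by
    simp only [hv]
    exact h.fd hne
  have h5 := h4.comp (t, T t) h3
  rw [hasFDerivAt_iff_isLittleO] at h5
  -- restrict to the graph of `T`
  have hcT : Tendsto (fun s => (s, T s)) (𝓝 t) (𝓝 (t, T t)) :=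
    (continuous_id.prodMk (h.T_cont hT)).tendsto t
  have h6 := h5.comp_tendsto hcT
  have h7 : ∀ s, N (γ (T s) - γ s) = 1 := fun s => (hT s).2.2.1
  set q := fderiv ℝ N (γ u) (deriv γ (T t)) with hq
  set p := fderiv ℝ N (γ u) (deriv γ t) with hp
  have hqe : q = det2 (deriv γ (T t)) (deriv γ u) / m := h.fd_gm u _
  have hpe : p = det2 (deriv γ t) (deriv γ u) / m := h.fd_gm u _
  have hqpos : 0 < q := by
    rw [hqe]
    exact div_pos (ne_den_pos h hT t) hmpos
  have hppos : 0 < p := by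
    rw [hpe]
    exact div_pos (ne_num_pos h hT t) hmpos
  have h8 : (fun s => q * (T s - T t) - p * (s - t)) =o[𝓝 t]
      fun s => ((s, T s) - (t, T t) : ℝ × ℝ) := by
    refine (h6.neg_left).congr_left ?_
    intro s
    simp only [Function.comp_apply, h7, ContinuousLinearMap.comp_apply,
      sub_apply, ContinuousLinearMap.smulRight_apply, ContinuousLinearMap.coe_fst',
      ContinuousLinearMap.coe_snd', map_sub, map_smul, smul_eq_mul]
    ring
  -- `T s - T t = O (s - t)`
  have h9 : (fun s => ((s, T s) - (t, T t) : ℝ × ℝ)) =O[𝓝 t] fun s => s - t := by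
    have h10 := h8.bound (half_pos hqpos)
    refine IsBigO.of_bound (2 * p / q + 2) ?_
    filter_upwards [h10] with s hs
    rw [Prod.mk_sub_mk, Prod.norm_mk, Real.norm_eq_abs, Real.norm_eq_abs, Real.norm_eq_abs] at hs
    rw [Prod.mk_sub_mk, Prod.norm_mk, Real.norm_eq_abs, Real.norm_eq_abs]
    have e1 : max |s - t| |T s - T t| ≤ |s - t| + |T s - T t| :=
      max_le (by linarith [abs_nonneg (T s - T t)]) (by linarith [abs_nonneg (s - t)])
    have e2 : q * |T s - T t| ≤ |q * (T s - T t) - p * (s - t)| + p * |s - t| := by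
      have e3 : |q * (T s - T t)| ≤ |q * (T s - T t) - p * (s - t)| + |p * (s - t)| := by
        have := abs_add_le (q * (T s - T t) - p * (s - t)) (p * (s - t))
        simpa using this
      rwa [abs_mul, abs_mul, abs_of_pos hqpos, abs_of_pos hppos] at e3
    have e4 : q * |T s - T t| ≤ (2 * p + q) * |s - t| := by
      nlinarith [abs_nonneg (s - t), abs_nonneg (T s - T t)]
    have e5 : |T s - T t| ≤ (2 * p / q + 1) * |s - t| := by
      rw [← mul_le_mul_iff_right₀ hqpos]
      calc q * |T s - T t| ≤ (2 * p + q) * |s - t| := e4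
        _ = q * ((2 * p / q + 1) * |s - t|) := by field_simp
    refine max_le ?_ (e5.trans ?_)
    · have : (0 : ℝ) ≤ 2 * p / q := by positivity
      nlinarith [abs_nonneg (s - t)]
    · nlinarith [abs_nonneg (s - t)]
  have h11 := h8.trans_isBigO h9
  rw [hasDerivAt_iff_isLittleO]
  refine (h11.const_mul_left q⁻¹).congr_left ?_
  intro s
  rw [smul_eq_mul]
  have e6 : det2 (deriv γ t) (deriv γ u) / det2 (deriv γ (T t)) (deriv γ u) = p / q := by
    rw [hpe, hqe]
    have := (ne_den_pos h hT t).ne'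
    field_simp
  rw [e6]
  field_simp

theorem Nm.T_c (h : Nm N) {T : ℝ → ℝ} (hT : IsT N T) : ContDiff ℝ 1 T := by
  rw [contDiff_one_iff_deriv]
  refine ⟨fun t => (h.T_der hT t).differentiableAt, ?_⟩
  have e : deriv T = fun t => det2 (deriv (gm N) t) (deriv (gm N) (T (T t))) /
      det2 (deriv (gm N) (T t)) (deriv (gm N) (T (T t))) := by
    funext t
    exact (h.T_der hT t).deriv
  rw [e]
  have hγ' : Continuous (deriv (gm N)) := h.gm_c.continuous_deriv le_rfl
  have hTc := h.T_cont hT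
  have c1 : Continuous fun t => deriv (gm N) (T t) := hγ'.comp hTc
  have c2 : Continuous fun t => deriv (gm N) (T (T t)) := hγ'.comp (hTc.comp hTc)
  refine Continuous.div ?_ ?_ (fun t => (ne_den_pos h hT t).ne')
  · unfold det2
    fun_prop
  · unfold det2
    fun_prop

theorem Nm.T_pos (h : Nm N) {T : ℝ → ℝ} (hT : IsT N T) (t : ℝ) : 0 < deriv T t := by
  rw [(h.T_der hT t).deriv]
  exact div_pos (ne_num_pos h hT t) (ne_den_pos h hT t)

end Pool.Agent.H99M
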