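import Pool.Agent.H99M.GeoB

/-!
# Images of null sets and local surjectivity for the sum of two curves

Plan. `sum_null`: `G u = α u.1 + β u.2` is differentiable, so it maps null sets to null sets
(MeasureTheory.addHaar_image_eq_zero_of_differentiableOn_of_addHaar_eq_zero). `sum_nhds`: `G` has at
`(x₀, y₀)` a strict derivative which is invertible (see the proof of
Pool.Agent.Helper2.LM.null_sum in M3.lean for the equivalence), so it is open at this point
(HasStrictFDerivAt.map_nhds_eq_of_equiv).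
-/

open Set MeasureTheory Filter Topology Metric
open Pool.Agent.Helper2.LM

namespace Pool.Agent.H99M

theorem sum_null {α β : ℝ → ℝ × ℝ} (hα : ContDiff ℝ 1 α) (hβ : ContDiff ℝ 1 β)
    {S : Set (ℝ × ℝ)} (hS : volume S = 0) :
    volume ((fun u : ℝ × ℝ => α u.1 + β u.2) '' S) = 0 := by
  have hG : ContDiff ℝ 1 (fun u : ℝ × ℝ => α u.1 + β u.2) :=
    (hα.comp contDiff_fst).add (hβ.comp contDiff_snd)
  exact addHaar_image_eq_zero_of_differentiableOn_of_addHaar_eq_zero volume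
    ((hG.differentiable one_ne_zero).differentiableOn) hS

theorem sum_nhds {α β : ℝ → ℝ × ℝ} (hα : ContDiff ℝ 1 α) (hβ : ContDiff ℝ 1 β) {x₀ y₀ : ℝ}
    (h : det2 (deriv α x₀) (deriv β y₀) ≠ 0) {S : Set (ℝ × ℝ)} (hS : S ∈ 𝓝 (x₀, y₀)) :
    (fun u : ℝ × ℝ => α u.1 + β u.2) '' S ∈ 𝓝 (α x₀ + β y₀) := by
  have hG : ContDiff ℝ 1 (fun u : ℝ × ℝ => α u.1 + β u.2) :=
    (hα.comp contDiff_fst).add (hβ.comp contDiff_snd)
  have hst := (hG.contDiffAt (x := (x₀, y₀))).hasStrictFDerivAt one_ne_zero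
  have d1 : HasDerivAt α (deriv α x₀) x₀ := (hα.differentiable one_ne_zero x₀).hasDerivAt
  have d2 : HasDerivAt β (deriv β y₀) y₀ := (hβ.differentiable one_ne_zero y₀).hasDerivAt
  set v := deriv α x₀ with hv
  set w := deriv β y₀ with hw
  let L : ℝ × ℝ →L[ℝ] ℝ × ℝ :=
    (ContinuousLinearMap.fst ℝ ℝ ℝ).smulRight v + (ContinuousLinearMap.snd ℝ ℝ ℝ).smulRight w
  have hLd : HasFDerivAt (fun u : ℝ × ℝ => α u.1 + β u.2) L (x₀, y₀) := by
    have e1 : HasFDerivAt (fun z : ℝ × ℝ => α z.1)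
        ((ContinuousLinearMap.fst ℝ ℝ ℝ).smulRight v) (x₀, y₀) := by
      have := HasFDerivAt.comp (x₀, y₀) (f := fun z : ℝ × ℝ => z.1) (g := α)
        d1.hasFDerivAt hasFDerivAt_fst
      exact this.congr_fderiv (by ext <;> simp)
    have e2 : HasFDerivAt (fun z : ℝ × ℝ => β z.2)
        ((ContinuousLinearMap.snd ℝ ℝ ℝ).smulRight w) (x₀, y₀) := by
      have := HasFDerivAt.comp (x₀, y₀) (f := fun z : ℝ × ℝ => z.2) (g := β)
        d2.hasFDerivAt hasFDerivAt_snd
      exact this.congr_fderiv (by ext <;> simp)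
    exact e1.add e2
  have hinj : Function.Injective (L : ℝ × ℝ →ₗ[ℝ] ℝ × ℝ) := by
    rw [← LinearMap.ker_eq_bot, LinearMap.ker_eq_bot']
    rintro ⟨a, b⟩ hab
    have hab' : a • v + b • w = 0 := hab
    have q1 : a * v.1 + b * w.1 = 0 := by
      have := congrArg Prod.fst hab'
      simpa using this
    have q2 : a * v.2 + b * w.2 = 0 := by
      have := congrArg Prod.snd hab'
      simpa using this
    unfold det2 at h
    have ha : a * (v.1 * w.2 - v.2 * w.1) = 0 := by linear_combination w.2 * q1 - w.1 * q2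
    have hb : b * (v.1 * w.2 - v.2 * w.1) = 0 := by linear_combination v.1 * q2 - v.2 * q1
    have ha' := (mul_eq_zero.1 ha).resolve_right h
    have hb' := (mul_eq_zero.1 hb).resolve_right h
    rw [ha', hb']
    rfl
  have hL : HasStrictFDerivAt (fun u : ℝ × ℝ => α u.1 + β u.2)
      (((LinearEquiv.ofInjectiveEndo (L : ℝ × ℝ →ₗ[ℝ] ℝ × ℝ) hinj).toContinuousLinearEquiv :
        (ℝ × ℝ) ≃L[ℝ] (ℝ × ℝ)) : (ℝ × ℝ) →L[ℝ] (ℝ × ℝ)) (x₀, y₀) := by
    rw [hLd.fderiv] at hst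
    exact hst.congr_fderiv (by ext <;> rfl)
  have hmap := hL.map_nhds_eq_of_equiv
  have h1 : (fun u : ℝ × ℝ => α u.1 + β u.2) '' S ∈
      Filter.map (fun u : ℝ × ℝ => α u.1 + β u.2) (𝓝 (x₀, y₀)) := image_mem_map hS
  rw [hmap] at h1
  exact h1

end Pool.Agent.H99M
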