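import Pool.Agent.H99M.RegA

/-!
# The regions coloured by `E` and `F`

Plan. Let `N` be the null set of pairs `(t', s') ∈ ℝ × ℝ` such that `t' ∈ (a, b)` but
`¬ Dens1 P (γ t')`, or `s' ∈ (b, c)` but `¬ Dens1 Q (γ s')` (null: products of null sets with the
line, or `Measure.ae_prod_mem_iff_ae_ae_mem`-style lemmas; `Filter.Eventually` for
`volume.prod volume` via `Measure.quasiMeasurePreserving_fst.ae`, `..._snd.ae`). By `sum_null` its
image under `(t', s') ↦ γ t' + γ s'` is null. By `sum_nhds` (the determinant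
`det2 (γ' t) (γ' s)` is positive by `turn`), the image of `Ioo a b ×ˢ Ioo b c` is a neighbourhood of
`γ t + γ s`. So almost every `x` close to `γ t + γ s` is `γ t' + γ s'` with `t' ∈ (a, b)`,
`s' ∈ (b, c)`, `Dens1 P (γ t')`, `Dens1 Q (γ s')`. For almost every `x`: `x` is in one of the four
classes (`cover`) and if `x ∈ P` then `Dens1 P x`, if `x ∈ Q` then `Dens1 Q x` (Lebesgue density
theorem, see the proof of mix_null in M1.lean). If `x ∈ P`, then `¬ Dens0 P x` (dens1_not_dens0),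
and `Dens1 P (γ t')`, so `far_aux` (M1.lean) gives `z` with `x + z ∈ P`, `γ t' + z ∈ P`, whose
difference `x - γ t' = γ s'` is in `D`: contradiction with `aP`. In the same way `x ∉ Q` (difference
`γ t'`). So `x ∈ E ∪ F`. The second case of the hypothesis is the same with `P`, `Q` exchanged.
-/

open Set MeasureTheory Filter Topology Metric
open Pool.Agent.Helper2.LM

namespace Pool.Agent.H99M

/-- Lebesgue density theorem along the dyadic radii -/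
private theorem regB_dens {B : Set (ℝ × ℝ)} (hB : MeasurableSet B) :
    ∀ᵐ x : ℝ × ℝ, x ∈ B → Dens1 B x := by
  have h2 := Besicovitch.ae_tendsto_measure_inter_div (volume : Measure (ℝ × ℝ)) B
  rw [ae_restrict_iff' hB] at h2
  filter_upwards [h2] with x hx hxA
  exact (hx hxA).comp tendsto_rad

private theorem regB_core {D : Set (ℝ × ℝ)} {γ : ℝ → ℝ × ℝ} {E F P Q : Set (ℝ × ℝ)}
    (hγ : ContDiff ℝ 1 γ) (hD : ∀ t, γ t ∈ D) (mP : MeasurableSet P) (mQ : MeasurableSet Q)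
    (aP : ∀ x ∈ P, ∀ y ∈ P, x - y ∉ D) (aQ : ∀ x ∈ Q, ∀ y ∈ Q, x - y ∉ D)
    (cover : ∀ᵐ x : ℝ × ℝ, x ∈ E ∨ x ∈ F ∨ x ∈ P ∨ x ∈ Q) {a b c : ℝ}
    (hP : Arc γ P a b) (hQ : Arc γ Q b c) {t s : ℝ}
    (hdet : det2 (deriv γ t) (deriv γ s) ≠ 0)
    (h1 : a < t) (h2 : t < b) (h3 : b < s) (h4 : s < c) :
    Reg E F (γ t + γ s) := by
  have hae : ∀ᵐ u : ℝ × ℝ, (a < u.1 → u.1 < b → Dens1 P (γ u.1)) ∧
      (b < u.2 → u.2 < c → Dens1 Q (γ u.2)) := by
    have e1 : ∀ᵐ u : ℝ × ℝ ∂((volume : Measure ℝ).prod (volume : Measure ℝ)),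
        (a < u.1 → u.1 < b → Dens1 P (γ u.1)) :=
      Measure.quasiMeasurePreserving_fst.ae hP
    have e2 : ∀ᵐ u : ℝ × ℝ ∂((volume : Measure ℝ).prod (volume : Measure ℝ)),
        (b < u.2 → u.2 < c → Dens1 Q (γ u.2)) :=
      Measure.quasiMeasurePreserving_snd.ae hQ
    filter_upwards [e1, e2] with u hu1 hu2
    exact ⟨hu1, hu2⟩
  have hN : volume {u : ℝ × ℝ | ¬ ((a < u.1 → u.1 < b → Dens1 P (γ u.1)) ∧
      (b < u.2 → u.2 < c → Dens1 Q (γ u.2)))} = 0 := ae_iff.1 hae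
  have hGN := sum_null hγ hγ hN
  have hGN' := measure_eq_zero_iff_ae_notMem.1 hGN
  have hS : Ioo a b ×ˢ Ioo b c ∈ 𝓝 (t, s) :=
    prod_mem_nhds (Ioo_mem_nhds h1 h2) (Ioo_mem_nhds h3 h4)
  have hnh := sum_nhds hγ hγ hdet hS
  obtain ⟨ρ, hρ, hball⟩ := Metric.mem_nhds_iff.1 hnh
  refine ⟨ρ, hρ, ?_⟩
  filter_upwards [hGN', cover, regB_dens mP, regB_dens mQ] with x hx1 hx2 hx3 hx4 hxd
  obtain ⟨u, hu, hux⟩ := hball (Metric.mem_ball.2 hxd)
  have hun : (a < u.1 → u.1 < b → Dens1 P (γ u.1)) ∧ (b < u.2 → u.2 < c → Dens1 Q (γ u.2)) := by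
    by_contra hcon
    exact hx1 ⟨u, hcon, hux⟩
  have hd1 : Dens1 P (γ u.1) := hun.1 hu.1.1 hu.1.2
  have hd2 : Dens1 Q (γ u.2) := hun.2 hu.2.1 hu.2.2
  have hux' : γ u.1 + γ u.2 = x := hux
  rcases hx2 with hE | hF | hPx | hQx
  · exact Or.inl hE
  · exact Or.inr hF
  · exfalso
    obtain ⟨z, hz1, hz2⟩ := far_aux mP (dens1_not_dens0 (hx3 hPx)) hd1
    apply aP _ hz1 _ hz2
    have : x + z - (γ u.1 + z) = γ u.2 := by rw [← hux']; abel
    rw [this]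
    exact hD _
  · exfalso
    obtain ⟨z, hz1, hz2⟩ := far_aux mQ (dens1_not_dens0 (hx4 hQx)) hd2
    apply aQ _ hz1 _ hz2
    have : x + z - (γ u.2 + z) = γ u.1 := by rw [← hux']; abel
    rw [this]
    exact hD _

theorem reg_of {D : Set (ℝ × ℝ)} {γ : ℝ → ℝ × ℝ} {T : ℝ → ℝ} {E F P Q : Set (ℝ × ℝ)}
    (hG : Geo D γ T) (h : Ctx D γ E F P Q) {a b c : ℝ}
    (habc : (Arc γ P a b ∧ Arc γ Q b c) ∨ (Arc γ Q a b ∧ Arc γ P b c)) {t s : ℝ}
    (h1 : a < t) (h2 : t < b) (h3 : b < s) (h4 : s < c) (h5 : s < t + 1 / 2) :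
    Reg E F (γ t + γ s) := by
  have hdet : det2 (deriv γ t) (deriv γ s) ≠ 0 := (hG.turn t s (h2.trans h3) h5).ne'
  have hD : ∀ t, γ t ∈ D := fun t => (hG.D_iff _).2 ⟨t, rfl⟩
  rcases habc with ⟨hA, hB⟩ | ⟨hA, hB⟩
  · exact regB_core hG.γ_c hD h.mP h.mQ h.aP h.aQ h.cover hA hB hdet h1 h2 h3 h4
  · refine regB_core hG.γ_c hD h.mQ h.mP h.aQ h.aP ?_ hA hB hdet h1 h2 h3 h4
    filter_upwards [h.cover] with x hx
    rcases hx with hx | hx | hx | hx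
    · exact Or.inl hx
    · exact Or.inr (Or.inl hx)
    · exact Or.inr (Or.inr (Or.inr hx))
    · exact Or.inr (Or.inr (Or.inl hx))

end Pool.Agent.H99M
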