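import Pool.Agent.H99M.Defs

/-!
# Elementary properties of the weights

Plan. `wt_meas`, `wtV_meas`: the set `{(z, s) | |s - y| ≤ ρ ∧ z + β s ∈ X}` is measurable in
`(ℝ × ℝ) × ℝ`, use `measurable_measure_prodMk_left`. `wt_le`, `wtV_le`: the set of parameters is
inside `Icc (y - ρ) (y + ρ)`, of measure `ofReal (2 ρ)`. `wt_mono`: measure_mono. `wt_bad`: Tonelli:
`∫⁻ z, indicator Gᶜ (wt β X y ρ) z = volume {(z, s) | z ∉ G ∧ |s - y| ≤ ρ ∧ z + β s ∈ X}
= ∫⁻ s in Icc (y - ρ) (y + ρ), volume {z | z ∉ G ∧ z + β s ∈ X}` (Measure.prod_apply,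
Measure.prod_apply_symm) and `volume {z | z ∉ G ∧ z + β s ∈ X} = volume {x | x ∈ X ∧ x - β s ∉ G}` by
translation invariance (measure_preimage_add_right with `z + β s = x`). `wtV_int`: in the same way
`∫⁻ z, wtV γ V y ρ z = ∫⁻ s in Icc .., volume {z | (z - γ s, s) ∈ V} = ∫⁻ s in Icc ..,
volume {p | (p, s) ∈ V}`, which is `≤ volume V`, with equality if `V` lives over the interval.
-/

open Set MeasureTheory Filter Topology Metric
open Pool.Agent.Helper2.LM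

namespace Pool.Agent.H99M

variable {γ β : ℝ → ℝ × ℝ} {X G : Set (ℝ × ℝ)} {V : Set ((ℝ × ℝ) × ℝ)} {y ρ ρ' : ℝ}

private theorem wtB_set_meas (hβ : Continuous β) (hX : MeasurableSet X) (y ρ : ℝ) :
    MeasurableSet {q : (ℝ × ℝ) × ℝ | |q.2 - y| ≤ ρ ∧ q.1 + β q.2 ∈ X} := by
  have h1 : MeasurableSet {q : (ℝ × ℝ) × ℝ | |q.2 - y| ≤ ρ} :=
    (isClosed_le (by fun_prop) continuous_const).measurableSet
  have h2 : MeasurableSet {q : (ℝ × ℝ) × ℝ | q.1 + β q.2 ∈ X} :=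
    (continuous_fst.add (hβ.comp continuous_snd)).measurable hX
  exact h1.inter h2

private theorem wtB_setV_meas (hγ : Continuous γ) (hV : MeasurableSet V) (y ρ : ℝ) :
    MeasurableSet {q : (ℝ × ℝ) × ℝ | |q.2 - y| ≤ ρ ∧ (q.1 - γ q.2, q.2) ∈ V} := by
  have h1 : MeasurableSet {q : (ℝ × ℝ) × ℝ | |q.2 - y| ≤ ρ} :=
    (isClosed_le (by fun_prop) continuous_const).measurableSet
  have h2 : MeasurableSet {q : (ℝ × ℝ) × ℝ | (q.1 - γ q.2, q.2) ∈ V} :=
    ((continuous_fst.sub (hγ.comp continuous_snd)).prodMk continuous_snd).measurable hV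
  exact h1.inter h2

private theorem wtB_sub (y ρ : ℝ) (P : ℝ → Prop) :
    volume {s : ℝ | |s - y| ≤ ρ ∧ P s} ≤ ENNReal.ofReal (2 * ρ) := by
  have h : {s : ℝ | |s - y| ≤ ρ ∧ P s} ⊆ Icc (y - ρ) (y + ρ) := by
    rintro s ⟨hs, -⟩
    rw [abs_le] at hs
    exact ⟨by linarith [hs.1], by linarith [hs.2]⟩
  refine (measure_mono h).trans ?_
  rw [Real.volume_Icc]
  apply le_of_eq
  congr 1
  ring

theorem wt_meas (hβ : Continuous β) (hX : MeasurableSet X) : Measurable (wt β X y ρ) :=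
  measurable_measure_prodMk_left (wtB_set_meas hβ hX y ρ)

theorem wtV_meas (hγ : Continuous γ) (hV : MeasurableSet V) : Measurable (wtV γ V y ρ) :=
  measurable_measure_prodMk_left (wtB_setV_meas hγ hV y ρ)

theorem wt_le (z : ℝ × ℝ) : wt β X y ρ z ≤ ENNReal.ofReal (2 * ρ) :=
  wtB_sub y ρ _

theorem wtV_le (z : ℝ × ℝ) : wtV γ V y ρ z ≤ ENNReal.ofReal (2 * ρ) :=
  wtB_sub y ρ _

theorem wt_mono (h : ρ ≤ ρ') (z : ℝ × ℝ) : wt β X y ρ z ≤ wt β X y ρ' z := by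
  apply measure_mono
  rintro s ⟨h1, h2⟩
  exact ⟨h1.trans h, h2⟩

theorem wt_bad (hβ : Continuous β) (hX : MeasurableSet X) (hG : MeasurableSet G) {b : ENNReal}
    (hb : ∀ s, |s - y| ≤ ρ → volume {x | x ∈ X ∧ x - β s ∉ G} ≤ b) :
    ∫⁻ z, indicator Gᶜ (wt β X y ρ) z ≤ ENNReal.ofReal (2 * ρ) * b := by
  classical
  set S : Set ((ℝ × ℝ) × ℝ) :=
    {q | q.1 ∉ G} ∩ {q : (ℝ × ℝ) × ℝ | |q.2 - y| ≤ ρ ∧ q.1 + β q.2 ∈ X} with hS
  have hSm : MeasurableSet S := by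
    refine MeasurableSet.inter ?_ (wtB_set_meas hβ hX y ρ)
    exact measurable_fst hG.compl
  have e1 : ∫⁻ z, indicator Gᶜ (wt β X y ρ) z = ∫⁻ z, volume (Prod.mk z ⁻¹' S) := by
    refine lintegral_congr fun z => ?_
    by_cases hz : z ∈ G
    · rw [indicator_of_notMem (by simpa using hz)]
      have : Prod.mk z ⁻¹' S = ∅ := by
        ext s
        simp [hS, hz]
      rw [this, measure_empty]
    · rw [indicator_of_mem (by simpa using hz)]
      unfold wt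
      congr 1
      ext s
      simp [hS, hz]
  rw [e1, ← Measure.prod_apply hSm, Measure.prod_apply_symm hSm]
  have e2 : ∀ s : ℝ, volume ((fun z : ℝ × ℝ => (z, s)) ⁻¹' S) ≤
      indicator (Icc (y - ρ) (y + ρ)) (fun _ => b) s := by
    intro s
    by_cases hs : |s - y| ≤ ρ
    · have hs' : s ∈ Icc (y - ρ) (y + ρ) := by
        rw [abs_le] at hs
        exact ⟨by linarith [hs.1], by linarith [hs.2]⟩
      rw [indicator_of_mem hs']
      have : (fun z : ℝ × ℝ => (z, s)) ⁻¹' S =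
          (fun z : ℝ × ℝ => z + β s) ⁻¹' {x | x ∈ X ∧ x - β s ∉ G} := by
        ext z
        simp only [hS, mem_preimage, mem_inter_iff, mem_ofPred_eq, add_sub_cancel_right]
        tauto
      rw [this, measure_preimage_add_right]
      exact hb s hs
    · have : (fun z : ℝ × ℝ => (z, s)) ⁻¹' S = ∅ := by
        ext z
        simp only [hS, mem_preimage, mem_inter_iff, mem_ofPred_eq, mem_empty_iff_false,
          iff_false]
        tauto
      rw [this, measure_empty]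
      exact zero_le
  refine (lintegral_mono e2).trans ?_
  rw [lintegral_indicator measurableSet_Icc, setLIntegral_const, Real.volume_Icc, mul_comm]
  apply le_of_eq
  congr 2
  ring

private theorem wtB_fubini (hγ : Continuous γ) (hV : MeasurableSet V) :
    ∫⁻ z, wtV γ V y ρ z =
      ∫⁻ s : ℝ, volume {z : ℝ × ℝ | |s - y| ≤ ρ ∧ (z - γ s, s) ∈ V} := by
  have hSm := wtB_setV_meas hγ hV y ρ
  have e1 : ∫⁻ z, wtV γ V y ρ z =
      ∫⁻ z : ℝ × ℝ, volume (Prod.mk z ⁻¹' {q : (ℝ × ℝ) × ℝ | |q.2 - y| ≤ ρ ∧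
        (q.1 - γ q.2, q.2) ∈ V}) := rfl
  rw [e1, ← Measure.prod_apply hSm, Measure.prod_apply_symm hSm]
  rfl

private theorem wtB_shift (s : ℝ) :
    volume {z : ℝ × ℝ | (z - γ s, s) ∈ V} = volume ((fun p : ℝ × ℝ => (p, s)) ⁻¹' V) := by
  have : {z : ℝ × ℝ | (z - γ s, s) ∈ V} =
      (fun z : ℝ × ℝ => z + (-γ s)) ⁻¹' ((fun p : ℝ × ℝ => (p, s)) ⁻¹' V) := by
    ext z
    simp only [mem_preimage, mem_ofPred_eq, sub_eq_add_neg]
  rw [this, measure_preimage_add_right]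

theorem wtV_int (hγ : Continuous γ) (hV : MeasurableSet V) (h : ∀ q ∈ V, |q.2 - y| ≤ ρ) :
    ∫⁻ z, wtV γ V y ρ z = volume V := by
  have hv : volume V = ∫⁻ s : ℝ, volume ((fun p : ℝ × ℝ => (p, s)) ⁻¹' V) :=
    Measure.prod_apply_symm hV
  rw [wtB_fubini hγ hV, hv]
  refine lintegral_congr fun s => ?_
  rw [← wtB_shift (γ := γ)]
  congr 1
  ext z
  constructor
  · exact fun hz => hz.2
  · exact fun hz => ⟨h _ hz, hz⟩

theorem wtV_int_le (hγ : Continuous γ) (hV : MeasurableSet V) :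
    ∫⁻ z, wtV γ V y ρ z ≤ volume V := by
  have hv : volume V = ∫⁻ s : ℝ, volume ((fun p : ℝ × ℝ => (p, s)) ⁻¹' V) :=
    Measure.prod_apply_symm hV
  rw [wtB_fubini hγ hV, hv]
  refine lintegral_mono fun s => ?_
  rw [← wtB_shift (γ := γ)]
  exact measure_mono fun z hz => hz.2

end Pool.Agent.H99M
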