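import Pool.Agent.H99M.LocL
import Pool.Agent.H99M.WtB

/-!
# One step of the chain: lower bound

Plan. Take `η₀ K₀ c₀` from `loc_lower`, `K = K₀ * (R + 1)`, `c = c₀`, `η` small
(`η ≤ η₀`, `(R + 1) * η ≤ η₀`). Let `Q = {v | z + v ∈ X}` (measurable, same measure as `X` by
measure_preimage_add), `Q ⊆ closedBall (-z) r ⊆ closedBall (α x + β y) ((R + 1) r)` because
`‖z + α x + β y‖ ≤ R r`. So `ofReal c * volume X ≤ volume {u | |u.1 - x| ≤ K r ∧ |u.2 - y| ≤ K r ∧
α u.1 + β u.2 ∈ Q}` and this measure of a subset of the plane is, by Measure.prod_apply, the integral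
over `θ = u.1` of `volume {s | |s - y| ≤ K r ∧ z + α θ + β s ∈ X} = wt β X y (K r) (z + α θ)` over
the interval.
-/

open Set MeasureTheory Filter Topology Metric
open Pool.Agent.Helper2.LM

namespace Pool.Agent.H99M

theorem step {α β : ℝ → ℝ × ℝ} (hα : ContDiff ℝ 1 α) (hβ : ContDiff ℝ 1 β) {x₀ y₀ : ℝ}
    (h : det2 (deriv α x₀) (deriv β y₀) ≠ 0) {R : ℝ} (hR : 0 ≤ R) :
    ∃ η K c : ℝ, 0 < η ∧ 0 < K ∧ 0 < c ∧ ∀ (x y r : ℝ) (X : Set (ℝ × ℝ)) (z : ℝ × ℝ),
      |x - x₀| ≤ η → |y - y₀| ≤ η → 0 < r → r ≤ η → MeasurableSet X → X ⊆ closedBall 0 r →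
      ‖z + α x + β y‖ ≤ R * r →
        ENNReal.ofReal c * volume X ≤ ∫⁻ θ, wt β X y (K * r) (z + α θ) ∂(bx x (K * r)) := by
  obtain ⟨η₀, K₀, c₀, hη₀, hK₀, hc₀, H⟩ := loc_lower hα hβ h
  have hR1 : (0 : ℝ) < R + 1 := by linarith
  refine ⟨min η₀ (η₀ / (R + 1)), K₀ * (R + 1), c₀, lt_min hη₀ (div_pos hη₀ hR1),
    mul_pos hK₀ hR1, hc₀, ?_⟩
  intro x y r X z hx hy hr hrη hX hXr hz
  have hQm : MeasurableSet {v : ℝ × ℝ | z + v ∈ X} := (measurable_const_add z) hX
  have hQv : volume {v : ℝ × ℝ | z + v ∈ X} = volume X := measure_preimage_add volume z X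
  have hQs : {v : ℝ × ℝ | z + v ∈ X} ⊆ closedBall (α x + β y) ((R + 1) * r) := by
    intro v hv
    have h1 : ‖z + v‖ ≤ r := by simpa using hXr hv
    rw [mem_closedBall, dist_eq_norm]
    have h2 : v - (α x + β y) = (z + v) - (z + α x + β y) := by abel
    rw [h2]
    calc ‖(z + v) - (z + α x + β y)‖ ≤ ‖z + v‖ + ‖z + α x + β y‖ := norm_sub_le _ _
      _ ≤ r + R * r := add_le_add h1 hz
      _ = (R + 1) * r := by ring
  have hr' : (R + 1) * r ≤ η₀ := by
    have h3 : r ≤ η₀ / (R + 1) := hrη.trans (min_le_right _ _)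
    rw [le_div_iff₀ hR1] at h3
    linarith
  have key := H x y ((R + 1) * r) (hx.trans (min_le_left _ _)) (hy.trans (min_le_left _ _))
    (mul_pos hR1 hr) hr' _ hQm hQs
  rw [hQv] at key
  refine key.trans (le_of_eq ?_)
  have hKr : K₀ * ((R + 1) * r) = K₀ * (R + 1) * r := by ring
  rw [hKr]
  have hSm : MeasurableSet {u : ℝ × ℝ | |u.1 - x| ≤ K₀ * (R + 1) * r ∧
      |u.2 - y| ≤ K₀ * (R + 1) * r ∧ α u.1 + β u.2 ∈ {v : ℝ × ℝ | z + v ∈ X}} := by
    have hm1 : Measurable fun u : ℝ × ℝ => |u.1 - x| := by fun_prop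
    have hm2 : Measurable fun u : ℝ × ℝ => |u.2 - y| := by fun_prop
    refine MeasurableSet.inter ?_ (MeasurableSet.inter ?_ ?_)
    · exact measurableSet_le hm1 measurable_const
    · exact measurableSet_le hm2 measurable_const
    · have hc : Continuous fun u : ℝ × ℝ => α u.1 + β u.2 :=
        (hα.continuous.comp continuous_fst).add (hβ.continuous.comp continuous_snd)
      exact hc.measurable hQm
  rw [Measure.volume_eq_prod, Measure.prod_apply hSm]
  unfold bx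
  rw [← lintegral_indicator measurableSet_Icc]
  refine lintegral_congr fun a => ?_
  by_cases ha : a ∈ Icc (x - K₀ * (R + 1) * r) (x + K₀ * (R + 1) * r)
  · rw [indicator_of_mem ha]
    unfold wt
    have ha' : |a - x| ≤ K₀ * (R + 1) * r := by
      rw [abs_le]
      constructor
      · linarith [ha.1]
      · linarith [ha.2]
    refine congrArg volume (Set.ext fun s => ?_)
    constructor
    · rintro ⟨_, h2, h3⟩
      exact ⟨h2, by rw [add_assoc]; exact h3⟩
    · rintro ⟨h2, h3⟩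
      exact ⟨ha', h2, by rw [add_assoc] at h3; exact h3⟩
  · rw [indicator_of_notMem ha]
    have hempty : Prod.mk a ⁻¹' {u : ℝ × ℝ | |u.1 - x| ≤ K₀ * (R + 1) * r ∧
        |u.2 - y| ≤ K₀ * (R + 1) * r ∧ α u.1 + β u.2 ∈ {v : ℝ × ℝ | z + v ∈ X}} = ∅ := by
      refine eq_empty_iff_forall_notMem.2 fun s hs => ha ?_
      have h1 := (abs_le.1 hs.1)
      exact ⟨by linarith [h1.1], by linarith [h1.2]⟩
    rw [hempty, measure_empty]

end Pool.Agent.H99M
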