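import Pool.Agent.H99M.Defs

/-!
# Windows: measurability, finiteness, continuity, covering

Plan. `win_meas`: the conditions are measurable in `q ∈ (ℝ × ℝ) × ℝ`. `strip`: for a measurable
set `X` the set `{q | q.1 ∈ X ∧ u ≤ q.2 + ℓ q.1 ≤ v}` has measure `volume X * ofReal (v - u)`
(Measure.prod_apply, each section is an interval `Icc (u - ℓ p) (v - ℓ p)`). `win_lt_top`: the window
is inside a strip. `win_cont`: for `t ≤ t'` the window at `t'` is inside the union of the window at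
`t` and of the strip over `[t, t']`, and the window at `t` is inside the union of the window at `t'`
and of the strip over `[t - r, t' - r]`, so `|volume (Win t) - volume (Win t')| ≤ volume X * |t - t'|`
as real numbers: the function is Lipschitz. `win_cover`: the set
`{q | q.1 ∈ X ∧ q.1 + γ q.2 ∈ Q ∧ t - N r ≤ q.2 + ℓ q.1 ≤ t + ε r}` is covered by the windows at
`t - k r`, `k < N`, and the strip over `[t, t + ε r]`; for the point `q` take the integer part of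
`(t - (q.2 + ℓ q.1)) / r` (induction on `N` is perhaps easier).
-/

open Set MeasureTheory Filter Topology Metric
open Pool.Agent.Helper2.LM

namespace Pool.Agent.H99M

variable {γ : ℝ → ℝ × ℝ} {ℓ : (ℝ × ℝ) →L[ℝ] ℝ} {X Q : Set (ℝ × ℝ)} {r t : ℝ}

theorem win_meas (hγ : Continuous γ) (mX : MeasurableSet X) (mQ : MeasurableSet Q) :
    MeasurableSet (Win γ ℓ X Q r t) := by
  have h1 : MeasurableSet {q : (ℝ × ℝ) × ℝ | q.1 ∈ X} := measurable_fst mX
  have hs : Measurable fun q : (ℝ × ℝ) × ℝ => q.2 + ℓ q.1 :=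
    measurable_snd.add (ℓ.continuous.measurable.comp measurable_fst)
  have h2 : MeasurableSet {q : (ℝ × ℝ) × ℝ | t - r ≤ q.2 + ℓ q.1} :=
    measurableSet_le measurable_const hs
  have h3 : MeasurableSet {q : (ℝ × ℝ) × ℝ | q.2 + ℓ q.1 ≤ t} :=
    measurableSet_le hs measurable_const
  have hg : Measurable fun q : (ℝ × ℝ) × ℝ => q.1 + γ q.2 :=
    measurable_fst.add (hγ.measurable.comp measurable_snd)
  have h4 : MeasurableSet {q : (ℝ × ℝ) × ℝ | q.1 + γ q.2 ∈ Q} := hg mQ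
  exact h1.inter (h2.inter (h3.inter h4))


theorem strip (mX : MeasurableSet X) (u v : ℝ) :
    volume {q : (ℝ × ℝ) × ℝ | q.1 ∈ X ∧ u ≤ q.2 + ℓ q.1 ∧ q.2 + ℓ q.1 ≤ v} =
      volume X * ENNReal.ofReal (v - u) := by
  have h1 : MeasurableSet {q : (ℝ × ℝ) × ℝ | q.1 ∈ X} := measurable_fst mX
  have hs : Measurable fun q : (ℝ × ℝ) × ℝ => q.2 + ℓ q.1 :=
    measurable_snd.add (ℓ.continuous.measurable.comp measurable_fst)
  have h2 : MeasurableSet {q : (ℝ × ℝ) × ℝ | u ≤ q.2 + ℓ q.1} :=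
    measurableSet_le measurable_const hs
  have h3 : MeasurableSet {q : (ℝ × ℝ) × ℝ | q.2 + ℓ q.1 ≤ v} :=
    measurableSet_le hs measurable_const
  have hm : MeasurableSet {q : (ℝ × ℝ) × ℝ | q.1 ∈ X ∧ u ≤ q.2 + ℓ q.1 ∧ q.2 + ℓ q.1 ≤ v} :=
    h1.inter (h2.inter h3)
  rw [Measure.volume_eq_prod, Measure.prod_apply hm]
  have h4 : ∀ x : ℝ × ℝ, volume (Prod.mk x ⁻¹' {q : (ℝ × ℝ) × ℝ | q.1 ∈ X ∧
      u ≤ q.2 + ℓ q.1 ∧ q.2 + ℓ q.1 ≤ v}) =
      X.indicator (fun _ => ENNReal.ofReal (v - u)) x := by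
    intro x
    by_cases hx : x ∈ X
    · rw [indicator_of_mem hx]
      have h5 : Prod.mk x ⁻¹' {q : (ℝ × ℝ) × ℝ | q.1 ∈ X ∧
          u ≤ q.2 + ℓ q.1 ∧ q.2 + ℓ q.1 ≤ v} = Icc (u - ℓ x) (v - ℓ x) := by
        ext s
        simp only [mem_preimage, mem_setOf_eq, mem_Icc]
        constructor
        · rintro ⟨-, h6, h7⟩
          constructor <;> linarith
        · rintro ⟨h6, h7⟩
          refine ⟨hx, ?_, ?_⟩ <;> linarith
      rw [h5, Real.volume_Icc]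
      congr 1
      ring
    · rw [indicator_of_notMem hx]
      have h5 : Prod.mk x ⁻¹' {q : (ℝ × ℝ) × ℝ | q.1 ∈ X ∧
          u ≤ q.2 + ℓ q.1 ∧ q.2 + ℓ q.1 ≤ v} = ∅ := by
        ext s
        simp only [mem_preimage, mem_setOf_eq, mem_empty_iff_false, iff_false]
        exact fun h => hx h.1
      rw [h5, measure_empty]
  rw [lintegral_congr h4, lintegral_indicator_const mX, mul_comm]


theorem win_lt_top (mX : MeasurableSet X) (hX : volume X < ⊤) :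
    volume (Win γ ℓ X Q r t) < ⊤ := by
  have h1 : Win γ ℓ X Q r t ⊆
      {q : (ℝ × ℝ) × ℝ | q.1 ∈ X ∧ t - r ≤ q.2 + ℓ q.1 ∧ q.2 + ℓ q.1 ≤ t} :=
    fun q hq => ⟨hq.1, hq.2.1, hq.2.2.1⟩
  refine lt_of_le_of_lt (measure_mono h1) ?_
  rw [strip mX (t - r) t]
  exact ENNReal.mul_lt_top hX ENNReal.ofReal_lt_top


theorem win_cont (hγ : Continuous γ) (mX : MeasurableSet X) (mQ : MeasurableSet Q)
    (hX : volume X < ⊤) (hr : 0 < r) :
    Continuous fun t => (volume (Win γ ℓ X Q r t)).toReal := by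
  set C : ℝ := (volume X).toReal with hC
  have hC0 : 0 ≤ C := ENNReal.toReal_nonneg
  have hfin : ∀ t, volume (Win γ ℓ X Q r t) ≠ ⊤ := fun t => (win_lt_top mX hX).ne
  have hup : ∀ a b : ℝ, a ≤ b → (volume (Win γ ℓ X Q r b)).toReal ≤
      (volume (Win γ ℓ X Q r a)).toReal + C * (b - a) := by
    intro a b hab
    have h1 : Win γ ℓ X Q r b ⊆ Win γ ℓ X Q r a ∪
        {q : (ℝ × ℝ) × ℝ | q.1 ∈ X ∧ a ≤ q.2 + ℓ q.1 ∧ q.2 + ℓ q.1 ≤ b} := by
      rintro q ⟨q1, q2, q3, q4⟩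
      rcases le_total (q.2 + ℓ q.1) a with h | h
      · exact Or.inl ⟨q1, by linarith, h, q4⟩
      · exact Or.inr ⟨q1, h, q3⟩
    have h2 := (measure_mono (μ := volume) h1).trans (measure_union_le _ _)
    rw [strip mX a b] at h2
    have h3 : volume (Win γ ℓ X Q r a) + volume X * ENNReal.ofReal (b - a) ≠ ⊤ :=
      ENNReal.add_ne_top.2 ⟨hfin a, (ENNReal.mul_lt_top hX ENNReal.ofReal_lt_top).ne⟩
    have h4 := ENNReal.toReal_mono h3 h2
    rw [ENNReal.toReal_add (hfin a) (ENNReal.mul_lt_top hX ENNReal.ofReal_lt_top).ne,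
      ENNReal.toReal_mul, ENNReal.toReal_ofReal (by linarith)] at h4
    exact h4
  have hdn : ∀ a b : ℝ, a ≤ b → (volume (Win γ ℓ X Q r a)).toReal ≤
      (volume (Win γ ℓ X Q r b)).toReal + C * (b - a) := by
    intro a b hab
    have h1 : Win γ ℓ X Q r a ⊆ Win γ ℓ X Q r b ∪
        {q : (ℝ × ℝ) × ℝ | q.1 ∈ X ∧ a - r ≤ q.2 + ℓ q.1 ∧ q.2 + ℓ q.1 ≤ b - r} := by
      rintro q ⟨q1, q2, q3, q4⟩
      rcases le_total (b - r) (q.2 + ℓ q.1) with h | h
      · exact Or.inl ⟨q1, h, by linarith, q4⟩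
      · exact Or.inr ⟨q1, q2, h⟩
    have h2 := (measure_mono (μ := volume) h1).trans (measure_union_le _ _)
    rw [strip mX (a - r) (b - r)] at h2
    have h3 : volume (Win γ ℓ X Q r b) + volume X * ENNReal.ofReal (b - r - (a - r)) ≠ ⊤ :=
      ENNReal.add_ne_top.2 ⟨hfin b, (ENNReal.mul_lt_top hX ENNReal.ofReal_lt_top).ne⟩
    have h4 := ENNReal.toReal_mono h3 h2
    rw [ENNReal.toReal_add (hfin b) (ENNReal.mul_lt_top hX ENNReal.ofReal_lt_top).ne,
      ENNReal.toReal_mul, ENNReal.toReal_ofReal (by linarith)] at h4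
    have h5 : b - r - (a - r) = b - a := by ring
    rw [h5] at h4
    exact h4
  refine (LipschitzWith.of_dist_le_mul (K := ⟨C, hC0⟩) fun a b => ?_).continuous
  rw [Real.dist_eq, Real.dist_eq]
  change |_ - _| ≤ C * |a - b|
  rcases le_total a b with h | h
  · have h1 := hup a b h
    have h2 := hdn a b h
    rw [abs_sub_comm a b, abs_of_nonneg (sub_nonneg.2 h), abs_le]
    constructor <;> linarith
  · have h1 := hup b a h
    have h2 := hdn b a h
    rw [abs_of_nonneg (sub_nonneg.2 h), abs_le]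
    constructor <;> linarith


theorem win_cover (mX : MeasurableSet X) (hr : 0 < r) {ε : ℝ} (hε : 0 ≤ ε) (N : ℕ)
    {b : ENNReal} (hb : ∀ k : ℕ, k < N → volume (Win γ ℓ X Q r (t - k * r)) ≤ b) :
    volume {q : (ℝ × ℝ) × ℝ | q.1 ∈ X ∧ q.1 + γ q.2 ∈ Q ∧ t - N * r ≤ q.2 + ℓ q.1 ∧
      q.2 + ℓ q.1 ≤ t + ε * r} ≤ N * b + volume X * ENNReal.ofReal (ε * r) := by
  induction N with
  | zero =>
    have h1 : {q : (ℝ × ℝ) × ℝ | q.1 ∈ X ∧ q.1 + γ q.2 ∈ Q ∧ t - ((0 : ℕ) : ℝ) * r ≤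
        q.2 + ℓ q.1 ∧ q.2 + ℓ q.1 ≤ t + ε * r} ⊆
        {q : (ℝ × ℝ) × ℝ | q.1 ∈ X ∧ t ≤ q.2 + ℓ q.1 ∧ q.2 + ℓ q.1 ≤ t + ε * r} := by
      rintro q ⟨q1, -, q3, q4⟩
      rw [Nat.cast_zero, zero_mul, sub_zero] at q3
      exact ⟨q1, q3, q4⟩
    refine (measure_mono h1).trans ?_
    rw [strip mX t (t + ε * r), Nat.cast_zero, zero_mul, zero_add]
    apply le_of_eq
    congr 2
    ring
  | succ N ih =>
    have ih' := ih fun k hk => hb k (Nat.lt_succ_of_lt hk)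
    have h1 : {q : (ℝ × ℝ) × ℝ | q.1 ∈ X ∧ q.1 + γ q.2 ∈ Q ∧ t - ((N + 1 : ℕ) : ℝ) * r ≤
        q.2 + ℓ q.1 ∧ q.2 + ℓ q.1 ≤ t + ε * r} ⊆
        {q : (ℝ × ℝ) × ℝ | q.1 ∈ X ∧ q.1 + γ q.2 ∈ Q ∧ t - N * r ≤ q.2 + ℓ q.1 ∧
          q.2 + ℓ q.1 ≤ t + ε * r} ∪ Win γ ℓ X Q r (t - N * r) := by
      rintro q ⟨q1, q2, q3, q4⟩
      push_cast at q3
      rcases le_total (t - N * r) (q.2 + ℓ q.1) with h | h
      · exact Or.inl ⟨q1, q2, h, q4⟩
      · exact Or.inr ⟨q1, by linarith, h, q2⟩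
    refine (measure_mono h1).trans ((measure_union_le _ _).trans ?_)
    refine (add_le_add ih' (hb N (Nat.lt_succ_self N))).trans ?_
    push_cast
    rw [add_mul, one_mul]
    apply le_of_eq
    ring


end Pool.Agent.H99M
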